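import Mathlib
import Pool.Agent.Lib.MP_ca0fc2_an.Mg.G122
import Pool.Agent.Lib.MP_ca0fc2_an.Mg.G049
import Pool.Agent.Lib.MP_ca0fc2_an.Mg.G045

set_option autoImplicit false
set_option linter.unusedSectionVars false

open Metric Set MeasureTheory Filter Topology
open scoped InnerProductSpace ENNReal ContDiff

namespace Pool.Agent.MPca0fc2.TE

open Pool.Agent.MPca0fc2.PT
open Pool.Agent.MPca0fc2.QT
open Pool.Agent.MPca0fc2.TS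

variable {E : Type*} [NormedAddCommGroup E] [InnerProductSpace ℂ E]

private theorem G1_perp {P : E →L[ℂ] E} (h : Prj P) (z w : E) : ⟪P z, w - P w⟫_ℂ = 0 := by
  have h1 := h.sa (P z) w
  rw [h.idem] at h1
  rw [inner_sub_right, h1, sub_self]

private theorem G1_perp' {P : E →L[ℂ] E} (h : Prj P) (z w : E) : ⟪w - P w, P z⟫_ℂ = 0 := by
  rw [← inner_conj_symm, G1_perp h, map_zero]

private theorem G1_normsq {P : E →L[ℂ] E} (h : Prj P) (z : E) (c : ℂ) :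
    ‖P z + c • (z - P z)‖ ^ 2 = ‖P z‖ ^ 2 + ‖c‖ ^ 2 * ‖z - P z‖ ^ 2 := by
  rw [norm_add_sq (𝕜 := ℂ), inner_smul_right, G1_perp h, mul_zero, map_zero, norm_smul]
  ring

/-- Pythagoras: `⟪P z, z - P z⟫ = ⟪P z, z⟫ - ⟪P z, P z⟫ = 0`. -/
theorem pyth {P : E →L[ℂ] E} (h : Prj P) (z : E) : ‖z‖ ^ 2 = ‖P z‖ ^ 2 + ‖z - P z‖ ^ 2 := by
  have h1 := G1_normsq h z 1
  rw [one_smul, add_sub_cancel, norm_one, one_pow, one_mul] at h1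
  exact h1

theorem pt_one (P : E →L[ℂ] E) (z : E) : pt P 1 z = z := by
  unfold pt
  rw [Complex.ofReal_one, one_smul, add_sub_cancel]

theorem pt_zero (P : E →L[ℂ] E) (z : E) : pt P 0 z = P z := by
  unfold pt
  rw [Complex.ofReal_zero, zero_smul, add_zero]

/-- `pt P t (P z) = P z` -/
theorem pt_P {P : E →L[ℂ] E} (h : Prj P) (t : ℝ) (z : E) : pt P t (P z) = P z := by
  unfold pt
  rw [h.idem, sub_self, smul_zero, add_zero]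

theorem pt_smul (P : E →L[ℂ] E) (t : ℝ) (c : ℂ) (z : E) : pt P t (c • z) = c • pt P t z := by
  unfold pt
  rw [map_smul, ← smul_sub, smul_comm (t : ℂ) c, ← smul_add]

/-- `1 - ‖pt P t z‖² = Dp P t z` -/
theorem Dp_eq {P : E →L[ℂ] E} (h : Prj P) (t : ℝ) (z : E) : 1 - ‖pt P t z‖ ^ 2 = Dp P t z := by
  unfold pt Dp
  rw [G1_normsq h, Complex.norm_real, Real.norm_eq_abs, sq_abs]
  ring

/-- For `0 ≤ s ≤ t ≤ 1`, `‖z‖ < 1`: `0 < 1 - ‖z‖² = Dp 1 ≤ Dp t ≤ Dp s`. -/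
theorem Dp_anti {P : E →L[ℂ] E} (h : Prj P) {z : E} (hz : ‖z‖ < 1) {s t : ℝ} (hs : 0 ≤ s)
    (hst : s ≤ t) (ht : t ≤ 1) : 0 < Dp P 1 z ∧ Dp P 1 z = 1 - ‖z‖ ^ 2 ∧ Dp P 1 z ≤ Dp P t z ∧
      Dp P t z ≤ Dp P s z := by
  have h1 := pyth h z
  have h2 : Dp P 1 z = 1 - ‖z‖ ^ 2 := by
    unfold Dp
    rw [h1]
    ring
  have h3 : 0 < 1 - ‖z‖ ^ 2 := by nlinarith [norm_nonneg z]
  have hu : 0 ≤ ‖z - P z‖ ^ 2 := sq_nonneg _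
  have ht0 : 0 ≤ t := hs.trans hst
  have ht2 : t ^ 2 ≤ 1 := by nlinarith
  have hs2 : s ^ 2 ≤ t ^ 2 := by nlinarith
  refine ⟨by rw [h2]; exact h3, h2, ?_, ?_⟩
  · unfold Dp
    nlinarith [mul_le_mul_of_nonneg_right ht2 hu]
  · unfold Dp
    nlinarith [mul_le_mul_of_nonneg_right hs2 hu]

/-- `‖z - P z‖² ≤ 1 - ‖P z‖²`, `rr` is in `[0, 1)`, `‖z - P z‖ = rr √(1 - ‖P z‖²)` and `Dp P t z = (1 - ‖P z‖²)(1 - t² rr²)`. -/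
theorem rr_facts {P : E →L[ℂ] E} (h : Prj P) {z : E} (hz : ‖z‖ < 1) (t : ℝ) :
    0 ≤ rr P z ∧ rr P z < 1 ∧ 0 < 1 - ‖P z‖ ^ 2 ∧
      ‖z - P z‖ = rr P z * Real.sqrt (1 - ‖P z‖ ^ 2) ∧
      Dp P t z = (1 - ‖P z‖ ^ 2) * (1 - t ^ 2 * rr P z ^ 2) := by
  have h1 := pyth h z
  have h3 : 0 < 1 - ‖z‖ ^ 2 := by nlinarith [norm_nonneg z]
  have hb : 0 < 1 - ‖P z‖ ^ 2 := by nlinarith [sq_nonneg ‖z - P z‖]
  have hsb : 0 < Real.sqrt (1 - ‖P z‖ ^ 2) := Real.sqrt_pos.mpr hb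
  have hsq : Real.sqrt (1 - ‖P z‖ ^ 2) ^ 2 = 1 - ‖P z‖ ^ 2 := Real.sq_sqrt hb.le
  have hlt : ‖z - P z‖ < Real.sqrt (1 - ‖P z‖ ^ 2) := by
    apply Real.lt_sqrt_of_sq_lt
    nlinarith
  have hrr : ‖z - P z‖ = rr P z * Real.sqrt (1 - ‖P z‖ ^ 2) := by
    unfold rr
    rw [div_mul_cancel₀ _ hsb.ne']
  refine ⟨div_nonneg (norm_nonneg _) hsb.le, ?_, hb, hrr, ?_⟩
  · unfold rr
    rwa [div_lt_one hsb]
  · unfold Dp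
    have h4 : ‖z - P z‖ ^ 2 = rr P z ^ 2 * (1 - ‖P z‖ ^ 2) := by
      rw [← hsq, ← mul_pow, ← hrr]
    rw [h4]
    ring

/-- The linear map `pt P t` contracts the anisotropic lengths by the square root of the ratio of the depths.
Proof. `D₁ = 1 - ‖z‖²`, `D = Dp P t z ≥ D₁`. `⟪pt t z, pt t ξ⟫ = ⟪P z, ξ⟫ + t² ⟪z - P z, ξ⟫ = ⟪z, ξ⟫ - (1 - t²) ⟪z - P z, ξ⟫`, `‖pt t ξ‖ ≤ ‖ξ‖` (Pythagoras).
`|⟪z - P z, ξ⟫| ≤ ‖z - P z‖ ‖ξ‖ ≤ √(1 - ‖P z‖²) ‖ξ‖` and `D = 1 - ‖P z‖² - t²‖z - P z‖² ≥ (1 - t²)(1 - ‖P z‖²)`, so `(1 - t²) √(1 - ‖P z‖²) ≤ √(1 - t²) √D ≤ √D`. Hence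
`gau D (pt t z) (pt t ξ) ≤ |⟪z, ξ⟫|/D + 2 ‖ξ‖/√D`; `1/D ≤ √(D₁/D) / D₁` and `1/√D = √(D₁/D)/√D₁`. -/
theorem gau_pt {P : E →L[ℂ] E} (h : Prj P) {z : E} (hz : ‖z‖ < 1) {t : ℝ} (h0 : 0 ≤ t)
    (h1 : t ≤ 1) (ξ : E) :
    gau (Dp P t z) (pt P t z) (pt P t ξ) ≤
      2 * Real.sqrt (Dp P 1 z / Dp P t z) * gau (1 - ‖z‖ ^ 2) z ξ := by
  obtain ⟨hD1, hD1e, hD1t, -⟩ := Dp_anti h hz h0 le_rfl h1
  obtain ⟨-, hr1, hb, -, -⟩ := rr_facts h hz t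
  have hpy := pyth h z
  have hpx := pyth h ξ
  have ht2 : 0 ≤ 1 - t ^ 2 := by nlinarith
  have ht2' : 1 - t ^ 2 ≤ 1 := by nlinarith [sq_nonneg t]
  have hin : ⟪pt P t z, pt P t ξ⟫_ℂ = ⟪z, ξ⟫_ℂ - ((1 - t ^ 2 : ℝ) : ℂ) * ⟪z - P z, ξ⟫_ℂ := by
    have e1 : ⟪P z, P ξ⟫_ℂ = ⟪P z, ξ⟫_ℂ := by
      have h5 := h.sa (P z) ξ
      rw [h.idem] at h5
      exact h5.symm
    have e2 : ⟪z - P z, ξ - P ξ⟫_ℂ = ⟪z - P z, ξ⟫_ℂ := by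
      rw [inner_sub_right, G1_perp' h, sub_zero]
    have e3 : ⟪z, ξ⟫_ℂ = ⟪P z, ξ⟫_ℂ + ⟪z - P z, ξ⟫_ℂ := by
      rw [← inner_add_left, add_sub_cancel]
    unfold pt
    rw [inner_add_left, inner_add_right, inner_add_right, inner_smul_right, inner_smul_left,
      inner_smul_left, inner_smul_right, G1_perp h, G1_perp' h, e1, e2, e3, Complex.conj_ofReal]
    push_cast
    ring
  have hDlow : (1 - t ^ 2) * (1 - ‖P z‖ ^ 2) ≤ Dp P t z := by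
    have hu : ‖z - P z‖ ^ 2 ≤ 1 - ‖P z‖ ^ 2 := by nlinarith [norm_nonneg z]
    unfold Dp
    nlinarith [mul_le_mul_of_nonneg_left hu (sq_nonneg t)]
  obtain ⟨D, hD⟩ : ∃ D : ℝ, D = Dp P t z := ⟨_, rfl⟩
  obtain ⟨D1, hD1'⟩ : ∃ D1 : ℝ, D1 = 1 - ‖z‖ ^ 2 := ⟨_, rfl⟩
  rw [hD1e, ← hD1'] at hD1 hD1t
  rw [hD1e, ← hD1', ← hD]
  rw [← hD] at hD1t hDlow
  have hD0 : 0 < D := lt_of_lt_of_le hD1 hD1t
  have hsD : 0 < Real.sqrt D := Real.sqrt_pos.mpr hD0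
  have hsD1 : 0 < Real.sqrt D1 := Real.sqrt_pos.mpr hD1
  have hsq : Real.sqrt D ^ 2 = D := Real.sq_sqrt hD0.le
  have hsq1 : Real.sqrt D1 ^ 2 = D1 := Real.sq_sqrt hD1.le
  have hle1 : Real.sqrt D1 ≤ Real.sqrt D := Real.sqrt_le_sqrt hD1t
  have hudd : (1 - t ^ 2) * ‖z - P z‖ ≤ Real.sqrt D := by
    apply Real.le_sqrt_of_sq_le
    have hu : ‖z - P z‖ ^ 2 ≤ 1 - ‖P z‖ ^ 2 := by nlinarith [norm_nonneg z]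
    calc ((1 - t ^ 2) * ‖z - P z‖) ^ 2 = (1 - t ^ 2) * ((1 - t ^ 2) * ‖z - P z‖ ^ 2) := by ring
      _ ≤ 1 * ((1 - t ^ 2) * (1 - ‖P z‖ ^ 2)) := by
        apply mul_le_mul ht2' _ (mul_nonneg ht2 (sq_nonneg _)) zero_le_one
        exact mul_le_mul_of_nonneg_left hu ht2
      _ ≤ D := by rw [one_mul]; exact hDlow
  have hξ : ‖pt P t ξ‖ ≤ ‖ξ‖ := by
    apply le_of_sq_le_sq _ (norm_nonneg _)
    have e5 := Dp_eq h t ξ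
    unfold Dp at e5
    nlinarith [mul_le_mul_of_nonneg_right ht2' (sq_nonneg ‖ξ - P ξ‖), mul_nonneg ht2 (sq_nonneg ‖ξ - P ξ‖)]
  have hnin : ‖⟪pt P t z, pt P t ξ⟫_ℂ‖ ≤ ‖⟪z, ξ⟫_ℂ‖ + Real.sqrt D * ‖ξ‖ := by
    rw [hin]
    calc ‖⟪z, ξ⟫_ℂ - ((1 - t ^ 2 : ℝ) : ℂ) * ⟪z - P z, ξ⟫_ℂ‖
        ≤ ‖⟪z, ξ⟫_ℂ‖ + ‖((1 - t ^ 2 : ℝ) : ℂ) * ⟪z - P z, ξ⟫_ℂ‖ := norm_sub_le _ _
      _ = ‖⟪z, ξ⟫_ℂ‖ + (1 - t ^ 2) * ‖⟪z - P z, ξ⟫_ℂ‖ := by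
        rw [norm_mul, Complex.norm_real, Real.norm_eq_abs, abs_of_nonneg ht2]
      _ ≤ ‖⟪z, ξ⟫_ℂ‖ + (1 - t ^ 2) * (‖z - P z‖ * ‖ξ‖) := by
        have := mul_le_mul_of_nonneg_left (norm_inner_le_norm (𝕜 := ℂ) (z - P z) ξ) ht2
        linarith
      _ ≤ ‖⟪z, ξ⟫_ℂ‖ + Real.sqrt D * ‖ξ‖ := by
        have := mul_le_mul_of_nonneg_right hudd (norm_nonneg ξ)
        linarith
  have hquot : Real.sqrt (D1 / D) = Real.sqrt D1 / Real.sqrt D := Real.sqrt_div hD1.le D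
  have hn0 := norm_nonneg (⟪z, ξ⟫_ℂ)
  have hξ0 := norm_nonneg ξ
  show ‖⟪pt P t z, pt P t ξ⟫_ℂ‖ / D + ‖pt P t ξ‖ / Real.sqrt D ≤
    2 * Real.sqrt (D1 / D) * (‖⟪z, ξ⟫_ℂ‖ / D1 + ‖ξ‖ / Real.sqrt D1)
  rw [hquot]
  have e6 : ‖⟪pt P t z, pt P t ξ⟫_ℂ‖ / D ≤ ‖⟪z, ξ⟫_ℂ‖ / D + ‖ξ‖ / Real.sqrt D := by
    have e7 : (‖⟪z, ξ⟫_ℂ‖ + Real.sqrt D * ‖ξ‖) / D = ‖⟪z, ξ⟫_ℂ‖ / D + ‖ξ‖ / Real.sqrt D := by
      rw [add_div]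
      congr 1
      rw [div_eq_div_iff hD0.ne' hsD.ne']
      nlinarith
    rw [← e7]
    exact div_le_div_of_nonneg_right hnin hD0.le
  have e8 : ‖pt P t ξ‖ / Real.sqrt D ≤ ‖ξ‖ / Real.sqrt D := div_le_div_of_nonneg_right hξ hsD.le
  have e9 : ‖⟪z, ξ⟫_ℂ‖ / D ≤ Real.sqrt D1 / Real.sqrt D * (‖⟪z, ξ⟫_ℂ‖ / D1) := by
    have e10 : 1 / D ≤ Real.sqrt D1 / Real.sqrt D * (1 / D1) := by
      rw [div_mul_div_comm, mul_one, div_le_div_iff₀ hD0 (by positivity)]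
      nlinarith [mul_le_mul_of_nonneg_left hle1 (mul_nonneg hsD1.le hsD.le)]
    calc ‖⟪z, ξ⟫_ℂ‖ / D = ‖⟪z, ξ⟫_ℂ‖ * (1 / D) := by ring
      _ ≤ ‖⟪z, ξ⟫_ℂ‖ * (Real.sqrt D1 / Real.sqrt D * (1 / D1)) := mul_le_mul_of_nonneg_left e10 hn0
      _ = _ := by ring
  have e11 : ‖ξ‖ / Real.sqrt D = Real.sqrt D1 / Real.sqrt D * (‖ξ‖ / Real.sqrt D1) := by
    field_simp
  have e12 : 0 ≤ Real.sqrt D1 / Real.sqrt D * (‖⟪z, ξ⟫_ℂ‖ / D1) := by positivity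
  calc ‖⟪pt P t z, pt P t ξ⟫_ℂ‖ / D + ‖pt P t ξ‖ / Real.sqrt D
      ≤ ‖⟪z, ξ⟫_ℂ‖ / D + 2 * (‖ξ‖ / Real.sqrt D) := by linarith
    _ ≤ 2 * (Real.sqrt D1 / Real.sqrt D * (‖⟪z, ξ⟫_ℂ‖ / D1)) +
        2 * (Real.sqrt D1 / Real.sqrt D * (‖ξ‖ / Real.sqrt D1)) := by
      rw [← e11]
      linarith
    _ = _ := by ring

/-- The length of the velocity of the path. `⟪pt t z, z - P z⟫ = t ‖z - P z‖²`; with `r = rr P z`, `b = 1 - ‖P z‖²`, `‖z - P z‖ = r √b`, `D = b (1 - t² r²)`: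
`gau = t r² b / D + r √b / √D ≤ r/(1 - t²r²) + r/(1 - t²r²)`. -/
theorem gau_vel {P : E →L[ℂ] E} (h : Prj P) {z : E} (hz : ‖z‖ < 1) {t : ℝ} (h0 : 0 ≤ t)
    (h1 : t ≤ 1) : gau (Dp P t z) (pt P t z) (z - P z) ≤ 2 * (rr P z / (1 - t ^ 2 * rr P z ^ 2)) := by
  obtain ⟨hr0, hr1, hb, hu, hD⟩ := rr_facts h hz t
  obtain ⟨r, hr⟩ : ∃ r : ℝ, r = rr P z := ⟨_, rfl⟩
  obtain ⟨b, hbd⟩ : ∃ b : ℝ, b = 1 - ‖P z‖ ^ 2 := ⟨_, rfl⟩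
  rw [← hr] at hr0 hr1 hu hD
  rw [← hbd] at hb hu hD
  rw [← hr]
  have hsb : 0 < Real.sqrt b := Real.sqrt_pos.mpr hb
  have hsq : Real.sqrt b ^ 2 = b := Real.sq_sqrt hb.le
  have htr : t * r ≤ 1 := by nlinarith
  have htr0 : 0 ≤ t * r := mul_nonneg h0 hr0
  have hm0 : 0 < 1 - t ^ 2 * r ^ 2 := by nlinarith [mul_le_mul_of_nonneg_right h1 hr0]
  have hm1 : 1 - t ^ 2 * r ^ 2 ≤ 1 := by nlinarith [mul_self_nonneg (t * r)]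
  have hin : ⟪pt P t z, z - P z⟫_ℂ = ((t * ‖z - P z‖ ^ 2 : ℝ) : ℂ) := by
    unfold pt
    rw [inner_add_left, G1_perp h, inner_smul_left, Complex.conj_ofReal, zero_add,
      inner_self_eq_norm_sq_to_K]
    push_cast
    rfl
  have hnin : ‖⟪pt P t z, z - P z⟫_ℂ‖ = t * (r ^ 2 * b) := by
    rw [hin, Complex.norm_real, Real.norm_eq_abs, abs_of_nonneg (by positivity), hu, mul_pow, hsq]
  have hsD : Real.sqrt (Dp P t z) = Real.sqrt b * Real.sqrt (1 - t ^ 2 * r ^ 2) := by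
    rw [hD, Real.sqrt_mul hb.le]
  have hsm : 0 < Real.sqrt (1 - t ^ 2 * r ^ 2) := Real.sqrt_pos.mpr hm0
  have hsqm : Real.sqrt (1 - t ^ 2 * r ^ 2) ^ 2 = 1 - t ^ 2 * r ^ 2 := Real.sq_sqrt hm0.le
  have hsm1 : Real.sqrt (1 - t ^ 2 * r ^ 2) ≤ 1 := Real.sqrt_le_one.mpr hm1
  show ‖⟪pt P t z, z - P z⟫_ℂ‖ / Dp P t z + ‖z - P z‖ / Real.sqrt (Dp P t z) ≤ _
  rw [hnin, hsD, hD, hu]
  have e1 : t * (r ^ 2 * b) / (b * (1 - t ^ 2 * r ^ 2)) ≤ r / (1 - t ^ 2 * r ^ 2) := by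
    rw [div_le_div_iff₀ (by positivity) hm0]
    have e3 : t * r ^ 2 ≤ r := by nlinarith
    calc t * (r ^ 2 * b) * (1 - t ^ 2 * r ^ 2) = (t * r ^ 2) * (b * (1 - t ^ 2 * r ^ 2)) := by ring
      _ ≤ r * (b * (1 - t ^ 2 * r ^ 2)) := mul_le_mul_of_nonneg_right e3 (by positivity)
  have e2 : r * Real.sqrt b / (Real.sqrt b * Real.sqrt (1 - t ^ 2 * r ^ 2)) ≤ r / (1 - t ^ 2 * r ^ 2) := by
    rw [div_le_div_iff₀ (by positivity) hm0]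
    have e4 : 1 - t ^ 2 * r ^ 2 ≤ Real.sqrt (1 - t ^ 2 * r ^ 2) := by
      nlinarith [mul_le_mul_of_nonneg_left hsm1 hsm.le]
    calc r * Real.sqrt b * (1 - t ^ 2 * r ^ 2) ≤ r * Real.sqrt b * Real.sqrt (1 - t ^ 2 * r ^ 2) :=
          mul_le_mul_of_nonneg_left e4 (by positivity)
      _ = r * (Real.sqrt b * Real.sqrt (1 - t ^ 2 * r ^ 2)) := by ring
  linarith

/-- Comparison of the denominators along the path.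
Proof. Let `p = P z`, `u = z - P z`, `A = 1 - ⟪x, p⟫`, `B = ⟪x, u⟫`. First `‖B‖ ≤ ‖A‖`: otherwise `λ = A / B` has `‖λ‖ < 1`, `‖p + λ u‖² = ‖p‖² + |λ|²‖u‖² ≤ ‖z‖² < 1` and `⟪x, p + λ u⟫ = 1`: contradiction with `‖x‖ ≤ 1`.
Then `‖A - B‖ ≤ ‖A - t B‖ + (1 - t)‖B‖ ≤ ‖A - tB‖ + (‖A‖ - t‖B‖) ≤ 2 ‖A - t B‖` (as `(1-t)‖B‖ ≤ ‖A‖ - t‖B‖`). -/
theorem den_pt {P : E →L[ℂ] E} (h : Prj P) {x z : E} (hx : ‖x‖ ≤ 1) (hz : ‖z‖ < 1) {t : ℝ}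
    (h0 : 0 ≤ t) (h1 : t ≤ 1) : ‖1 - ⟪x, z⟫_ℂ‖ ≤ 2 * ‖1 - ⟪x, pt P t z⟫_ℂ‖ := by
  obtain ⟨A, hA⟩ : ∃ A : ℂ, A = 1 - ⟪x, P z⟫_ℂ := ⟨_, rfl⟩
  obtain ⟨B, hB⟩ : ∃ B : ℂ, B = ⟪x, z - P z⟫_ℂ := ⟨_, rfl⟩
  have e1 : 1 - ⟪x, z⟫_ℂ = A - B := by
    rw [hA, hB, inner_sub_right]
    ring
  have e2 : 1 - ⟪x, pt P t z⟫_ℂ = A - (t : ℂ) * B := by
    unfold pt
    rw [hA, hB, inner_add_right, inner_smul_right]
    ring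
  have hAB : ‖B‖ ≤ ‖A‖ := by
    by_contra hc
    rw [not_le] at hc
    have hB0 : B ≠ 0 := by
      intro h3
      rw [h3, norm_zero] at hc
      exact absurd hc (not_lt.mpr (norm_nonneg _))
    have hBn : 0 < ‖B‖ := norm_pos_iff.mpr hB0
    have hl : ‖A / B‖ < 1 := by
      rw [norm_div, div_lt_one hBn]
      exact hc
    have hw : ⟪x, P z + (A / B) • (z - P z)⟫_ℂ = 1 := by
      rw [inner_add_right, inner_smul_right, ← hB, div_mul_cancel₀ _ hB0, hA]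
      ring
    have hwn : ‖P z + (A / B) • (z - P z)‖ < 1 := by
      have h5 := G1_normsq h z (A / B)
      have h6 := pyth h z
      have h7 : ‖A / B‖ ^ 2 ≤ 1 := by nlinarith [norm_nonneg (A / B)]
      have h8 := mul_le_mul_of_nonneg_right h7 (sq_nonneg ‖z - P z‖)
      have h9 : ‖P z + (A / B) • (z - P z)‖ ^ 2 < 1 := by nlinarith [norm_nonneg z]
      nlinarith [norm_nonneg (P z + (A / B) • (z - P z))]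
    have h10 := norm_inner_le_norm (𝕜 := ℂ) x (P z + (A / B) • (z - P z))
    rw [hw, norm_one] at h10
    nlinarith [norm_nonneg x, norm_nonneg (P z + (A / B) • (z - P z))]
  rw [e1, e2]
  have hsplit : A - B = (A - (t : ℂ) * B) - ((1 - t : ℝ) : ℂ) * B := by
    push_cast
    ring
  have h11 : ‖A - B‖ ≤ ‖A - (t : ℂ) * B‖ + (1 - t) * ‖B‖ := by
    rw [hsplit]
    refine (norm_sub_le _ _).trans (le_of_eq ?_)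
    rw [norm_mul, Complex.norm_real, Real.norm_eq_abs, abs_of_nonneg (by linarith)]
  have h12 : ‖A‖ - t * ‖B‖ ≤ ‖A - (t : ℂ) * B‖ := by
    have h13 := norm_sub_norm_le A ((t : ℂ) * B)
    rw [norm_mul, Complex.norm_real, Real.norm_eq_abs, abs_of_nonneg h0] at h13
    exact h13
  linarith

end Pool.Agent.MPca0fc2.TE
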