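import Mathlib
import Pool.Agent.Lib.MP_ca0fc2_an.TE.G1
import Pool.Agent.Lib.MP_ca0fc2_an.TS.PoA

set_option autoImplicit false
set_option linter.unusedSectionVars false

open Metric Set MeasureTheory Filter Topology
open scoped InnerProductSpace ENNReal ContDiff

namespace Pool.Agent.MPca0fc2.TE

open Pool.Agent.MPca0fc2.PT
open Pool.Agent.MPca0fc2.QT
open Pool.Agent.MPca0fc2.TS

variable {E : Type*} [NormedAddCommGroup E] [InnerProductSpace ℂ E]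
variable [FiniteDimensional ℂ E] [MeasurableSpace E] [BorelSpace E]

theorem Om_nonneg {ν : Measure E} {M : ℕ} {y : E} (hy : ‖y‖ < 1) : 0 ≤ Om ν M y := by
  have h1 : 0 ≤ 1 - ‖y‖ ^ 2 := by nlinarith [norm_nonneg y]
  exact mul_nonneg (Real.rpow_nonneg h1 _) (PP_nonneg ν _ y)

/-- The weight along the path. Proof. `PP_le` and `den_pt`; `1 - ‖pt t z‖² = Dp P t z`, `1 - ‖z‖² = Dp P 1 z`: the factor is `2^(M+1/4) (Dp t / Dp 1)^(1/4)`. -/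
theorem Om_pt {P : E →L[ℂ] E} (h : Prj P) {ν : Measure E} (hν : OnB ν) (M : ℕ) {z : E}
    (hz : ‖z‖ < 1) {t : ℝ} (h0 : 0 ≤ t) (h1 : t ≤ 1) :
    Om ν M (pt P t z) ≤ 2 ^ (M + 1) * (Dp P t z / Dp P 1 z) ^ (1 / 4 : ℝ) * Om ν M z := by
  obtain ⟨hD1, hD1e, hD1t, -⟩ := Dp_anti h hz h0 (le_refl t) h1
  have hDt : 1 - ‖pt P t z‖ ^ 2 = Dp P t z := Dp_eq h t z
  have hDt0 : 0 < Dp P t z := lt_of_lt_of_le hD1 hD1t
  have hpt : ‖pt P t z‖ < 1 := by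
    by_contra hcon
    push Not at hcon
    nlinarith [norm_nonneg (pt P t z)]
  have hp : (0 : ℝ) ≤ (M : ℝ) + 1 / 4 := by positivity
  have hPP : PP ν ((M : ℝ) + 1 / 4) (pt P t z) ≤
      (2 : ℝ) ^ ((M : ℝ) + 1 / 4) * PP ν ((M : ℝ) + 1 / 4) z := by
    refine PP_le hν hp hz hpt (by norm_num) fun x hx => ?_
    exact den_pt h (by simpa using (mem_ball_zero_iff.1 hx).le) hz h0 h1
  have h2 : (2 : ℝ) ^ ((M : ℝ) + 1 / 4) ≤ 2 ^ (M + 1) := by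
    rw [← Real.rpow_natCast 2 (M + 1)]
    refine Real.rpow_le_rpow_of_exponent_le (by norm_num) ?_
    push_cast
    linarith
  have hz0 : 0 ≤ PP ν ((M : ℝ) + 1 / 4) z := PP_nonneg ν _ z
  have e1 : (Dp P t z / Dp P 1 z) ^ (1 / 4 : ℝ) * Dp P 1 z ^ (1 / 4 : ℝ) =
      Dp P t z ^ (1 / 4 : ℝ) := by
    rw [← Real.mul_rpow (div_nonneg hDt0.le hD1.le) hD1.le, div_mul_cancel₀ _ hD1.ne']
  have hr0 : 0 ≤ Dp P t z ^ (1 / 4 : ℝ) := Real.rpow_nonneg hDt0.le _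
  have eL : Om ν M (pt P t z) = Dp P t z ^ (1 / 4 : ℝ) * PP ν ((M : ℝ) + 1 / 4) (pt P t z) := by
    unfold Om
    rw [hDt]
  have eR : Om ν M z = Dp P 1 z ^ (1 / 4 : ℝ) * PP ν ((M : ℝ) + 1 / 4) z := by
    unfold Om
    rw [hD1e]
  rw [eL, eR]
  calc Dp P t z ^ (1 / 4 : ℝ) * PP ν ((M : ℝ) + 1 / 4) (pt P t z)
      ≤ Dp P t z ^ (1 / 4 : ℝ) * ((2 : ℝ) ^ ((M : ℝ) + 1 / 4) * PP ν ((M : ℝ) + 1 / 4) z) :=
        mul_le_mul_of_nonneg_left hPP hr0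
    _ ≤ Dp P t z ^ (1 / 4 : ℝ) * (2 ^ (M + 1) * PP ν ((M : ℝ) + 1 / 4) z) :=
        mul_le_mul_of_nonneg_left (mul_le_mul_of_nonneg_right h2 hz0) hr0
    _ = 2 ^ (M + 1) * ((Dp P t z / Dp P 1 z) ^ (1 / 4 : ℝ) * Dp P 1 z ^ (1 / 4 : ℝ)) *
        PP ν ((M : ℝ) + 1 / 4) z := by rw [e1]; ring
    _ = 2 ^ (M + 1) * (Dp P t z / Dp P 1 z) ^ (1 / 4 : ℝ) *
        (Dp P 1 z ^ (1 / 4 : ℝ) * PP ν ((M : ℝ) + 1 / 4) z) := by ring

/-- The weight is continuous on the ball (`PP_c1`). -/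
theorem Om_cont {ν : Measure E} (hν : OnB ν) (M : ℕ) : ContinuousOn (Om ν M) (ball 0 1) := by
  have hp : (0 : ℝ) ≤ (M : ℝ) + 1 / 4 := by positivity
  have h1 : ContinuousOn (PP ν ((M : ℝ) + 1 / 4)) (ball 0 1) := (PP_c1 hν hp).continuousOn
  have h2 : ContinuousOn (fun y : E => (1 - ‖y‖ ^ 2) ^ (1 / 4 : ℝ)) (ball 0 1) := by
    refine Continuous.continuousOn ?_
    exact (by fun_prop : Continuous fun y : E => 1 - ‖y‖ ^ 2).rpow_const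
      fun _ => Or.inr (by norm_num)
  exact h2.mul h1

/-- `Wk ν M θ k w = Om ν M (rt θ k • w)` (definitions; `1 - ‖(rt θ k : ℂ) • w‖² = dl θ k w`). -/
theorem Wk_eq (ν : Measure E) (M : ℕ) (θ : ℝ) (k : ℕ) (w : E) :
    Wk ν M θ k w = Om ν M ((rt θ k : ℂ) • w) := by
  have h1 : 1 - ‖(rt θ k : ℂ) • w‖ ^ 2 = dl θ k w := by
    rw [norm_smul, Complex.norm_real, mul_pow, Real.norm_eq_abs, sq_abs]
    rfl
  unfold Om
  rw [h1]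
  rfl

end Pool.Agent.MPca0fc2.TE
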