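import Mathlib
import Pool.Agent.Lib.MP_ca0fc2_an.Mg.G073
import Pool.Agent.Lib.MP_ca0fc2_an.TS.PrV
import Pool.Agent.Lib.MP_ca0fc2_an.TS.Ha

set_option autoImplicit false
set_option maxHeartbeats 4000000

open Metric Set MeasureTheory Filter Topology
open scoped InnerProductSpace ENNReal NNReal

/-! # The oscillation of the projection -/

namespace Pool.Agent.MPca0fc2.TE

open Pool.Agent.MPca0fc2.PT Pool.Agent.MPca0fc2.QT Pool.Agent.MPca0fc2.TS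

variable {E : Type*} [NormedAddCommGroup E] [InnerProductSpace ℂ E]

/-! ### the differences of the kernels -/

theorem osc_conj (x y : E) : ‖1 - ⟪x, y⟫_ℂ‖ = ‖1 - ⟪y, x⟫_ℂ‖ := by
  have h : 1 - ⟪x, y⟫_ℂ = (starRingEnd ℂ) (1 - ⟪y, x⟫_ℂ) := by
    rw [map_sub, map_one, inner_conj_symm]
  rw [h, Complex.norm_conj]

/-- the component orthogonal to `x` -/
theorem osc_perp {x y : E} (hx : ‖x‖ ≤ 1) (hy : ‖y‖ ≤ 1) :
    ‖y - ⟪x, y⟫_ℂ • x‖ ^ 2 ≤ 2 * ‖1 - ⟪x, y⟫_ℂ‖ := by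
  have h1 : ‖y - ⟪x, y⟫_ℂ • x‖ ^ 2 = ‖y‖ ^ 2 - 2 * ‖⟪x, y⟫_ℂ‖ ^ 2 + ‖⟪x, y⟫_ℂ‖ ^ 2 * ‖x‖ ^ 2 := by
    rw [@norm_sub_sq ℂ, inner_smul_right, norm_smul, mul_pow]
    have e : ⟪x, y⟫_ℂ * ⟪y, x⟫_ℂ = ((‖⟪x, y⟫_ℂ‖ ^ 2 : ℝ) : ℂ) := by
      rw [← inner_conj_symm y x, Complex.mul_conj, Complex.normSq_eq_norm_sq]
    rw [e]
    have : RCLike.re (((‖⟪x, y⟫_ℂ‖ ^ 2 : ℝ) : ℂ)) = ‖⟪x, y⟫_ℂ‖ ^ 2 := Complex.ofReal_re _
    rw [this]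
  have h2 : ‖⟪x, y⟫_ℂ‖ ≤ 1 := SD.norm_inner_le_one hx hy
  have h3 : 1 - ‖⟪x, y⟫_ℂ‖ ≤ ‖1 - ⟪x, y⟫_ℂ‖ := by
    have := norm_sub_norm_le (1 : ℂ) ⟪x, y⟫_ℂ
    rwa [norm_one] at this
  have h4 := norm_nonneg ⟪x, y⟫_ℂ
  have h5 : ‖y‖ ^ 2 ≤ 1 := pow_le_one₀ (norm_nonneg _) hy
  have h6 : ‖x‖ ^ 2 ≤ 1 := pow_le_one₀ (norm_nonneg _) hx
  have h7 : ‖⟪x, y⟫_ℂ‖ ^ 2 * ‖x‖ ^ 2 ≤ ‖⟪x, y⟫_ℂ‖ ^ 2 * 1 :=
    mul_le_mul_of_nonneg_left h6 (sq_nonneg _)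
  rw [h1]
  nlinarith

theorem osc_inner {w z z' : E} (hw : ‖w‖ ≤ 1) (hz : ‖z‖ < 1) (hz' : ‖z'‖ ≤ 1) {L : ℝ}
    (hL : 1 ≤ L) (h : ‖1 - ⟪z, z'⟫_ℂ‖ ≤ L * (1 - ‖z‖ ^ 2))
    (hD : 1 - ‖z‖ ^ 2 ≤ 2 * ‖1 - ⟪w, z⟫_ℂ‖) :
    ‖⟪w, z - z'⟫_ℂ‖ ≤ (4 * L + 2) * Real.sqrt ((1 - ‖z‖ ^ 2) * ‖1 - ⟪w, z⟫_ℂ‖) := by
  set d : ℝ := 1 - ‖z‖ ^ 2 with hd
  set D : ℝ := ‖1 - ⟪w, z⟫_ℂ‖ with hDd
  have hd0 : 0 < d := by nlinarith [norm_nonneg z]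
  set b : E := z' - ⟪z, z'⟫_ℂ • z with hb
  set c : E := w - ⟪z, w⟫_ℂ • z with hc
  have e1 : ⟪w, z - z'⟫_ℂ = (1 - ⟪z, z'⟫_ℂ) * ⟪w, z⟫_ℂ - ⟪w, b⟫_ℂ := by
    rw [hb, inner_sub_right, inner_sub_right, inner_smul_right]
    ring
  have e2 : ⟪w, b⟫_ℂ = ⟪c, b⟫_ℂ + ⟪w, z⟫_ℂ * ⟪z, b⟫_ℂ := by
    rw [hc, inner_sub_left, inner_smul_left, inner_conj_symm]
    ring
  have e3 : ⟪z, b⟫_ℂ = ⟪z, z'⟫_ℂ * ((d : ℝ) : ℂ) := by
    rw [hb, inner_sub_right, inner_smul_right, inner_self_eq_norm_sq_to_K, hd]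
    push_cast
    simp only [Complex.coe_algebraMap]
    ring
  have n1 : ‖⟪w, z⟫_ℂ‖ ≤ 1 := SD.norm_inner_le_one hw hz.le
  have n2 : ‖⟪z, b⟫_ℂ‖ ≤ d := by
    rw [e3, norm_mul, Complex.norm_real, Real.norm_of_nonneg hd0.le]
    have := SD.norm_inner_le_one hz.le hz'
    nlinarith [norm_nonneg ⟪z, z'⟫_ℂ]
  have n3 : ‖b‖ ^ 2 ≤ 2 * (L * d) := (osc_perp hz.le hz').trans (by linarith)
  have n4 : ‖c‖ ^ 2 ≤ 2 * D := by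
    have := osc_perp hz.le hw
    rw [osc_conj z w] at this
    exact this
  have n5 : ‖⟪c, b⟫_ℂ‖ ≤ 2 * L * Real.sqrt (d * D) := by
    have h1 := norm_inner_le_norm (𝕜 := ℂ) c b
    refine h1.trans ?_
    have h2 : (‖c‖ * ‖b‖) ^ 2 ≤ (2 * L * Real.sqrt (d * D)) ^ 2 := by
      rw [mul_pow, mul_pow, Real.sq_sqrt (by positivity)]
      calc ‖c‖ ^ 2 * ‖b‖ ^ 2 ≤ (2 * D) * (2 * (L * d)) := by gcongr
        _ = 4 * L * (d * D) := by ring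
        _ ≤ 4 * (L * L) * (d * D) := by
            have : L ≤ L * L := by nlinarith
            gcongr
        _ = _ := by ring
    exact (pow_le_pow_iff_left₀ (by positivity) (by positivity) two_ne_zero).mp h2
  have n6 : d ≤ 2 * Real.sqrt (d * D) := by
    have h2 : d ^ 2 ≤ (2 * Real.sqrt (d * D)) ^ 2 := by
      rw [mul_pow, Real.sq_sqrt (by positivity)]
      nlinarith
    exact (pow_le_pow_iff_left₀ hd0.le (by positivity) two_ne_zero).mp h2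
  rw [e1, e2]
  have t1 : ‖(1 - ⟪z, z'⟫_ℂ) * ⟪w, z⟫_ℂ‖ ≤ L * d * 1 := by
    rw [norm_mul]
    exact mul_le_mul h n1 (norm_nonneg _) (by positivity)
  have t2 : ‖⟪w, z⟫_ℂ * ⟪z, b⟫_ℂ‖ ≤ 1 * d := by
    rw [norm_mul]
    exact mul_le_mul n1 n2 (norm_nonneg _) (by norm_num)
  calc ‖(1 - ⟪z, z'⟫_ℂ) * ⟪w, z⟫_ℂ - (⟪c, b⟫_ℂ + ⟪w, z⟫_ℂ * ⟪z, b⟫_ℂ)‖
      ≤ ‖(1 - ⟪z, z'⟫_ℂ) * ⟪w, z⟫_ℂ‖ + (‖⟪c, b⟫_ℂ‖ + ‖⟪w, z⟫_ℂ * ⟪z, b⟫_ℂ‖) :=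
        (norm_sub_le _ _).trans (add_le_add le_rfl (norm_add_le _ _))
    _ ≤ L * d * 1 + (2 * L * Real.sqrt (d * D) + 1 * d) :=
        add_le_add t1 (add_le_add n5 t2)
    _ = (L + 1) * d + 2 * L * Real.sqrt (d * D) := by ring
    _ ≤ (L + 1) * (2 * Real.sqrt (d * D)) + 2 * L * Real.sqrt (d * D) := by gcongr
    _ = _ := by ring

/-- differences of negative powers -/
theorem osc_pow {u v : ℂ} (hu : 0 < ‖u‖) (hv : 0 < ‖v‖) {L : ℝ} (hL : 1 ≤ L)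
    (huv : ‖u‖ ≤ L * ‖v‖) (p : ℕ) :
    ‖(u ^ p)⁻¹ - (v ^ p)⁻¹‖ ≤ p * L ^ p * (1 / ‖u‖) ^ p * (‖u - v‖ / ‖u‖) := by
  have hu0 : u ≠ 0 := norm_pos_iff.mp hu
  have hv0 : v ≠ 0 := norm_pos_iff.mp hv
  induction p with
  | zero => simp
  | succ p ih =>
    have e : (u ^ (p + 1))⁻¹ - (v ^ (p + 1))⁻¹ =
        u⁻¹ * ((u ^ p)⁻¹ - (v ^ p)⁻¹) + (v ^ p)⁻¹ * (u⁻¹ - v⁻¹) := by
      rw [pow_succ, pow_succ, mul_inv, mul_inv]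
      ring
    have e2 : u⁻¹ - v⁻¹ = (v - u) / (u * v) := by
      field_simp
    have hv1 : 1 / ‖v‖ ≤ L * (1 / ‖u‖) := by
      rw [mul_one_div, div_le_div_iff₀ hv hu]
      linarith
    have h1 : ‖(v ^ p)⁻¹‖ ≤ L ^ p * (1 / ‖u‖) ^ p := by
      rw [norm_inv, norm_pow, ← mul_pow, ← inv_pow, ← one_div]
      exact pow_le_pow_left₀ (by positivity) hv1 p
    have h2 : ‖u⁻¹ - v⁻¹‖ ≤ L * (1 / ‖u‖) * (‖u - v‖ / ‖u‖) := by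
      rw [e2, norm_div, norm_mul, norm_sub_rev]
      calc ‖u - v‖ / (‖u‖ * ‖v‖) = (1 / ‖v‖) * (‖u - v‖ / ‖u‖) := by field_simp
        _ ≤ _ := by gcongr
    have h3 : ‖u⁻¹‖ = 1 / ‖u‖ := by rw [norm_inv, one_div]
    have hx : 0 ≤ ‖u - v‖ / ‖u‖ := by positivity
    rw [e]
    calc ‖u⁻¹ * ((u ^ p)⁻¹ - (v ^ p)⁻¹) + (v ^ p)⁻¹ * (u⁻¹ - v⁻¹)‖
        ≤ ‖u⁻¹‖ * ‖(u ^ p)⁻¹ - (v ^ p)⁻¹‖ + ‖(v ^ p)⁻¹‖ * ‖u⁻¹ - v⁻¹‖ := by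
          refine (norm_add_le _ _).trans (le_of_eq ?_)
          rw [norm_mul, norm_mul]
      _ ≤ (1 / ‖u‖) * (p * L ^ p * (1 / ‖u‖) ^ p * (‖u - v‖ / ‖u‖)) +
          (L ^ p * (1 / ‖u‖) ^ p) * (L * (1 / ‖u‖) * (‖u - v‖ / ‖u‖)) := by
          rw [h3]
          gcongr
      _ = (p * L ^ p + L ^ (p + 1)) * (1 / ‖u‖) ^ (p + 1) * (‖u - v‖ / ‖u‖) := by ring
      _ ≤ (p * L ^ (p + 1) + L ^ (p + 1)) * (1 / ‖u‖) ^ (p + 1) * (‖u - v‖ / ‖u‖) := by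
          have : L ^ p ≤ L ^ (p + 1) := pow_le_pow_right₀ hL (by omega)
          gcongr
      _ = _ := by push_cast; ring

/-- the difference of the kernels -/
theorem osc_ker {w z z' : E} (hw : ‖w‖ < 1) (hz : ‖z‖ < 1) (hz' : ‖z'‖ < 1) {L : ℝ}
    (hL : 1 ≤ L) (h : ‖1 - ⟪z, z'⟫_ℂ‖ ≤ L * (1 - ‖z‖ ^ 2))
    (h' : ‖1 - ⟪z, z'⟫_ℂ‖ ≤ L * (1 - ‖z'‖ ^ 2)) (p : ℕ) :
    ‖((1 - ⟪w, z⟫_ℂ) ^ p)⁻¹ - ((1 - ⟪w, z'⟫_ℂ) ^ p)⁻¹‖ ≤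
      p * (2 * L) ^ p * (4 * L + 2) * ((1 / ‖1 - ⟪w, z⟫_ℂ‖) ^ p *
        Real.sqrt ((1 - ‖z‖ ^ 2) / ‖1 - ⟪w, z⟫_ℂ‖)) := by
  obtain ⟨a1, a2⟩ := geo_one_sub hw hz
  obtain ⟨b1, b2⟩ := geo_one_sub hw hz'
  have hu : 0 < ‖1 - ⟪w, z⟫_ℂ‖ := lt_of_lt_of_le a1 a2
  have hv : 0 < ‖1 - ⟪w, z'⟫_ℂ‖ := lt_of_lt_of_le b1 b2
  have hd : 0 < 1 - ‖z‖ ^ 2 := by nlinarith [norm_nonneg z]
  have hd' : 0 < 1 - ‖z'‖ ^ 2 := by nlinarith [norm_nonneg z']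
  have h3 := ha_three hw hz' hz
  rw [osc_conj z' z] at h3
  have huv : ‖1 - ⟪w, z⟫_ℂ‖ ≤ 2 * L * ‖1 - ⟪w, z'⟫_ℂ‖ := by
    have h4 : (1 - ‖z'‖ ^ 2) * ‖1 - ⟪w, z⟫_ℂ‖ ≤
        (1 - ‖z'‖ ^ 2) * (2 * L * ‖1 - ⟪w, z'⟫_ℂ‖) := by
      calc _ ≤ 2 * ‖1 - ⟪w, z'⟫_ℂ‖ * ‖1 - ⟪z, z'⟫_ℂ‖ := h3
        _ ≤ 2 * ‖1 - ⟪w, z'⟫_ℂ‖ * (L * (1 - ‖z'‖ ^ 2)) := by gcongr
        _ = _ := by ring
    exact le_of_mul_le_mul_left h4 hd'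
  have hD : 1 - ‖z‖ ^ 2 ≤ 2 * ‖1 - ⟪w, z⟫_ℂ‖ := by
    have h5 : 1 - ‖w‖ * ‖z‖ ≤ ‖1 - ⟪w, z⟫_ℂ‖ := by
      have := norm_sub_norm_le (1 : ℂ) ⟪w, z⟫_ℂ
      rw [norm_one] at this
      have := norm_inner_le_norm (𝕜 := ℂ) w z
      linarith
    nlinarith [norm_nonneg z, norm_nonneg w]
  have hi := osc_inner hw.le hz hz'.le hL h hD
  have e : (1 - ⟪w, z⟫_ℂ) - (1 - ⟪w, z'⟫_ℂ) = -⟪w, z - z'⟫_ℂ := by
    rw [inner_sub_right]; ring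
  have key := osc_pow hu hv (by linarith : 1 ≤ 2 * L) huv p
  rw [e, norm_neg] at key
  refine key.trans ?_
  have h6 : ‖⟪w, z - z'⟫_ℂ‖ / ‖1 - ⟪w, z⟫_ℂ‖ ≤
      (4 * L + 2) * Real.sqrt ((1 - ‖z‖ ^ 2) / ‖1 - ⟪w, z⟫_ℂ‖) := by
    rw [div_le_iff₀ hu]
    refine hi.trans (le_of_eq ?_)
    rw [Real.sqrt_mul hd.le, Real.sqrt_div hd.le]
    have h7 : Real.sqrt ‖1 - ⟪w, z⟫_ℂ‖ * Real.sqrt ‖1 - ⟪w, z⟫_ℂ‖ = ‖1 - ⟪w, z⟫_ℂ‖ :=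
      Real.mul_self_sqrt hu.le
    have h8 : 0 < Real.sqrt ‖1 - ⟪w, z⟫_ℂ‖ := Real.sqrt_pos.mpr hu
    calc (4 * L + 2) * (Real.sqrt (1 - ‖z‖ ^ 2) * Real.sqrt ‖1 - ⟪w, z⟫_ℂ‖)
        = (4 * L + 2) * (Real.sqrt (1 - ‖z‖ ^ 2) / Real.sqrt ‖1 - ⟪w, z⟫_ℂ‖) *
          (Real.sqrt ‖1 - ⟪w, z⟫_ℂ‖ * Real.sqrt ‖1 - ⟪w, z⟫_ℂ‖) := by field_simp
      _ = _ := by rw [h7]
  calc _ ≤ p * (2 * L) ^ p * (1 / ‖1 - ⟪w, z⟫_ℂ‖) ^ p *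
        ((4 * L + 2) * Real.sqrt ((1 - ‖z‖ ^ 2) / ‖1 - ⟪w, z⟫_ℂ‖)) := by gcongr
    _ = _ := by ring

variable [FiniteDimensional ℂ E] [MeasurableSpace E] [BorelSpace E]

/-! ### the integral of the kernel -/

theorem osc_lint (μ : Measure E) [μ.IsAddHaarMeasure] (m : ℕ)
    (hm : 1 ≤ m) (hdim : Module.finrank ℂ E = m + 1) {z : E} (hz : ‖z‖ ≤ 1) {t : ℝ} (ht : 0 < t) :
    ∫⁻ w in ball (0 : E) 1,
      ENNReal.ofReal ((1 / (‖1 - ⟪w, z⟫_ℂ‖ + t)) ^ ((m + 2 : ℝ) + 1 / 4)) ∂μ ≤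
      ENNReal.ofReal (((m + 2 : ℝ) + 1 / 4) * (4 ^ (m + 2) * μ.real (ball 0 1) *
        (4 * (1 / t) ^ (1 / 4 : ℝ)))) := by
  have hprop : ProperSpace E := FiniteDimensional.proper ℂ E
  have hfin : IsFiniteMeasure (μ.restrict (ball (0 : E) 1)) :=
    ⟨by rw [Measure.restrict_apply_univ]; exact measure_ball_lt_top⟩
  set D : ℝ := 4 ^ (m + 2) * μ.real (ball 0 1) with hD
  have hD0 : 0 ≤ D := by rw [hD]; exact mul_nonneg (by positivity) measureReal_nonneg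
  set p : ℝ := (m + 2 : ℝ) + 1 / 4 with hp
  have hp0 : 0 < p := by rw [hp]; positivity
  have hQ : ∀ w : E, 0 < ‖1 - ⟪w, z⟫_ℂ‖ + t := fun w => by positivity
  have hcont : Continuous (fun w : E => 1 / (‖1 - ⟪w, z⟫_ℂ‖ + t)) := by
    apply Continuous.div continuous_const (by fun_prop)
    intro w; exact (hQ w).ne'
  rw [lintegral_rpow_eq_lintegral_meas_lt_mul (μ.restrict (ball (0 : E) 1))
    (Eventually.of_forall fun w => by have := hQ w; positivity)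
    hcont.aemeasurable hp0, ENNReal.ofReal_mul hp0.le]
  gcongr
  have hb : ∀ s ∈ Ioi (0 : ℝ), (μ.restrict (ball (0 : E) 1))
      {w | s < 1 / (‖1 - ⟪w, z⟫_ℂ‖ + t)} * ENNReal.ofReal (s ^ (p - 1)) ≤
      (Ioc 0 (1 / t)).indicator (fun s => ENNReal.ofReal (D * s ^ (-(3 / 4) : ℝ))) s := by
    intro s hs
    have hs0 : (0 : ℝ) < s := hs
    by_cases hst : s ≤ 1 / t
    · rw [indicator_of_mem (show s ∈ Ioc 0 (1 / t) from ⟨hs0, hst⟩)]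
      have h1 : (μ.restrict (ball (0 : E) 1)) {w | s < 1 / (‖1 - ⟪w, z⟫_ℂ‖ + t)} ≤
          ENNReal.ofReal (D * (1 / s) ^ (m + 2)) := by
        calc (μ.restrict (ball (0 : E) 1)) {w | s < 1 / (‖1 - ⟪w, z⟫_ℂ‖ + t)}
            ≤ (μ.restrict (ball (0 : E) 1)) {w | ‖1 - ⟪w, z⟫_ℂ‖ < 1 / s} := by
              apply measure_mono
              intro w (hw : s < 1 / (‖1 - ⟪w, z⟫_ℂ‖ + t))
              show ‖1 - ⟪w, z⟫_ℂ‖ < 1 / s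
              rw [lt_div_iff₀ (hQ w)] at hw
              rw [lt_div_iff₀ hs0]
              nlinarith
          _ = ENNReal.ofReal ((μ.restrict (ball (0 : E) 1)).real
              {w | ‖1 - ⟪w, z⟫_ℂ‖ < 1 / s}) := by
              rw [measureReal_def, ENNReal.ofReal_toReal (measure_ne_top _ _)]
          _ ≤ _ := ENNReal.ofReal_le_ofReal (SD.vol_est μ m hm hdim hz (by positivity))
      calc _ ≤ ENNReal.ofReal (D * (1 / s) ^ (m + 2)) * ENNReal.ofReal (s ^ (p - 1)) := by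
            gcongr
        _ = ENNReal.ofReal (D * s ^ (-(3 / 4) : ℝ)) := by
            rw [← ENNReal.ofReal_mul (by positivity)]
            congr 1
            rw [mul_assoc]
            congr 1
            have e1 : (1 / s) ^ (m + 2) = s ^ (-(m + 2 : ℝ)) := by
              rw [Real.rpow_neg hs0.le, one_div, inv_pow]
              congr 1
              exact_mod_cast (Real.rpow_natCast s (m + 2)).symm
            rw [e1, ← Real.rpow_add hs0]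
            congr 1
            rw [hp]; ring
    · have h1 : {w : E | s < 1 / (‖1 - ⟪w, z⟫_ℂ‖ + t)} = ∅ := by
        apply eq_empty_of_forall_notMem
        intro w (hw : s < 1 / (‖1 - ⟪w, z⟫_ℂ‖ + t))
        apply hst
        have h2 : 1 / (‖1 - ⟪w, z⟫_ℂ‖ + t) ≤ 1 / t := by
          apply one_div_le_one_div_of_le ht
          linarith [norm_nonneg (1 - ⟪w, z⟫_ℂ)]
        linarith
      rw [h1]
      simp
  refine (setLIntegral_mono' measurableSet_Ioi hb).trans ?_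
  calc ∫⁻ s in Ioi (0 : ℝ), (Ioc 0 (1 / t)).indicator
        (fun s => ENNReal.ofReal (D * s ^ (-(3 / 4) : ℝ))) s
    _ = ∫⁻ s in Ioc 0 (1 / t), ENNReal.ofReal (D * s ^ (-(3 / 4) : ℝ)) := by
        rw [lintegral_indicator measurableSet_Ioc, Measure.restrict_restrict measurableSet_Ioc]
        congr 2
        rw [inter_eq_left]
        exact fun s hs => hs.1
    _ = ENNReal.ofReal (∫ s in Ioc 0 (1 / t), D * s ^ (-(3 / 4) : ℝ)) := by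
        rw [ofReal_integral_eq_lintegral_ofReal]
        · apply Integrable.const_mul
          have := intervalIntegral.intervalIntegrable_rpow' (a := 0) (b := 1 / t)
            (r := (-(3 / 4) : ℝ)) (by norm_num)
          rw [intervalIntegrable_iff_integrableOn_Ioc_of_le (by positivity)] at this
          exact this
        · refine (ae_restrict_iff' measurableSet_Ioc).mpr (Eventually.of_forall fun s hs => ?_)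
          have := hs.1
          positivity
    _ = ENNReal.ofReal (D * (4 * (1 / t) ^ (1 / 4 : ℝ))) := by
        congr 1
        rw [integral_const_mul, ← intervalIntegral.integral_of_le (by positivity),
          integral_rpow (Or.inl (by norm_num))]
        norm_num
        left
        ring
    _ ≤ _ := le_refl _

/-- The basic kernel integral. -/
theorem osc_int (μ : Measure E) [μ.IsAddHaarMeasure] (m : ℕ)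
    (hm : 1 ≤ m) (hdim : Module.finrank ℂ E = m + 1) :
    ∃ C : ℝ, 0 < C ∧ ∀ z : E, ‖z‖ < 1 →
      IntegrableOn (fun w : E => (1 / ‖1 - ⟪w, z⟫_ℂ‖) ^ ((m + 2 : ℝ) + 1 / 4)) (ball 0 1) μ ∧
      (1 - ‖z‖ ^ 2) ^ (1 / 4 : ℝ) *
        ∫ w in ball (0 : E) 1, (1 / ‖1 - ⟪w, z⟫_ℂ‖) ^ ((m + 2 : ℝ) + 1 / 4) ∂μ ≤ C := by
  refine ⟨3 ^ ((m + 2 : ℝ) + 1 / 4) *
    (((m + 2 : ℝ) + 1 / 4) * (4 ^ (m + 2) * μ.real (ball 0 1) * 4)) + 1, ?_, ?_⟩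
  · have : 0 ≤ μ.real (ball (0 : E) 1) := measureReal_nonneg
    positivity
  intro z hz
  have hprop : ProperSpace E := FiniteDimensional.proper ℂ E
  set t : ℝ := 1 - ‖z‖ ^ 2 with ht
  have ht0 : 0 < t := by nlinarith [norm_nonneg z]
  have hQ : ∀ w : E, 0 < ‖1 - ⟪w, z⟫_ℂ‖ + t := fun w => by positivity
  set p : ℝ := (m + 2 : ℝ) + 1 / 4 with hp
  have hp0 : 0 < p := by rw [hp]; positivity
  have hcont : Continuous (fun w : E => (1 / (‖1 - ⟪w, z⟫_ℂ‖ + t)) ^ p) := by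
    apply Continuous.rpow_const
    · apply Continuous.div continuous_const (by fun_prop)
      intro w; exact (hQ w).ne'
    · intro w; right; exact hp0.le
  have hl := osc_lint μ m hm hdim hz.le ht0
  have hnn : 0 ≤ᵐ[μ.restrict (ball (0 : E) 1)]
      (fun w : E => (1 / (‖1 - ⟪w, z⟫_ℂ‖ + t)) ^ p) :=
    Eventually.of_forall fun w => by have := hQ w; positivity
  have hint : IntegrableOn (fun w : E => (1 / (‖1 - ⟪w, z⟫_ℂ‖ + t)) ^ p) (ball 0 1) μ := by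
    refine ⟨hcont.aestronglyMeasurable, ?_⟩
    rw [hasFiniteIntegral_iff_ofReal hnn]
    exact hl.trans_lt ENNReal.ofReal_lt_top
  have hpos : ∀ w ∈ ball (0 : E) 1, 0 < ‖1 - ⟪w, z⟫_ℂ‖ ∧ t ≤ 2 * ‖1 - ⟪w, z⟫_ℂ‖ := by
    intro w hw
    have hw1 := mem_ball_zero_iff.mp hw
    obtain ⟨a1, a2⟩ := geo_one_sub hw1 hz
    refine ⟨lt_of_lt_of_le a1 a2, ?_⟩
    have h5 : 1 - ‖w‖ * ‖z‖ ≤ ‖1 - ⟪w, z⟫_ℂ‖ := by
      have := norm_sub_norm_le (1 : ℂ) ⟪w, z⟫_ℂ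
      rw [norm_one] at this
      have := norm_inner_le_norm (𝕜 := ℂ) w z
      linarith
    nlinarith [norm_nonneg z, norm_nonneg w]
  have hle : ∀ w ∈ ball (0 : E) 1, (1 / ‖1 - ⟪w, z⟫_ℂ‖) ^ p ≤
      3 ^ p * (1 / (‖1 - ⟪w, z⟫_ℂ‖ + t)) ^ p := by
    intro w hw
    obtain ⟨h1, h2⟩ := hpos w hw
    rw [← Real.mul_rpow (by norm_num) (by have := hQ w; positivity)]
    apply Real.rpow_le_rpow (by positivity) _ hp0.le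
    rw [mul_one_div, div_le_div_iff₀ h1 (hQ w)]
    linarith
  have hmeas : AEStronglyMeasurable (fun w : E => (1 / ‖1 - ⟪w, z⟫_ℂ‖) ^ p)
      (μ.restrict (ball 0 1)) := by
    apply ContinuousOn.aestronglyMeasurable _ measurableSet_ball
    apply ContinuousOn.rpow_const
    · apply ContinuousOn.div continuousOn_const (by fun_prop)
      intro w hw; exact (hpos w hw).1.ne'
    · intro w _; right; exact hp0.le
  have hint2 : IntegrableOn (fun w : E => (1 / ‖1 - ⟪w, z⟫_ℂ‖) ^ p) (ball 0 1) μ := by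
    refine Integrable.mono' (hint.const_mul (3 ^ p)) hmeas ?_
    refine (ae_restrict_iff' measurableSet_ball).mpr (Eventually.of_forall fun w hw => ?_)
    rw [Real.norm_of_nonneg (by have := (hpos w hw).1; positivity)]
    exact hle w hw
  refine ⟨hint2, ?_⟩
  have hI : ∫ w in ball (0 : E) 1, (1 / ‖1 - ⟪w, z⟫_ℂ‖) ^ p ∂μ ≤
      3 ^ p * ∫ w in ball (0 : E) 1, (1 / (‖1 - ⟪w, z⟫_ℂ‖ + t)) ^ p ∂μ := by
    rw [← integral_const_mul]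
    exact setIntegral_mono_on hint2 (hint.const_mul _) measurableSet_ball hle
  rw [integral_eq_lintegral_of_nonneg_ae hnn hcont.aestronglyMeasurable] at hI
  have h1 := ENNReal.toReal_mono ENNReal.ofReal_ne_top hl
  have h0 : 0 ≤ μ.real (ball (0 : E) 1) := measureReal_nonneg
  rw [ENNReal.toReal_ofReal (by positivity)] at h1
  have h2 : t ^ (1 / 4 : ℝ) * (1 / t) ^ (1 / 4 : ℝ) = 1 := by
    rw [← Real.mul_rpow ht0.le (by positivity), mul_one_div_cancel ht0.ne', Real.one_rpow]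
  have ht4 : 0 ≤ t ^ (1 / 4 : ℝ) := by positivity
  calc t ^ (1 / 4 : ℝ) * ∫ w in ball (0 : E) 1, (1 / ‖1 - ⟪w, z⟫_ℂ‖) ^ p ∂μ
      ≤ t ^ (1 / 4 : ℝ) * (3 ^ p * (p * (4 ^ (m + 2) * μ.real (ball 0 1) *
        (4 * (1 / t) ^ (1 / 4 : ℝ))))) := by
        apply mul_le_mul_of_nonneg_left _ ht4
        refine hI.trans ?_
        apply mul_le_mul_of_nonneg_left h1
        positivity
    _ = 3 ^ p * (p * (4 ^ (m + 2) * μ.real (ball 0 1) * 4)) *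
        (t ^ (1 / 4 : ℝ) * (1 / t) ^ (1 / 4 : ℝ)) := by ring
    _ ≤ _ := by rw [h2]; linarith

end Pool.Agent.MPca0fc2.TE
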