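import Mathlib
import Pool.Agent.Lib.MP_ca0fc2_an.TE.G2
import Pool.Agent.Lib.MP_ca0fc2_an.TE.OscK
import Pool.Agent.Lib.MP_ca0fc2_an.TS.Gr

set_option autoImplicit false
set_option linter.unusedSectionVars false

open Metric Set MeasureTheory Filter Topology
open scoped InnerProductSpace ENNReal ContDiff

namespace Pool.Agent.MPca0fc2.TE

open Pool.Agent.MPca0fc2.PT
open Pool.Agent.MPca0fc2.QT
open Pool.Agent.MPca0fc2.TS

variable {E : Type*} [NormedAddCommGroup E] [InnerProductSpace ℂ E]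
variable [FiniteDimensional ℂ E] [MeasurableSpace E] [BorelSpace E]

/-- The kernel integral of exponent `dim + 1 + 1/4`. Proof. As for `SD.kernel_lint` (exponent `+ 1/2`): layer cake and the volume estimate of the sets `|1 - ⟪x, y⟫| < s` (search the library for `vol_est` and the proof of `SD.kernel_lint`), or any other way. -/
theorem kernel_quarter (μ : Measure E) [μ.IsAddHaarMeasure] {m : ℕ} (hm : 1 ≤ m)
    (hdim : Module.finrank ℂ E = m + 1) : ∃ C : ℝ, 0 < C ∧ ∀ y ∈ ball (0 : E) 1,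
      ∫⁻ x in ball (0 : E) 1, ENNReal.ofReal (‖1 - ⟪x, y⟫_ℂ‖ ^ (-((m : ℝ) + 2 + 1 / 4))) ∂μ ≤
        ENNReal.ofReal (C * (1 - ‖y‖ ^ 2) ^ (-(1 / 4 : ℝ))) := by
  obtain ⟨C, hC, h⟩ := osc_int (E := E) μ m hm hdim
  refine ⟨C, hC, fun y hy => ?_⟩
  have hy1 := mem_ball_zero_iff.mp hy
  obtain ⟨i1, i2⟩ := h y hy1
  have ha : 0 < 1 - ‖y‖ ^ 2 := by nlinarith [norm_nonneg y]
  have e : ∀ x : E, ‖1 - ⟪x, y⟫_ℂ‖ ^ (-((m : ℝ) + 2 + 1 / 4)) =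
      (1 / ‖1 - ⟪x, y⟫_ℂ‖) ^ ((m + 2 : ℝ) + 1 / 4) := by
    intro x
    have e0 : 1 / ‖1 - ⟪x, y⟫_ℂ‖ = ‖1 - ⟪x, y⟫_ℂ‖⁻¹ := one_div _
    rw [e0, Real.inv_rpow (norm_nonneg _), Real.rpow_neg (norm_nonneg _)]
  simp only [e]
  rw [← ofReal_integral_eq_lintegral_ofReal i1
    (Eventually.of_forall fun x => Real.rpow_nonneg (by positivity) _)]
  apply ENNReal.ofReal_le_ofReal
  rw [Real.rpow_neg ha.le, ← div_eq_mul_inv, le_div_iff₀ (Real.rpow_pos_of_pos ha _), mul_comm]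
  exact i2

/-- The weight is bounded. Proof. `∑ IG2 (f j) x ≤ N C` (bounded functions have bounded invariant gradient: search `IG2` in PTGrad, TS/GdE, TS/Gr), `(1 - ‖x‖²)^M/(1 - ‖x‖²)^(m+2) = (1 - ‖x‖²)^(M-m-2) ≤ (2 |1 - ⟪x, y⟫|)^(M-m-2)`, so the integrand of `PP (nuE ..) (M + 1/4) y`
is `≤ C |1 - ⟪x, y⟫|^(-(m + 2 + 1/4))`; `kernel_quarter`. (See `nuE_OnB` for the manipulation of `nuE`, and the proof of `PP_eq` in Results/MP_ca0fc2_an/EnergyGrowth.lean: `integral_withDensity_eq_integral_toReal_smul`.) -/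
theorem Om_le (μ : Measure E) [μ.IsAddHaarMeasure] {m : ℕ} (hm : 1 ≤ m)
    (hdim : Module.finrank ℂ E = m + 1) {M : ℕ} (hM : m + 2 ≤ M) (N : ℕ) :
    ∃ C : ℝ, 0 < C ∧ ∀ f : Fin N → E → ℂ, (∀ j, DifferentiableOn ℂ (f j) (ball 0 1)) →
      (∀ j, ∀ z ∈ ball (0 : E) 1, ‖f j z‖ ≤ 1) →
      ∀ y ∈ ball (0 : E) 1, Om (nuE μ m M f) M y ≤ C := by
  obtain ⟨C, hC, hK⟩ := kernel_quarter (E := E) μ hm hdim
  refine ⟨N * 2 ^ (M - (m + 2)) * C + 1, by positivity, ?_⟩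
  intro f hf hfM y hy
  have hy1 := mem_ball_zero_iff.mp hy
  have ha : 0 < 1 - ‖y‖ ^ 2 := by nlinarith [norm_nonneg y]
  have hcF : Continuous fun x : E => ‖1 - ⟪x, y⟫_ℂ‖ := by fun_prop
  have hmF : Measurable fun x : E => ‖1 - ⟪x, y⟫_ℂ‖ ^ (-((M : ℝ) + 1 / 4)) :=
    hcF.measurable.pow_const _
  have hmS : Measurable fun x : E => ∑ j, IG2 (f j) x :=
    Finset.measurable_sum _ fun j _ => gd_IG_meas (f j)
  have hmn : Measurable fun x : E => 1 - ‖x‖ ^ 2 := by fun_prop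
  have hmD : Measurable fun x : E => ENNReal.ofReal
      ((1 - ‖x‖ ^ 2) ^ M * (∑ j, IG2 (f j) x) / (1 - ‖x‖ ^ 2) ^ (m + 2)) :=
    (((hmn.pow_const M).mul hmS).div (hmn.pow_const (m + 2))).ennreal_ofReal
  have hPP : PP (nuE μ m M f) ((M : ℝ) + 1 / 4) y ≤
      N * 2 ^ (M - (m + 2)) * (C * (1 - ‖y‖ ^ 2) ^ (-(1 / 4 : ℝ))) := by
    unfold PP
    rw [integral_eq_lintegral_of_nonneg_ae
      (Eventually.of_forall fun x => Real.rpow_nonneg (norm_nonneg _) _) hmF.aestronglyMeasurable]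
    have hB0 : 0 ≤ N * 2 ^ (M - (m + 2)) * (C * (1 - ‖y‖ ^ 2) ^ (-(1 / 4 : ℝ))) := by
      have : 0 ≤ (1 - ‖y‖ ^ 2) ^ (-(1 / 4 : ℝ)) := Real.rpow_nonneg ha.le _
      positivity
    apply ENNReal.toReal_le_of_le_ofReal hB0
    unfold nuE
    rw [lintegral_withDensity_eq_lintegral_mul _ hmD hmF.ennreal_ofReal]
    calc _ ≤ ∫⁻ x in ball (0 : E) 1, ENNReal.ofReal (N * 2 ^ (M - (m + 2))) *
          ENNReal.ofReal (‖1 - ⟪x, y⟫_ℂ‖ ^ (-((m : ℝ) + 2 + 1 / 4))) ∂μ := by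
          refine setLIntegral_mono' measurableSet_ball fun x hx => ?_
          rw [mem_ball_zero_iff] at hx
          have h0 : 0 < 1 - ‖x‖ ^ 2 := by nlinarith [norm_nonneg x]
          obtain ⟨a1, a2⟩ := geo_one_sub hx hy1
          have hD : 0 < ‖1 - ⟪x, y⟫_ℂ‖ := lt_of_lt_of_le a1 a2
          have heD : 1 - ‖x‖ ^ 2 ≤ 2 * ‖1 - ⟪x, y⟫_ℂ‖ := by
            nlinarith [norm_nonneg x, norm_nonneg y]
          have hs : ∑ j, IG2 (f j) x ≤ N := by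
            calc ∑ j, IG2 (f j) x ≤ ∑ _j : Fin N, (1 : ℝ) :=
                  Finset.sum_le_sum fun j _ => IG2_le (hf j) (hfM j) hx
              _ = N := by simp
          have hs0 : 0 ≤ ∑ j, IG2 (f j) x := Finset.sum_nonneg fun j _ => gd_IG_nonneg hx
          simp only [Pi.mul_apply]
          rw [← ENNReal.ofReal_mul (by positivity), ← ENNReal.ofReal_mul (by positivity)]
          apply ENNReal.ofReal_le_ofReal
          obtain ⟨r, hr⟩ : ∃ r : ℕ, M = m + 2 + r := ⟨M - (m + 2), by omega⟩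
          have hr2 : M - (m + 2) = r := by omega
          rw [hr2]
          have e1 : (1 - ‖x‖ ^ 2) ^ M * (∑ j, IG2 (f j) x) / (1 - ‖x‖ ^ 2) ^ (m + 2) =
              (1 - ‖x‖ ^ 2) ^ r * ∑ j, IG2 (f j) x := by
            rw [hr, pow_add]
            field_simp
          have e2 : ‖1 - ⟪x, y⟫_ℂ‖ ^ (-((m : ℝ) + 2 + 1 / 4)) =
              ‖1 - ⟪x, y⟫_ℂ‖ ^ r * ‖1 - ⟪x, y⟫_ℂ‖ ^ (-((M : ℝ) + 1 / 4)) := by
            rw [← Real.rpow_natCast, ← Real.rpow_add hD, hr]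
            congr 1
            push_cast
            ring
          rw [e1, e2]
          calc (1 - ‖x‖ ^ 2) ^ r * (∑ j, IG2 (f j) x) * ‖1 - ⟪x, y⟫_ℂ‖ ^ (-((M : ℝ) + 1 / 4))
              ≤ (2 * ‖1 - ⟪x, y⟫_ℂ‖) ^ r * N * ‖1 - ⟪x, y⟫_ℂ‖ ^ (-((M : ℝ) + 1 / 4)) := by
                gcongr
            _ = _ := by rw [mul_pow]; ring
      _ = ENNReal.ofReal (N * 2 ^ (M - (m + 2))) *
          ∫⁻ x in ball (0 : E) 1, ENNReal.ofReal (‖1 - ⟪x, y⟫_ℂ‖ ^ (-((m : ℝ) + 2 + 1 / 4))) ∂μ := by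
          rw [lintegral_const_mul _ (hcF.measurable.pow_const _).ennreal_ofReal]
      _ ≤ ENNReal.ofReal (N * 2 ^ (M - (m + 2))) *
          ENNReal.ofReal (C * (1 - ‖y‖ ^ 2) ^ (-(1 / 4 : ℝ))) := mul_le_mul_right (hK y hy) _
      _ = _ := by rw [← ENNReal.ofReal_mul (by positivity)]
  unfold Om
  have h1 : (1 - ‖y‖ ^ 2) ^ (1 / 4 : ℝ) * (1 - ‖y‖ ^ 2) ^ (-(1 / 4 : ℝ)) = 1 := by
    rw [← Real.rpow_add ha]
    norm_num
  calc (1 - ‖y‖ ^ 2) ^ (1 / 4 : ℝ) * PP (nuE μ m M f) ((M : ℝ) + 1 / 4) y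
      ≤ (1 - ‖y‖ ^ 2) ^ (1 / 4 : ℝ) *
        (N * 2 ^ (M - (m + 2)) * (C * (1 - ‖y‖ ^ 2) ^ (-(1 / 4 : ℝ)))) :=
        mul_le_mul_of_nonneg_left hPP (Real.rpow_nonneg ha.le _)
    _ = N * 2 ^ (M - (m + 2)) * C *
        ((1 - ‖y‖ ^ 2) ^ (1 / 4 : ℝ) * (1 - ‖y‖ ^ 2) ^ (-(1 / 4 : ℝ))) := by ring
    _ ≤ _ := by rw [h1]; linarith

end Pool.Agent.MPca0fc2.TE
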