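import Mathlib
import Pool.Agent.Lib.MP_ca0fc2_an.TE.G2
import Pool.Agent.Lib.MP_ca0fc2_an.TS.De

set_option autoImplicit false
set_option linter.unusedSectionVars false

open Metric Set MeasureTheory Filter Topology
open scoped InnerProductSpace ENNReal ContDiff

namespace Pool.Agent.MPca0fc2.TE

open Pool.Agent.MPca0fc2.PT
open Pool.Agent.MPca0fc2.QT
open Pool.Agent.MPca0fc2.TS

variable {E : Type*} [NormedAddCommGroup E] [InnerProductSpace ℂ E]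
variable [FiniteDimensional ℂ E] [MeasurableSpace E] [BorelSpace E]

private theorem G6_pt_le {P : E →L[ℂ] E} (h : Prj P) {z : E} (hz : ‖z‖ < 1) {t : ℝ} (h0 : 0 ≤ t)
    (h1 : t ≤ 1) : ‖pt P t z‖ ≤ ‖z‖ := by
  have e1 := Dp_eq h t z
  obtain ⟨_, e2, e3, _⟩ := Dp_anti h hz h0 h1 le_rfl
  have e4 : ‖pt P t z‖ ^ 2 ≤ ‖z‖ ^ 2 := by linarith
  exact (sq_le_sq₀ (norm_nonneg _) (norm_nonneg _)).1 e4

private theorem G6_mem {P : E →L[ℂ] E} (h : Prj P) {z : E} (hz : ‖z‖ < 1) {t : ℝ}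
    (ht : t ∈ Icc (0 : ℝ) 1) : pt P t z ∈ ball (0 : E) 1 :=
  mem_ball_zero_iff.2 ((G6_pt_le h hz ht.1 ht.2).trans_lt hz)

private theorem G6_ker {P : E →L[ℂ] E} (h : Prj P) {z : E} (hz : ‖z‖ < 1) {t : ℝ}
    (ht : t ∈ Icc (0 : ℝ) 1) : 0 < 1 - t ^ 2 * rr P z ^ 2 ∧
      0 ≤ rr P z / (1 - t ^ 2 * rr P z ^ 2) ∧
      rr P z / (1 - t ^ 2 * rr P z ^ 2) ≤ 1 / (1 - ‖z‖ ^ 2) := by
  obtain ⟨r0, r1, b0, _, e5⟩ := rr_facts h hz 1
  obtain ⟨_, e2, _, _⟩ := Dp_anti h hz ht.1 ht.2 le_rfl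
  have hb : 1 - ‖P z‖ ^ 2 ≤ 1 := by nlinarith [sq_nonneg ‖P z‖]
  have hr : rr P z ^ 2 < 1 := by nlinarith
  have h1 : 1 - ‖z‖ ^ 2 ≤ 1 - rr P z ^ 2 := by
    have h2 : 1 - ‖z‖ ^ 2 = (1 - ‖P z‖ ^ 2) * (1 - rr P z ^ 2) := by
      rw [← e2, e5]; ring
    rw [h2]
    nlinarith
  have ht2 : t ^ 2 ≤ 1 := by nlinarith [ht.1, ht.2]
  have h3 : t ^ 2 * rr P z ^ 2 ≤ rr P z ^ 2 := by nlinarith [sq_nonneg (rr P z)]
  have h4 : 0 < 1 - ‖z‖ ^ 2 := by nlinarith [norm_nonneg z]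
  have h5 : 0 < 1 - t ^ 2 * rr P z ^ 2 := by linarith
  refine ⟨h5, div_nonneg r0 h5.le, ?_⟩
  exact div_le_div₀ zero_le_one r1.le h4 (by linarith)

private theorem G6_kc {P : E →L[ℂ] E} (h : Prj P) {z : E} (hz : ‖z‖ < 1) :
    ContinuousOn (fun t : ℝ => rr P z / (1 - t ^ 2 * rr P z ^ 2)) (Icc 0 1) :=
  continuousOn_const.div (by fun_prop) fun t ht => (G6_ker h hz ht).1.ne'



private theorem G6_alg {r t : ℝ} (h1 : 1 + t * r ≠ 0) (h2 : 1 - t * r ≠ 0) :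
    (r / (1 + t * r) - -r / (1 - t * r)) / 2 = r / (1 - t ^ 2 * r ^ 2) := by
  have e : 1 - t ^ 2 * r ^ 2 = (1 + t * r) * (1 - t * r) := by ring
  have h3 : (1 + t * r) * (1 - t * r) ≠ 0 := mul_ne_zero h1 h2
  rw [e, div_sub_div _ _ h1 h2, div_div, div_eq_div_iff (mul_ne_zero h3 two_ne_zero) h3]
  ring

private theorem G6_pc (P : E →L[ℂ] E) (z : E) : Continuous fun t : ℝ => pt P t z := by
  unfold pt
  fun_prop

private theorem G6_cont {P : E →L[ℂ] E} (h : Prj P) {Φ : E → ℝ} (hc : ContinuousOn Φ (ball 0 1))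
    {z : E} (hz : ‖z‖ < 1) :
    ContinuousOn (fun t : ℝ => Φ (pt P t z) * (rr P z / (1 - t ^ 2 * rr P z ^ 2))) (Icc 0 1) :=
  (hc.comp (G6_pc P z).continuousOn fun _ ht => G6_mem h hz ht).mul (G6_kc h hz)

/-- `‖pt P t z‖ ≤ ‖z‖` (`Dp_eq`, `Dp_anti`), so the integrand is nonnegative (`Om_nonneg`). -/
theorem GI_nonneg {P : E →L[ℂ] E} (h : Prj P) {Φ : E → ℝ} (hΦ : ∀ y ∈ ball (0 : E) 1, 0 ≤ Φ y)
    {z : E} (hz : ‖z‖ < 1) : 0 ≤ GI Φ P z :=
  setIntegral_nonneg measurableSet_Icc fun _ ht =>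
    mul_nonneg (hΦ _ (G6_mem h hz ht)) (G6_ker h hz ht).2.1

/-- A continuous weight bounded by `C₀`: `GI ≤ C₀ ∫_0^1 r/(1 - t²r²) dt = C₀ artanh r = C₀/2 log((1 + r)/(1 - r))`, `r = rr P z` (fundamental theorem: the derivative of `t ↦ log((1 + r t)/(1 - r t))/2` is `r/(1 - t²r²)`). -/
theorem GI_log {P : E →L[ℂ] E} (h : Prj P) {Φ : E → ℝ} {C₀ : ℝ} (hc : ContinuousOn Φ (ball 0 1))
    (hΦ : ∀ y ∈ ball (0 : E) 1, Φ y ≤ C₀) {z : E} (hz : ‖z‖ < 1) :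
    GI Φ P z ≤ C₀ * (Real.log ((1 + rr P z) / (1 - rr P z)) / 2) := by
  obtain ⟨r0, r1, _, _, _⟩ := rr_facts h hz 1
  have hI : ∫ t in Icc (0 : ℝ) 1, rr P z / (1 - t ^ 2 * rr P z ^ 2) =
      Real.log ((1 + rr P z) / (1 - rr P z)) / 2 := by
    rw [integral_Icc_eq_integral_Ioc, ← intervalIntegral.integral_of_le zero_le_one]
    have hd : ∀ t ∈ uIcc (0 : ℝ) 1, HasDerivAt
        (fun t : ℝ => (Real.log (1 + t * rr P z) - Real.log (1 - t * rr P z)) / 2)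
        (rr P z / (1 - t ^ 2 * rr P z ^ 2)) t := by
      intro t ht
      rw [uIcc_of_le zero_le_one] at ht
      have h1 : 0 < 1 + t * rr P z := by nlinarith [ht.1]
      have h2 : 0 < 1 - t * rr P z := by nlinarith [ht.1, ht.2]
      have h3 : HasDerivAt (fun t : ℝ => 1 + t * rr P z) (rr P z) t := by
        have := ((hasDerivAt_id t).mul_const (rr P z)).const_add 1
        rwa [one_mul] at this
      have h4 : HasDerivAt (fun t : ℝ => 1 - t * rr P z) (-rr P z) t := by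
        have := ((hasDerivAt_id t).mul_const (rr P z)).const_sub 1
        rwa [one_mul] at this
      have h5 := ((h3.log h1.ne').sub (h4.log h2.ne')).div_const 2
      exact h5.congr_deriv (G6_alg h1.ne' h2.ne')
    have hi : IntervalIntegrable (fun t : ℝ => rr P z / (1 - t ^ 2 * rr P z ^ 2)) volume 0 1 :=
      ContinuousOn.intervalIntegrable_of_Icc zero_le_one (G6_kc h hz)
    rw [intervalIntegral.integral_eq_sub_of_hasDerivAt hd hi, Real.log_div (by linarith)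
      (by linarith)]
    simp
  rw [← hI, ← integral_const_mul]
  refine setIntegral_mono_on (G6_cont h hc hz).integrableOn_Icc
    ((G6_kc h hz).integrableOn_Icc.const_mul C₀) measurableSet_Icc fun t ht => ?_
  exact mul_le_mul_of_nonneg_right (hΦ _ (G6_mem h hz ht)) (G6_ker h hz ht).2.1

/-- Local bound: `1 - rr² = (1 - ‖z‖²)/(1 - ‖P z‖²) ≥ 1 - ‖z‖²` and `r/(1 - t²r²) ≤ 1/(1 - r²)`. -/
theorem GI_loc {P : E →L[ℂ] E} (h : Prj P) {Φ : E → ℝ} {C₀ : ℝ} (hC : 0 ≤ C₀)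
    (hc : ContinuousOn Φ (ball 0 1)) (hΦ : ∀ y ∈ ball (0 : E) 1, Φ y ≤ C₀) {z : E}
    (hz : ‖z‖ < 1) : GI Φ P z ≤ C₀ / (1 - ‖z‖ ^ 2) := by
  have h1 : GI Φ P z ≤ ∫ _t in Icc (0 : ℝ) 1, C₀ / (1 - ‖z‖ ^ 2) := by
    refine setIntegral_mono_on (G6_cont h hc hz).integrableOn_Icc (by simp)
      measurableSet_Icc fun t ht => ?_
    obtain ⟨_, k1, k2⟩ := G6_ker h hz ht
    calc Φ (pt P t z) * (rr P z / (1 - t ^ 2 * rr P z ^ 2))
        ≤ C₀ * (rr P z / (1 - t ^ 2 * rr P z ^ 2)) :=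
          mul_le_mul_of_nonneg_right (hΦ _ (G6_mem h hz ht)) k1
      _ ≤ C₀ * (1 / (1 - ‖z‖ ^ 2)) := mul_le_mul_of_nonneg_left k2 hC
      _ = C₀ / (1 - ‖z‖ ^ 2) := by ring
  simpa using h1

private theorem G6_rt_le {θ : ℝ} (h0 : 0 < θ) (h1 : θ < 1) (k : ℕ) (w : E) :
    ‖((rt θ k : ℝ) : ℂ) • w‖ ≤ ‖w‖ := by
  rw [norm_smul, Complex.norm_real, Real.norm_eq_abs]
  have h2 : 0 < θ ^ k := pow_pos h0 k
  have h3 : θ ^ k ≤ 1 := pow_le_one₀ h0.le h1.le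
  have h4 : |rt θ k| ≤ 1 := by
    unfold rt
    rw [abs_le]
    constructor <;> linarith
  exact mul_le_of_le_one_left (norm_nonneg _) h4

private theorem G6_rt {θ : ℝ} (h0 : 0 < θ) (h1 : θ < 1) (k : ℕ) {w : E}
    (hw : w ∈ ball (0 : E) 1) : ((rt θ k : ℝ) : ℂ) • w ∈ ball (0 : E) 1 :=
  mem_ball_zero_iff.2 ((G6_rt_le h0 h1 k w).trans_lt (mem_ball_zero_iff.1 hw))

/-- `Wk_eq`, `Om_cont` -/
theorem Wk_cont {ν : Measure E} (hν : OnB ν) (M : ℕ) {θ : ℝ} (h0 : 0 < θ) (h1 : θ < 1) (k : ℕ) :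
    ContinuousOn (Wk ν M θ k) (ball 0 1) := by
  have e : Wk ν M θ k = fun w => Om ν M ((rt θ k : ℂ) • w) := funext fun w => Wk_eq ν M θ k w
  rw [e]
  exact (Om_cont hν M).comp (by fun_prop) fun w hw => G6_rt h0 h1 k hw

/-- Convergence. Proof. `Wk ν M θ k (pt P t z) = Om ν M (rt θ k • pt P t z)`, the points `rt θ k • pt P t z`, `t ∈ [0, 1]`, stay in `closedBall 0 ‖z‖` where `Om` is continuous, so bounded; pointwise convergence (`rt θ k → 1`) and dominated convergence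
(`tendsto_integral_of_dominated_convergence`), dominating function constant times `r/(1 - r²)`. -/
theorem GI_lim {P : E →L[ℂ] E} (h : Prj P) {ν : Measure E} (hν : OnB ν) (M : ℕ) {θ : ℝ}
    (h0 : 0 < θ) (h1 : θ < 1) {z : E} (hz : ‖z‖ < 1) :
    Tendsto (fun k => GI (Wk ν M θ k) P z) atTop (𝓝 (GI (Om ν M) P z)) := by
  have hp := FiniteDimensional.proper ℂ E
  have hsub : closedBall (0 : E) ‖z‖ ⊆ ball (0 : E) 1 := closedBall_subset_ball hz
  obtain ⟨B, hB⟩ := (isCompact_closedBall (0 : E) ‖z‖).exists_bound_of_continuousOn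
    ((Om_cont hν M).mono hsub)
  have hB0 : 0 ≤ B := (norm_nonneg _).trans (hB 0 (by simp))
  have hz2 : 0 < 1 - ‖z‖ ^ 2 := by nlinarith [norm_nonneg z]
  unfold GI
  refine tendsto_integral_of_dominated_convergence (fun _ => B * (1 / (1 - ‖z‖ ^ 2))) ?_ ?_ ?_ ?_
  · intro k
    exact (G6_cont h (Wk_cont hν M h0 h1 k) hz).aestronglyMeasurable measurableSet_Icc
  · exact integrable_const _
  · intro k
    refine (ae_restrict_iff' measurableSet_Icc).2 (Eventually.of_forall fun t ht => ?_)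
    obtain ⟨_, k1, k2⟩ := G6_ker h hz ht
    rw [norm_mul, Real.norm_of_nonneg k1, Wk_eq]
    refine mul_le_mul (hB _ ?_) k2 k1 hB0
    exact mem_closedBall_zero_iff.2 ((G6_rt_le h0 h1 k _).trans (G6_pt_le h hz ht.1 ht.2))
  · refine (ae_restrict_iff' measurableSet_Icc).2 (Eventually.of_forall fun t ht => ?_)
    refine Tendsto.mul_const _ ?_
    have hm := G6_mem h hz ht
    have hca : ContinuousAt (Om ν M) (pt P t z) :=
      (Om_cont hν M).continuousAt (isOpen_ball.mem_nhds hm)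
    have hrt : Tendsto (fun k => ((rt θ k : ℝ) : ℂ) • pt P t z) atTop (𝓝 (pt P t z)) := by
      have h2 : Tendsto (fun k => rt θ k) atTop (𝓝 1) := by
        have h3 := (tendsto_pow_atTop_nhds_zero_of_lt_one h0.le h1).const_sub 1
        rw [sub_zero] at h3
        exact h3
      have h4 : Tendsto (fun k => ((rt θ k : ℝ) : ℂ)) atTop (𝓝 ((1 : ℝ) : ℂ)) :=
        (Complex.continuous_ofReal.tendsto 1).comp h2
      have h5 := h4.smul_const (pt P t z)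
      rwa [Complex.ofReal_one, one_smul] at h5
    have h6 := hca.tendsto.comp hrt
    refine h6.congr fun k => ?_
    rw [Function.comp_apply, Wk_eq]

end Pool.Agent.MPca0fc2.TE
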