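import Mathlib
import Pool.Agent.Lib.MP_ca0fc2_an.TWKest
import Pool.Agent.Lib.MP_ca0fc2_an.QSa

set_option autoImplicit false
set_option linter.unusedSectionVars false

open Metric Set MeasureTheory Filter Topology
open scoped InnerProductSpace ENNReal

namespace Pool.Agent.MPca0fc2.TW

open Pool.Agent.MPca0fc2.QT
open Pool.Agent.MPca0fc2.PT
open Pool.Agent.MPca0fc2.QS

variable {τ : ℕ}

variable {E : Type*} [NormedAddCommGroup E] [InnerProductSpace ℂ E]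
variable {V : Type*} [NormedAddCommGroup V] [NormedSpace ℂ V]

/-- The pointwise bound of the integrand, with the gain from the orthogonal slot, for the weight of exponent `τ + 4`.
Proof. Port of `QS.qs_point` (QSa.lean) in the same way as `TWKest.kest_point` is the port of `QT.kest_point` (QTKest.lean): exponents `3 → τ + 3`, `4 → τ + 4`, `m + 6 → m + (τ + 6)`. -/
theorem qs_pointw [FiniteDimensional ℂ E] {z ξ : E} (hz : ‖z‖ < 1) (hξ : ‖ξ‖ < 1) {r : ℝ}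
    (hr : 0 ≤ r) (hr1 : r < 1) {q : ℕ} {η : E → E [⋀^Fin (q + 2)]→L[ℝ] V} {Φ : ℝ} (hΦ : 0 ≤ Φ)
    (m : ℕ) (ha : ∀ w ∈ ball (0 : E) 1, Anti (η w))
    (hyp : ∀ w ∈ ball (0 : E) 1, ∀ v : Fin (q + 2) → E, ‖η w v‖ ≤
        Φ * (‖1 - ⟪w, z⟫_ℂ‖ / (1 - ‖w‖ ^ 2)) ^ (τ + 3) *
          (‖1 - ⟪w, z⟫_ℂ‖ / (1 - ‖z‖ ^ 2)) ^ (1 / 4 : ℝ) * ∏ i, gau (1 - ‖w‖ ^ 2) w (v i))
    (v : Fin (q + 1) → E) :
    ‖(((1 - r ^ 2) ^ (q + 1) * WW τ ξ) • (Pul τ m η z ((r : ℂ) • ξ)).curryLeft ξ) v‖ ≤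
      6 ^ (q + 2) * 2 * Φ * (∏ i, ‖v i‖) * 2 ^ ((m + 2 : ℝ) + 3 / 4) *
        (1 / (‖1 - ⟪ξ, -((r : ℂ) • z)⟫_ℂ‖ + (1 - r))) ^ ((m + 2 : ℝ) + 3 / 4) := by
  obtain ⟨c, u, hu, hξu, hun⟩ := perp_part ξ (v 0)
  set x : E := (r : ℂ) • ξ with hx
  have hxn : ‖x‖ = r * ‖ξ‖ := by
    rw [hx, norm_smul, Complex.norm_real, Real.norm_of_nonneg hr]
  have hxξ : ‖x‖ ≤ ‖ξ‖ := by rw [hxn]; nlinarith [norm_nonneg ξ]
  have hxr : ‖x‖ ≤ r := by rw [hxn]; nlinarith [norm_nonneg ξ]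
  have hx1 : ‖x‖ < 1 := by linarith
  have hxu : ⟪x, u⟫_ℂ = 0 := by rw [hx, inner_smul_left, hξu, mul_zero]
  have hne := one_add_ne hz hx1.le
  have hD : 0 < ‖1 + ⟪z, x⟫_ℂ‖ := norm_pos_iff.mpr hne
  have hw := gg_lt hz hx1
  have hwb : gg z x ∈ ball (0 : E) 1 := by rwa [mem_ball_zero_iff]
  have hz2 : 0 < 1 - ‖z‖ ^ 2 := by nlinarith [norm_nonneg z]
  have hx2 : 0 < 1 - ‖x‖ ^ 2 := by nlinarith [norm_nonneg x]
  have hw2 : 0 < 1 - ‖gg z x‖ ^ 2 := by nlinarith [norm_nonneg (gg z x)]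
  have e1 : ‖1 - ⟪gg z x, z⟫_ℂ‖ = (1 - ‖z‖ ^ 2) / ‖1 + ⟪z, x⟫_ℂ‖ := by
    have h1 : 1 - ⟪gg z x, z⟫_ℂ = (starRingEnd ℂ) (1 - ⟪z, gg z x⟫_ℂ) := by
      rw [map_sub, map_one, inner_conj_symm]
    rw [h1, inner_gg_self hz hx1.le, RCLike.norm_conj, norm_div, Complex.norm_real,
      Real.norm_of_nonneg hz2.le]
  have e2 := norm_gg hz hx1.le
  set D : ℝ := ‖1 + ⟪z, x⟫_ℂ‖ with hDdef
  set X : ℝ := 1 - ‖x‖ ^ 2 with hXdef
  have e3 : ‖1 - ⟪gg z x, z⟫_ℂ‖ / (1 - ‖gg z x‖ ^ 2) = D / X := by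
    rw [e1, e2]
    field_simp
  have e4 : ‖1 - ⟪gg z x, z⟫_ℂ‖ / (1 - ‖z‖ ^ 2) = 1 / D := by
    rw [e1]
    field_simp
  have hX2D : X ≤ 2 * D := by
    have h1 : 1 - ‖x‖ ≤ D := by
      have h2 := norm_sub_norm_le (1 : ℂ) (-⟪z, x⟫_ℂ)
      rw [norm_neg, norm_one, sub_neg_eq_add] at h2
      have h3 := norm_inner_le_norm (𝕜 := ℂ) z x
      have h4 : ‖z‖ * ‖x‖ ≤ ‖x‖ := by nlinarith [norm_nonneg x]
      linarith
    rw [hXdef]
    nlinarith [norm_nonneg x]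
  set v' : Fin (q + 1) → E := Function.update v 0 u with hv'
  set P : ℝ := ∏ i, ‖v i‖ with hPi
  have hPe : ∏ i, ‖v' i‖ ≤ P := by
    refine Finset.prod_le_prod (fun i _ => norm_nonneg _) fun i _ => ?_
    rw [hv']
    by_cases hi : i = 0
    · rw [hi, Function.update_self]
      exact hun
    · rw [Function.update_of_ne hi]
  have hPi0 : 0 ≤ P := Finset.prod_nonneg fun i _ => norm_nonneg _
  have hPA : Anti (Pul τ m η z x) := ((ha _ hwb).compHolo (gg' z x)).smul _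
  have hval : (((1 - r ^ 2) ^ (q + 1) * WW τ ξ) • (Pul τ m η z x).curryLeft ξ) v =
      ((1 - r ^ 2) ^ (q + 1) * WW τ ξ) • (((1 + ⟪z, x⟫_ℂ) ^ (m + (τ + 6)))⁻¹ •
        η (gg z x) (fun i => gg' z x (Matrix.vecCons ξ v' i))) := by
    rw [ContinuousAlternatingMap.smul_apply, anti_perp hPA ξ v c u hu]
    rfl
  have hW0 : 0 ≤ WW τ ξ := by
    have h1 : 0 ≤ 1 - ‖ξ‖ ^ 2 := by nlinarith [norm_nonneg ξ]
    unfold WW
    positivity
  have hr2 : 0 ≤ 1 - r ^ 2 := by nlinarith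
  have hr2X : 1 - r ^ 2 ≤ X := by
    rw [hXdef]
    nlinarith [norm_nonneg x]
  have hW : WW τ ξ ≤ X ^ (τ + 4) := by
    unfold WW
    have h1 : 0 ≤ 1 - ‖ξ‖ ^ 2 := by nlinarith [norm_nonneg ξ]
    have h2 : 1 - ‖ξ‖ ^ 2 ≤ X := by rw [hXdef]; nlinarith [norm_nonneg ξ, norm_nonneg x]
    exact pow_le_pow_left₀ h1 h2 _
  have hb := hyp (gg z x) hwb (fun i => gg' z x (Matrix.vecCons ξ v' i))
  rw [e3, e4] at hb
  have hsX : 0 < Real.sqrt X := Real.sqrt_pos.mpr hx2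
  have hprod : ∏ i, gau (1 - ‖gg z x‖ ^ 2) (gg z x) (gg' z x (Matrix.vecCons ξ v' i)) ≤
      (6 / X) ^ (q + 2) * Real.sqrt X * P := by
    rw [Fin.prod_univ_succ, Fin.prod_univ_succ]
    simp only [Matrix.cons_val_zero, Matrix.cons_val_succ]
    have h1 : gau (1 - ‖gg z x‖ ^ 2) (gg z x) (gg' z x ξ) ≤ 6 / X := by
      refine (gau_gg hz hx1).trans ?_
      rw [div_le_div_iff_of_pos_right hx2]
      linarith
    have h2 : gau (1 - ‖gg z x‖ ^ 2) (gg z x) (gg' z x (v' 0)) ≤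
        6 / X * Real.sqrt X * ‖v' 0‖ := by
      have h3 : v' 0 = u := by rw [hv', Function.update_self]
      rw [h3]
      refine (gau_gg_perp hz hx1 hxu).trans (le_of_eq ?_)
      have h4 : Real.sqrt X * Real.sqrt X = X := Real.mul_self_sqrt hx2.le
      rw [← hXdef]
      calc 6 * ‖u‖ / Real.sqrt X = 6 * ‖u‖ * (Real.sqrt X * Real.sqrt X) / (X * Real.sqrt X) := by
            rw [h4]
            field_simp
        _ = 6 / X * Real.sqrt X * ‖u‖ := by field_simp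
    have h5 : ∏ i : Fin q, gau (1 - ‖gg z x‖ ^ 2) (gg z x) (gg' z x (v' i.succ)) ≤
        ∏ i : Fin q, (6 / X) * ‖v' i.succ‖ := by
      refine Finset.prod_le_prod (fun i _ => kest_gau_nonneg hw2.le _ _) fun i _ => ?_
      refine (gau_gg hz hx1).trans (le_of_eq ?_)
      ring
    have h6 : (6 / X) ^ (q + 2) * Real.sqrt X * ∏ i, ‖v' i‖ =
        (6 / X) * ((6 / X * Real.sqrt X * ‖v' 0‖) * ∏ i : Fin q, (6 / X) * ‖v' i.succ‖) := by
      rw [Finset.prod_mul_distrib, Finset.prod_const, Finset.card_univ, Fintype.card_fin,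
        Fin.prod_univ_succ]
      ring
    have g1 := kest_gau_nonneg hw2.le (gg z x) (gg' z x ξ)
    have g2 := kest_gau_nonneg hw2.le (gg z x) (gg' z x (v' 0))
    have g3 : 0 ≤ ∏ i : Fin q, gau (1 - ‖gg z x‖ ^ 2) (gg z x) (gg' z x (v' i.succ)) :=
      Finset.prod_nonneg fun i _ => kest_gau_nonneg hw2.le _ _
    calc _ ≤ (6 / X) * ((6 / X * Real.sqrt X * ‖v' 0‖) * ∏ i : Fin q, (6 / X) * ‖v' i.succ‖) := by
          apply mul_le_mul h1 _ (mul_nonneg g2 g3) (by positivity)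
          exact mul_le_mul h2 h5 g3 (by positivity)
      _ = (6 / X) ^ (q + 2) * Real.sqrt X * ∏ i, ‖v' i‖ := h6.symm
      _ ≤ _ := by gcongr
  have hD4 : 0 ≤ (1 / D) ^ (1 / 4 : ℝ) := by positivity
  have hb2 : ‖η (gg z x) (fun i => gg' z x (Matrix.vecCons ξ v' i))‖ ≤
      Φ * (D / X) ^ (τ + 3) * (1 / D) ^ (1 / 4 : ℝ) * ((6 / X) ^ (q + 2) * Real.sqrt X * P) := by
    refine hb.trans ?_
    gcongr
  rw [hval, norm_smul, norm_smul, norm_inv, norm_pow, ← hDdef, Real.norm_of_nonneg (by positivity)]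
  have step1 : (1 - r ^ 2) ^ (q + 1) * WW τ ξ * ((D ^ (m + (τ + 6)))⁻¹ *
      ‖η (gg z x) (fun i => gg' z x (Matrix.vecCons ξ v' i))‖) ≤
      6 ^ (q + 2) * 2 * Φ * P * (1 / D) ^ ((m + 2 : ℝ) + 3 / 4) := by
    have hp : (1 / D) ^ ((m + 2 : ℝ) + 3 / 4) * Real.sqrt (1 / D) =
        (1 / D) ^ (m + 3) * (1 / D) ^ (1 / 4 : ℝ) := by
      rw [Real.sqrt_eq_rpow, ← Real.rpow_add (by positivity), ← Real.rpow_natCast,
        ← Real.rpow_add (by positivity)]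
      congr 1
      push_cast
      ring
    have hs2 : Real.sqrt X ≤ 2 * Real.sqrt D := by
      rw [show (2 : ℝ) = Real.sqrt 4 by rw [show (4 : ℝ) = 2 ^ 2 by norm_num]; simp,
        ← Real.sqrt_mul (by norm_num)]
      apply Real.sqrt_le_sqrt
      linarith
    have hsD : Real.sqrt D * Real.sqrt (1 / D) = 1 := by
      rw [← Real.sqrt_mul hD.le, mul_one_div_cancel hD.ne', Real.sqrt_one]
    calc (1 - r ^ 2) ^ (q + 1) * WW τ ξ * ((D ^ (m + (τ + 6)))⁻¹ *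
        ‖η (gg z x) (fun i => gg' z x (Matrix.vecCons ξ v' i))‖)
        ≤ X ^ (q + 1) * X ^ (τ + 4) * ((D ^ (m + (τ + 6)))⁻¹ *
          (Φ * (D / X) ^ (τ + 3) * (1 / D) ^ (1 / 4 : ℝ) *
            ((6 / X) ^ (q + 2) * Real.sqrt X * P))) := by gcongr
      _ = 6 ^ (q + 2) * Φ * P * Real.sqrt X * ((1 / D) ^ (m + 3) * (1 / D) ^ (1 / 4 : ℝ)) := by
          have e9 : D ^ (m + (τ + 6)) = D ^ (m + 3) * D ^ (τ + 3) := by ring
          have e10 : X ^ (τ + 4) = X ^ (τ + 3) * X := pow_succ _ _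
          rw [div_pow 6 X (q + 2), one_div_pow, div_pow D X, e9, e10]
          field_simp
          ring
      _ = 6 ^ (q + 2) * Φ * P * (1 / D) ^ ((m + 2 : ℝ) + 3 / 4) *
          (Real.sqrt X * Real.sqrt (1 / D)) := by
          rw [← hp]; ring
      _ ≤ 6 ^ (q + 2) * Φ * P * (1 / D) ^ ((m + 2 : ℝ) + 3 / 4) *
          (2 * Real.sqrt D * Real.sqrt (1 / D)) := by gcongr
      _ = _ := by rw [mul_assoc 2, hsD]; ring
  refine step1.trans ?_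
  have hD2 : ‖1 - ⟪ξ, -((r : ℂ) • z)⟫_ℂ‖ = D := by
    have h1 : 1 - ⟪ξ, -((r : ℂ) • z)⟫_ℂ = (starRingEnd ℂ) (1 + ⟪z, x⟫_ℂ) := by
      rw [map_add, map_one, inner_conj_symm, hx, inner_neg_right, inner_smul_right,
        inner_smul_left, Complex.conj_ofReal]
      ring
    rw [h1, RCLike.norm_conj]
  rw [hD2]
  have hDr : 1 - r ≤ D := by
    have h1 : ‖⟪z, x⟫_ℂ‖ ≤ r := by
      refine (norm_inner_le_norm (𝕜 := ℂ) z x).trans ?_
      nlinarith [norm_nonneg z, norm_nonneg x]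
    have h2 := norm_sub_norm_le (1 : ℂ) (-⟪z, x⟫_ℂ)
    rw [norm_neg, norm_one, sub_neg_eq_add] at h2
    linarith
  have h3 : 1 / D ≤ 2 * (1 / (D + (1 - r))) := by
    rw [mul_one_div, div_le_div_iff₀ hD (by linarith)]
    linarith
  have h4 : (1 / D) ^ ((m + 2 : ℝ) + 3 / 4) ≤
      2 ^ ((m + 2 : ℝ) + 3 / 4) * (1 / (D + (1 - r))) ^ ((m + 2 : ℝ) + 3 / 4) := by
    have hpos : 0 ≤ 1 / (D + (1 - r)) := by
      apply one_div_nonneg.mpr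
      linarith
    rw [← Real.mul_rpow (by norm_num) hpos]
    exact Real.rpow_le_rpow (by positivity) h3 (by positivity)
  calc 6 ^ (q + 2) * 2 * Φ * P * (1 / D) ^ ((m + 2 : ℝ) + 3 / 4)
      ≤ 6 ^ (q + 2) * 2 * Φ * P * (2 ^ ((m + 2 : ℝ) + 3 / 4) *
          (1 / (D + (1 - r))) ^ ((m + 2 : ℝ) + 3 / 4)) := by gcongr
    _ = _ := by ring


end Pool.Agent.MPca0fc2.TW
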