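import Mathlib
import Pool.Agent.Lib.MP_ca0fc2_an.TE.B1a
import Pool.Agent.Lib.MP_ca0fc2_an.QSb

set_option autoImplicit false
set_option linter.unusedSectionVars false

open Metric Set MeasureTheory Filter Topology
open scoped InnerProductSpace ENNReal

namespace Pool.Agent.MPca0fc2.TW

open Pool.Agent.MPca0fc2.QT
open Pool.Agent.MPca0fc2.PT
open Pool.Agent.MPca0fc2.QS

variable {τ : ℕ}

variable {E : Type*} [NormedAddCommGroup E] [InnerProductSpace ℂ E]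
variable {V : Type*} [NormedAddCommGroup V] [NormedSpace ℂ V]

variable [FiniteDimensional ℂ E] [MeasurableSpace E] [BorelSpace E]

/-- The operator on the unit ball, forms of degree at least two. Proof. Port of `QS.TTg` (QSb.lean), with `qs_pointw` for `qs_point` and `k4_cW_pos τ μ`. -/
theorem TTgw (μ : Measure E) [μ.IsAddHaarMeasure] {m : ℕ} (hm : 1 ≤ m)
    (hdim : Module.finrank ℂ E = m + 1) [FiniteDimensional ℂ V] (q : ℕ) :
    ∃ C : ℝ, 0 < C ∧ ∀ (η : E → E [⋀^Fin (q + 2)]→L[ℝ] V) (z : E) (Φ : ℝ), ‖z‖ < 1 → 0 ≤ Φ →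
      (∀ w ∈ ball (0 : E) 1, Anti (η w)) →
      (∀ w ∈ ball (0 : E) 1, ∀ v : Fin (q + 2) → E, ‖η w v‖ ≤
        Φ * (‖1 - ⟪w, z⟫_ℂ‖ / (1 - ‖w‖ ^ 2)) ^ (τ + 3) *
          (‖1 - ⟪w, z⟫_ℂ‖ / (1 - ‖z‖ ^ 2)) ^ (1 / 4 : ℝ) * ∏ i, gau (1 - ‖w‖ ^ 2) w (v i)) →
      ∀ v : Fin (q + 1) → E, ‖TT τ μ m η z v‖ ≤ C * Φ * ∏ i, gau (1 - ‖z‖ ^ 2) z (v i) := by
  have hprop : ProperSpace E := FiniteDimensional.proper ℂ E
  have hVc : CompleteSpace V := FiniteDimensional.complete ℂ V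
  have hc := k4_cW_pos τ μ
  set c₀ : ℝ := ((m + 2 : ℝ) + 1 / 2) * (4 ^ (m + 2) * μ.real (ball (0 : E) 1) * 2) with hc₀
  have hc₀0 : 0 ≤ c₀ := by
    have : 0 ≤ μ.real (ball (0 : E) 1) := measureReal_nonneg
    positivity
  set p : ℝ := (m + 2 : ℝ) + 3 / 4 with hp
  refine ⟨2 / cW τ μ * (6 ^ (q + 2) * 2 * 2 ^ p * c₀ * 4) * 3 ^ (q + 1) + 1, by positivity, ?_⟩
  intro η z Φ hz hΦ ha hyp v
  have hz2 : 0 < 1 - ‖z‖ ^ 2 := by nlinarith [norm_nonneg z]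
  set v' : Fin (q + 1) → E := fun i => gg' (-z) z (v i) with hv'
  have hv'n : ∀ i, ‖v' i‖ ≤ 3 * gau (1 - ‖z‖ ^ 2) z (v i) := by
    intro i
    obtain ⟨u, hu1, hu2⟩ := gg'_zero_surj hz (v i)
    have : v' i = u := by
      rw [hv']
      show gg' (-z) z (v i) = u
      rw [← hu1, gg'_inv hz]
    rw [this]
    exact hu2
  have hprod : ∏ i, ‖v' i‖ ≤ 3 ^ (q + 1) * ∏ i, gau (1 - ‖z‖ ^ 2) z (v i) := by
    refine (Finset.prod_le_prod (fun i _ => norm_nonneg _) fun i _ => hv'n i).trans (le_of_eq ?_)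
    rw [Finset.prod_mul_distrib, Finset.prod_const, Finset.card_univ, Fintype.card_fin]
  have hprod0 : 0 ≤ ∏ i, ‖v' i‖ := Finset.prod_nonneg fun i _ => norm_nonneg _
  have hgau0 : 0 ≤ ∏ i, gau (1 - ‖z‖ ^ 2) z (v i) :=
    Finset.prod_nonneg fun i _ => kest_gau_nonneg hz2.le _ _
  set F : ℝ × E → E [⋀^Fin (q + 1)]→L[ℝ] V := fun p =>
    ((1 - p.1 ^ 2) ^ (q + 1) * WW τ p.2) • (Pul τ m η z ((p.1 : ℂ) • p.2)).curryLeft p.2 with hF
  have hval : TT τ μ m η z v = (-(2 / cW τ μ) : ℝ) •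
      (∫ p in Icc (0 : ℝ) 1 ×ˢ ball (0 : E) 1, F p ∂(volume.prod μ)) v' := rfl
  set K : ℝ := 6 ^ (q + 2) * 2 * Φ * (∏ i, ‖v' i‖) * 2 ^ p with hK
  have hK0 : 0 ≤ K := by positivity
  have hmain : ‖(∫ p in Icc (0 : ℝ) 1 ×ˢ ball (0 : E) 1, F p ∂(volume.prod μ)) v'‖ ≤
      K * c₀ * 4 := by
    by_cases hint : Integrable F ((volume.prod μ).restrict (Icc (0 : ℝ) 1 ×ˢ ball (0 : E) 1))
    · have e1 : (∫ p in Icc (0 : ℝ) 1 ×ˢ ball (0 : E) 1, F p ∂(volume.prod μ)) v' =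
          ∫ p in Icc (0 : ℝ) 1 ×ˢ ball (0 : E) 1, F p v' ∂(volume.prod μ) :=
        ((ContinuousAlternatingMap.apply ℝ E V v').integral_comp_comm hint).symm
      rw [e1]
      have e2 := enorm_integral_le_lintegral_enorm
        (μ := (volume.prod μ).restrict (Icc (0 : ℝ) 1 ×ˢ ball (0 : E) 1)) (fun p => F p v')
      have e3 : ∫⁻ p in Icc (0 : ℝ) 1 ×ˢ ball (0 : E) 1, ‖F p v'‖ₑ ∂(volume.prod μ) ≤
          ENNReal.ofReal (K * c₀ * 4) := by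
        rw [← Measure.prod_restrict]
        refine (lintegral_prod_le _).trans ?_
        have hae : ∀ᵐ r ∂(volume.restrict (Icc (0 : ℝ) 1)),
            ∫⁻ ξ in ball (0 : E) 1, ‖F (r, ξ) v'‖ₑ ∂μ ≤
              ENNReal.ofReal (K * c₀) * ENNReal.ofReal ((1 / (1 - r)) ^ (3 / 4 : ℝ)) := by
          have h1 : ∀ᵐ r : ℝ ∂(volume.restrict (Icc (0 : ℝ) 1)), r ≠ 1 := by
            apply ae_restrict_of_ae
            rw [ae_iff]
            simp
          have h2 : ∀ᵐ r : ℝ ∂(volume.restrict (Icc (0 : ℝ) 1)), r ∈ Icc (0 : ℝ) 1 :=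
            ae_restrict_mem measurableSet_Icc
          filter_upwards [h1, h2] with r hr1 hr
          have hr1 : r < 1 := lt_of_le_of_ne hr.2 hr1
          have ht : 0 < 1 - r := by linarith
          have hz' : ‖-((r : ℂ) • z)‖ ≤ 1 := by
            rw [norm_neg, norm_smul, Complex.norm_real, Real.norm_of_nonneg hr.1]
            nlinarith [norm_nonneg z, hr.1, hr.2]
          have hk := SD.kernel_lint μ m hm hdim hz' ht
          calc ∫⁻ ξ in ball (0 : E) 1, ‖F (r, ξ) v'‖ₑ ∂μ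
              ≤ ∫⁻ ξ in ball (0 : E) 1, ENNReal.ofReal (K * (1 / (1 - r)) ^ (1 / 4 : ℝ)) *
                  ENNReal.ofReal
                  ((1 / (‖1 - ⟪ξ, -((r : ℂ) • z)⟫_ℂ‖ + (1 - r))) ^ ((m + 2 : ℝ) + 1 / 2)) ∂μ := by
                refine setLIntegral_mono' measurableSet_ball fun ξ hξ => ?_
                rw [mem_ball_zero_iff] at hξ
                rw [← ENNReal.ofReal_mul (by positivity), ← ofReal_norm]
                apply ENNReal.ofReal_le_ofReal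
                have hA0 : 0 < ‖1 - ⟪ξ, -((r : ℂ) • z)⟫_ℂ‖ + (1 - r) := by
                  have := norm_nonneg (1 - ⟪ξ, -((r : ℂ) • z)⟫_ℂ)
                  linarith
                have hA1 : 1 / (‖1 - ⟪ξ, -((r : ℂ) • z)⟫_ℂ‖ + (1 - r)) ≤ 1 / (1 - r) := by
                  apply one_div_le_one_div_of_le ht
                  have := norm_nonneg (1 - ⟪ξ, -((r : ℂ) • z)⟫_ℂ)
                  linarith
                refine (qs_pointw hz hξ hr.1 hr1 hΦ m ha hyp v').trans ?_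
                rw [← hp, ← hK, mul_assoc K]
                apply mul_le_mul_of_nonneg_left _ hK0
                have e5 : p = 1 / 4 + ((m + 2 : ℝ) + 1 / 2) := by rw [hp]; ring
                rw [e5, Real.rpow_add (by positivity)]
                gcongr
            _ = ENNReal.ofReal (K * (1 / (1 - r)) ^ (1 / 4 : ℝ)) * ∫⁻ ξ in ball (0 : E) 1,
                  ENNReal.ofReal
                  ((1 / (‖1 - ⟪ξ, -((r : ℂ) • z)⟫_ℂ‖ + (1 - r))) ^ ((m + 2 : ℝ) + 1 / 2)) ∂μ :=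
                lintegral_const_mul' _ _ ENNReal.ofReal_ne_top
            _ ≤ ENNReal.ofReal (K * (1 / (1 - r)) ^ (1 / 4 : ℝ)) *
                  ENNReal.ofReal (((m + 2 : ℝ) + 1 / 2) * (4 ^ (m + 2) *
                  μ.real (ball 0 1) * (2 * (1 / (1 - r)) ^ (1 / 2 : ℝ)))) := by gcongr
            _ = _ := by
                have h3 : 0 ≤ μ.real (ball (0 : E) 1) := measureReal_nonneg
                rw [← ENNReal.ofReal_mul (by positivity), ← ENNReal.ofReal_mul (by positivity)]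
                congr 1
                have e6 : (1 / (1 - r)) ^ (3 / 4 : ℝ) =
                    (1 / (1 - r)) ^ (1 / 4 : ℝ) * (1 / (1 - r)) ^ (1 / 2 : ℝ) := by
                  rw [← Real.rpow_add (by positivity)]
                  norm_num
                rw [e6, hc₀]
                ring
        refine (lintegral_mono_ae hae).trans ?_
        rw [lintegral_const_mul' _ _ ENNReal.ofReal_ne_top]
        rw [ENNReal.ofReal_mul (by positivity) (q := (4 : ℝ))]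
        gcongr
        exact radial_34
      have e4 := e2.trans e3
      rw [← ofReal_norm] at e4
      exact (ENNReal.ofReal_le_ofReal_iff (by positivity)).mp e4
    · rw [integral_undef hint]
      have h0 : ‖(0 : E [⋀^Fin (q + 1)]→L[ℝ] V) v'‖ = 0 := by simp
      rw [h0]
      positivity
  rw [hval, norm_smul, norm_neg, Real.norm_of_nonneg (by positivity)]
  calc 2 / cW τ μ * ‖(∫ p in Icc (0 : ℝ) 1 ×ˢ ball (0 : E) 1, F p ∂(volume.prod μ)) v'‖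
      ≤ 2 / cW τ μ * (K * c₀ * 4) := by gcongr
    _ = 2 / cW τ μ * (6 ^ (q + 2) * 2 * 2 ^ p * c₀ * 4) * Φ * ∏ i, ‖v' i‖ := by rw [hK]; ring
    _ ≤ 2 / cW τ μ * (6 ^ (q + 2) * 2 * 2 ^ p * c₀ * 4) * Φ *
        (3 ^ (q + 1) * ∏ i, gau (1 - ‖z‖ ^ 2) z (v i)) := by gcongr
    _ = (2 / cW τ μ * (6 ^ (q + 2) * 2 * 2 ^ p * c₀ * 4) * 3 ^ (q + 1)) * Φ *
        ∏ i, gau (1 - ‖z‖ ^ 2) z (v i) := by ring
    _ ≤ _ := by
        gcongr
        linarith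

/-- The same on the ball of radius `R`. Proof. Port of `QS.TRg` (QSb.lean). -/
theorem TRgw (μ : Measure E) [μ.IsAddHaarMeasure] {m : ℕ} (hm : 1 ≤ m)
    (hdim : Module.finrank ℂ E = m + 1) [FiniteDimensional ℂ V] (q : ℕ) :
    ∃ C : ℝ, 0 < C ∧ ∀ (R : ℝ) (η : E → E [⋀^Fin (q + 2)]→L[ℝ] V) (z : E) (Φ : ℝ),
      0 < R → (∀ w ∈ ball (0 : E) R, Anti (η w)) → ‖z‖ < R → 0 ≤ Φ →
      (∀ w ∈ ball (0 : E) R, ∀ v : Fin (q + 2) → E, ‖η w v‖ ≤
        Φ * (‖((R ^ 2 : ℝ) : ℂ) - ⟪w, z⟫_ℂ‖ / (R ^ 2 - ‖w‖ ^ 2)) ^ (τ + 3) *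
          (‖((R ^ 2 : ℝ) : ℂ) - ⟪w, z⟫_ℂ‖ / (R ^ 2 - ‖z‖ ^ 2)) ^ (1 / 4 : ℝ) *
            ∏ i, gau (R ^ 2 - ‖w‖ ^ 2) w (v i)) →
      ∀ v : Fin (q + 1) → E,
        ‖TR τ μ m R η z v‖ ≤ C * Φ * ∏ i, gau (R ^ 2 - ‖z‖ ^ 2) z (v i) := by
  obtain ⟨C, hC, hT⟩ := TTgw (τ := τ) (V := V) μ hm hdim q
  refine ⟨C, hC, ?_⟩
  intro R η z Φ hR ha hz hΦ hyp v
  have hRC : (R : ℂ) ≠ 0 := by exact_mod_cast hR.ne'
  have hRn : ‖(R : ℂ)‖ = R := by rw [Complex.norm_real, Real.norm_of_nonneg hR.le]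
  set z' : E := ((R⁻¹ : ℝ) : ℂ) • z with hz'
  have hzz' : (R : ℂ) • z' = z := by
    rw [hz', smul_smul]
    push_cast
    rw [mul_inv_cancel₀ hRC, one_smul]
  have hz'n : R * ‖z'‖ = ‖z‖ := by
    have h1 : ‖(R : ℂ) • z'‖ = R * ‖z'‖ := by rw [norm_smul, hRn]
    rw [hzz'] at h1
    exact h1.symm
  have hz'1 : ‖z'‖ < 1 := by
    by_contra hcon
    push Not at hcon
    nlinarith
  have hgs : ∀ w x : E, ‖w‖ < 1 → gau (R ^ 2 - ‖(R : ℂ) • w‖ ^ 2) ((R : ℂ) • w) x =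
      R⁻¹ * gau (1 - ‖w‖ ^ 2) w x := by
    intro w x hw
    have hw2 : 0 < 1 - ‖w‖ ^ 2 := by nlinarith [norm_nonneg w]
    have hRw : ‖(R : ℂ) • w‖ = R * ‖w‖ := by rw [norm_smul, hRn]
    have e2 : R ^ 2 - ‖(R : ℂ) • w‖ ^ 2 = R ^ 2 * (1 - ‖w‖ ^ 2) := by
      rw [hRw]; ring
    unfold gau
    rw [e2, inner_smul_left, Complex.conj_ofReal, norm_mul, hRn, Real.sqrt_mul (by positivity),
      Real.sqrt_sq hR.le]
    have hs : 0 < Real.sqrt (1 - ‖w‖ ^ 2) := Real.sqrt_pos.mpr hw2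
    field_simp
  have hgz : ∀ x : E, gau (1 - ‖z'‖ ^ 2) z' x = R * gau (R ^ 2 - ‖z‖ ^ 2) z x := by
    intro x
    have h := hgs z' x hz'1
    rw [hzz'] at h
    rw [h]
    field_simp
  have hball : ∀ w ∈ ball (0 : E) 1, (R : ℂ) • w ∈ ball (0 : E) R := by
    intro w hw
    rw [mem_ball_zero_iff] at hw ⊢
    rw [norm_smul, hRn]
    nlinarith
  have h := hT (fun x => η ((R : ℂ) • x)) z' (Φ * (R⁻¹) ^ (q + 2)) hz'1 (by positivity)
    (fun w hw => ha _ (hball w hw)) ?_ v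
  · have hval : TR τ μ m R η z v = R • TT τ μ m (fun x => η ((R : ℂ) • x)) z' v := rfl
    rw [hval, norm_smul, Real.norm_of_nonneg hR.le]
    calc R * ‖TT τ μ m (fun x => η ((R : ℂ) • x)) z' v‖
        ≤ R * (C * (Φ * (R⁻¹) ^ (q + 2)) * ∏ i, gau (1 - ‖z'‖ ^ 2) z' (v i)) := by gcongr
      _ = R * (C * (Φ * (R⁻¹) ^ (q + 2)) * (R ^ (q + 1) * ∏ i, gau (R ^ 2 - ‖z‖ ^ 2) z (v i))) := by
          simp only [hgz]
          rw [Finset.prod_mul_distrib, Finset.prod_const, Finset.card_univ, Fintype.card_fin]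
      _ = _ := by
          rw [inv_pow]
          field_simp
          ring
  · intro w hw x
    rw [mem_ball_zero_iff] at hw
    have hw2 : 0 < 1 - ‖w‖ ^ 2 := by nlinarith [norm_nonneg w]
    have hRw : ‖(R : ℂ) • w‖ = R * ‖w‖ := by rw [norm_smul, hRn]
    have hmem : (R : ℂ) • w ∈ ball (0 : E) R := by
      rw [mem_ball_zero_iff, hRw]
      nlinarith
    have hb := hyp ((R : ℂ) • w) hmem x
    have hin : ⟪(R : ℂ) • w, z⟫_ℂ = ((R ^ 2 : ℝ) : ℂ) * ⟪w, z'⟫_ℂ := by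
      rw [← hzz', inner_smul_left, inner_smul_right, Complex.conj_ofReal]
      push_cast
      ring
    have e1 : ‖((R ^ 2 : ℝ) : ℂ) - ⟪(R : ℂ) • w, z⟫_ℂ‖ = R ^ 2 * ‖1 - ⟪w, z'⟫_ℂ‖ := by
      rw [hin]
      have : ((R ^ 2 : ℝ) : ℂ) - ((R ^ 2 : ℝ) : ℂ) * ⟪w, z'⟫_ℂ =
          ((R ^ 2 : ℝ) : ℂ) * (1 - ⟪w, z'⟫_ℂ) := by ring
      rw [this, norm_mul, Complex.norm_real, Real.norm_of_nonneg (by positivity)]
    have e2 : R ^ 2 - ‖(R : ℂ) • w‖ ^ 2 = R ^ 2 * (1 - ‖w‖ ^ 2) := by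
      rw [hRw]; ring
    have e3 : R ^ 2 - ‖z‖ ^ 2 = R ^ 2 * (1 - ‖z'‖ ^ 2) := by
      rw [← hz'n]; ring
    have hR2 : (R ^ 2 : ℝ) ≠ 0 := by positivity
    refine hb.trans (le_of_eq ?_)
    simp only [hgs w _ hw]
    rw [e1, e2, e3, mul_div_mul_left _ _ hR2, mul_div_mul_left _ _ hR2, Finset.prod_mul_distrib,
      Finset.prod_const, Finset.card_univ, Fintype.card_fin]
    ring

end Pool.Agent.MPca0fc2.TW
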