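import Mathlib
import Pool.Agent.Lib.MP_ca0fc2_an.Mg.G122
import Pool.Agent.Lib.MP_ca0fc2_an.TS.Ha

set_option autoImplicit false
set_option linter.unusedSectionVars false

open Metric Set MeasureTheory Filter Topology
open scoped InnerProductSpace ENNReal ContDiff

namespace Pool.Agent.MPca0fc2.TE

open Pool.Agent.MPca0fc2.PT
open Pool.Agent.MPca0fc2.QT
open Pool.Agent.MPca0fc2.TS

variable {E : Type*} [NormedAddCommGroup E] [InnerProductSpace ℂ E]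
variable [MeasurableSpace E] [BorelSpace E]

private theorem B2_int_low {x y : E} (hx : x ∈ ball (0 : E) 1) :
    1 - ‖y‖ ≤ ‖1 - ⟪x, y⟫_ℂ‖ := by
  have h1 : ‖⟪x, y⟫_ℂ‖ ≤ ‖x‖ * ‖y‖ := norm_inner_le_norm x y
  have hx1 : ‖x‖ < 1 := by simpa using hx
  have h2 : ‖x‖ * ‖y‖ ≤ 1 * ‖y‖ := mul_le_mul_of_nonneg_right hx1.le (norm_nonneg y)
  have h3 : ‖(1 : ℂ)‖ - ‖⟪x, y⟫_ℂ‖ ≤ ‖1 - ⟪x, y⟫_ℂ‖ := norm_sub_norm_le _ _
  rw [norm_one] at h3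
  linarith

private theorem B2_int_ae {ν : Measure E} (h : OnB ν) : ∀ᵐ x ∂ν, x ∈ ball (0 : E) 1 := by
  rw [ae_iff]
  exact h.supp

private theorem B2_int {ν : Measure E} (h : OnB ν) {p : ℝ} (hp : 0 ≤ p) {y : E} (hy : ‖y‖ < 1) :
    Integrable (fun x => ‖1 - ⟪x, y⟫_ℂ‖ ^ (-p)) ν := by
  have hfin := h.fin
  have hc : Continuous fun x : E => ‖1 - ⟪x, y⟫_ℂ‖ := by fun_prop
  have hm : Measurable fun x : E => ‖1 - ⟪x, y⟫_ℂ‖ ^ (-p) := hc.measurable.pow_const _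
  refine Integrable.of_bound hm.aestronglyMeasurable ((1 - ‖y‖) ^ (-p)) ?_
  filter_upwards [B2_int_ae h] with x hx
  rw [Real.norm_of_nonneg (Real.rpow_nonneg (norm_nonneg _) _)]
  exact Real.rpow_le_rpow_of_nonpos (by linarith) (B2_int_low hx) (by linarith)

private theorem B2_PP_le {ν : Measure E} (h : OnB ν) {p : ℝ} (hp : 0 ≤ p) {y y' : E} (hy : ‖y‖ < 1)
    (hy' : ‖y'‖ < 1) {c : ℝ} (hc : 0 < c)
    (hcc : ∀ x ∈ ball (0 : E) 1, ‖1 - ⟪x, y⟫_ℂ‖ ≤ c * ‖1 - ⟪x, y'⟫_ℂ‖) :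
    PP ν p y' ≤ c ^ p * PP ν p y := by
  unfold PP
  rw [← integral_const_mul]
  refine integral_mono_ae (B2_int h hp hy') ((B2_int h hp hy).const_mul _) ?_
  filter_upwards [B2_int_ae h] with x hx
  have h1 : 0 < ‖1 - ⟪x, y⟫_ℂ‖ := lt_of_lt_of_le (by linarith) (B2_int_low (y := y) hx)
  have h2 : ‖1 - ⟪x, y⟫_ℂ‖ / c ≤ ‖1 - ⟪x, y'⟫_ℂ‖ := by
    rw [div_le_iff₀ hc, mul_comm]
    exact hcc x hx
  calc ‖1 - ⟪x, y'⟫_ℂ‖ ^ (-p) ≤ (‖1 - ⟪x, y⟫_ℂ‖ / c) ^ (-p) :=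
        Real.rpow_le_rpow_of_nonpos (by positivity) h2 (by linarith)
    _ = c ^ p * ‖1 - ⟪x, y⟫_ℂ‖ ^ (-p) := by
        rw [Real.div_rpow h1.le hc.le, Real.rpow_neg hc.le, div_inv_eq_mul, mul_comm]

private theorem B2_Ik (ν : Measure E) (M : ℕ) (θ : ℝ) (k : ℕ) (w : E) : 0 ≤ Ik ν M θ k w :=
  integral_nonneg fun _ => Real.rpow_nonneg (norm_nonneg _) _

/-- the real inequality behind `Wk_har` -/
private theorem B2_real {P L d e D K Q G Iw Iz : ℝ} {M : ℕ} (hP : 0 < P) (hL : 0 < L)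
    (he : 0 < e) (hd : 0 < d) (hD : 0 < D) (hK : 1 ≤ K) (hG : 1 ≤ G) (hQ : Q = D / e)
    (heD : e ≤ 2 * D) (hPD : P ≤ K * D) (hdL : d ≤ 17 * L)
    (hIw : 0 ≤ Iw) (hIz : 0 ≤ Iz) (hI : Iw ≤ (G * Q) ^ ((M : ℝ) + 1 / 4) * Iz) :
    P ^ (1 / 4 : ℝ) * Iw ≤
      (17 * K * G ^ (M + 1) * 8) * (L ^ (1 / 4 : ℝ) * Iz) * Q ^ (M + 3) *
        (D / d) ^ (1 / 4 : ℝ) := by
  have hQ0 : 0 < Q := by rw [hQ]; positivity
  have hQ2 : 1 ≤ 2 * Q := by rw [hQ, ← mul_div_assoc, le_div_iff₀ he]; linarith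
  have hPL : P ≤ 17 * K * (L * (D / d)) := by
    refine hPD.trans ?_
    have : D ≤ 17 * (L * (D / d)) := by
      have h1 : d * (D / d) = D := by field_simp
      have h2 : 0 < D / d := by positivity
      nlinarith
    nlinarith
  have h3 : P ^ (1 / 4 : ℝ) ≤ (17 * K) * (L ^ (1 / 4 : ℝ) * (D / d) ^ (1 / 4 : ℝ)) := by
    calc P ^ (1 / 4 : ℝ) ≤ (17 * K * (L * (D / d))) ^ (1 / 4 : ℝ) :=
          Real.rpow_le_rpow hP.le hPL (by norm_num)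
      _ = (17 * K) ^ (1 / 4 : ℝ) * (L ^ (1 / 4 : ℝ) * (D / d) ^ (1 / 4 : ℝ)) := by
          rw [Real.mul_rpow (by positivity) (by positivity), Real.mul_rpow hL.le (by positivity)]
      _ ≤ (17 * K) * (L ^ (1 / 4 : ℝ) * (D / d) ^ (1 / 4 : ℝ)) := by
          have c1 : (17 * K) ^ (1 / 4 : ℝ) ≤ 17 * K := by
            calc _ ≤ (17 * K) ^ (1 : ℝ) :=
                  Real.rpow_le_rpow_of_exponent_le (by linarith) (by norm_num)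
              _ = _ := Real.rpow_one _
          gcongr
  have h4 : (G * Q) ^ ((M : ℝ) + 1 / 4) ≤ G ^ (M + 1) * (8 * Q ^ (M + 3)) := by
    rw [Real.mul_rpow (by linarith) hQ0.le]
    have c1 : G ^ ((M : ℝ) + 1 / 4) ≤ G ^ (M + 1) := by
      rw [← Real.rpow_natCast]
      push_cast
      exact Real.rpow_le_rpow_of_exponent_le hG (by linarith)
    have c2 : Q ^ ((M : ℝ) + 1 / 4) ≤ 8 * Q ^ (M + 3) := by
      have e1 : Q ^ ((M : ℝ) + 1 / 4) = Q ^ (M + 3) * Q ^ (-(11 / 4) : ℝ) := by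
        rw [← Real.rpow_natCast, ← Real.rpow_add hQ0]
        congr 1
        push_cast
        ring
      have e2 : Q ^ (-(11 / 4) : ℝ) ≤ 8 := by
        have e3 : Q ^ (-(11 / 4) : ℝ) ≤ (1 / 2 : ℝ) ^ (-(11 / 4) : ℝ) :=
          Real.rpow_le_rpow_of_nonpos (by norm_num) (by linarith) (by norm_num)
        refine e3.trans ?_
        have e4 : (1 / 2 : ℝ) ^ (-(11 / 4) : ℝ) = 2 ^ (11 / 4 : ℝ) := by
          rw [one_div, Real.inv_rpow (by norm_num), ← Real.rpow_neg (by norm_num)]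
          norm_num
        rw [e4]
        calc (2 : ℝ) ^ (11 / 4 : ℝ) ≤ 2 ^ (3 : ℝ) :=
              Real.rpow_le_rpow_of_exponent_le (by norm_num) (by norm_num)
          _ = 8 := by norm_num
      rw [e1, mul_comm]
      gcongr
    gcongr
  calc P ^ (1 / 4 : ℝ) * Iw ≤ ((17 * K) * (L ^ (1 / 4 : ℝ) * (D / d) ^ (1 / 4 : ℝ))) *
        ((G ^ (M + 1) * (8 * Q ^ (M + 3))) * Iz) := by
        exact mul_le_mul h3 (hI.trans (mul_le_mul_of_nonneg_right h4 hIz)) hIw (by positivity)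
    _ = _ := by ring

/-- The Harnack inequality of the first weight; `D = |R² - ⟪w, z⟫|`, `e = R² - |w|²`, `d = R² - |z|²`, `Q = D/e ≥ 1/2`.
Proof. Copy the proof of `TS.Uk_harnack` (TS/Ha.lean): the facts `cmq_elem`, `cmq_dlw` (`e ≤ 17 dl w`), `cmq_dlz` (comparison of `dl z` and `d`), `cmq_den`, and
`hI : Ik w ≤ ((34 (1 + 9/c₀)) Q) ^ (M + 1/4) * Ik z`. Then `Wk w = dl(w)^(1/4) Ik w`, `dl w ≤ e + 8 θ^k` (elementary: `1 - rt² ‖w‖² ≤ (R² - ‖w‖²) + (1 - rt²)‖w‖²`, `1 ≤ R²`, `‖w‖ < R ≤ 7/4`) `≤ (2 + 8/c₀) D`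
(`e ≤ 2 D`, `c₀ θ^k ≤ D`), and `d ≤ C dl z` (`cmq_dlw` at `z`): `(dl w / dl z)^(1/4) ≤ C (D/d)^(1/4)`; `Q^(M + 1/4) ≤ 8 Q^(M + 3)` since `2 Q ≥ 1`. -/
theorem Wk_har {θ : ℝ} (h0 : 0 < θ) (h1 : θ < 1) (M : ℕ) {c₀ : ℝ} (hc₀ : 0 < c₀) : ∃ C : ℝ, 0 < C ∧
    ∀ ν : Measure E, OnB ν → ∀ (k : ℕ) (R : ℝ) (z w : E), 1 ≤ R → R ≤ RC θ k →
      ‖z‖ + c₀ * θ ^ k ≤ R → ‖w‖ < R →
      Wk ν M θ k w ≤ C * Wk ν M θ k z *
        (‖((R ^ 2 : ℝ) : ℂ) - ⟪w, z⟫_ℂ‖ / (R ^ 2 - ‖w‖ ^ 2)) ^ (M + 3) *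
        (‖((R ^ 2 : ℝ) : ℂ) - ⟪w, z⟫_ℂ‖ / (R ^ 2 - ‖z‖ ^ 2)) ^ (1 / 4 : ℝ) := by
  refine ⟨17 * (2 + 8 / c₀) * (34 * (1 + 9 / c₀)) ^ (M + 1) * 8, by positivity, ?_⟩
  intro ν hν k R z w hR1 hR hz hw
  have hθk : 0 < θ ^ k := pow_pos h0 k
  have hθ1 : θ ^ k ≤ 1 := pow_le_one₀ h0.le h1.le
  have hzR : ‖z‖ < R := by nlinarith
  have hwC : ‖w‖ < RC θ k := lt_of_lt_of_le hw hR
  have hzC : ‖z‖ < RC θ k := lt_of_lt_of_le hzR hR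
  obtain ⟨f1, f2, f3, f4, f5, f6⟩ := cmq_elem h0 h1 hc₀ hR1 hR hz hw
  have g1 := cmq_dlw h0 h1 hR1 hR hw (le_refl k)
  have g2 := cmq_dlw h0 h1 hR1 hR hzR (le_refl k)
  have g4 := cmq_den h0 h1 hR1 hR hzR.le hw.le (le_refl k) (le_refl k)
  have hdw := dl_pos h0 h1 hwC
  have hdz := dl_pos h0 h1 hzC
  have hR74 : R ≤ 7 / 4 := by
    unfold RC at hR
    have : θ ^ (k + 1) ≤ 1 := pow_le_one₀ h0.le h1.le
    linarith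
  set D : ℝ := ‖((R ^ 2 : ℝ) : ℂ) - ⟪w, z⟫_ℂ‖ with hDd
  have hD : 0 < D := lt_of_lt_of_le (by positivity) f6
  have hθD : θ ^ k ≤ D / c₀ := by rw [le_div_iff₀ hc₀]; linarith
  have hden : ‖1 - ⟪(rt θ k : ℂ) • w, (rt θ k : ℂ) • z⟫_ℂ‖ ≤ (1 + 9 / c₀) * D := by
    refine g4.trans ?_
    calc D + 9 * θ ^ k ≤ D + 9 * (D / c₀) := by linarith
      _ = _ := by ring
  have hPD : dl θ k w ≤ (2 + 8 / c₀) * D := by
    have a1 : dl θ k w ≤ (R ^ 2 - ‖w‖ ^ 2) + 8 * θ ^ k := by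
      unfold dl rt
      have b1 : ‖w‖ ^ 2 ≤ 4 := by nlinarith [norm_nonneg w]
      have b2 : 1 - (1 - θ ^ k) ^ 2 ≤ 2 * θ ^ k := by nlinarith [sq_nonneg (θ ^ k)]
      have b3 : (1 - (1 - θ ^ k) ^ 2) * ‖w‖ ^ 2 ≤ 2 * θ ^ k * 4 := by
        have : 0 ≤ 1 - (1 - θ ^ k) ^ 2 := by nlinarith
        exact mul_le_mul b2 b1 (by positivity) (by positivity)
      nlinarith
    calc dl θ k w ≤ (R ^ 2 - ‖w‖ ^ 2) + 8 * θ ^ k := a1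
      _ ≤ 2 * D + 8 * (D / c₀) := by linarith
      _ = _ := by ring
  have hrw := rt_smul_mem h0 h1 (Nat.le_succ k) hwC
  have hrz := rt_smul_mem h0 h1 (Nat.le_succ k) hzC
  rw [mem_ball_zero_iff] at hrw hrz
  have hI : Ik ν M θ k w ≤
      ((34 * (1 + 9 / c₀)) * (D / (R ^ 2 - ‖w‖ ^ 2))) ^ ((M : ℝ) + 1 / 4) * Ik ν M θ k z := by
    refine B2_PP_le hν (by positivity) hrz hrw (by positivity) ?_
    intro x hx
    rw [mem_ball_zero_iff] at hx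
    have t1 := ha_three hx hrw hrz
    have t2 : 1 - ‖(rt θ k : ℂ) • w‖ ^ 2 = dl θ k w := by
      unfold dl
      rw [age_norm_smul h0 h1]
      ring
    rw [t2] at t1
    have t3 : dl θ k w * ‖1 - ⟪x, (rt θ k : ℂ) • z⟫_ℂ‖ ≤
        2 * ‖1 - ⟪x, (rt θ k : ℂ) • w⟫_ℂ‖ * ((1 + 9 / c₀) * D) :=
      t1.trans (mul_le_mul_of_nonneg_left hden (by positivity))
    have t4 : (R ^ 2 - ‖w‖ ^ 2) * ‖1 - ⟪x, (rt θ k : ℂ) • z⟫_ℂ‖ ≤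
        34 * ‖1 - ⟪x, (rt θ k : ℂ) • w⟫_ℂ‖ * ((1 + 9 / c₀) * D) := by
      calc _ ≤ 17 * dl θ k w * ‖1 - ⟪x, (rt θ k : ℂ) • z⟫_ℂ‖ :=
            mul_le_mul_of_nonneg_right g1 (norm_nonneg _)
        _ = 17 * (dl θ k w * ‖1 - ⟪x, (rt θ k : ℂ) • z⟫_ℂ‖) := by ring
        _ ≤ 17 * (2 * ‖1 - ⟪x, (rt θ k : ℂ) • w⟫_ℂ‖ * ((1 + 9 / c₀) * D)) := by gcongr
        _ = _ := by ring
    calc ‖1 - ⟪x, (rt θ k : ℂ) • z⟫_ℂ‖ =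
          ((R ^ 2 - ‖w‖ ^ 2) * ‖1 - ⟪x, (rt θ k : ℂ) • z⟫_ℂ‖) / (R ^ 2 - ‖w‖ ^ 2) := by
            field_simp
      _ ≤ (34 * ‖1 - ⟪x, (rt θ k : ℂ) • w⟫_ℂ‖ * ((1 + 9 / c₀) * D)) / (R ^ 2 - ‖w‖ ^ 2) := by
            gcongr
      _ = _ := by ring
  have hK : 1 ≤ 2 + 8 / c₀ := by
    have : 0 < 8 / c₀ := by positivity
    linarith
  have hG : 1 ≤ 34 * (1 + 9 / c₀) := by
    have : 0 < 9 / c₀ := by positivity
    linarith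
  exact B2_real hdw hdz f2 f3 hD hK hG rfl f4 hPD g2 (B2_Ik _ _ _ _ _) (B2_Ik _ _ _ _ _) hI

end Pool.Agent.MPca0fc2.TE
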