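import Mathlib
import Pool.Agent.Lib.MP_ca0fc2_an.TE.B1
import Pool.Agent.Lib.MP_ca0fc2_an.TE.B2
import Pool.Agent.Lib.MP_ca0fc2_an.TS.De

set_option autoImplicit false
set_option linter.unusedSectionVars false

open Metric Set MeasureTheory Filter Topology
open scoped InnerProductSpace ENNReal ContDiff

namespace Pool.Agent.MPca0fc2.TE

open Pool.Agent.MPca0fc2.PT
open Pool.Agent.MPca0fc2.QT
open Pool.Agent.MPca0fc2.TS

variable {E : Type*} [NormedAddCommGroup E] [InnerProductSpace ℂ E]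
variable [FiniteDimensional ℂ E] [MeasurableSpace E] [BorelSpace E]
variable {V : Type*} [NormedAddCommGroup V] [NormedSpace ℂ V] [FiniteDimensional ℂ V]

/-- Solution of `∂̄ S = η` with the weight `Wk`, for `η` of degree at least two.
Proof. Copy of `TS.solveW` and `TS.solveU` (TS/Ha.lean) with `TW.TRgw` instead of `TW.TR_sub`, `Wk_har` instead of `Uk_harnack`, `S = TW.TR M μ m R η`, `TW.TR_main`, `gau_compare`, `Wk_nonneg` (TS/De.lean). -/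
theorem solveWk (μ : Measure E) [μ.IsAddHaarMeasure] {m : ℕ} (hm : 1 ≤ m)
    (hdim : Module.finrank ℂ E = m + 1) (q : ℕ) {θ : ℝ} (h0 : 0 < θ)
    (h1 : θ < 1) (M : ℕ) {c₀ : ℝ} (hc₀ : 0 < c₀) :
    ∃ C : ℝ, 0 < C ∧ ∀ ν : Measure E, OnB ν → ∀ (k : ℕ) (R R' B : ℝ)
      (η : E → E [⋀^Fin (q + 2)]→L[ℝ] V) (U : Set E), 1 ≤ R' → R' + c₀ * θ ^ k ≤ R →
      R ≤ RC θ k → IsOpen U → closedBall (0 : E) R ⊆ U → 0 ≤ B → ContDiffOn ℝ 1 η U →
      (∀ w ∈ U, Anti (η w)) → (∀ w ∈ U, QT.db η w = 0) →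
      BdG θ k R (fun w => B * Wk ν M θ k w) η →
      ∃ S : E → E [⋀^Fin (q + 1)]→L[ℝ] V, ContDiffOn ℝ 1 S (ball 0 R') ∧
        (∀ w ∈ ball (0 : E) R', Anti (S w)) ∧ (∀ w ∈ ball (0 : E) R', QT.db S w = η w) ∧
        BdG θ k R' (fun w => C * B * Wk ν M θ k w) S := by
  obtain ⟨CT, hCT, hT⟩ := TW.TRgw (τ := M) (V := V) μ hm hdim q
  obtain ⟨CG, hCG, hG⟩ := gau_compare (E := E) h0 h1 hc₀
  obtain ⟨CH, hCH, hH⟩ := Wk_har (E := E) h0 h1 M hc₀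
  refine ⟨CT * CG ^ (q + 2) * CG ^ (q + 1) * CH, by positivity, ?_⟩
  intro ν hν k R R' B η U hR'1 hR' hRC hU hRU hB hη ha hd hBd
  have hθk : 0 < c₀ * θ ^ k := by positivity
  have hR1 : 1 ≤ R := by linarith
  have hR0 : 0 < R := by linarith
  have hsub : ball (0 : E) R' ⊆ ball 0 R := ball_subset_ball (by linarith)
  have hsubU : ball (0 : E) R ⊆ U := ball_subset_closedBall.trans hRU
  obtain ⟨T1, T2, T3⟩ := TW.TR_main (τ := M) μ hdim hR0 hU hRU hη ha hd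
  refine ⟨TW.TR M μ m R η, T1.mono hsub, fun w hw => T2 w (hsub hw), fun w hw => T3 w (hsub hw), ?_⟩
  intro z hz v
  have hzR' : ‖z‖ + c₀ * θ ^ k ≤ R := by linarith
  have hzR : ‖z‖ < R := by linarith
  have hzC : ‖z‖ < RC θ k := hzR.trans_le hRC
  have hWz : 0 ≤ Wk ν M θ k z := Wk_nonneg h0 h1 ν M hzC
  have key := hT R η z (B * CH * Wk ν M θ k z * CG ^ (q + 2)) hR0 (fun w hw => ha w (hsubU hw))
    hzR (by positivity) ?_ v
  · refine key.trans ?_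
    have hprod : ∏ i, gau (R ^ 2 - ‖z‖ ^ 2) z (v i) ≤
        CG ^ (q + 1) * ∏ i, gau (dl θ k z) z (v i) := by
      have e : CG ^ (q + 1) * ∏ i, gau (dl θ k z) z (v i) =
          ∏ i : Fin (q + 1), (CG * gau (dl θ k z) z (v i)) := by
        rw [Finset.prod_mul_distrib]
        simp
      rw [e]
      refine Finset.prod_le_prod (fun i _ => ?_) (fun i _ => (hG k R z (v i) hR1 hRC).2 hzR')
      exact gau_nonneg (by nlinarith [norm_nonneg z]) z (v i)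
    have hΦ : 0 ≤ CT * (B * CH * Wk ν M θ k z * CG ^ (q + 2)) := by positivity
    calc _ ≤ CT * (B * CH * Wk ν M θ k z * CG ^ (q + 2)) *
          (CG ^ (q + 1) * ∏ i, gau (dl θ k z) z (v i)) := mul_le_mul_of_nonneg_left hprod hΦ
      _ = _ := by ring
  · intro w hw x
    have hwR : ‖w‖ < R := mem_ball_zero_iff.mp hw
    have hwC : ‖w‖ < RC θ k := hwR.trans_le hRC
    have a1 := hBd w hwR x
    have a2 := hH ν hν k R z w hR1 hRC hzR' hwR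
    have hprod : ∏ i, gau (dl θ k w) w (x i) ≤
        CG ^ (q + 2) * ∏ i, gau (R ^ 2 - ‖w‖ ^ 2) w (x i) := by
      have e : CG ^ (q + 2) * ∏ i, gau (R ^ 2 - ‖w‖ ^ 2) w (x i) =
          ∏ i : Fin (q + 2), (CG * gau (R ^ 2 - ‖w‖ ^ 2) w (x i)) := by
        rw [Finset.prod_mul_distrib]
        simp
      rw [e]
      refine Finset.prod_le_prod (fun i _ => ?_) (fun i _ => (hG k R w (x i) hR1 hRC).1 hwR)
      exact gau_nonneg (dl_pos h0 h1 hwC).le w (x i)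
    have hG0 : 0 ≤ ∏ i, gau (dl θ k w) w (x i) :=
      Finset.prod_nonneg fun i _ => gau_nonneg (dl_pos h0 h1 hwC).le w (x i)
    have hW0 : 0 ≤ Wk ν M θ k w := Wk_nonneg h0 h1 ν M hwC
    calc ‖η w x‖ ≤ B * Wk ν M θ k w * ∏ i, gau (dl θ k w) w (x i) := a1
      _ ≤ (B * (CH * Wk ν M θ k z *
          (‖((R ^ 2 : ℝ) : ℂ) - ⟪w, z⟫_ℂ‖ / (R ^ 2 - ‖w‖ ^ 2)) ^ (M + 3) *
          (‖((R ^ 2 : ℝ) : ℂ) - ⟪w, z⟫_ℂ‖ / (R ^ 2 - ‖z‖ ^ 2)) ^ (1 / 4 : ℝ))) *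
            (CG ^ (q + 2) * ∏ i, gau (R ^ 2 - ‖w‖ ^ 2) w (x i)) := by
          apply mul_le_mul (mul_le_mul_of_nonneg_left a2 hB) hprod hG0
          exact mul_nonneg hB (hW0.trans a2)
      _ = _ := by ring

end Pool.Agent.MPca0fc2.TE
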