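import Mathlib
import Pool.Agent.Lib.MP_ca0fc2_an.Mg.G122
import Pool.Agent.Lib.MP_ca0fc2_an.TE.G1
import Pool.Agent.Lib.MP_ca0fc2_an.Mg.G022
import Pool.Agent.Lib.MP_ca0fc2_an.Mg.G016
import Pool.Agent.Lib.MP_ca0fc2_an.Mg.G017

set_option autoImplicit false
set_option linter.unusedSectionVars false

open Metric Set MeasureTheory Filter Topology
open scoped InnerProductSpace ENNReal ContDiff

namespace Pool.Agent.MPca0fc2.TE

open Pool.Agent.MPca0fc2.PT
open Pool.Agent.MPca0fc2.QT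
open Pool.Agent.MPca0fc2.TS

variable {E : Type*} [NormedAddCommGroup E] [InnerProductSpace ℂ E]
variable {V : Type*} [NormedAddCommGroup V] [NormedSpace ℂ V]
variable {Y : Type*} [NormedAddCommGroup Y] [NormedSpace ℂ Y]

/-- `pyth` -/
theorem norm_P_le {P : E →L[ℂ] E} (h : Prj P) (z : E) : ‖P z‖ ≤ ‖z‖ := by
  have h1 := pyth h z
  have h2 : ‖P z‖ ^ 2 ≤ ‖z‖ ^ 2 := by nlinarith [sq_nonneg ‖z - P z‖]
  exact (sq_le_sq₀ (norm_nonneg _) (norm_nonneg _)).1 h2

theorem pbk_apply (P : E →L[ℂ] E) {q : ℕ} (η : E → E [⋀^Fin q]→L[ℝ] V) (w : E) (v : Fin q → E) :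
    pbk P η w v = η (P w) (fun i => P (v i)) := rfl

/-- composition with a continuous linear map (`ContinuousAlternatingMap.compContinuousLinearMapCLM` or the analogous bounded linear map) of `η ∘ P` -/
theorem pbk_c1 {P : E →L[ℂ] E} (h : Prj P) {q : ℕ} {η : E → E [⋀^Fin q]→L[ℝ] V} {R : ℝ}
    (hη : ContDiffOn ℝ 1 η (ball 0 R)) : ContDiffOn ℝ 1 (pbk P η) (ball 0 R) := by
  have h1 : ContDiffOn ℝ 1 (fun w : E => P w) (ball 0 R) :=
    (P.restrictScalars ℝ).contDiff.contDiffOn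
  have h2 : ContDiffOn ℝ 1 (fun w : E => η (P w)) (ball 0 R) := by
    refine hη.comp h1 fun w hw => ?_
    rw [mem_ball_zero_iff] at hw
    exact mem_ball_zero_iff.2 ((norm_P_le h w).trans_lt hw)
  exact contDiffOn_pull h2 (contDiffOn_const (c := P.restrictScalars ℝ))

private theorem B4a_fderiv {P : E →L[ℂ] E} {q : ℕ} {η : E → E [⋀^Fin q]→L[ℝ] V} {w : E}
    (hη : DifferentiableAt ℝ η (P w)) (x : E) (v : Fin q → E) :
    fderiv ℝ (pbk P η) w x v = fderiv ℝ η (P w) (P x) (fun i => P (v i)) := by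
  have h1 : HasFDerivAt (𝕜 := ℝ) (fun y : E => P y) (P.restrictScalars ℝ) w :=
    (P.restrictScalars ℝ).hasFDerivAt
  have h2 : HasFDerivAt (𝕜 := ℝ) (fun y : E => η (P y))
      ((fderiv ℝ η (P w)).comp (P.restrictScalars ℝ)) w := hη.hasFDerivAt.comp w h1
  let Φ : (E [⋀^Fin q]→L[ℝ] V) →L[ℝ] (E [⋀^Fin q]→L[ℝ] V) :=
    ContinuousAlternatingMap.compContinuousLinearMapCLM (P.restrictScalars ℝ)
  have h0 : HasFDerivAt (𝕜 := ℝ) (fun ζ => Φ ζ) Φ (η (P w)) := Φ.hasFDerivAt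
  have h3 : HasFDerivAt (𝕜 := ℝ) (fun y : E => Φ (η (P y)))
      (Φ.comp ((fderiv ℝ η (P w)).comp (P.restrictScalars ℝ))) w := h0.comp w h2
  have h4 : (fun y : E => Φ (η (P y))) = pbk P η := rfl
  rw [h4] at h3
  rw [h3.fderiv]
  rfl

/-- `∂̄` commutes with the pull back: `d1 (pbk P η) w x v = d1 η (P w) (P x) (P ∘ v)` because `P` is complex linear; then `alternatizeUncurryFin` termwise (`ContinuousAlternatingMap.alternatizeUncurryFin_apply`). -/
theorem pbk_db {P : E →L[ℂ] E} {q : ℕ} {η : E → E [⋀^Fin q]→L[ℝ] V} {w : E}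
    (hη : DifferentiableAt ℝ η (P w)) : QT.db (pbk P η) w = pbk P (QT.db η) w := by
  ext v
  rw [pbk_apply]
  unfold QT.db
  rw [ContinuousAlternatingMap.alternatizeUncurryFin_apply,
    ContinuousAlternatingMap.alternatizeUncurryFin_apply]
  refine Finset.sum_congr rfl fun i _ => ?_
  rw [d1_apply, d1_apply, B4a_fderiv hη, B4a_fderiv hη, map_smul]
  rfl

/-- `Anti.compHolo` -/
theorem pbk_anti {P : E →L[ℂ] E} {q : ℕ} {η : E → E [⋀^Fin q]→L[ℝ] V} {w : E}
    (h : Anti (η (P w))) : Anti (pbk P η w) := h.compHolo P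

theorem pbk_idem {P : E →L[ℂ] E} (h : Prj P) {q : ℕ} (η : E → E [⋀^Fin q]→L[ℝ] V) (w : E) :
    pbk P (pbk P η) w = pbk P η w := by
  ext v
  rw [pbk_apply, pbk_apply, pbk_apply, h.idem]
  congr 1
  funext i
  exact h.idem _

theorem pbk_sub (P : E →L[ℂ] E) {q : ℕ} (η ζ : E → E [⋀^Fin q]→L[ℝ] V) (w : E) :
    pbk P (fun w => η w - ζ w) w = pbk P η w - pbk P ζ w := rfl

theorem pbk_opc (P : E →L[ℂ] E) {q : ℕ} (G : E → V →L[ℂ] V) (η : E → E [⋀^Fin q]→L[ℝ] V) (w : E) :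
    pbk P (fun w => opc E V q (G w) (η w)) w = opc E V q (G (P w)) (pbk P η w) := rfl

private theorem B4a_Pw (K : Car Y V) (P : E →L[ℂ] E) (L : E →L[ℝ] Y) (r : ℕ) :
    ∀ v : Fin r → E, Pw K L r (fun i => P (v i)) =
      Pw K (L.comp (P.restrictScalars ℝ)) r v := by
  induction r with
  | zero => intro v; rfl
  | succ r ih =>
    intro v
    rw [Pw, Pw, wd_apply, wd_apply]
    refine Finset.sum_congr rfl fun i _ => ?_
    have h1 : (i.removeNth fun i => P (v i)) = fun j => P ((i.removeNth v) j) := rfl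
    rw [h1, ih]
    rfl

/-- The Koszul form of positive degree of a solution which is holomorphic along the image of `P` has the pull back `0`.
Proof. `UU K σ (r+1) (P w) (P ∘ v) = K.a (σ (P w)) (Pw K (D01 σ (P w)) (r+1) (P ∘ v))`, and `Pw K L (r+1) (P ∘ v) = Pw K (L ∘ P) (r+1) v` (induction on `r`: `wd` is an alternatization, termwise), `L ∘ P = 0`, `Pw_zero`. -/
theorem pbk_UU (K : Car Y V) {P : E →L[ℂ] E} {σ : E → Y} {w : E} (r : ℕ)
    (h : ∀ v, D01 σ (P w) (P v) = 0) : pbk P (UU K σ (r + 1)) w = 0 := by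
  ext v
  rw [pbk_apply]
  unfold UU
  rw [opc_apply, B4a_Pw]
  have h1 : (D01 σ (P w)).comp (P.restrictScalars ℝ) = 0 := by
    ext x
    exact h x
  rw [h1, Pw_zero]
  exact map_zero _

end Pool.Agent.MPca0fc2.TE
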