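import Mathlib
import Pool.Agent.Lib.MP_ca0fc2_an.TE.B4a
import Pool.Agent.Lib.MP_ca0fc2_an.TE.G2
import Pool.Agent.Lib.MP_ca0fc2_an.TS.De

set_option autoImplicit false
set_option linter.unusedSectionVars false

open Metric Set MeasureTheory Filter Topology
open scoped InnerProductSpace ENNReal ContDiff

namespace Pool.Agent.MPca0fc2.TE

open Pool.Agent.MPca0fc2.PT
open Pool.Agent.MPca0fc2.QT
open Pool.Agent.MPca0fc2.TS

variable {E : Type*} [NormedAddCommGroup E] [InnerProductSpace ℂ E]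
variable [FiniteDimensional ℂ E] [MeasurableSpace E] [BorelSpace E]
variable {V : Type*} [NormedAddCommGroup V] [NormedSpace ℂ V]

omit [FiniteDimensional ℂ E] [MeasurableSpace E] [BorelSpace E] in
private theorem B4b_facts {P : E →L[ℂ] E} (h : Prj P) {θ : ℝ} (h0 : 0 < θ) (h1 : θ < 1) {k : ℕ} {w : E}
    (hw : ‖w‖ < RC θ k) : ‖(rt θ k : ℂ) • w‖ < 1 ∧ 0 < dl θ k w ∧ dl θ k w = 1 - ‖(rt θ k : ℂ) • w‖ ^ 2 ∧
      dl θ k w = Dp P 1 ((rt θ k : ℂ) • w) ∧ dl θ k (P w) = Dp P 0 ((rt θ k : ℂ) • w) := by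
  have hpos := dl_pos h0 h1 hw
  have h2 : dl θ k w = 1 - ‖(rt θ k : ℂ) • w‖ ^ 2 := by
    unfold dl
    rw [norm_smul, Complex.norm_real, Real.norm_eq_abs, mul_pow, sq_abs]
  have h3 : ‖(rt θ k : ℂ) • w‖ < 1 := by
    rw [h2] at hpos
    have h4 : ‖(rt θ k : ℂ) • w‖ ^ 2 < 1 ^ 2 := by linarith
    exact lt_of_pow_lt_pow_left₀ 2 one_pos.le h4
  refine ⟨h3, hpos, h2, ?_, ?_⟩
  · rw [h2, (Dp_anti h h3 le_rfl zero_le_one le_rfl).2.1]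
  · unfold dl Dp
    rw [map_smul, norm_smul, Complex.norm_real, Real.norm_eq_abs, mul_pow, sq_abs]
    ring

/-- Size of the anisotropic length of `P v` at `P w`, level `k ≥ 1`. With `y = rt θ k • w` (in the unit ball), `dl θ k (P w) = 1 - ‖P y‖² = Dp P 0 y`, `dl θ k w = Dp P 1 y`.
Proof. `gau_pt` at `t = 0` for `y`: `gau (Dp 0 y) (P y) (P ξ) ≤ 2 √(Dp 1 y / Dp 0 y) gau (1 - ‖y‖²) y ξ`. With `r = rt θ k ≥ 1 - θ` (`k ≥ 1`) and `r ≤ 1`: `gau d (r • u) ξ = r |⟪u, ξ⟫|/d + ‖ξ‖/√d` lies between `r * gau d u ξ` and `gau d u ξ`. -/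
theorem gau_P {P : E →L[ℂ] E} (h : Prj P) {θ : ℝ} (h0 : 0 < θ) (h1 : θ < 1) {k : ℕ} (hk : 1 ≤ k)
    {w : E} (hw : ‖w‖ < RC θ k) (ξ : E) :
    gau (dl θ k (P w)) (P w) (P ξ) ≤
      2 / (1 - θ) * Real.sqrt (dl θ k w / dl θ k (P w)) * gau (dl θ k w) w ξ := by
  obtain ⟨hy, hpos, e1, e2, e3⟩ := B4b_facts h h0 h1 hw
  have hr0 : 1 - θ ≤ rt θ k := by
    unfold rt
    have h2 : θ ^ k ≤ θ ^ 1 := pow_le_pow_of_le_one h0.le h1.le hk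
    rw [pow_one] at h2
    linarith
  have hr1 : rt θ k ≤ 1 := by
    unfold rt
    have h2 : 0 ≤ θ ^ k := (pow_pos h0 k).le
    linarith
  have hθ : 0 < 1 - θ := by linarith
  have hr : 0 < rt θ k := by linarith
  have h3 := gau_pt h hy le_rfl zero_le_one ξ
  rw [pt_zero, pt_zero, ← e1, ← e2, ← e3, map_smul] at h3
  have hdP : 0 ≤ dl θ k (P w) := by
    rw [e3]
    have h4 := Dp_anti h hy le_rfl zero_le_one le_rfl
    linarith [h4.1, h4.2.2.1]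
  have h5 : ∀ (d : ℝ) (u x : E), 0 ≤ d → gau d ((rt θ k : ℂ) • u) x = rt θ k * (‖⟪u, x⟫_ℂ‖ / d) + ‖x‖ / Real.sqrt d := by
    intro d u x _
    unfold gau
    rw [inner_smul_left, norm_mul, RCLike.norm_conj, Complex.norm_real, Real.norm_eq_abs, abs_of_pos hr, mul_div_assoc]
  have h6 : (1 - θ) * gau (dl θ k (P w)) (P w) (P ξ) ≤ gau (dl θ k (P w)) ((rt θ k : ℂ) • P w) (P ξ) := by
    rw [h5 _ _ _ hdP]
    unfold gau
    have h7 : 0 ≤ ‖⟪P w, P ξ⟫_ℂ‖ / dl θ k (P w) := div_nonneg (norm_nonneg _) hdP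
    have h8 : 0 ≤ ‖P ξ‖ / Real.sqrt (dl θ k (P w)) := div_nonneg (norm_nonneg _) (Real.sqrt_nonneg _)
    have h9 := mul_le_mul_of_nonneg_right hr0 h7
    have h10 : (1 - θ) * (‖P ξ‖ / Real.sqrt (dl θ k (P w))) ≤ 1 * (‖P ξ‖ / Real.sqrt (dl θ k (P w))) :=
      mul_le_mul_of_nonneg_right (by linarith) h8
    rw [mul_add]
    linarith
  have h11 : gau (dl θ k w) ((rt θ k : ℂ) • w) ξ ≤ gau (dl θ k w) w ξ := by
    rw [h5 _ _ _ hpos.le]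
    unfold gau
    have h7 : 0 ≤ ‖⟪w, ξ⟫_ℂ‖ / dl θ k w := div_nonneg (norm_nonneg _) hpos.le
    have h9 := mul_le_mul_of_nonneg_right hr1 h7
    linarith
  have h12 : (1 - θ) * gau (dl θ k (P w)) (P w) (P ξ) ≤
      2 * Real.sqrt (dl θ k w / dl θ k (P w)) * gau (dl θ k w) w ξ :=
    h6.trans (h3.trans (mul_le_mul_of_nonneg_left h11 (mul_nonneg zero_le_two (Real.sqrt_nonneg _))))
  calc gau (dl θ k (P w)) (P w) (P ξ) = ((1 - θ) * gau (dl θ k (P w)) (P w) (P ξ)) / (1 - θ) := by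
        rw [mul_div_cancel_left₀ _ hθ.ne']
    _ ≤ (2 * Real.sqrt (dl θ k w / dl θ k (P w)) * gau (dl θ k w) w ξ) / (1 - θ) := div_le_div_of_nonneg_right h12 hθ.le
    _ = _ := by ring

/-- `Wk_eq`, `Om_pt` at `t = 0`, `pt_zero` -/
theorem Wk_P {P : E →L[ℂ] E} (h : Prj P) {ν : Measure E} (hν : OnB ν) (M : ℕ) {θ : ℝ}
    (h0 : 0 < θ) (h1 : θ < 1) {k : ℕ} {w : E} (hw : ‖w‖ < RC θ k) :
    Wk ν M θ k (P w) ≤ 2 ^ (M + 1) * (dl θ k (P w) / dl θ k w) ^ (1 / 4 : ℝ) * Wk ν M θ k w := by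
  obtain ⟨hy, hpos, e1, e2, e3⟩ := B4b_facts h h0 h1 hw
  have h2 := Om_pt h hν M hy le_rfl zero_le_one
  rw [pt_zero, ← e2, ← e3, ← Wk_eq, map_smul, ← Wk_eq] at h2
  exact h2

/-- The pull back of a form of positive degree: `Wk (P w) ∏ gau (P w) (P v_i) ≤ 2^(M+1) (a⁻¹)^(1/4) (2/(1-θ))^(q+1) (√a)^(q+1) Wk w ∏ gau w v_i` with `a = dl w / dl (P w) ∈ (0, 1]`, and `(√a)^(q+1) ≤ √a ≤ a^(1/4)`. -/
theorem pbk_bd {P : E →L[ℂ] E} (h : Prj P) {ν : Measure E} (hν : OnB ν) (M : ℕ) {θ : ℝ}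
    (h0 : 0 < θ) (h1 : θ < 1) {k : ℕ} (hk : 1 ≤ k) {R B : ℝ} (hR : R ≤ RC θ k) (hB : 0 ≤ B) {q : ℕ}
    {η : E → E [⋀^Fin (q + 1)]→L[ℝ] V} (hη : BdG θ k R (fun w => B * Wk ν M θ k w) η) :
    BdG θ k R (fun w => 2 ^ (M + 1) * (2 / (1 - θ)) ^ (q + 1) * B * Wk ν M θ k w) (pbk P η) := by
  intro w hw v
  have hwC : ‖w‖ < RC θ k := lt_of_lt_of_le hw hR
  have hPw : ‖P w‖ ≤ ‖w‖ := norm_P_le h w
  have hPR : ‖P w‖ < R := lt_of_le_of_lt hPw hw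
  have hPC : ‖P w‖ < RC θ k := lt_of_lt_of_le hPR hR
  have hpos := dl_pos h0 h1 hwC
  have hposP := dl_pos h0 h1 hPC
  have hθ : 0 < 1 - θ := by linarith
  have hle : dl θ k w ≤ dl θ k (P w) := by
    unfold dl
    have h2 : ‖P w‖ ^ 2 ≤ ‖w‖ ^ 2 := pow_le_pow_left₀ (norm_nonneg _) hPw 2
    have h3 := mul_le_mul_of_nonneg_left h2 (sq_nonneg (rt θ k))
    linarith
  obtain ⟨a, ha⟩ : ∃ a : ℝ, a = dl θ k w / dl θ k (P w) := ⟨_, rfl⟩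
  have ha0 : 0 < a := by
    rw [ha]
    exact div_pos hpos hposP
  have ha1 : a ≤ 1 := by
    rw [ha]
    exact (div_le_one hposP).mpr hle
  have hW0 : 0 ≤ Wk ν M θ k w := Wk_nonneg h0 h1 ν M hwC
  have hW : Wk ν M θ k (P w) ≤ 2 ^ (M + 1) * (a⁻¹) ^ (1 / 4 : ℝ) * Wk ν M θ k w := by
    have h2 := Wk_P h hν M h0 h1 hwC
    rw [ha, inv_div]
    exact h2
  have hg0 : ∀ i, 0 ≤ gau (dl θ k (P w)) (P w) (P (v i)) := fun i => gau_nonneg hposP.le _ _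
  have hprod : ∏ i, gau (dl θ k (P w)) (P w) (P (v i)) ≤
      (2 / (1 - θ)) ^ (q + 1) * Real.sqrt a ^ (q + 1) * ∏ i, gau (dl θ k w) w (v i) := by
    calc ∏ i, gau (dl θ k (P w)) (P w) (P (v i)) ≤ ∏ i, (2 / (1 - θ) * Real.sqrt a) * gau (dl θ k w) w (v i) := by
          refine Finset.prod_le_prod (fun i _ => hg0 i) fun i _ => ?_
          rw [ha]
          exact gau_P h h0 h1 hk hwC (v i)
      _ = _ := by
          rw [Finset.prod_mul_distrib, Finset.prod_const, Finset.card_univ, Fintype.card_fin, mul_pow]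
  have hG0 : 0 ≤ ∏ i, gau (dl θ k w) w (v i) := Finset.prod_nonneg fun i _ => gau_nonneg hpos.le _ _
  have hkey : (a⁻¹) ^ (1 / 4 : ℝ) * Real.sqrt a ^ (q + 1) ≤ 1 := by
    have h2 : Real.sqrt a ^ (q + 1) ≤ Real.sqrt a ^ 1 :=
      pow_le_pow_of_le_one (Real.sqrt_nonneg _) (Real.sqrt_le_one.mpr ha1) (by omega)
    have h3 : Real.sqrt a ≤ a ^ (1 / 4 : ℝ) := by
      rw [Real.sqrt_eq_rpow]
      exact Real.rpow_le_rpow_of_exponent_ge ha0 ha1 (by norm_num)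
    have h4 : (a⁻¹) ^ (1 / 4 : ℝ) * a ^ (1 / 4 : ℝ) = 1 := by
      rw [← Real.mul_rpow (inv_nonneg.mpr ha0.le) ha0.le, inv_mul_cancel₀ ha0.ne', Real.one_rpow]
    rw [pow_one] at h2
    calc (a⁻¹) ^ (1 / 4 : ℝ) * Real.sqrt a ^ (q + 1) ≤ (a⁻¹) ^ (1 / 4 : ℝ) * a ^ (1 / 4 : ℝ) :=
          mul_le_mul_of_nonneg_left (h2.trans h3) (Real.rpow_nonneg (inv_nonneg.mpr ha0.le) _)
      _ = 1 := h4
  have hη' := hη (P w) hPR (fun i => P (v i))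
  rw [pbk_apply]
  refine hη'.trans ?_
  have hc : 0 ≤ 2 / (1 - θ) := div_nonneg zero_le_two hθ.le
  calc B * Wk ν M θ k (P w) * ∏ i, gau (dl θ k (P w)) (P w) (P (v i))
      ≤ (B * (2 ^ (M + 1) * (a⁻¹) ^ (1 / 4 : ℝ) * Wk ν M θ k w)) *
        ((2 / (1 - θ)) ^ (q + 1) * Real.sqrt a ^ (q + 1) * ∏ i, gau (dl θ k w) w (v i)) := by
        refine mul_le_mul (mul_le_mul_of_nonneg_left hW hB) hprod (Finset.prod_nonneg fun i _ => hg0 i) ?_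
        have h5 : 0 ≤ (a⁻¹) ^ (1 / 4 : ℝ) := Real.rpow_nonneg (inv_nonneg.mpr ha0.le) _
        positivity
    _ = (2 ^ (M + 1) * (2 / (1 - θ)) ^ (q + 1) * B * Wk ν M θ k w * ∏ i, gau (dl θ k w) w (v i)) *
        ((a⁻¹) ^ (1 / 4 : ℝ) * Real.sqrt a ^ (q + 1)) := by ring
    _ ≤ (2 ^ (M + 1) * (2 / (1 - θ)) ^ (q + 1) * B * Wk ν M θ k w * ∏ i, gau (dl θ k w) w (v i)) * 1 := by
        refine mul_le_mul_of_nonneg_left hkey ?_
        positivity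
    _ = _ := by ring

end Pool.Agent.MPca0fc2.TE
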