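import Mathlib
import Pool.Agent.Lib.MP_ca0fc2_an.TE.B4b
import Pool.Agent.Lib.MP_ca0fc2_an.Mg.G015
import Pool.Agent.Lib.MP_ca0fc2_an.QTX6

set_option autoImplicit false
set_option linter.unusedSectionVars false

open Metric Set MeasureTheory Filter Topology
open scoped InnerProductSpace ENNReal ContDiff

namespace Pool.Agent.MPca0fc2.TE

open Pool.Agent.MPca0fc2.PT
open Pool.Agent.MPca0fc2.QT
open Pool.Agent.MPca0fc2.TS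

variable {E : Type*} [NormedAddCommGroup E] [InnerProductSpace ℂ E]
variable {V : Type*} [NormedAddCommGroup V] [NormedSpace ℂ V]

/-- the data of the descent at the level `k` -/
structure LD [MeasurableSpace E] {N : ℕ} (θ : ℝ) (ν : Measure E) (M k : ℕ) (C₀ : ℝ)
    (P : E →L[ℂ] E) (σ : E → Fin N → ℂ) (F : E → (Fin N → ℂ) →L[ℂ] ℂ) : Prop where
  prj : Prj P
  sol : ∀ w : E, ‖w‖ < RC θ k → SolAt σ F w
  Fc : ∀ w : E, ‖w‖ < RC θ k → ContDiffAt ℝ 1 F w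
  sb : ∀ w : E, ‖w‖ < RC θ k → ‖σ w‖ ≤ C₀
  Fb : ∀ w : E, ‖w‖ < RC θ k → ‖F w‖ ≤ C₀
  Wb : ∀ w : E, ‖w‖ < RC θ k → Wk ν M θ k w ≤ C₀
  ds : ∀ w : E, ‖w‖ < RC θ k → ∀ v,
    ‖D01 σ w v‖ ≤ C₀ * Wk ν M θ k w * gau (dl θ k w) w v
  zer : ∀ w : E, ‖w‖ < RC θ k → ∀ v, D01 σ (P w) (P v) = 0

/-- the source of degree `r + 1` -/
noncomputable def Zs {N : ℕ} (K : Car (Fin N → ℂ) V) (σ : E → Fin N → ℂ)
    (F : E → (Fin N → ℂ) →L[ℂ] ℂ) {r : ℕ} (W : E → E [⋀^Fin (r + 1)]→L[ℝ] V) (w : E) :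
    E [⋀^Fin (r + 1)]→L[ℝ] V :=
  UU K σ (r + 1) w - opc E V (r + 1) (K.c (F w)) (W w)

variable {N : ℕ} {K : Car (Fin N → ℂ) V} {θ : ℝ} {M k : ℕ} {C₀ : ℝ}
  {P : E →L[ℂ] E} {σ : E → Fin N → ℂ} {F : E → (Fin N → ℂ) →L[ℂ] ℂ}

/-- `UU_c1` at each point; `opc` is bilinear, `K.c (F w)` and `W` are of class `C¹` (see `opc_c1` in QTX6, `Src_c1` in TS/SSdb) -/
theorem Zs_c1 [MeasurableSpace E] {ν : Measure E} (h : LD θ ν M k C₀ P σ F) {r : ℕ}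
    {W : E → E [⋀^Fin (r + 1)]→L[ℝ] V} {R : ℝ} (hR : R ≤ RC θ k)
    (hW : ContDiffOn ℝ 1 W (ball 0 R)) : ContDiffOn ℝ 1 (Zs K σ F W) (ball 0 R) := by
  intro w hw
  have hwC := (mem_ball_zero_iff.mp hw).trans_le hR
  apply ContDiffAt.contDiffWithinAt
  have hF : ContDiffAt ℝ 1 (fun w => K.c (F w)) w :=
    ((K.c.restrictScalars ℝ).contDiff.contDiffAt).comp w (h.Fc w hwC)
  have hWw : ContDiffAt ℝ 1 W w := hW.contDiffAt (isOpen_ball.mem_nhds hw)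
  exact (UU_c1 K (h.sol w hwC).c2 (r + 1)).sub (opc_c1 hF hWw)

theorem Zs_anti {r : ℕ} {W : E → E [⋀^Fin (r + 1)]→L[ℝ] V} {w : E} (hW : Anti (W w)) :
    Anti (Zs K σ F W w) := by
  exact (Anti.UU K σ w (r + 1)).sub (hW.opc _)

/-- proof of `QT.db_Pt` (QTX4) -/
theorem Zs_closed [MeasurableSpace E] {ν : Measure E} (h : LD θ ν M k C₀ P σ F) {r : ℕ}
    {W : E → E [⋀^Fin (r + 1)]→L[ℝ] V} {W' : E → E [⋀^Fin (r + 2)]→L[ℝ] V} {w : E}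
    (hw : ‖w‖ < RC θ k) (hW : DifferentiableAt ℝ W w)
    (he : QT.db W w = UU K σ (r + 2) w - opc E V (r + 2) (K.c (F w)) (W' w)) :
    QT.db (Zs K σ F W) w = 0 := by
  have hs := h.sol w hw
  have e : Zs K σ F W = fun w => UU K σ (r + 1) w - opc E V (r + 1) (K.c (F w)) (W w) := rfl
  rw [e, db_sub (UU_diffAt K hs (r + 1)) (opc_diffAt (cF_hol K hs.hol) hW),
    db_opc_holo (cF_hol K hs.hol) hW, he, map_sub, db_UU K hs.c2,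
    c_UU K hs.one hs.zero, opcc_self]
  simp

/-- `pbk_sub`, `pbk_UU`, `pbk_opc` -/
theorem Zs_pbk [MeasurableSpace E] {ν : Measure E} (h : LD θ ν M k C₀ P σ F) {r : ℕ}
    {W : E → E [⋀^Fin (r + 1)]→L[ℝ] V} {w : E} (hw : ‖w‖ < RC θ k) (hW : pbk P W w = 0) :
    pbk P (Zs K σ F W) w = 0 := by
  have e : Zs K σ F W = fun w => UU K σ (r + 1) w - opc E V (r + 1) (K.c (F w)) (W w) := rfl
  rw [e, pbk_sub P (UU K σ (r + 1)) (fun w => opc E V (r + 1) (K.c (F w)) (W w)) w,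
    pbk_UU K r (h.zer w hw), pbk_opc P (fun w => K.c (F w)) W w, hW, map_zero, sub_zero]

/-- `UU_bound` (QTKb2) with `g v = C₀ Wk gau`: `‖UU‖ ≤ C C₀ C₀^(r+1) Wk^(r+1) ∏ gau` and `Wk^(r+1) ≤ C₀^r Wk`; `‖opc (K.c F) W‖ ≤ ‖K.c‖ C₀ B Wk ∏ gau`. -/
theorem Zs_bd [MeasurableSpace E] [BorelSpace E] (K : Car (Fin N → ℂ) V) (h0 : 0 < θ)
    (h1 : θ < 1) (hC₀ : 0 < C₀) (M r : ℕ) : ∃ C : ℝ, 0 < C ∧ ∀ (ν : Measure E) (k : ℕ)
      (P : E →L[ℂ] E) (σ : E → Fin N → ℂ) (F : E → (Fin N → ℂ) →L[ℂ] ℂ),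
      LD θ ν M k C₀ P σ F → ∀ (R B : ℝ) (W : E → E [⋀^Fin (r + 1)]→L[ℝ] V), R ≤ RC θ k →
      0 ≤ B → BdG θ k R (fun w => B * Wk ν M θ k w) W →
      BdG θ k R (fun w => C * (1 + B) * Wk ν M θ k w) (Zs K σ F W) := by
  obtain ⟨CU, hCU, hU⟩ := UU_bound (E := E) K (r + 1)
  have hpos : 0 < CU * C₀ * (C₀ ^ (r + 1) * C₀ ^ r) := by positivity
  refine ⟨CU * C₀ * (C₀ ^ (r + 1) * C₀ ^ r) + ‖K.c‖ * C₀, by positivity, ?_⟩
  intro ν k P σ F h R B W hR hB hW w hw v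
  have hwC : ‖w‖ < RC θ k := hw.trans_le hR
  have hdl : 0 < dl θ k w := dl_pos h0 h1 hwC
  have hW0 : 0 ≤ Wk ν M θ k w :=
    mul_nonneg (Real.rpow_nonneg hdl.le _) (Ik_nonneg ν M θ k w)
  have hg0 : ∀ x : E, 0 ≤ gau (dl θ k w) w x := fun x => by
    unfold gau
    positivity
  have hWb := h.Wb w hwC
  have b1 := hU σ w (fun x => C₀ * Wk ν M θ k w * gau (dl θ k w) w x) (h.ds w hwC) v
  have b2 := hW w hw v
  obtain ⟨G, hG⟩ : ∃ G, G = ∏ i, gau (dl θ k w) w (v i) := ⟨_, rfl⟩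
  have hG0 : 0 ≤ G := by
    rw [hG]
    exact Finset.prod_nonneg fun i _ => hg0 _
  obtain ⟨wt, hwt⟩ : ∃ wt, wt = Wk ν M θ k w := ⟨_, rfl⟩
  have e1 : ∏ i, (C₀ * Wk ν M θ k w * gau (dl θ k w) w (v i)) = (C₀ * wt) ^ (r + 1) * G := by
    rw [Finset.prod_mul_distrib, Finset.prod_const, Finset.card_univ, Fintype.card_fin, hG, hwt]
  rw [e1] at b1
  rw [← hG] at b2 ⊢
  simp only [← hwt] at b2 hW0 hWb ⊢
  have e2 : wt ^ (r + 1) ≤ C₀ ^ r * wt := by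
    rw [pow_succ]
    exact mul_le_mul_of_nonneg_right (pow_le_pow_left₀ hW0 hWb r) hW0
  have b3 : ‖UU K σ (r + 1) w v‖ ≤ CU * C₀ * (C₀ ^ (r + 1) * C₀ ^ r) * wt * G := by
    calc ‖UU K σ (r + 1) w v‖ ≤ CU * ‖σ w‖ * ((C₀ * wt) ^ (r + 1) * G) := b1
      _ ≤ CU * C₀ * ((C₀ * wt) ^ (r + 1) * G) := by
          have := h.sb w hwC
          gcongr
      _ = CU * C₀ * (C₀ ^ (r + 1) * wt ^ (r + 1) * G) := by rw [mul_pow]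
      _ ≤ CU * C₀ * (C₀ ^ (r + 1) * (C₀ ^ r * wt) * G) := by gcongr
      _ = CU * C₀ * (C₀ ^ (r + 1) * C₀ ^ r) * wt * G := by ring
  have b4 : ‖opc E V (r + 1) (K.c (F w)) (W w) v‖ ≤ ‖K.c‖ * C₀ * B * wt * G := by
    rw [QT.opc_apply]
    calc ‖K.c (F w) (W w v)‖ ≤ ‖K.c (F w)‖ * ‖W w v‖ := (K.c (F w)).le_opNorm _
      _ ≤ (‖K.c‖ * ‖F w‖) * ‖W w v‖ := by
          gcongr
          exact K.c.le_opNorm _
      _ ≤ (‖K.c‖ * C₀) * (B * wt * G) := by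
          have := h.Fb w hwC
          gcongr
      _ = ‖K.c‖ * C₀ * B * wt * G := by ring
  have e3 : Zs K σ F W w v = UU K σ (r + 1) w v - opc E V (r + 1) (K.c (F w)) (W w) v := rfl
  rw [e3]
  refine (norm_sub_le _ _).trans ((add_le_add b3 b4).trans ?_)
  have n1 : 0 ≤ CU * C₀ * (C₀ ^ (r + 1) * C₀ ^ r) * B * wt * G := by positivity
  have n2 : 0 ≤ ‖K.c‖ * C₀ * wt * G := by positivity
  have e4 : (CU * C₀ * (C₀ ^ (r + 1) * C₀ ^ r) + ‖K.c‖ * C₀) * (1 + B) * wt * G =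
      CU * C₀ * (C₀ ^ (r + 1) * C₀ ^ r) * wt * G + ‖K.c‖ * C₀ * B * wt * G +
        (CU * C₀ * (C₀ ^ (r + 1) * C₀ ^ r) * B * wt * G + ‖K.c‖ * C₀ * wt * G) := by ring
  rw [e4]
  linarith

end Pool.Agent.MPca0fc2.TE
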