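import Mathlib
import Pool.Agent.Lib.MP_ca0fc2_an.TE.B5a
import Pool.Agent.Lib.MP_ca0fc2_an.TE.B3

set_option autoImplicit false
set_option linter.unusedSectionVars false

open Metric Set MeasureTheory Filter Topology
open scoped InnerProductSpace ENNReal ContDiff

namespace Pool.Agent.MPca0fc2.TE

open Pool.Agent.MPca0fc2.PT
open Pool.Agent.MPca0fc2.QT
open Pool.Agent.MPca0fc2.TS

variable {E : Type*} [NormedAddCommGroup E] [InnerProductSpace ℂ E]
variable [FiniteDimensional ℂ E] [MeasurableSpace E] [BorelSpace E]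
variable {V : Type*} [NormedAddCommGroup V] [NormedSpace ℂ V] [FiniteDimensional ℂ V]

/-- The descent over the degrees, normalised so that the pull back to the image of `P` vanishes. Pattern: `TS.descent_step` (TS/De.lean). Induction on `j`.
`j = 0`: `W r = 0` for `r ≥ m + 1` (`UU K σ (r+1) w = 0` by `Anti.UU`, `Anti.eq_zero`, as `r + 1 > m + 1 = dim`).
`j → j + 1`, `q := m - j ≥ 1`, `q = q' + 1`: `Zs K σ F (W (q+1))` is `C¹`, `Anti`, closed, bounded, has pull back `0`; `solveWk` (degree `q' + 2 = q + 1`) with `c₀ = 3 θ/(16 (m+1))` gives `S`; `W q := fun w => S w - pbk P S w` (`pbk_db`, `pbk_c1`, `pbk_anti`, `pbk_bd`, `pbk_idem`, `pbk_sub`):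
`db (pbk P S) = pbk P (Zs ..) = 0`. Radii `RJ m θ j k = RJ m θ (j+1) k + 3/(8 (m+1)) θ^(k+1)`, all `≤ RC θ k` and `≥ 1` (`rj_le`, `rj_one`, `rj_rad`). -/
theorem descentE_step (μ : Measure E) [μ.IsAddHaarMeasure] {m : ℕ} (hm : 1 ≤ m)
    (hdim : Module.finrank ℂ E = m + 1) {N : ℕ} (K : Car (Fin N → ℂ) V) {θ : ℝ}
    (h0 : 0 < θ) (h1 : θ < 1) {C₀ : ℝ} (hC₀ : 0 < C₀) (M : ℕ) (j : ℕ) (hj : j ≤ m) :
    ∃ B : ℝ, 0 < B ∧ ∀ ν : Measure E, OnB ν → ∀ k : ℕ, 1 ≤ k → ∀ (P : E →L[ℂ] E)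
      (σ : E → Fin N → ℂ) (F : E → (Fin N → ℂ) →L[ℂ] ℂ), LD θ ν M k C₀ P σ F →
      ∃ W : (r : ℕ) → E → E [⋀^Fin r]→L[ℝ] V, ∀ r, m + 1 ≤ r + j →
        ContDiffOn ℝ 1 (W r) (ball 0 (RJ m θ j k)) ∧
        (∀ w ∈ ball (0 : E) (RJ m θ j k), Anti (W r w) ∧
          QT.db (W r) w = UU K σ (r + 1) w - opc E V (r + 1) (K.c (F w)) (W (r + 1) w) ∧
          pbk P (W r) w = 0) ∧
        BdG θ k (RJ m θ j k) (fun w => B * Wk ν M θ k w) (W r) := by
  induction j with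
  | zero =>
    refine ⟨1, one_pos, ?_⟩
    intro ν hν k hk P σ F hL
    refine ⟨fun r _ => 0, ?_⟩
    intro r hr
    refine ⟨contDiffOn_const, fun w _ => ⟨Anti.zero, ?_, ?_⟩, ?_⟩
    · have h2 : UU K σ (r + 1) w -
          opc E V (r + 1) (K.c (F w)) (0 : E [⋀^Fin (r + 1)]→L[ℝ] V) = 0 := by
        refine Anti.eq_zero ?_ ((Anti.UU K σ w (r + 1)).sub (Anti.zero.opc _))
        rw [hdim]
        omega
      rw [h2]
      exact kd_db_const _ w
    · ext v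
      rw [pbk_apply]
      rfl
    · intro w hw v
      have hRC : RJ m θ 0 k ≤ RC θ k := (rj_rad m h0 h1 (Nat.zero_le _)).le k
      have hwC : ‖w‖ < RC θ k := lt_of_lt_of_le hw hRC
      have h4 : (0 : E [⋀^Fin r]→L[ℝ] V) v = 0 := rfl
      simp only [h4, norm_zero]
      refine mul_nonneg (mul_nonneg one_pos.le (Wk_nonneg h0 h1 ν M hwC)) ?_
      exact Finset.prod_nonneg fun i _ => gau_nonneg (dl_pos h0 h1 hwC).le w (v i)
  | succ j ih =>
    obtain ⟨Bj, hBj, hS⟩ := ih (by omega)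
    obtain ⟨q, hq⟩ : ∃ q, q + 1 + j = m := ⟨m - j - 1, by omega⟩
    have hm0 : (0 : ℝ) < m + 1 := by positivity
    have hθ1 : 0 < 1 - θ := by linarith
    set c₀ : ℝ := 3 * θ / (16 * (m + 1)) with hc₀
    have hc₀0 : 0 < c₀ := by positivity
    obtain ⟨CU, hCU, hU⟩ := solveWk (V := V) μ hm hdim q h0 h1 M hc₀0
    obtain ⟨CS, hCS, hZb⟩ := Zs_bd (E := E) K h0 h1 hC₀ M (q + 1)
    set BZ : ℝ := CS * (1 + Bj) with hBZ
    have hBZ0 : 0 < BZ := by positivity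
    set CP : ℝ := 2 ^ (M + 1) * (2 / (1 - θ)) ^ (q + 1) with hCP
    have hCP0 : 0 < CP := by positivity
    refine ⟨Bj + (1 + CP) * (CU * BZ), by positivity, ?_⟩
    intro ν hν k hk P σ F hL
    obtain ⟨W, hW⟩ := hS ν hν k hk P σ F hL
    have hRC : RJ m θ j k ≤ RC θ k := (rj_rad m h0 h1 (show j ≤ m + 1 by omega)).le k
    have hRC' : RJ m θ (j + 1) k ≤ RC θ k := (rj_le m h0 j k).trans hRC
    obtain ⟨WQ, WQ1, WQ2⟩ := hW (q + 1 + 1) (by omega)
    have hgap : RJ m θ (j + 1) k + 3 * θ / (8 * (m + 1)) * θ ^ k = RJ m θ j k := by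
      unfold RJ
      push_cast
      field_simp
      ring
    have hθk : 0 < θ ^ k := pow_pos h0 k
    have hRm : RJ m θ (j + 1) k + c₀ * θ ^ k < RJ m θ j k := by
      rw [← hgap]
      have : c₀ * θ ^ k < 3 * θ / (8 * (m + 1)) * θ ^ k := by
        refine mul_lt_mul_of_pos_right ?_ hθk
        rw [hc₀, div_lt_div_iff₀ (by positivity) (by positivity)]
        have : 0 < θ * (m + 1) := by positivity
        nlinarith
      linarith
    have hdW : ∀ w ∈ ball (0 : E) (RJ m θ j k), DifferentiableAt ℝ (W (q + 1 + 1)) w :=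
      fun w hw => (WQ.contDiffAt (isOpen_ball.mem_nhds hw)).differentiableAt one_ne_zero
    have hwRC : ∀ w ∈ ball (0 : E) (RJ m θ j k), ‖w‖ < RC θ k := fun w hw =>
      lt_of_lt_of_le (mem_ball_zero_iff.mp hw) hRC
    obtain ⟨S, S1, S2, S3, S4⟩ := hU ν hν k (RJ m θ (j + 1) k + c₀ * θ ^ k)
      (RJ m θ (j + 1) k) BZ (Zs K σ F (W (q + 1 + 1))) (ball 0 (RJ m θ j k))
      (rj_one m h0 (show j + 1 ≤ m + 1 by omega) k) le_rfl (hRm.le.trans hRC) isOpen_ball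
      (closedBall_subset_ball hRm) hBZ0.le (Zs_c1 hL hRC WQ)
      (fun w hw => Zs_anti (WQ1 w hw).1)
      (fun w hw => Zs_closed hL (hwRC w hw) (hdW w hw) (WQ1 w hw).2.1)
      ((hZb ν k P σ F hL (RJ m θ j k) Bj (W (q + 1 + 1)) hRC hBj.le WQ2).ball hRm.le)
    have hsub : ball (0 : E) (RJ m θ (j + 1) k) ⊆ ball (0 : E) (RJ m θ j k) :=
      ball_subset_ball (rj_le m h0 j k)
    have hPb : ∀ w ∈ ball (0 : E) (RJ m θ (j + 1) k), P w ∈ ball (0 : E) (RJ m θ (j + 1) k) :=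
      fun w hw => mem_ball_zero_iff.mpr
        (lt_of_le_of_lt (norm_P_le hL.prj w) (mem_ball_zero_iff.mp hw))
    have hdS : ∀ w ∈ ball (0 : E) (RJ m θ (j + 1) k), DifferentiableAt ℝ S w :=
      fun w hw => (S1.contDiffAt (isOpen_ball.mem_nhds hw)).differentiableAt one_ne_zero
    have hpS : ContDiffOn ℝ 1 (pbk P S) (ball 0 (RJ m θ (j + 1) k)) := pbk_c1 hL.prj S1
    have hdp : ∀ w ∈ ball (0 : E) (RJ m θ (j + 1) k), DifferentiableAt ℝ (pbk P S) w :=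
      fun w hw => (hpS.contDiffAt (isOpen_ball.mem_nhds hw)).differentiableAt one_ne_zero
    refine ⟨Function.update W (q + 1) (fun w => S w - pbk P S w), ?_⟩
    intro r hr
    have hrr : q + 1 ≤ r := by omega
    have e1 : ∀ r', q + 1 < r' →
        Function.update W (q + 1) (fun w => S w - pbk P S w) r' = W r' := fun r' h =>
      Function.update_of_ne (by omega) _ _
    rcases Nat.eq_or_lt_of_le hrr with h | h
    · subst h
      have e0 : Function.update W (q + 1) (fun w => S w - pbk P S w) (q + 1) =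
          fun w => S w - pbk P S w := Function.update_self _ _ _
      rw [e0, e1 (q + 1 + 1) (by omega)]
      refine ⟨S1.sub hpS, fun w hw => ⟨?_, ?_, ?_⟩, ?_⟩
      · exact (S2 w hw).sub (pbk_anti (S2 (P w) (hPb w hw)))
      · rw [db_sub (hdS w hw) (hdp w hw), pbk_db (hdS (P w) (hPb w hw))]
        have h5 : pbk P (QT.db S) w = pbk P (Zs K σ F (W (q + 1 + 1))) w := by
          unfold pbk
          rw [S3 (P w) (hPb w hw)]
        rw [h5, Zs_pbk hL (hwRC w (hsub hw)) (WQ1 w (hsub hw)).2.2, sub_zero, S3 w hw]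
        rfl
      · rw [pbk_sub P S (pbk P S) w, pbk_idem hL.prj, sub_self]
      · have hp := pbk_bd hL.prj hν M h0 h1 hk hRC' (by positivity : 0 ≤ CU * BZ) S4
        intro w hw v
        have hwC : ‖w‖ < RC θ k := lt_of_lt_of_le hw hRC'
        have hWn := Wk_nonneg h0 h1 ν M hwC
        have hpr : 0 ≤ ∏ i, gau (dl θ k w) w (v i) :=
          Finset.prod_nonneg fun i _ => gau_nonneg (dl_pos h0 h1 hwC).le w (v i)
        have n1 := S4 w hw v
        have n2 := hp w hw v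
        have n3 : ‖(S w - pbk P S w) v‖ ≤ ‖S w v‖ + ‖pbk P S w v‖ := norm_sub_le _ _
        refine n3.trans ((add_le_add n1 n2).trans ?_)
        rw [← add_mul]
        refine mul_le_mul_of_nonneg_right ?_ hpr
        have h7 : 0 ≤ Bj * Wk ν M θ k w := mul_nonneg hBj.le hWn
        have h8 : CU * BZ * Wk ν M θ k w +
            2 ^ (M + 1) * (2 / (1 - θ)) ^ (q + 1) * (CU * BZ) * Wk ν M θ k w =
            (1 + CP) * (CU * BZ) * Wk ν M θ k w := by rw [hCP]; ring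
        rw [h8]
        linarith
    · rw [e1 r h, e1 (r + 1) (by omega)]
      obtain ⟨U1, U2, U3⟩ := hW r (by omega)
      refine ⟨U1.mono hsub, fun w hw => U2 w (hsub hw), ?_⟩
      refine (U3.ball (rj_le m h0 j k)).mono h0 h1 hRC' ?_
      intro w hw
      have hWn := Wk_nonneg h0 h1 ν M (lt_of_lt_of_le hw hRC')
      have h5 : 0 ≤ (1 + CP) * (CU * BZ) * Wk ν M θ k w := by positivity
      have h6 : (Bj + (1 + CP) * (CU * BZ)) * Wk ν M θ k w =
          Bj * Wk ν M θ k w + (1 + CP) * (CU * BZ) * Wk ν M θ k w := by ring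
      rw [h6]
      linarith

/-- `descentE_step` for `j = m`, degrees `1` and `2`; `1 + 3 θ^(k+1)/8 ≤ RJ m θ m k`. -/
theorem descentE (μ : Measure E) [μ.IsAddHaarMeasure] {m : ℕ} (hm : 1 ≤ m)
    (hdim : Module.finrank ℂ E = m + 1) {N : ℕ} (K : Car (Fin N → ℂ) V) {θ : ℝ}
    (h0 : 0 < θ) (h1 : θ < 1) {C₀ : ℝ} (hC₀ : 0 < C₀) (M : ℕ) :
    ∃ B : ℝ, 0 < B ∧ ∀ ν : Measure E, OnB ν → ∀ k : ℕ, 1 ≤ k → ∀ (P : E →L[ℂ] E)
      (σ : E → Fin N → ℂ) (F : E → (Fin N → ℂ) →L[ℂ] ℂ), LD θ ν M k C₀ P σ F →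
      ∃ (W₁ : E → E [⋀^Fin 1]→L[ℝ] V) (W₂ : E → E [⋀^Fin 2]→L[ℝ] V),
        ContDiffOn ℝ 1 W₁ (ball 0 (1 + 3 * θ ^ (k + 1) / 8)) ∧
        (∀ w ∈ ball (0 : E) (1 + 3 * θ ^ (k + 1) / 8), Anti (W₁ w) ∧
          QT.db W₁ w = UU K σ 2 w - opc E V 2 (K.c (F w)) (W₂ w) ∧ pbk P W₁ w = 0) ∧
        BdG θ k (1 + 3 * θ ^ (k + 1) / 8) (fun w => B * Wk ν M θ k w) W₁ := by
  obtain ⟨B, hB, hD⟩ := descentE_step (V := V) μ hm hdim K h0 h1 hC₀ M m le_rfl
  refine ⟨B, hB, ?_⟩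
  intro ν hν k hk P σ F hL
  obtain ⟨W, hW⟩ := hD ν hν k hk P σ F hL
  obtain ⟨U1, U2, U3⟩ := hW 1 (by omega)
  have hR : 1 + 3 * θ ^ (k + 1) / 8 ≤ RJ m θ m k := by
    unfold RJ
    have hm0 : (0 : ℝ) < m + 1 := by positivity
    have h3 : 3 * (m : ℝ) / (8 * ((m : ℝ) + 1)) ≤ 3 / 8 := by
      rw [div_le_div_iff₀ (by positivity) (by norm_num)]
      linarith
    have : 0 < θ ^ (k + 1) := pow_pos h0 _
    nlinarith
  have hsub : ball (0 : E) (1 + 3 * θ ^ (k + 1) / 8) ⊆ ball (0 : E) (RJ m θ m k) :=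
    ball_subset_ball hR
  exact ⟨W 1, W 2, U1.mono hsub, fun w hw => U2 w (hsub hw), U3.ball hR⟩

end Pool.Agent.MPca0fc2.TE
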