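import Mathlib
import Pool.Agent.Lib.MP_ca0fc2_an.Mg.G122

set_option autoImplicit false
set_option linter.unusedSectionVars false

open Metric Set MeasureTheory Filter Topology
open scoped InnerProductSpace ENNReal ContDiff

namespace Pool.Agent.MPca0fc2.TE

open Pool.Agent.MPca0fc2.PT
open Pool.Agent.MPca0fc2.QT
open Pool.Agent.MPca0fc2.TS

/-- A chain of steps of bounded hyperbolic length. `Φ` is the weight along the path, `r` the pseudohyperbolic length of the path, the density is `r / (1 - t² r²)`.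
Proof. Claim: for all `n`, for all `a ∈ [0, 1]` with `(2/3)^n (1 - r a) ≤ 1 - r`: `‖g 1 - g a‖ ≤ L (C₀ + 6 L' ∫_a^1 Φ r/(1-t²r²))`. If `2/3 (1 - r a) ≤ 1 - r`, use `h1 a 1` and `Φ a ≤ C₀`. Otherwise (so `r > 0`, `n = n' + 1`) let `b = (1 - 2/3 (1 - r a))/r`:
`1 - r b = 2/3 (1 - r a) > 1 - r`, `a ≤ b < 1`, induction for `b`, and `‖g b - g a‖ ≤ L Φ a`, where `∫_a^b Φ r/(1-t²r²) ≥ (Φ a/L') (b - a) r/(1 - a²r²) = (Φ a/L') (1/3)/(1 + r a) ≥ Φ a/(6 L')` by `h2 a t`. Take `n` with `(2/3)^n ≤ 1 - r`, `a = 0`. -/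
theorem chain {X : Type*} [SeminormedAddCommGroup X] {r L L' C₀ : ℝ} (hr0 : 0 ≤ r) (hr1 : r < 1)
    (hL : 0 ≤ L) (hL' : 0 < L') {g : ℝ → X} {Φ : ℝ → ℝ} (hΦ : ContinuousOn Φ (Icc 0 1))
    (hΦ0 : ∀ t ∈ Icc (0 : ℝ) 1, 0 ≤ Φ t) (hΦC : ∀ t ∈ Icc (0 : ℝ) 1, Φ t ≤ C₀)
    (h1 : ∀ a b : ℝ, 0 ≤ a → a ≤ b → b ≤ 1 → 2 / 3 * (1 - r * a) ≤ 1 - r * b →
      ‖g b - g a‖ ≤ L * Φ a)
    (h2 : ∀ a b : ℝ, 0 ≤ a → a ≤ b → b ≤ 1 → 2 / 3 * (1 - r * a) ≤ 1 - r * b → Φ a ≤ L' * Φ b) :
    ‖g 1 - g 0‖ ≤ L * (C₀ + 6 * L' * ∫ t in Icc (0 : ℝ) 1, Φ t * (r / (1 - t ^ 2 * r ^ 2))) := by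
  have hden : ∀ t ∈ Icc (0 : ℝ) 1, 0 < 1 - t ^ 2 * r ^ 2 := by
    intro t ht
    have h1 : t * r < 1 := by nlinarith [ht.1, ht.2]
    have h2 : 0 ≤ t * r := mul_nonneg ht.1 hr0
    nlinarith
  have hcont : ContinuousOn (fun t : ℝ => Φ t * (r / (1 - t ^ 2 * r ^ 2))) (Icc 0 1) := by
    refine hΦ.mul (ContinuousOn.div continuousOn_const (by fun_prop) ?_)
    intro t ht
    exact (hden t ht).ne'
  have hint : ∀ a b : ℝ, 0 ≤ a → a ≤ b → b ≤ 1 →
      IntervalIntegrable (fun t : ℝ => Φ t * (r / (1 - t ^ 2 * r ^ 2))) volume a b := by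
    intro a b ha hab hb
    apply ContinuousOn.intervalIntegrable
    rw [uIcc_of_le hab]
    exact hcont.mono (Icc_subset_Icc ha hb)
  have hpos : ∀ a : ℝ, 0 ≤ a → a ≤ 1 →
      0 ≤ ∫ t in a..1, Φ t * (r / (1 - t ^ 2 * r ^ 2)) := by
    intro a ha ha1
    apply intervalIntegral.integral_nonneg ha1
    intro t ht
    have ht' : t ∈ Icc (0 : ℝ) 1 := ⟨ha.trans ht.1, ht.2⟩
    exact mul_nonneg (hΦ0 t ht') (div_nonneg hr0 (hden t ht').le)
  have claim : ∀ n : ℕ, ∀ a : ℝ, 0 ≤ a → a ≤ 1 → (2 / 3 : ℝ) ^ n * (1 - r * a) ≤ 1 - r →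
      ‖g 1 - g a‖ ≤ L * (C₀ + 6 * L' * ∫ t in a..1, Φ t * (r / (1 - t ^ 2 * r ^ 2))) := by
    intro n
    induction n with
    | zero =>
      intro a ha ha1 hn
      rw [pow_zero, one_mul] at hn
      have hra : 0 ≤ 1 - r * a := by nlinarith
      have h := h1 a 1 ha ha1 le_rfl (by rw [mul_one]; linarith)
      have hC := hΦC a ⟨ha, ha1⟩
      have hI := hpos a ha ha1
      calc ‖g 1 - g a‖ ≤ L * Φ a := h
        _ ≤ L * (C₀ + 6 * L' * ∫ t in a..1, Φ t * (r / (1 - t ^ 2 * r ^ 2))) := by
            apply mul_le_mul_of_nonneg_left _ hL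
            have : 0 ≤ 6 * L' * ∫ t in a..1, Φ t * (r / (1 - t ^ 2 * r ^ 2)) :=
              mul_nonneg (by linarith) hI
            linarith
    | succ n ih =>
      intro a ha ha1 hn
      have hra : 0 ≤ 1 - r * a := by nlinarith
      by_cases hcase : 2 / 3 * (1 - r * a) ≤ 1 - r
      · have h := h1 a 1 ha ha1 le_rfl (by rw [mul_one]; exact hcase)
        have hC := hΦC a ⟨ha, ha1⟩
        have hI := hpos a ha ha1
        calc ‖g 1 - g a‖ ≤ L * Φ a := h
          _ ≤ L * (C₀ + 6 * L' * ∫ t in a..1, Φ t * (r / (1 - t ^ 2 * r ^ 2))) := by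
              apply mul_le_mul_of_nonneg_left _ hL
              have : 0 ≤ 6 * L' * ∫ t in a..1, Φ t * (r / (1 - t ^ 2 * r ^ 2)) :=
                mul_nonneg (by linarith) hI
              linarith
      · push Not at hcase
        have hrpos : 0 < r := by
          rcases hr0.lt_or_eq with h | h
          · exact h
          · exfalso
            rw [← h] at hcase
            norm_num at hcase
        set b : ℝ := (1 - 2 / 3 * (1 - r * a)) / r with hb
        have hrb : r * b = 1 - 2 / 3 * (1 - r * a) := by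
          rw [hb, mul_div_cancel₀ _ hrpos.ne']
        have hb1 : b < 1 := by
          by_contra hcon
          push Not at hcon
          have : r * 1 ≤ r * b := mul_le_mul_of_nonneg_left hcon hr0
          linarith
        have hab : a ≤ b := by
          by_contra hcon
          push Not at hcon
          have : r * b < r * a := mul_lt_mul_of_pos_left hcon hrpos
          linarith
        have hb0 : 0 ≤ b := ha.trans hab
        have hih := ih b hb0 hb1.le (by
          rw [hrb]
          rw [pow_succ] at hn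
          calc (2 / 3 : ℝ) ^ n * (1 - (1 - 2 / 3 * (1 - r * a)))
              = (2 / 3 : ℝ) ^ n * (2 / 3) * (1 - r * a) := by ring
            _ ≤ 1 - r := hn)
        have hstep := h1 a b ha hab hb1.le (by rw [hrb]; linarith)
        have hΦa := hΦ0 a ⟨ha, ha1⟩
        have hlow : Φ a / (6 * L') ≤ ∫ t in a..b, Φ t * (r / (1 - t ^ 2 * r ^ 2)) := by
          have hda := hden a ⟨ha, ha1⟩
          have hc : ∫ _t in a..b, Φ a / L' * (r / (1 - a ^ 2 * r ^ 2)) =
              (b - a) * (Φ a / L' * (r / (1 - a ^ 2 * r ^ 2))) := by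
            rw [intervalIntegral.integral_const, smul_eq_mul]
          have hmono : ∫ _t in a..b, Φ a / L' * (r / (1 - a ^ 2 * r ^ 2)) ≤
              ∫ t in a..b, Φ t * (r / (1 - t ^ 2 * r ^ 2)) := by
            apply intervalIntegral.integral_mono_on hab
            · exact intervalIntegrable_const
            · exact hint a b ha hab hb1.le
            · intro t ht
              have ht01 : t ∈ Icc (0 : ℝ) 1 := ⟨ha.trans ht.1, ht.2.trans hb1.le⟩
              have hdt := hden t ht01
              have hrt : r * t ≤ r * b := mul_le_mul_of_nonneg_left ht.2 hr0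
              have h3 := h2 a t ha ht.1 ht01.2 (by linarith)
              have h4 : Φ a / L' ≤ Φ t := by
                rw [div_le_iff₀ hL']
                linarith [mul_comm (Φ t) L']
              have h5 : r / (1 - a ^ 2 * r ^ 2) ≤ r / (1 - t ^ 2 * r ^ 2) := by
                apply div_le_div_of_nonneg_left hr0 hdt
                have : a ^ 2 ≤ t ^ 2 := by
                  have := ht.1
                  nlinarith
                nlinarith [sq_nonneg r, mul_le_mul_of_nonneg_right this (sq_nonneg r)]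
              exact mul_le_mul h4 h5 (div_nonneg hr0 hda.le) (hΦ0 t ht01)
          refine le_trans ?_ hmono
          rw [hc]
          have hfac : 1 - a ^ 2 * r ^ 2 = (1 - r * a) * (1 + r * a) := by ring
          have h1ra : 0 < 1 - r * a := by
            rcases hra.lt_or_eq with h | h
            · exact h
            · exfalso
              rw [← h] at hcase
              linarith
          have hra0 : 0 ≤ r * a := mul_nonneg hr0 ha
          have e1 : (b - a) * (Φ a / L' * (r / (1 - a ^ 2 * r ^ 2))) =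
              Φ a / (3 * L' * (1 + r * a)) := by
            have e2 : (b - a) * r = (1 - r * a) / 3 := by
              have : (b - a) * r = r * b - r * a := by ring
              rw [this, hrb]
              ring
            have e3 : (b - a) * (Φ a / L' * (r / (1 - a ^ 2 * r ^ 2))) =
                ((b - a) * r) * (Φ a / (L' * (1 - a ^ 2 * r ^ 2))) := by
              field_simp
            rw [e3, e2, hfac]
            have h1 : (1 - r * a) ≠ 0 := h1ra.ne'
            have h2 : (1 + r * a) ≠ 0 := by linarith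
            have h3 : L' ≠ 0 := hL'.ne'
            field_simp
          rw [e1]
          apply div_le_div_of_nonneg_left hΦa
          · positivity
          · have : r * a ≤ 1 := by linarith
            nlinarith
        have hsplit : (∫ t in a..1, Φ t * (r / (1 - t ^ 2 * r ^ 2))) =
            (∫ t in a..b, Φ t * (r / (1 - t ^ 2 * r ^ 2))) +
              ∫ t in b..1, Φ t * (r / (1 - t ^ 2 * r ^ 2)) :=
          (intervalIntegral.integral_add_adjacent_intervals (hint a b ha hab hb1.le)
            (hint b 1 hb0 hb1.le le_rfl)).symm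
        have hΦ6 : Φ a ≤ 6 * L' * ∫ t in a..b, Φ t * (r / (1 - t ^ 2 * r ^ 2)) := by
          rw [div_le_iff₀ (by linarith)] at hlow
          linarith
        calc ‖g 1 - g a‖ = ‖(g 1 - g b) + (g b - g a)‖ := by
              congr 1
              abel
          _ ≤ ‖g 1 - g b‖ + ‖g b - g a‖ := norm_add_le _ _
          _ ≤ L * (C₀ + 6 * L' * ∫ t in b..1, Φ t * (r / (1 - t ^ 2 * r ^ 2))) + L * Φ a :=
              add_le_add hih hstep
          _ ≤ L * (C₀ + 6 * L' * ∫ t in a..1, Φ t * (r / (1 - t ^ 2 * r ^ 2))) := by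
              rw [hsplit, ← mul_add]
              apply mul_le_mul_of_nonneg_left _ hL
              rw [mul_add (6 * L')]
              linarith
  obtain ⟨n, hn⟩ := exists_pow_lt_of_lt_one (show (0 : ℝ) < 1 - r by linarith)
    (show (2 / 3 : ℝ) < 1 by norm_num)
  have h := claim n 0 le_rfl zero_le_one (by
    rw [mul_zero, sub_zero, mul_one]
    exact hn.le)
  rw [intervalIntegral.integral_of_le zero_le_one] at h
  rw [integral_Icc_eq_integral_Ioc]
  exact h

end Pool.Agent.MPca0fc2.TE
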