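import Mathlib
import Pool.Agent.Lib.MP_ca0fc2_an.TE.G2
import Pool.Agent.Lib.MP_ca0fc2_an.TE.C1
import Pool.Agent.Lib.MP_ca0fc2_an.TS.De

set_option autoImplicit false
set_option linter.unusedSectionVars false

open Metric Set MeasureTheory Filter Topology
open scoped InnerProductSpace ENNReal ContDiff

namespace Pool.Agent.MPca0fc2.TE

open Pool.Agent.MPca0fc2.PT
open Pool.Agent.MPca0fc2.QT
open Pool.Agent.MPca0fc2.TS

variable {E : Type*} [NormedAddCommGroup E] [InnerProductSpace ℂ E]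

/-- `⟪pt s z, pt t z⟫ = ‖P z‖² + s t ‖z - P z‖²`, `1 - ... = (1 - ‖P z‖²)(1 - s t rr²)`; `Dp_eq`, `rr_facts` -/
theorem HH_pt {P : E →L[ℂ] E} (h : Prj P) {z : E} (hz : ‖z‖ < 1) {s t : ℝ} (hs : 0 ≤ s)
    (hs1 : s ≤ 1) (ht : 0 ≤ t) (ht1 : t ≤ 1) : HH (pt P s z) (pt P t z) =
      (1 - s ^ 2 * rr P z ^ 2) * (1 - t ^ 2 * rr P z ^ 2) / (1 - s * t * rr P z ^ 2) ^ 2 := by
  obtain ⟨r0, r1, hb, hu, hDs⟩ := rr_facts h hz s
  obtain ⟨-, -, -, -, hDt⟩ := rr_facts h hz t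
  have horth : ⟪P z, z - P z⟫_ℂ = 0 := by
    rw [h.sa, map_sub, h.idem, sub_self, inner_zero_right]
  have horth' : ⟪z - P z, P z⟫_ℂ = 0 := by
    rw [← inner_conj_symm, horth, map_zero]
  have hq : ‖z - P z‖ ^ 2 = rr P z ^ 2 * (1 - ‖P z‖ ^ 2) := by
    rw [hu, mul_pow, Real.sq_sqrt hb.le]
  have hin : ⟪pt P s z, pt P t z⟫_ℂ = ((‖P z‖ ^ 2 + s * t * ‖z - P z‖ ^ 2 : ℝ) : ℂ) := by
    have e1 : ⟪P z, P z⟫_ℂ = ((‖P z‖ ^ 2 : ℝ) : ℂ) := by
      rw [Complex.ofReal_pow]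
      exact inner_self_eq_norm_sq_to_K (P z)
    have e2 : ⟪z - P z, z - P z⟫_ℂ = ((‖z - P z‖ ^ 2 : ℝ) : ℂ) := by
      rw [Complex.ofReal_pow]
      exact inner_self_eq_norm_sq_to_K (z - P z)
    unfold pt
    rw [inner_add_left, inner_add_right, inner_add_right, inner_smul_left, inner_smul_left,
      inner_smul_right, inner_smul_right, horth, horth', e1, e2, Complex.conj_ofReal]
    push_cast
    ring
  have hpos : 0 < 1 - s * t * rr P z ^ 2 := by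
    have h2 : s * t ≤ 1 := mul_le_one₀ hs1 ht ht1
    have h3 : rr P z ^ 2 < 1 := by nlinarith
    have h4 : 0 ≤ s * t := mul_nonneg hs ht
    nlinarith [sq_nonneg (rr P z)]
  have hnorm : ‖1 - ⟪pt P s z, pt P t z⟫_ℂ‖ = (1 - ‖P z‖ ^ 2) * (1 - s * t * rr P z ^ 2) := by
    have e : 1 - ⟪pt P s z, pt P t z⟫_ℂ =
        (((1 - ‖P z‖ ^ 2) * (1 - s * t * rr P z ^ 2) : ℝ) : ℂ) := by
      rw [hin, hq]
      push_cast
      ring
    rw [e, Complex.norm_real, Real.norm_of_nonneg (mul_nonneg hb.le hpos.le)]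
  unfold HH
  rw [hnorm, Dp_eq h, Dp_eq h, hDs, hDt]
  have hb' : (1 - ‖P z‖ ^ 2) ≠ 0 := hb.ne'
  have hp' : (1 - s * t * rr P z ^ 2) ≠ 0 := hpos.ne'
  field_simp

/-- With `r = rr P z`: `1 - HH = ρ²`, `ρ = r (b - a)/(1 - a b r²) ≤ (1/3)(1 - r a)/(1 - a r)`. -/
theorem HH_step {P : E →L[ℂ] E} (h : Prj P) {z : E} (hz : ‖z‖ < 1) {a b : ℝ} (ha : 0 ≤ a)
    (hab : a ≤ b) (hb : b ≤ 1) (hs : 2 / 3 * (1 - rr P z * a) ≤ 1 - rr P z * b) :
    3 / 4 ≤ HH (pt P a z) (pt P b z) := by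
  obtain ⟨r0, r1, -, -, -⟩ := rr_facts h hz a
  rw [HH_pt h hz ha (hab.trans hb) (ha.trans hab) hb]
  set r := rr P z
  have hb0 : 0 ≤ b := ha.trans hab
  have h1 : r * (b - a) ≤ 1 / 3 * (1 - r * a) := by linarith
  have hra : r * a < 1 := by nlinarith
  have h2 : a * b * r ^ 2 ≤ r * a := by
    have : b * r ≤ 1 := mul_le_one₀ hb r0 r1.le
    have h3 : 0 ≤ r * a := mul_nonneg r0 ha
    calc a * b * r ^ 2 = (r * a) * (b * r) := by ring
      _ ≤ (r * a) * 1 := mul_le_mul_of_nonneg_left this h3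
      _ = _ := mul_one _
  have hpos : 0 < 1 - a * b * r ^ 2 := by linarith
  rw [le_div_iff₀ (by positivity)]
  have h3 : r * (b - a) ≤ 1 / 3 * (1 - a * b * r ^ 2) := by linarith
  have h4 : 0 ≤ r * (b - a) := mul_nonneg r0 (by linarith)
  have h5 : (r * (b - a)) ^ 2 ≤ (1 / 3 * (1 - a * b * r ^ 2)) ^ 2 :=
    pow_le_pow_left₀ h4 h3 2
  nlinarith [sq_nonneg (1 - a * b * r ^ 2)]

variable [FiniteDimensional ℂ E] [MeasurableSpace E] [BorelSpace E]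

/-- The weight at level `k` on one step. Proof. `Wk_eq`, `pt_smul`; `y = rt θ k • z`, `‖y‖ ≤ ‖z‖ < 1`. If `b = 0` then `a = 0`. Otherwise `pt P a y = pt P (a/b) (pt P b y)` (`P (pt P b y) = P y`, `pt P b y - P y = b (y - P y)`), `Om_pt`;
`Dp P (a/b) (pt b y)/Dp P 1 (pt b y) = Dp a y/Dp b y = (1 - a² r'²)/(1 - b² r'²)` with `r' = rr P y ≤ rr P z = r` (`rr` increases with the dilation), `≤ (1 - a²r²)/(1 - b²r²) ≤ 3/2` and `(3/2)^(1/4) ≤ 2`. -/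
theorem Wk_step {P : E →L[ℂ] E} (h : Prj P) {ν : Measure E} (hν : OnB ν) (M : ℕ) {θ : ℝ}
    (h0 : 0 < θ) (h1 : θ < 1) (k : ℕ) {z : E} (hz : ‖z‖ < 1) {a b : ℝ} (ha : 0 ≤ a)
    (hab : a ≤ b) (hb : b ≤ 1) (hs : 2 / 3 * (1 - rr P z * a) ≤ 1 - rr P z * b) :
    Wk ν M θ k (pt P a z) ≤ 2 ^ (M + 2) * Wk ν M θ k (pt P b z) := by
  have hb0 : 0 ≤ b := ha.trans hab
  obtain ⟨r0, r1, hP0, -, hDa⟩ := rr_facts h hz a
  obtain ⟨-, -, -, -, hDb⟩ := rr_facts h hz b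
  have hθ : 0 ≤ rt θ k ∧ rt θ k ≤ 1 := by
    unfold rt
    have h3 : θ ^ k ≤ 1 := pow_le_one₀ h0.le h1.le
    have h4 : 0 < θ ^ k := pow_pos h0 k
    constructor <;> linarith
  obtain ⟨t0, t1⟩ := hθ
  -- the comparison of the depths at `z`
  have hcmp : Dp P a z ≤ 3 / 2 * Dp P b z := by
    rw [hDa, hDb]
    set r := rr P z
    have hrb : 0 < 1 - r * b := by nlinarith
    have e1 : 1 - a ^ 2 * r ^ 2 ≤ 3 / 2 * (1 - b ^ 2 * r ^ 2) := by
      have h5 : 1 + r * a ≤ 1 + r * b := by nlinarith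
      have h6 : 0 ≤ 1 + r * a := by positivity
      have h7 : 1 - r * a ≤ 3 / 2 * (1 - r * b) := by linarith
      calc 1 - a ^ 2 * r ^ 2 = (1 - r * a) * (1 + r * a) := by ring
        _ ≤ (3 / 2 * (1 - r * b)) * (1 + r * a) := mul_le_mul_of_nonneg_right h7 h6
        _ ≤ (3 / 2 * (1 - r * b)) * (1 + r * b) :=
            mul_le_mul_of_nonneg_left h5 (by positivity)
        _ = _ := by ring
    nlinarith
  rw [Wk_eq, Wk_eq, ← pt_smul, ← pt_smul]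
  set y : E := (rt θ k : ℂ) • z with hy
  have hPy : P y = (rt θ k : ℂ) • P z := by rw [hy, map_smul]
  have hny : ‖P y‖ ^ 2 = rt θ k ^ 2 * ‖P z‖ ^ 2 := by
    rw [hPy, norm_smul, Complex.norm_real, Real.norm_of_nonneg t0, mul_pow]
  have hnu : ‖y - P y‖ ^ 2 = rt θ k ^ 2 * ‖z - P z‖ ^ 2 := by
    rw [hPy, hy, ← smul_sub, norm_smul, Complex.norm_real, Real.norm_of_nonneg t0, mul_pow]
  have hy1 : ‖y‖ < 1 := by
    rw [hy, norm_smul, Complex.norm_real, Real.norm_of_nonneg t0]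
    nlinarith [norm_nonneg z]
  have hDy : ∀ t, Dp P t y = 1 - rt θ k ^ 2 * (‖P z‖ ^ 2 + t ^ 2 * ‖z - P z‖ ^ 2) := by
    intro t
    unfold Dp
    rw [hny, hnu]
    ring
  clear_value y
  have hcmpy : Dp P a y ≤ 3 / 2 * Dp P b y := by
    rw [hDy, hDy]
    unfold Dp at hcmp
    have hr2 : rt θ k ^ 2 ≤ 1 := pow_le_one₀ t0 t1
    have hab2 : a ^ 2 ≤ b ^ 2 := pow_le_pow_left₀ ha hab 2
    have h8 : 0 ≤ 1 / 2 * ‖P z‖ ^ 2 + (3 / 2 * b ^ 2 - a ^ 2) * ‖z - P z‖ ^ 2 := by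
      have : 0 ≤ 3 / 2 * b ^ 2 - a ^ 2 := by nlinarith [sq_nonneg b]
      positivity
    have h9 : 1 / 2 * ‖P z‖ ^ 2 + (3 / 2 * b ^ 2 - a ^ 2) * ‖z - P z‖ ^ 2 ≤ 1 / 2 := by
      linarith
    have h10 : rt θ k ^ 2 * (1 / 2 * ‖P z‖ ^ 2 + (3 / 2 * b ^ 2 - a ^ 2) * ‖z - P z‖ ^ 2) ≤
        1 / 2 := by
      calc _ ≤ 1 * (1 / 2 * ‖P z‖ ^ 2 + (3 / 2 * b ^ 2 - a ^ 2) * ‖z - P z‖ ^ 2) :=
            mul_le_mul_of_nonneg_right hr2 h8
        _ ≤ _ := by linarith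
    linarith
  obtain ⟨d1, d2, d3, -⟩ := Dp_anti h hy1 hb0 hb (le_refl 1)
  obtain ⟨-, -, d4, d5⟩ := Dp_anti h hy1 ha hab hb
  have hDb0 : 0 < Dp P b y := lt_of_lt_of_le d1 d4
  rcases hb0.eq_or_lt with hbz | hbpos
  · have haz : a = 0 := le_antisymm (hbz ▸ hab) ha
    rw [haz, ← hbz]
    have hO : 0 ≤ Om ν M (pt P 0 y) := by
      apply Om_nonneg
      have h11 := Dp_eq h 0 y
      rw [hbz] at h11
      have h12 : 0 < 1 - ‖pt P b y‖ ^ 2 := by rw [h11]; exact hDb0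
      rw [hbz]
      nlinarith [norm_nonneg (pt P b y)]
    have h13 : (1 : ℝ) ≤ 2 ^ (M + 2) := one_le_pow₀ (by norm_num)
    nlinarith
  · have hPb : P (pt P b y) = P y := by
      unfold pt
      rw [map_add, map_smul, map_sub, h.idem, sub_self, smul_zero, add_zero]
    have hsub : pt P b y - P (pt P b y) = (b : ℂ) • (y - P y) := by
      rw [hPb]
      unfold pt
      rw [add_sub_cancel_left]
    have hyb : ‖pt P b y‖ < 1 := by
      have h11 := Dp_eq h b y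
      have h12 : 0 < 1 - ‖pt P b y‖ ^ 2 := by rw [h11]; exact hDb0
      nlinarith [norm_nonneg (pt P b y)]
    have hab1 : a / b ≤ 1 := (div_le_one hbpos).2 hab
    have hab0 : 0 ≤ a / b := div_nonneg ha hbpos.le
    have hpt : pt P (a / b) (pt P b y) = pt P a y := by
      have e1 : pt P (a / b) (pt P b y) =
          P (pt P b y) + ((a / b : ℝ) : ℂ) • (pt P b y - P (pt P b y)) := rfl
      rw [e1, hsub, hPb, smul_smul]
      have e2 : ((a / b : ℝ) : ℂ) * (b : ℂ) = (a : ℂ) := by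
        rw [← Complex.ofReal_mul, div_mul_cancel₀ a hbpos.ne']
      rw [e2]
      rfl
    have hD1 : Dp P (a / b) (pt P b y) = Dp P a y := by
      rw [← Dp_eq h, ← Dp_eq h, hpt]
    have hD2 : Dp P 1 (pt P b y) = Dp P b y := by
      rw [← Dp_eq h, ← Dp_eq h, pt_one]
    have key := Om_pt h hν M hyb hab0 hab1
    rw [hpt, hD1, hD2] at key
    have hO : 0 ≤ Om ν M (pt P b y) := Om_nonneg hyb
    have hDa0 : 0 ≤ Dp P a y := hDb0.le.trans d5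
    have hrat : (Dp P a y / Dp P b y) ^ (1 / 4 : ℝ) ≤ 2 := by
      have h14 : Dp P a y / Dp P b y ≤ 2 := by
        rw [div_le_iff₀ hDb0]
        linarith
      calc (Dp P a y / Dp P b y) ^ (1 / 4 : ℝ) ≤ (2 : ℝ) ^ (1 / 4 : ℝ) :=
            Real.rpow_le_rpow (div_nonneg hDa0 hDb0.le) h14 (by norm_num)
        _ ≤ (2 : ℝ) ^ (1 : ℝ) :=
            Real.rpow_le_rpow_of_exponent_le (by norm_num) (by norm_num)
        _ = 2 := Real.rpow_one _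
    calc Om ν M (pt P a y) ≤ 2 ^ (M + 1) * (Dp P a y / Dp P b y) ^ (1 / 4 : ℝ) *
          Om ν M (pt P b y) := key
      _ ≤ 2 ^ (M + 1) * 2 * Om ν M (pt P b y) := by gcongr
      _ = _ := by ring

/-- The oscillation along the geodesic: `chain` for `g t = S (pt P t z)`, `Φ t = Wk ν M θ k (pt P t z)` (continuous: `Wk_eq`, `Om_cont`), `pt_one`, `pt_zero`. -/
theorem path_osc {V : Type*} [NormedAddCommGroup V] {P : E →L[ℂ] E} (h : Prj P)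
    {ν : Measure E} (hν : OnB ν) (M : ℕ) {θ : ℝ} (h0 : 0 < θ) (h1 : θ < 1) (k : ℕ) {C₀ L : ℝ}
    (hL : 0 ≤ L) {S : E → V} (hW : ∀ w ∈ ball (0 : E) 1, Wk ν M θ k w ≤ C₀)
    (hS : ∀ y y' : E, ‖y‖ < 1 → ‖y'‖ < 1 → 3 / 4 ≤ HH y y' →
      ‖S y - S y'‖ ≤ L * Wk ν M θ k y) {z : E} (hz : ‖z‖ < 1) :
    ‖S z - S (P z)‖ ≤ L * (C₀ + 6 * 2 ^ (M + 2) * GI (Wk ν M θ k) P z) := by
  obtain ⟨r0, r1, -, -, -⟩ := rr_facts h hz 1
  have hpt : ∀ t ∈ Icc (0 : ℝ) 1, ‖pt P t z‖ < 1 := by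
    intro t ht
    obtain ⟨d1, -, d3, -⟩ := Dp_anti h hz ht.1 ht.2 (le_refl 1)
    obtain ⟨-, -, d4, -⟩ := Dp_anti h hz ht.1 (le_refl t) ht.2
    have h11 := Dp_eq h t z
    have h12 : 0 < 1 - ‖pt P t z‖ ^ 2 := by rw [h11]; exact lt_of_lt_of_le d1 d4
    nlinarith [norm_nonneg (pt P t z)]
  have ht01 : 0 ≤ rt θ k ∧ rt θ k ≤ 1 := by
    unfold rt
    have h3 : θ ^ k ≤ 1 := pow_le_one₀ h0.le h1.le
    have h4 : 0 < θ ^ k := pow_pos h0 k
    constructor <;> linarith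
  have hrtpt : ∀ t ∈ Icc (0 : ℝ) 1, ‖(rt θ k : ℂ) • pt P t z‖ < 1 := by
    intro t ht
    rw [norm_smul, Complex.norm_real, Real.norm_of_nonneg ht01.1]
    have := hpt t ht
    nlinarith [norm_nonneg (pt P t z), ht01.2]
  have hcont : ContinuousOn (fun t : ℝ => Wk ν M θ k (pt P t z)) (Icc 0 1) := by
    have e : (fun t : ℝ => Wk ν M θ k (pt P t z)) =
        (Om ν M) ∘ (fun t : ℝ => (rt θ k : ℂ) • pt P t z) := by
      funext t
      exact Wk_eq ν M θ k (pt P t z)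
    rw [e]
    refine (Om_cont hν M).comp ?_ ?_
    · apply Continuous.continuousOn
      unfold pt
      fun_prop
    · intro t ht
      exact mem_ball_zero_iff.2 (hrtpt t ht)
  have key := chain (X := V) (r := rr P z) (L := L) (L' := 2 ^ (M + 2)) (C₀ := C₀)
    (g := fun t => S (pt P t z)) (Φ := fun t => Wk ν M θ k (pt P t z)) r0 r1 hL (by positivity)
    hcont ?_ ?_ ?_ ?_
  · simp only [pt_one, pt_zero] at key
    exact key
  · intro t ht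
    rw [Wk_eq]
    exact Om_nonneg (hrtpt t ht)
  · intro t ht
    exact hW _ (mem_ball_zero_iff.2 (hpt t ht))
  · intro a b ha hab hb hs
    have := hS (pt P a z) (pt P b z) (hpt a ⟨ha, hab.trans hb⟩) (hpt b ⟨ha.trans hab, hb⟩)
      (HH_step h hz ha hab hb hs)
    rw [norm_sub_rev]
    exact this
  · intro a b ha hab hb hs
    exact Wk_step h hν M h0 h1 k hz ha hab hb hs

end Pool.Agent.MPca0fc2.TE
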