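import Mathlib
import Pool.Agent.Lib.MP_ca0fc2_an.TS.Ha

set_option autoImplicit false
set_option maxHeartbeats 4000000

open Metric Set MeasureTheory Filter Topology
open scoped InnerProductSpace ENNReal NNReal

/-! # The Harnack inequality of the weights with a centre -/

namespace Pool.Agent.MPca0fc2.TE

open Pool.Agent.MPca0fc2.PT Pool.Agent.MPca0fc2.QT Pool.Agent.MPca0fc2.TS

variable {E : Type*} [NormedAddCommGroup E] [InnerProductSpace ℂ E]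

/-- the inequality of three points on the ball of radius `R` -/
theorem osc_three {R : ℝ} {x y z : E} (hR : 0 < R) (hx : ‖x‖ < R) (hy : ‖y‖ < R) (hz : ‖z‖ < R) :
    (R ^ 2 - ‖y‖ ^ 2) * ‖((R ^ 2 : ℝ) : ℂ) - ⟪x, z⟫_ℂ‖ ≤
      2 * ‖((R ^ 2 : ℝ) : ℂ) - ⟪x, y⟫_ℂ‖ * ‖((R ^ 2 : ℝ) : ℂ) - ⟪y, z⟫_ℂ‖ := by
  have hRC : (R : ℂ) ≠ 0 := by exact_mod_cast hR.ne'
  have hRi : ‖((R⁻¹ : ℝ) : ℂ)‖ = R⁻¹ := by
    rw [Complex.norm_real, Real.norm_of_nonneg (by positivity)]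
  have hsm : ∀ x : E, R * ‖((R⁻¹ : ℝ) : ℂ) • x‖ = ‖x‖ := by
    intro x
    rw [norm_smul, hRi, ← mul_assoc, mul_inv_cancel₀ hR.ne', one_mul]
  have hlt : ∀ x : E, ‖x‖ < R → ‖((R⁻¹ : ℝ) : ℂ) • x‖ < 1 := by
    intro x hx
    rw [norm_smul, hRi, inv_mul_lt_iff₀ hR]
    linarith
  have hsq : ∀ x : E, R ^ 2 - ‖x‖ ^ 2 = R ^ 2 * (1 - ‖((R⁻¹ : ℝ) : ℂ) • x‖ ^ 2) := by
    intro x
    rw [← hsm x]
    ring
  have hin : ∀ x y : E, ‖((R ^ 2 : ℝ) : ℂ) - ⟪x, y⟫_ℂ‖ =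
      R ^ 2 * ‖1 - ⟪((R⁻¹ : ℝ) : ℂ) • x, ((R⁻¹ : ℝ) : ℂ) • y⟫_ℂ‖ := by
    intro x y
    have : ((R ^ 2 : ℝ) : ℂ) - ⟪x, y⟫_ℂ =
        ((R ^ 2 : ℝ) : ℂ) * (1 - ⟪((R⁻¹ : ℝ) : ℂ) • x, ((R⁻¹ : ℝ) : ℂ) • y⟫_ℂ) := by
      rw [inner_smul_left, inner_smul_right, Complex.conj_ofReal]
      push_cast
      field_simp
    rw [this, norm_mul, Complex.norm_real, Real.norm_of_nonneg (by positivity)]
  have h := ha_three (hlt x hx) (hlt y hy) (hlt z hz)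
  rw [hin, hin, hin, hsq]
  have h4 : (0 : ℝ) ≤ R ^ 2 * R ^ 2 := by positivity
  nlinarith [mul_le_mul_of_nonneg_left h h4]

/-- the real inequality -/
theorem osc_real {a Dw Dz P L d e D K Q G Iw Iz : ℝ} {M : ℕ} (ha : 0 < a) (hDw : 0 < Dw)
    (hDz : 0 < Dz) (hP : 0 < P) (hL : 0 < L) (he : 0 < e) (hd : 0 < d) (hD : 0 < D)
    (hK : 1 ≤ K) (hG : 1 ≤ G) (hQ : Q = D / e) (heD : e ≤ 2 * D)
    (heP : e ≤ 17 * P) (hLd : L ≤ K * d) (hDD : Dz ≤ 2 * Q * Dw)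
    (hIw : 0 ≤ Iw) (hIz : 0 ≤ Iz) (hI : Iw ≤ (G * Q) ^ ((M : ℝ) + 1 / 4) * Iz) :
    a * Dw ^ (-(1 / 4) : ℝ) * P ^ (-(1 / 2) : ℝ) * Iw ≤
      (2 * (17 * K) * G ^ (M + 1) * 4) * (a * Dz ^ (-(1 / 4) : ℝ) * L ^ (-(1 / 2) : ℝ) * Iz) *
        Q ^ (M + 3) * Real.sqrt (d / D) := by
  have hQ0 : 0 < Q := by rw [hQ]; positivity
  have hQ2 : 1 ≤ 2 * Q := by rw [hQ, ← mul_div_assoc, le_div_iff₀ he]; linarith
  obtain ⟨u, hu⟩ : ∃ u : ℝ, u = d / D := ⟨_, rfl⟩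
  have hu0 : 0 < u := by rw [hu]; positivity
  have h1 : Dw ^ (-(1 / 4) : ℝ) ≤ 2 * Q ^ (1 / 4 : ℝ) * Dz ^ (-(1 / 4) : ℝ) := by
    have b1 : Dz / (2 * Q) ≤ Dw := by rw [div_le_iff₀ (by positivity)]; linarith
    calc Dw ^ (-(1 / 4) : ℝ) ≤ (Dz / (2 * Q)) ^ (-(1 / 4) : ℝ) :=
          Real.rpow_le_rpow_of_nonpos (by positivity) b1 (by norm_num)
      _ = (2 : ℝ) ^ (1 / 4 : ℝ) * Q ^ (1 / 4 : ℝ) * Dz ^ (-(1 / 4) : ℝ) := by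
          rw [Real.div_rpow hDz.le (by positivity), Real.mul_rpow (by norm_num) hQ0.le,
            Real.rpow_neg (by norm_num : (0 : ℝ) ≤ 2), Real.rpow_neg hQ0.le]
          field_simp
      _ ≤ _ := by
          have : (2 : ℝ) ^ (1 / 4 : ℝ) ≤ 2 := by
            calc (2 : ℝ) ^ (1 / 4 : ℝ) ≤ 2 ^ (1 : ℝ) :=
                  Real.rpow_le_rpow_of_exponent_le (by norm_num) (by norm_num)
              _ = 2 := Real.rpow_one _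
          gcongr
  have h2 : P ^ (-(1 / 2) : ℝ) ≤ (17 * K) * (Real.sqrt u * Q ^ (1 / 2 : ℝ)) * L ^ (-(1 / 2) : ℝ) := by
    have b1 : L / (17 * K * (u * Q)) ≤ P := by
      rw [div_le_iff₀ (by positivity)]
      have e1 : u * Q = d / e := by rw [hu, hQ]; field_simp
      rw [e1]
      calc L ≤ K * d := hLd
        _ = e * (K * (d / e)) := by field_simp
        _ ≤ (17 * P) * (K * (d / e)) := by gcongr
        _ = _ := by ring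
    calc P ^ (-(1 / 2) : ℝ) ≤ (L / (17 * K * (u * Q))) ^ (-(1 / 2) : ℝ) :=
          Real.rpow_le_rpow_of_nonpos (by positivity) b1 (by norm_num)
      _ = (17 * K) ^ (1 / 2 : ℝ) * (u ^ (1 / 2 : ℝ) * Q ^ (1 / 2 : ℝ)) * L ^ (-(1 / 2) : ℝ) := by
          have hK17 : 0 < 17 * K := by positivity
          rw [Real.div_rpow hL.le (by positivity), Real.mul_rpow hK17.le (by positivity),
            Real.mul_rpow hu0.le hQ0.le, Real.rpow_neg hK17.le, Real.rpow_neg hu0.le,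
            Real.rpow_neg hQ0.le]
          field_simp
      _ ≤ _ := by
          rw [Real.sqrt_eq_rpow]
          have : (17 * K) ^ (1 / 2 : ℝ) ≤ 17 * K := by
            calc (17 * K) ^ (1 / 2 : ℝ) ≤ (17 * K) ^ (1 : ℝ) :=
                  Real.rpow_le_rpow_of_exponent_le (by linarith) (by norm_num)
              _ = _ := Real.rpow_one _
          gcongr
  have h4 : (G * Q) ^ ((M : ℝ) + 1 / 4) ≤ G ^ (M + 1) * (Q ^ (M : ℝ) * Q ^ (1 / 4 : ℝ)) := by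
    rw [Real.mul_rpow (by linarith) hQ0.le]
    have c1 : G ^ ((M : ℝ) + 1 / 4) ≤ G ^ (M + 1) := by
      rw [← Real.rpow_natCast]
      push_cast
      exact Real.rpow_le_rpow_of_exponent_le hG (by linarith)
    rw [Real.rpow_add hQ0]
    gcongr
  have hQM : Q ^ (1 / 4 : ℝ) * Q ^ (1 / 2 : ℝ) * (Q ^ (M : ℝ) * Q ^ (1 / 4 : ℝ)) ≤
      4 * Q ^ (M + 3) := by
    have c1 : Q ^ (1 / 4 : ℝ) * Q ^ (1 / 2 : ℝ) * (Q ^ (M : ℝ) * Q ^ (1 / 4 : ℝ)) = Q ^ (M + 1) := by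
      rw [← Real.rpow_add hQ0, ← Real.rpow_add hQ0, ← Real.rpow_add hQ0, ← Real.rpow_natCast]
      congr 1
      push_cast
      ring
    rw [c1]
    have c2 : Q ^ (M + 3) = Q ^ (M + 1) * Q ^ 2 := by ring
    rw [c2]
    have c3 : 1 ≤ 4 * Q ^ 2 := by nlinarith
    have c4 : 0 < Q ^ (M + 1) := by positivity
    nlinarith
  rw [← hu]
  calc a * Dw ^ (-(1 / 4) : ℝ) * P ^ (-(1 / 2) : ℝ) * Iw
      ≤ a * (2 * Q ^ (1 / 4 : ℝ) * Dz ^ (-(1 / 4) : ℝ)) *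
        ((17 * K) * (Real.sqrt u * Q ^ (1 / 2 : ℝ)) * L ^ (-(1 / 2) : ℝ)) *
        ((G ^ (M + 1) * (Q ^ (M : ℝ) * Q ^ (1 / 4 : ℝ))) * Iz) := by
        gcongr
        exact hI.trans (mul_le_mul_of_nonneg_right h4 hIz)
    _ = (a * Dz ^ (-(1 / 4) : ℝ) * L ^ (-(1 / 2) : ℝ) * Iz * (2 * (17 * K) * G ^ (M + 1)) *
        Real.sqrt u) * (Q ^ (1 / 4 : ℝ) * Q ^ (1 / 2 : ℝ) * (Q ^ (M : ℝ) * Q ^ (1 / 4 : ℝ))) := by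
        ring
    _ ≤ (a * Dz ^ (-(1 / 4) : ℝ) * L ^ (-(1 / 2) : ℝ) * Iz * (2 * (17 * K) * G ^ (M + 1)) *
        Real.sqrt u) * (4 * Q ^ (M + 3)) := by
        apply mul_le_mul_of_nonneg_left hQM
        positivity
    _ = _ := by ring

variable [FiniteDimensional ℂ E] [MeasurableSpace E] [BorelSpace E]

/-- the Harnack inequality of the potential -/
theorem Ik_har {θ : ℝ} (h0 : 0 < θ) (h1 : θ < 1) (M : ℕ) {c₀ : ℝ} (hc₀ : 0 < c₀)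
    {ν : Measure E} (hν : OnB ν) {k : ℕ} {R : ℝ} {z w : E} (hR1 : 1 ≤ R) (hR : R ≤ RC θ k)
    (hz : ‖z‖ + c₀ * θ ^ k ≤ R) (hw : ‖w‖ < R) :
    Ik ν M θ k w ≤ ((34 * (1 + 9 / c₀)) * (‖((R ^ 2 : ℝ) : ℂ) - ⟪w, z⟫_ℂ‖ /
      (R ^ 2 - ‖w‖ ^ 2))) ^ ((M : ℝ) + 1 / 4) * Ik ν M θ k z := by
  have hθk : 0 < θ ^ k := pow_pos h0 k
  have hzR : ‖z‖ < R := by nlinarith
  have hwC : ‖w‖ < RC θ k := lt_of_lt_of_le hw hR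
  have hzC : ‖z‖ < RC θ k := lt_of_lt_of_le hzR hR
  obtain ⟨f1, f2, f3, f4, f5, f6⟩ := cmq_elem h0 h1 hc₀ hR1 hR hz hw
  have g1 := cmq_dlw h0 h1 hR1 hR hw (le_refl k)
  have g4 := cmq_den h0 h1 hR1 hR hzR.le hw.le (le_refl k) (le_refl k)
  have hdw := dl_pos h0 h1 hwC
  set D : ℝ := ‖((R ^ 2 : ℝ) : ℂ) - ⟪w, z⟫_ℂ‖ with hDd
  have hD : 0 < D := lt_of_lt_of_le (by positivity) f6
  have hden : ‖1 - ⟪(rt θ k : ℂ) • w, (rt θ k : ℂ) • z⟫_ℂ‖ ≤ (1 + 9 / c₀) * D := by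
    refine g4.trans ?_
    have : θ ^ k ≤ D / c₀ := by rw [le_div_iff₀ hc₀]; linarith
    calc D + 9 * θ ^ k ≤ D + 9 * (D / c₀) := by linarith
      _ = _ := by ring
  have hrw := rt_smul_mem h0 h1 (Nat.le_succ k) hwC
  have hrz := rt_smul_mem h0 h1 (Nat.le_succ k) hzC
  rw [mem_ball_zero_iff] at hrw hrz
  refine PP_le hν (by positivity) hrz hrw (by positivity) ?_
  intro x hx
  rw [mem_ball_zero_iff] at hx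
  have t1 := ha_three hx hrw hrz
  have t2 : 1 - ‖(rt θ k : ℂ) • w‖ ^ 2 = dl θ k w := by
    unfold dl
    rw [age_norm_smul h0 h1]
    ring
  rw [t2] at t1
  have t3 : dl θ k w * ‖1 - ⟪x, (rt θ k : ℂ) • z⟫_ℂ‖ ≤
      2 * ‖1 - ⟪x, (rt θ k : ℂ) • w⟫_ℂ‖ * ((1 + 9 / c₀) * D) :=
    t1.trans (mul_le_mul_of_nonneg_left hden (by positivity))
  have t4 : (R ^ 2 - ‖w‖ ^ 2) * ‖1 - ⟪x, (rt θ k : ℂ) • z⟫_ℂ‖ ≤
      34 * ‖1 - ⟪x, (rt θ k : ℂ) • w⟫_ℂ‖ * ((1 + 9 / c₀) * D) := by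
    calc _ ≤ 17 * dl θ k w * ‖1 - ⟪x, (rt θ k : ℂ) • z⟫_ℂ‖ :=
          mul_le_mul_of_nonneg_right g1 (norm_nonneg _)
      _ = 17 * (dl θ k w * ‖1 - ⟪x, (rt θ k : ℂ) • z⟫_ℂ‖) := by ring
      _ ≤ 17 * (2 * ‖1 - ⟪x, (rt θ k : ℂ) • w⟫_ℂ‖ * ((1 + 9 / c₀) * D)) := by gcongr
      _ = _ := by ring
  calc ‖1 - ⟪x, (rt θ k : ℂ) • z⟫_ℂ‖ =
        ((R ^ 2 - ‖w‖ ^ 2) * ‖1 - ⟪x, (rt θ k : ℂ) • z⟫_ℂ‖) / (R ^ 2 - ‖w‖ ^ 2) := by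
          field_simp
    _ ≤ (34 * ‖1 - ⟪x, (rt θ k : ℂ) • w⟫_ℂ‖ * ((1 + 9 / c₀) * D)) / (R ^ 2 - ‖w‖ ^ 2) := by
          gcongr
    _ = _ := by ring

/-- the weight with the centre `a` -/
noncomputable def Pha (ν : Measure E) (M : ℕ) (θ : ℝ) (k : ℕ) (R : ℝ) (a w : E) : ℝ :=
  (R ^ 2 - ‖a‖ ^ 2) * ‖((R ^ 2 : ℝ) : ℂ) - ⟪a, w⟫_ℂ‖ ^ (-(1 / 4) : ℝ) *
    dl θ k w ^ (-(1 / 2) : ℝ) * Ik ν M θ k w

/-- the Harnack inequality of the weight with the centre `a` -/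
theorem Pha_har {θ : ℝ} (h0 : 0 < θ) (h1 : θ < 1) (M : ℕ) {c₀ : ℝ} (hc₀ : 0 < c₀)
    {ν : Measure E} (hν : OnB ν) {k : ℕ} {R : ℝ} {a z w : E} (hR1 : 1 ≤ R) (hR : R ≤ RC θ k)
    (ha : ‖a‖ < R) (hz : ‖z‖ + c₀ * θ ^ k ≤ R) (hw : ‖w‖ < R) :
    Pha ν M θ k R a w ≤ (2 * (17 * (1 + 7 / c₀)) * (34 * (1 + 9 / c₀)) ^ (M + 1) * 4) *
      Pha ν M θ k R a z *
        (‖((R ^ 2 : ℝ) : ℂ) - ⟪w, z⟫_ℂ‖ / (R ^ 2 - ‖w‖ ^ 2)) ^ (M + 3) *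
          Real.sqrt ((R ^ 2 - ‖z‖ ^ 2) / ‖((R ^ 2 : ℝ) : ℂ) - ⟪w, z⟫_ℂ‖) := by
  have hθk : 0 < θ ^ k := pow_pos h0 k
  have hzR : ‖z‖ < R := by nlinarith
  have hwC : ‖w‖ < RC θ k := lt_of_lt_of_le hw hR
  have hzC : ‖z‖ < RC θ k := lt_of_lt_of_le hzR hR
  have hR0 : 0 < R := by linarith
  obtain ⟨f1, f2, f3, f4, f5, f6⟩ := cmq_elem h0 h1 hc₀ hR1 hR hz hw
  have g1 := cmq_dlw h0 h1 hR1 hR hw (le_refl k)
  obtain ⟨g2, g3⟩ := cmq_dlz h0 h1 hc₀ hR1 hR hz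
  have hI := Ik_har h0 h1 M hc₀ hν hR1 hR hz hw
  have h3 := osc_three hR0 ha hw hzR
  have hdw := dl_pos h0 h1 hwC
  have hdz := dl_pos h0 h1 hzC
  have hpos : ∀ x : E, ‖x‖ < R → 0 < ‖((R ^ 2 : ℝ) : ℂ) - ⟪a, x⟫_ℂ‖ := by
    intro x hx
    have h4 := cmq_D (R := R) (z := x) (w := a)
    have h5 : ‖a‖ * ‖x‖ < R * R := mul_lt_mul'' ha hx (norm_nonneg _) (norm_nonneg _)
    nlinarith
  have hD : 0 < ‖((R ^ 2 : ℝ) : ℂ) - ⟪w, z⟫_ℂ‖ := lt_of_lt_of_le (by positivity) f6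
  have ha2 : 0 < R ^ 2 - ‖a‖ ^ 2 := by nlinarith [norm_nonneg a]
  have hK : 1 ≤ 1 + 7 / c₀ := by
    have : 0 < 7 / c₀ := by positivity
    linarith
  have hG : 1 ≤ 34 * (1 + 9 / c₀) := by
    have : 0 < 9 / c₀ := by positivity
    linarith
  unfold Pha
  refine osc_real ha2 (hpos w hw) (hpos z hzR) hdw hdz f2 f3 hD hK hG rfl f4 g1 g3 ?_
    (Ik_nonneg _ _ _ _ _) (Ik_nonneg _ _ _ _ _) hI
  rw [mul_div_assoc', div_mul_eq_mul_div, le_div_iff₀ f2]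
  linarith

end Pool.Agent.MPca0fc2.TE
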