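import Mathlib
import Pool.Agent.Lib.MP_ca0fc2_an.Mg.G017
import Pool.Agent.Lib.MP_ca0fc2_an.QTX6
import Pool.Agent.Lib.MP_ca0fc2_an.QTX7a
import Pool.Agent.Lib.MP_ca0fc2_an.TS.Zero
import Pool.Agent.Lib.MP_ca0fc2_an.TS.Sharp
import Pool.Agent.Lib.MP_ca0fc2_an.TE.OscH

set_option autoImplicit false
set_option maxHeartbeats 4000000

open Metric Set MeasureTheory Filter Topology
open scoped InnerProductSpace ENNReal NNReal

/-! # The solutions with a centre -/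

namespace Pool.Agent.MPca0fc2.TE

open Pool.Agent.MPca0fc2.PT Pool.Agent.MPca0fc2.QT Pool.Agent.MPca0fc2.TS

variable {E : Type*} [NormedAddCommGroup E] [InnerProductSpace ℂ E]

/-- the holomorphic factor with the centre `a` -/
noncomputable def phi (R : ℝ) (a w : E) : ℂ :=
  (((R ^ 2 : ℝ) : ℂ) - ⟪a, w⟫_ℂ) / ((R ^ 2 - ‖a‖ ^ 2 : ℝ) : ℂ)

theorem phi_diff (R : ℝ) (a : E) : Differentiable ℂ (phi R a) := by
  have h : Differentiable ℂ (fun w : E => ((R ^ 2 : ℝ) : ℂ) - ⟪a, w⟫_ℂ) :=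
    (differentiable_const _).sub (innerSL ℂ a).differentiable
  have h2 := h.mul_const (((R ^ 2 - ‖a‖ ^ 2 : ℝ) : ℂ)⁻¹)
  exact h2

theorem osc_conjR (R : ℝ) (x y : E) :
    ‖((R ^ 2 : ℝ) : ℂ) - ⟪x, y⟫_ℂ‖ = ‖((R ^ 2 : ℝ) : ℂ) - ⟪y, x⟫_ℂ‖ := by
  have h : ((R ^ 2 : ℝ) : ℂ) - ⟪x, y⟫_ℂ = (starRingEnd ℂ) (((R ^ 2 : ℝ) : ℂ) - ⟪y, x⟫_ℂ) := by
    rw [map_sub, Complex.conj_ofReal, inner_conj_symm]
  rw [h, Complex.norm_conj]

theorem osc_Dpos {R : ℝ} {a w : E} (ha : ‖a‖ < R) (hw : ‖w‖ ≤ R) :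
    0 < ‖((R ^ 2 : ℝ) : ℂ) - ⟪a, w⟫_ℂ‖ := by
  have h4 := cmq_D (R := R) (z := w) (w := a)
  have h0 : 0 < R := (norm_nonneg a).trans_lt ha
  have h5 : ‖a‖ * ‖w‖ ≤ ‖a‖ * R := mul_le_mul_of_nonneg_left hw (norm_nonneg _)
  have h6 : ‖a‖ * R < R * R := mul_lt_mul_of_pos_right ha h0
  nlinarith

theorem phi_norm {R : ℝ} {a : E} (ha : ‖a‖ < R) (w : E) :
    ‖phi R a w‖ = ‖((R ^ 2 : ℝ) : ℂ) - ⟪a, w⟫_ℂ‖ / (R ^ 2 - ‖a‖ ^ 2) := by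
  have ha2 : 0 < R ^ 2 - ‖a‖ ^ 2 := by nlinarith [norm_nonneg a]
  unfold phi
  rw [norm_div, Complex.norm_real, Real.norm_of_nonneg ha2.le]

theorem phi_ne {R : ℝ} {a w : E} (ha : ‖a‖ < R) (hw : ‖w‖ ≤ R) : phi R a w ≠ 0 := by
  have ha2 : 0 < R ^ 2 - ‖a‖ ^ 2 := by nlinarith [norm_nonneg a]
  rw [← norm_pos_iff, phi_norm ha]
  exact div_pos (osc_Dpos ha hw) ha2

/-! ### geometric inequalities -/

theorem osc_dl_le {θ : ℝ} (h0 : 0 < θ) (h1 : θ < 1) {c₀ : ℝ} (hc₀ : 0 < c₀) {k : ℕ} {R : ℝ}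
    (hR1 : 1 + c₀ * θ ^ k ≤ R) (hR : R ≤ RC θ k) {a w : E} (ha : ‖a‖ < 1) (hw : ‖w‖ < R) :
    dl θ k w ≤ (2 + 7 / c₀) * ‖((R ^ 2 : ℝ) : ℂ) - ⟪a, w⟫_ℂ‖ := by
  have hk0 : 0 < θ ^ k := by positivity
  have hk1 : θ ^ k ≤ 1 := pow_le_one₀ h0.le h1.le
  have hck : 0 < c₀ * θ ^ k := by positivity
  obtain ⟨hR2, hR7⟩ := cmq_R h0 h1 (by linarith) hR
  have hD := cmq_D (R := R) (z := w) (w := a)
  set D : ℝ := ‖((R ^ 2 : ℝ) : ℂ) - ⟪a, w⟫_ℂ‖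
  have hwn := norm_nonneg w
  have han := norm_nonneg a
  have h3 : ‖a‖ * ‖w‖ ≤ ‖w‖ := by nlinarith
  have h4 : R ^ 2 - ‖w‖ ≤ D := by linarith
  have h5 : c₀ * θ ^ k ≤ D := by nlinarith
  have h6 : R ^ 2 - ‖w‖ ^ 2 ≤ 2 * D := by nlinarith [sq_nonneg (‖w‖ - 1)]
  have h7 : dl θ k w ≤ (R ^ 2 - ‖w‖ ^ 2) + 7 * θ ^ k := by
    have b1 : dl θ k w ≤ (1 - ‖w‖ ^ 2) + 2 * θ ^ k * ‖w‖ ^ 2 := by
      unfold dl rt
      nlinarith [sq_nonneg ‖w‖, mul_nonneg (sq_nonneg (θ ^ k)) (sq_nonneg ‖w‖)]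
    have b2 : ‖w‖ ^ 2 ≤ 49 / 16 := by nlinarith
    have b3 : 2 * θ ^ k * ‖w‖ ^ 2 ≤ 2 * θ ^ k * (49 / 16) := by gcongr
    nlinarith
  have h8 : θ ^ k ≤ D / c₀ := by rw [le_div_iff₀ hc₀]; linarith
  have h9 : (2 + 7 / c₀) * D = 2 * D + 7 * (D / c₀) := by ring
  rw [h9]
  linarith

theorem osc_DR_le {θ : ℝ} (h0 : 0 < θ) (h1 : θ < 1) {c₀ : ℝ} (hc₀ : 0 < c₀) {k : ℕ} {R : ℝ}
    (hR1 : 1 + c₀ * θ ^ k ≤ R) (hR : R ≤ RC θ k) {a w : E} (ha : ‖a‖ < 1)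
    (hw : ‖w‖ < 1 + c₀ * θ ^ k / 2) :
    ‖((R ^ 2 : ℝ) : ℂ) - ⟪a, w⟫_ℂ‖ ≤
      (1 + 5 / c₀) * ‖(((1 + c₀ * θ ^ k / 2) ^ 2 : ℝ) : ℂ) - ⟪a, w⟫_ℂ‖ := by
  have hk0 : 0 < θ ^ k := by positivity
  have hck : 0 < c₀ * θ ^ k := by positivity
  obtain ⟨P, hP⟩ : ∃ P : ℝ, P = 1 + c₀ * θ ^ k / 2 := ⟨_, rfl⟩
  rw [← hP] at hw ⊢
  obtain ⟨hR2, hR7⟩ := cmq_R h0 h1 (by linarith) hR
  have hD := cmq_D (R := P) (z := w) (w := a)
  have hwn := norm_nonneg w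
  have han := norm_nonneg a
  have h3 : ‖a‖ * ‖w‖ ≤ ‖w‖ := by nlinarith
  have hP1 : 1 ≤ P := by rw [hP]; linarith
  have h5 : c₀ * θ ^ k / 2 ≤ ‖((P ^ 2 : ℝ) : ℂ) - ⟪a, w⟫_ℂ‖ := by
    have b1 : P ^ 2 - ‖w‖ ≤ ‖((P ^ 2 : ℝ) : ℂ) - ⟪a, w⟫_ℂ‖ := by linarith
    have b2 : c₀ * θ ^ k / 2 ≤ P ^ 2 - ‖w‖ := by
      have : P - 1 = c₀ * θ ^ k / 2 := by rw [hP]; ring
      nlinarith
    exact b2.trans b1
  have h6 : ‖((R ^ 2 : ℝ) : ℂ) - ⟪a, w⟫_ℂ‖ ≤ (R ^ 2 - P ^ 2) + ‖((P ^ 2 : ℝ) : ℂ) - ⟪a, w⟫_ℂ‖ := by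
    have e : ((R ^ 2 : ℝ) : ℂ) - ⟪a, w⟫_ℂ =
        ((R ^ 2 - P ^ 2 : ℝ) : ℂ) + (((P ^ 2 : ℝ) : ℂ) - ⟪a, w⟫_ℂ) := by
      push_cast; ring
    rw [e]
    refine (norm_add_le _ _).trans ?_
    rw [Complex.norm_real, Real.norm_of_nonneg]
    have : P ≤ R := by rw [hP]; linarith
    nlinarith
  have h7 : R ^ 2 - P ^ 2 ≤ 5 / 2 * θ ^ k := by nlinarith
  have h8 : θ ^ k ≤ 2 * ‖((P ^ 2 : ℝ) : ℂ) - ⟪a, w⟫_ℂ‖ / c₀ := by
    rw [le_div_iff₀ hc₀]; linarith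
  calc ‖((R ^ 2 : ℝ) : ℂ) - ⟪a, w⟫_ℂ‖ ≤ (R ^ 2 - P ^ 2) + ‖((P ^ 2 : ℝ) : ℂ) - ⟪a, w⟫_ℂ‖ := h6
    _ ≤ 5 / 2 * (2 * ‖((P ^ 2 : ℝ) : ℂ) - ⟪a, w⟫_ℂ‖ / c₀) + ‖((P ^ 2 : ℝ) : ℂ) - ⟪a, w⟫_ℂ‖ := by
        linarith
    _ = _ := by ring

/-- the real inequality for the solutions with a centre -/
theorem osc_real2 {Da Dp e d P La G K Iw Ia : ℝ} {M : ℕ} (hDa : 0 < Da) (hDp : 0 < Dp)
    (he : 0 < e) (hd : 0 < d) (hP : 0 < P) (hLa : 0 < La) (hG : 1 ≤ G) (hK : 1 ≤ K)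
    (h1 : Da ≤ K * Dp) (h2 : e ≤ 17 * P) (h3 : e ≤ 2 * Dp) (h4 : d ≤ 17 * La)
    (hIw : 0 ≤ Iw) (hIa : 0 ≤ Ia) (hI : Iw ≤ (G * (Dp / e)) ^ ((M : ℝ) + 1 / 4) * Ia) :
    Da ^ (3 / 4 : ℝ) * P ^ (-(1 / 2) : ℝ) * Iw ≤
      (2 * K * 17 * 17 * G ^ (M + 1)) * (La ^ (1 / 4 : ℝ) * Ia) * (Dp / e) ^ (M + 1) *
        (Dp / d) ^ (1 / 4 : ℝ) := by
  obtain ⟨Q, hQ⟩ : ∃ Q : ℝ, Q = Dp / e := ⟨_, rfl⟩
  have hQ0 : 0 < Q := by rw [hQ]; positivity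
  have hQ2 : 1 ≤ 2 * Q := by rw [hQ, ← mul_div_assoc, le_div_iff₀ he]; linarith
  rw [← hQ] at hI ⊢
  have a1 : Da ^ (3 / 4 : ℝ) ≤ K * Dp ^ (3 / 4 : ℝ) := by
    calc Da ^ (3 / 4 : ℝ) ≤ (K * Dp) ^ (3 / 4 : ℝ) :=
          Real.rpow_le_rpow hDa.le h1 (by norm_num)
      _ = K ^ (3 / 4 : ℝ) * Dp ^ (3 / 4 : ℝ) := Real.mul_rpow (by linarith) hDp.le
      _ ≤ _ := by
          have : K ^ (3 / 4 : ℝ) ≤ K := by
            calc K ^ (3 / 4 : ℝ) ≤ K ^ (1 : ℝ) :=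
                  Real.rpow_le_rpow_of_exponent_le hK (by norm_num)
              _ = K := Real.rpow_one _
          gcongr
  have a2 : P ^ (-(1 / 2) : ℝ) ≤ 17 * e ^ (-(1 / 2) : ℝ) := by
    have b1 : e / 17 ≤ P := by linarith
    calc P ^ (-(1 / 2) : ℝ) ≤ (e / 17) ^ (-(1 / 2) : ℝ) :=
          Real.rpow_le_rpow_of_nonpos (by positivity) b1 (by norm_num)
      _ = 17 ^ (1 / 2 : ℝ) * e ^ (-(1 / 2) : ℝ) := by
          rw [Real.div_rpow he.le (by norm_num), Real.rpow_neg (by norm_num : (0 : ℝ) ≤ 17)]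
          field_simp
      _ ≤ _ := by
          have : (17 : ℝ) ^ (1 / 2 : ℝ) ≤ 17 := by
            calc (17 : ℝ) ^ (1 / 2 : ℝ) ≤ 17 ^ (1 : ℝ) :=
                  Real.rpow_le_rpow_of_exponent_le (by norm_num) (by norm_num)
              _ = 17 := Real.rpow_one _
          gcongr
  have a3 : (G * Q) ^ ((M : ℝ) + 1 / 4) ≤ G ^ (M + 1) * (Q ^ (M : ℝ) * Q ^ (1 / 4 : ℝ)) := by
    rw [Real.mul_rpow (by linarith) hQ0.le]
    have c1 : G ^ ((M : ℝ) + 1 / 4) ≤ G ^ (M + 1) := by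
      rw [← Real.rpow_natCast]
      push_cast
      exact Real.rpow_le_rpow_of_exponent_le hG (by linarith)
    rw [Real.rpow_add hQ0]
    gcongr
  have a4 : Dp ^ (3 / 4 : ℝ) * e ^ (-(1 / 2) : ℝ) = Dp ^ (1 / 4 : ℝ) * Q ^ (1 / 2 : ℝ) := by
    rw [hQ, Real.div_rpow hDp.le he.le, Real.rpow_neg he.le, ← div_eq_mul_inv, mul_div_assoc',
      ← Real.rpow_add hDp]
    norm_num
  have a5 : Q ^ (1 / 2 : ℝ) * (Q ^ (M : ℝ) * Q ^ (1 / 4 : ℝ)) ≤ 2 * Q ^ (M + 1) := by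
    have b1 : Q ^ (1 / 2 : ℝ) * (Q ^ (M : ℝ) * Q ^ (1 / 4 : ℝ)) =
        Q ^ (M + 1) * Q ^ (-(1 / 4) : ℝ) := by
      rw [← Real.rpow_add hQ0, ← Real.rpow_add hQ0, ← Real.rpow_natCast, ← Real.rpow_add hQ0]
      congr 1
      push_cast
      ring
    have b2 : Q ^ (-(1 / 4) : ℝ) ≤ 2 := by
      calc Q ^ (-(1 / 4) : ℝ) ≤ (1 / 2 : ℝ) ^ (-(1 / 4) : ℝ) :=
            Real.rpow_le_rpow_of_nonpos (by norm_num) (by linarith) (by norm_num)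
        _ = (2 : ℝ) ^ (1 / 4 : ℝ) := by
            rw [one_div, Real.inv_rpow (by norm_num), ← Real.rpow_neg (by norm_num)]
            norm_num
        _ ≤ (2 : ℝ) ^ (1 : ℝ) := Real.rpow_le_rpow_of_exponent_le (by norm_num) (by norm_num)
        _ = 2 := Real.rpow_one _
    rw [b1, mul_comm]
    gcongr
  have a6 : Dp ^ (1 / 4 : ℝ) ≤ 17 * La ^ (1 / 4 : ℝ) * (Dp / d) ^ (1 / 4 : ℝ) := by
    have b1 : Dp ^ (1 / 4 : ℝ) = d ^ (1 / 4 : ℝ) * (Dp / d) ^ (1 / 4 : ℝ) := by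
      rw [← Real.mul_rpow hd.le (by positivity), mul_div_cancel₀ _ hd.ne']
    have b2 : d ^ (1 / 4 : ℝ) ≤ 17 * La ^ (1 / 4 : ℝ) := by
      calc d ^ (1 / 4 : ℝ) ≤ (17 * La) ^ (1 / 4 : ℝ) := Real.rpow_le_rpow hd.le h4 (by norm_num)
        _ = 17 ^ (1 / 4 : ℝ) * La ^ (1 / 4 : ℝ) := Real.mul_rpow (by norm_num) hLa.le
        _ ≤ _ := by
            have : (17 : ℝ) ^ (1 / 4 : ℝ) ≤ 17 := by
              calc (17 : ℝ) ^ (1 / 4 : ℝ) ≤ 17 ^ (1 : ℝ) :=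
                    Real.rpow_le_rpow_of_exponent_le (by norm_num) (by norm_num)
                _ = 17 := Real.rpow_one _
            gcongr
    rw [b1]
    gcongr
  calc Da ^ (3 / 4 : ℝ) * P ^ (-(1 / 2) : ℝ) * Iw
      ≤ (K * Dp ^ (3 / 4 : ℝ)) * (17 * e ^ (-(1 / 2) : ℝ)) *
        ((G ^ (M + 1) * (Q ^ (M : ℝ) * Q ^ (1 / 4 : ℝ))) * Ia) := by
        gcongr
        exact hI.trans (mul_le_mul_of_nonneg_right a3 hIa)
    _ = K * 17 * G ^ (M + 1) * Ia * (Dp ^ (3 / 4 : ℝ) * e ^ (-(1 / 2) : ℝ)) *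
        (Q ^ (M : ℝ) * Q ^ (1 / 4 : ℝ)) := by ring
    _ = K * 17 * G ^ (M + 1) * Ia * Dp ^ (1 / 4 : ℝ) *
        (Q ^ (1 / 2 : ℝ) * (Q ^ (M : ℝ) * Q ^ (1 / 4 : ℝ))) := by rw [a4]; ring
    _ ≤ K * 17 * G ^ (M + 1) * Ia * (17 * La ^ (1 / 4 : ℝ) * (Dp / d) ^ (1 / 4 : ℝ)) *
        (2 * Q ^ (M + 1)) := by
        have : 0 ≤ Q ^ (1 / 2 : ℝ) * (Q ^ (M : ℝ) * Q ^ (1 / 4 : ℝ)) := by positivity
        gcongr
    _ = _ := by ring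

variable [FiniteDimensional ℂ E] [MeasurableSpace E] [BorelSpace E]
variable {V : Type*} [NormedAddCommGroup V] [NormedSpace ℂ V] [FiniteDimensional ℂ V]

/-- the solution with the centre `a` -/
noncomputable def Tc (M : ℕ) (μ : Measure E) (m : ℕ) (R : ℝ) (η : E → E [⋀^Fin 1]→L[ℝ] V) (a w : E) :
    V := phi R a w • evz E V (TW.TR M μ m R (fun w => (phi R a w)⁻¹ • η w) w)

theorem centre (μ : Measure E) [μ.IsAddHaarMeasure] {m : ℕ} (hm : 1 ≤ m)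
    (hdim : Module.finrank ℂ E = m + 1) {θ : ℝ} (h0 : 0 < θ) (h1 : θ < 1) (M : ℕ)
    {c₀ : ℝ} (hc₀ : 0 < c₀) :
    ∃ C : ℝ, 0 < C ∧ ∀ ν : Measure E, OnB ν → ∀ (k : ℕ) (R B : ℝ)
      (η : E → E [⋀^Fin 1]→L[ℝ] V) (U : Set E), 1 + c₀ * θ ^ k ≤ R →
      R ≤ RC θ k → IsOpen U → closedBall (0 : E) R ⊆ U → 0 ≤ B → ContDiffOn ℝ 1 η U →
      (∀ w ∈ U, Anti (η w)) → (∀ w ∈ U, db η w = 0) →
      BdG θ k R (fun w => B * Wk ν M θ k w) η → ∀ a : E, ‖a‖ < 1 →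
      ContDiffOn ℝ 1 (Tc M μ m R η a) (ball 0 R) ∧
      (∀ w ∈ ball (0 : E) R, ∀ v, D01 (Tc M μ m R η a) w v = η w (fun _ => v)) ∧
      ∀ w ∈ ball (0 : E) (1 + c₀ * θ ^ k / 2), ‖Tc M μ m R η a w‖ ≤
        (C * B * Wk ν M θ k a) *
          (‖(((1 + c₀ * θ ^ k / 2) ^ 2 : ℝ) : ℂ) - ⟪w, a⟫_ℂ‖ /
            ((1 + c₀ * θ ^ k / 2) ^ 2 - ‖w‖ ^ 2)) ^ (M + 1) *
          (‖(((1 + c₀ * θ ^ k / 2) ^ 2 : ℝ) : ℂ) - ⟪w, a⟫_ℂ‖ /
            ((1 + c₀ * θ ^ k / 2) ^ 2 - ‖a‖ ^ 2)) ^ (1 / 4 : ℝ) := by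
  obtain ⟨CW, hCW, hW⟩ := solveW (V := V) μ hm hdim 0 M h0 h1 (c₀ := c₀ / 2) (by positivity)
  obtain ⟨A, hA⟩ : ∃ A : ℝ, A = 2 * (17 * (1 + 7 / (c₀ / 2))) *
    (34 * (1 + 9 / (c₀ / 2))) ^ (M + 1) * 4 := ⟨_, rfl⟩
  have hA0 : 0 < A := by rw [hA]; positivity
  obtain ⟨G, hG⟩ : ∃ G : ℝ, G = 34 * (1 + 9 / (c₀ / 2)) := ⟨_, rfl⟩
  have hG1 : 1 ≤ G := by
    rw [hG]
    have : 0 < 9 / (c₀ / 2) := by positivity
    linarith
  refine ⟨CW * A * (2 + 7 / c₀) * (2 * (1 + 5 / c₀) * 17 * 17 * G ^ (M + 1)), by positivity, ?_⟩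
  intro ν hν k R B η U hR1 hRC hU hRU hB hη ha hd hbd a han
  have hθk : 0 < θ ^ k := pow_pos h0 k
  have hck : 0 < c₀ * θ ^ k := by positivity
  have hR1' : 1 ≤ R := by linarith
  have hR0 : 0 < R := by linarith
  have haR : ‖a‖ < R := by linarith
  have ha2 : 0 < R ^ 2 - ‖a‖ ^ 2 := by nlinarith [norm_nonneg a]
  -- the form
  set ζ : E → E [⋀^Fin 1]→L[ℝ] V := fun w => (phi R a w)⁻¹ • η w with hζ
  set U' : Set E := U ∩ {w | phi R a w ≠ 0} with hU'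
  have hU'o : IsOpen U' := hU.inter (isOpen_ne_fun (phi_diff R a).continuous continuous_const)
  have hRU' : closedBall (0 : E) R ⊆ U' := fun w hw =>
    ⟨hRU hw, phi_ne haR (mem_closedBall_zero_iff.mp hw)⟩
  have hinv : ∀ w ∈ U', DifferentiableAt ℂ (fun w => (phi R a w)⁻¹) w := fun w hw =>
    (phi_diff R a w).inv hw.2
  have hinvc : ContDiffOn ℝ 1 (fun w => (phi R a w)⁻¹) U' :=
    holo_c1' hU'o fun w hw => (hinv w hw).differentiableWithinAt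
  have hζc : ContDiffOn ℝ 1 ζ U' := hinvc.smul (hη.mono inter_subset_left)
  have hζa : ∀ w ∈ U', Anti (ζ w) := fun w hw => (ha w hw.1).smul _
  have hζd : ∀ w ∈ U', db ζ w = 0 := by
    intro w hw
    have hηd : DifferentiableAt ℝ η w :=
      (hη.differentiableOn one_ne_zero).differentiableAt (hU.mem_nhds hw.1)
    rw [hζ, db_smul (hinv w hw) hηd, hd w hw.1, smul_zero]
  obtain ⟨T1, T2, T3⟩ := TW.TR_main (τ := M) μ hdim hR0 hU'o hRU' hζc hζa hζd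
  have hTd : ∀ w ∈ ball (0 : E) R, DifferentiableAt ℝ (TW.TR M μ m R ζ) w := fun w hw =>
    (T1.differentiableOn one_ne_zero).differentiableAt (isOpen_ball.mem_nhds hw)
  have hphic : ContDiffOn ℝ 1 (phi R a) (ball 0 R) :=
    holo_c1' isOpen_ball (phi_diff R a).differentiableOn
  have hec : ContDiffOn ℝ 1 (fun w => evz E V (TW.TR M μ m R ζ w)) (ball 0 R) :=
    (evz E V).contDiff.comp_contDiffOn T1
  refine ⟨hphic.smul hec, ?_, ?_⟩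
  · intro w hw v
    have hwR := mem_ball_zero_iff.mp hw
    have e1 := D01_smul (q := phi R a) (σ := fun w => evz E V (TW.TR M μ m R ζ w))
      ((phi_diff R a w).restrictScalars ℝ)
      ((evz E V).differentiableAt.comp w (hTd w hw)) v
    rw [D01_holo (phi_diff R a w), D01_evz (hTd w hw), T3 w hw] at e1
    refine e1.trans ?_
    rw [zero_apply, zero_smul, add_zero, hζ]
    simp only [ContinuousAlternatingMap.smul_apply]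
    rw [smul_smul, mul_inv_cancel₀ (phi_ne haR hwR.le), one_smul]
  · intro w hw
    obtain ⟨P, hP⟩ : ∃ P : ℝ, P = 1 + c₀ * θ ^ k / 2 := ⟨_, rfl⟩
    have hc2 : 0 < c₀ / 2 := by positivity
    have hP1 : 1 ≤ P := by rw [hP]; linarith
    have hPR : P + c₀ / 2 * θ ^ k ≤ R := by rw [hP]; linarith
    have hPC : P ≤ RC θ k := by
      have : 0 < c₀ / 2 * θ ^ k := by positivity
      linarith
    have haP : ‖a‖ + c₀ / 2 * θ ^ k ≤ P := by rw [hP]; linarith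
    have hwP : ‖w‖ < P := by rw [hP]; exact mem_ball_zero_iff.mp hw
    have hwR : ‖w‖ < R := by
      have : 0 < c₀ / 2 * θ ^ k := by positivity
      linarith
    have haC : ‖a‖ < RC θ k := haR.trans_le hRC
    have hwC : ‖w‖ < RC θ k := hwR.trans_le hRC
    -- the bound of the form
    have hζb : BdG θ k R (fun w => B * (2 + 7 / c₀) * Pha ν M θ k R a w) ζ := by
      intro x hx v
      have hxC : ‖x‖ < RC θ k := hx.trans_le hRC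
      have hdx := dl_pos h0 h1 hxC
      have hD := osc_Dpos haR hx.le
      have hb := hbd x hx v
      have hdl := osc_dl_le h0 h1 hc₀ hR1 hRC han hx
      have hgp : 0 ≤ ∏ i, gau (dl θ k x) x (v i) :=
        Finset.prod_nonneg fun i _ => gau_nonneg hdx.le x (v i)
      set D : ℝ := ‖((R ^ 2 : ℝ) : ℂ) - ⟪a, x⟫_ℂ‖ with hDd
      have e1 : ‖ζ x v‖ = (R ^ 2 - ‖a‖ ^ 2) / D * ‖η x v‖ := by
        rw [hζ]
        simp only [ContinuousAlternatingMap.smul_apply]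
        rw [norm_smul, norm_inv, phi_norm haR, inv_div]
      rw [e1]
      have hI := Ik_nonneg ν M θ k x
      have e2 : dl θ k x ^ (1 / 4 : ℝ) / D ≤
          (2 + 7 / c₀) * (D ^ (-(1 / 4) : ℝ) * dl θ k x ^ (-(1 / 2) : ℝ)) := by
        have b1 : dl θ k x ^ (1 / 4 : ℝ) = dl θ k x ^ (3 / 4 : ℝ) * dl θ k x ^ (-(1 / 2) : ℝ) := by
          rw [← Real.rpow_add hdx]; norm_num
        have b2 : D = D ^ (3 / 4 : ℝ) * D ^ (1 / 4 : ℝ) := by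
          rw [← Real.rpow_add hD]; norm_num
        have b3 : dl θ k x ^ (3 / 4 : ℝ) ≤ (2 + 7 / c₀) * D ^ (3 / 4 : ℝ) := by
          have hK : 1 ≤ 2 + 7 / c₀ := by
            have : 0 < 7 / c₀ := by positivity
            linarith
          calc dl θ k x ^ (3 / 4 : ℝ) ≤ ((2 + 7 / c₀) * D) ^ (3 / 4 : ℝ) :=
                Real.rpow_le_rpow hdx.le hdl (by norm_num)
            _ = (2 + 7 / c₀) ^ (3 / 4 : ℝ) * D ^ (3 / 4 : ℝ) :=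
                Real.mul_rpow (by linarith) hD.le
            _ ≤ _ := by
                have : (2 + 7 / c₀) ^ (3 / 4 : ℝ) ≤ 2 + 7 / c₀ := by
                  calc (2 + 7 / c₀) ^ (3 / 4 : ℝ) ≤ (2 + 7 / c₀) ^ (1 : ℝ) :=
                        Real.rpow_le_rpow_of_exponent_le hK (by norm_num)
                    _ = _ := Real.rpow_one _
                gcongr
        have c1 : 0 < D ^ (3 / 4 : ℝ) := Real.rpow_pos_of_pos hD _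
        have c2 : 0 < D ^ (1 / 4 : ℝ) := Real.rpow_pos_of_pos hD _
        have c3 : 0 < dl θ k x ^ (-(1 / 2) : ℝ) := Real.rpow_pos_of_pos hdx _
        rw [Real.rpow_neg hD.le, b1, div_le_iff₀ hD]
        calc dl θ k x ^ (3 / 4 : ℝ) * dl θ k x ^ (-(1 / 2) : ℝ)
            ≤ (2 + 7 / c₀) * D ^ (3 / 4 : ℝ) * dl θ k x ^ (-(1 / 2) : ℝ) := by gcongr
          _ = (2 + 7 / c₀) * ((D ^ (1 / 4 : ℝ))⁻¹ * dl θ k x ^ (-(1 / 2) : ℝ)) *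
              (D ^ (3 / 4 : ℝ) * D ^ (1 / 4 : ℝ)) := by field_simp
          _ = _ := by rw [← b2]
      calc (R ^ 2 - ‖a‖ ^ 2) / D * ‖η x v‖
          ≤ (R ^ 2 - ‖a‖ ^ 2) / D * (B * (dl θ k x ^ (1 / 4 : ℝ) * Ik ν M θ k x) *
            ∏ i, gau (dl θ k x) x (v i)) := by
            have : 0 ≤ (R ^ 2 - ‖a‖ ^ 2) / D := by positivity
            exact mul_le_mul_of_nonneg_left hb this
        _ = (dl θ k x ^ (1 / 4 : ℝ) / D) * ((R ^ 2 - ‖a‖ ^ 2) * B * Ik ν M θ k x *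
            ∏ i, gau (dl θ k x) x (v i)) := by ring
        _ ≤ ((2 + 7 / c₀) * (D ^ (-(1 / 4) : ℝ) * dl θ k x ^ (-(1 / 2) : ℝ))) *
            ((R ^ 2 - ‖a‖ ^ 2) * B * Ik ν M θ k x * ∏ i, gau (dl θ k x) x (v i)) := by
            apply mul_le_mul_of_nonneg_right e2
            positivity
        _ = _ := by
            unfold Pha
            beta_reduce
            rw [← hDd]
            ring
    have hPha0 : ∀ x : E, ‖x‖ < R → 0 ≤ Pha ν M θ k R a x := by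
      intro x hx
      unfold Pha
      have := osc_Dpos haR hx.le
      have := dl_pos h0 h1 (hx.trans_le hRC)
      have := Ik_nonneg ν M θ k x
      positivity
    have key := hW k R P A (fun w => B * (2 + 7 / c₀) * Pha ν M θ k R a w) ζ U' hR1' hPR hRC hU'o
      hRU' hA0.le hζc (fun x hx => mul_nonneg (by positivity) (hPha0 x hx))
      (fun z x hz hx => by
        have := Pha_har h0 h1 M hc2 hν hR1' hRC haR hz hx
        rw [← hA] at this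
        calc B * (2 + 7 / c₀) * Pha ν M θ k R a x ≤ B * (2 + 7 / c₀) * _ :=
              mul_le_mul_of_nonneg_left this (by positivity)
          _ = _ := by ring) hζb
    have kw := key w hwP (fun i => i.elim0)
    rw [Fin.prod_univ_zero, mul_one] at kw
    have hdw := dl_pos h0 h1 hwC
    have hda := dl_pos h0 h1 haC
    have hDa := osc_Dpos haR hwR.le
    obtain ⟨f1, f2, f3, f4, f5, f6⟩ := cmq_elem h0 h1 hc2 hP1 hPC haP hwP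
    have hDp : 0 < ‖((P ^ 2 : ℝ) : ℂ) - ⟪w, a⟫_ℂ‖ :=
      lt_of_lt_of_le (by positivity) f6
    have g1 := cmq_dlw h0 h1 hP1 hPC hwP (le_refl k)
    have haP' : ‖a‖ < P := by
      have : 0 < c₀ / 2 * θ ^ k := by positivity
      linarith
    have g2 := cmq_dlw h0 h1 hP1 hPC haP' (le_refl k)
    have hIh := Ik_har h0 h1 M hc2 hν hP1 hPC haP hwP
    rw [← hG] at hIh
    have hDR := osc_DR_le h0 h1 hc₀ hR1 hRC han (w := w) (mem_ball_zero_iff.mp hw)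
    rw [← hP, osc_conjR P a w] at hDR
    have hK1 : 1 ≤ 1 + 5 / c₀ := by
      have : 0 < 5 / c₀ := by positivity
      linarith
    have real := osc_real2 (M := M) hDa hDp f2 f3 hdw hda hG1 hK1 hDR g1 f4 g2
      (Ik_nonneg ν M θ k w) (Ik_nonneg ν M θ k a) hIh
    rw [← hP]
    have hnorm : ‖Tc M μ m R η a w‖ = ‖phi R a w‖ * ‖TW.TR M μ m R ζ w (fun i => i.elim0)‖ := by
      unfold Tc
      rw [norm_smul, norm_evz _ (fun i => i.elim0)]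
    rw [hnorm, phi_norm haR]
    set Da : ℝ := ‖((R ^ 2 : ℝ) : ℂ) - ⟪a, w⟫_ℂ‖ with hDad
    calc Da / (R ^ 2 - ‖a‖ ^ 2) * ‖TW.TR M μ m R ζ w (fun i => i.elim0)‖
        ≤ Da / (R ^ 2 - ‖a‖ ^ 2) * (CW * A * (B * (2 + 7 / c₀) * Pha ν M θ k R a w)) := by
          apply mul_le_mul_of_nonneg_left kw
          positivity
      _ = CW * A * (2 + 7 / c₀) * B * (Da ^ (3 / 4 : ℝ) * dl θ k w ^ (-(1 / 2) : ℝ) *
          Ik ν M θ k w) := by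
          unfold Pha
          rw [← hDad]
          have b2 : Da * Da ^ (-(1 / 4) : ℝ) = Da ^ (3 / 4 : ℝ) := by
            nth_rewrite 1 [← Real.rpow_one Da]
            rw [← Real.rpow_add hDa]
            norm_num
          rw [← b2]
          field_simp
      _ ≤ CW * A * (2 + 7 / c₀) * B * _ := by
          apply mul_le_mul_of_nonneg_left real
          positivity
      _ = _ := by
          unfold Wk
          ring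

end Pool.Agent.MPca0fc2.TE
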