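import Mathlib
import Pool.Agent.Lib.MP_ca0fc2_an.TE.OscK

set_option autoImplicit false
set_option maxHeartbeats 4000000

open Metric Set MeasureTheory Filter Topology
open scoped InnerProductSpace ENNReal NNReal

/-! # The oscillation of the projection, continued -/

namespace Pool.Agent.MPca0fc2.TE

open Pool.Agent.MPca0fc2.PT Pool.Agent.MPca0fc2.QT Pool.Agent.MPca0fc2.TS

variable {E : Type*} [NormedAddCommGroup E] [InnerProductSpace ℂ E]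
variable {V : Type*} [NormedAddCommGroup V] [InnerProductSpace ℂ V] [FiniteDimensional ℂ V]
variable [FiniteDimensional ℂ E] [MeasurableSpace E] [BorelSpace E]

omit [FiniteDimensional ℂ E] [MeasurableSpace E] [BorelSpace E] in
theorem osc_pos {w z : E} (hw : ‖w‖ < 1) (hz : ‖z‖ < 1) :
    0 < ‖1 - ⟪w, z⟫_ℂ‖ ∧ 1 - ‖z‖ ≤ ‖1 - ⟪w, z⟫_ℂ‖ := by
  have h5 : 1 - ‖w‖ * ‖z‖ ≤ ‖1 - ⟪w, z⟫_ℂ‖ := by
    have := norm_sub_norm_le (1 : ℂ) ⟪w, z⟫_ℂ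
    rw [norm_one] at this
    have := norm_inner_le_norm (𝕜 := ℂ) w z
    linarith
  have h6 : ‖w‖ * ‖z‖ ≤ 1 * ‖z‖ := mul_le_mul_of_nonneg_right hw.le (norm_nonneg _)
  constructor <;> linarith

/-- integrability of the integrand of the projection -/
theorem osc_pq_int (s : ℕ) (μ : Measure E) [μ.IsAddHaarMeasure] (m : ℕ) {F : E → ℂ} {B : ℝ}
    (hF : AEStronglyMeasurable F (μ.restrict (ball 0 1))) (hB : ∀ w ∈ ball (0 : E) 1, ‖F w‖ ≤ B)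
    {z : E} (hz : ‖z‖ < 1) :
    Integrable (fun w : E => ((WWs s w : ℝ) : ℂ) * F w / (1 - ⟪w, z⟫_ℂ) ^ (m + 2 + s))
      (μ.restrict (ball 0 1)) := by
  have hprop : ProperSpace E := FiniteDimensional.proper ℂ E
  have hfin : IsFiniteMeasure (μ.restrict (ball (0 : E) 1)) :=
    ⟨by rw [Measure.restrict_apply_univ]; exact measure_ball_lt_top⟩
  have hr0 : 0 < 1 - ‖z‖ := by linarith
  refine Integrable.mono' (g := fun _ => 1 * B / (1 - ‖z‖) ^ (m + 2 + s)) (integrable_const _) ?_ ?_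
  · have hc : ContinuousOn (fun w : E => ((WWs s w : ℝ) : ℂ) /
        (1 - ⟪w, z⟫_ℂ) ^ (m + 2 + s)) (ball 0 1) := by
      apply ContinuousOn.div
      · apply Continuous.continuousOn
        unfold WWs
        fun_prop
      · apply Continuous.continuousOn; fun_prop
      · intro w hw
        apply pow_ne_zero
        rw [← norm_pos_iff]
        exact (osc_pos (mem_ball_zero_iff.mp hw) hz).1
    have := hF.mul (hc.aestronglyMeasurable measurableSet_ball)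
    refine this.congr (Eventually.of_forall fun w => ?_)
    simp only [Pi.mul_apply]
    ring
  · refine (ae_restrict_iff' measurableSet_ball).mpr (Eventually.of_forall fun w hw => ?_)
    have h1 := (osc_pos (mem_ball_zero_iff.mp hw) hz).2
    have h0 := (osc_pos (mem_ball_zero_iff.mp hw) hz).1
    rw [norm_div, norm_mul, Complex.norm_real, norm_pow (1 - ⟪w, z⟫_ℂ)]
    have h2 : ‖WWs s w‖ ≤ 1 := ts_WW_le s hw
    have h3 := hB w hw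
    have h4 : 0 ≤ B := (norm_nonneg _).trans h3
    gcongr

/-- the oscillation of the projection of the unit ball -/
theorem PQs_osc (s : ℕ) (μ : Measure E) [μ.IsAddHaarMeasure] {m : ℕ} (hm : 1 ≤ m)
    (hdim : Module.finrank ℂ E = m + 1) {L : ℝ} (hL : 1 ≤ L) :
    ∃ C : ℝ, 0 < C ∧ ∀ (N : E → ℂ) (B : ℝ) (z z' : E) (Φ : ℝ),
      AEStronglyMeasurable N (μ.restrict (ball 0 1)) → (∀ w ∈ ball (0 : E) 1, ‖N w‖ ≤ B) →
      ‖z‖ < 1 → ‖z'‖ < 1 → ‖1 - ⟪z, z'⟫_ℂ‖ ≤ L * (1 - ‖z‖ ^ 2) →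
      ‖1 - ⟪z, z'⟫_ℂ‖ ≤ L * (1 - ‖z'‖ ^ 2) → 0 ≤ Φ →
      (∀ w ∈ ball (0 : E) 1, ‖N w‖ ≤ Φ * (‖1 - ⟪w, z⟫_ℂ‖ / (1 - ‖w‖ ^ 2)) ^ s *
        (‖1 - ⟪w, z⟫_ℂ‖ / (1 - ‖z‖ ^ 2)) ^ (1 / 4 : ℝ)) →
      ‖PQs s μ m N z - PQs s μ m N z'‖ ≤ C * Φ := by
  obtain ⟨CI, hCI, hI⟩ := osc_int (E := E) μ m hm hdim
  obtain ⟨K, hK⟩ : ∃ K : ℝ, K = ((m + 2 + s : ℕ) : ℝ) * (2 * L) ^ (m + 2 + s) * (4 * L + 2) :=
    ⟨_, rfl⟩
  have hK0 : 0 ≤ K := by rw [hK]; positivity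
  refine ⟨|(cWs s μ)⁻¹| * (K * CI) + 1, by positivity, ?_⟩
  intro N B z z' Φ hN hB hz hz' h1 h2 hΦ hyp
  set d : ℝ := 1 - ‖z‖ ^ 2 with hd
  have hd0 : 0 < d := by nlinarith [norm_nonneg z]
  unfold PQs
  rw [← mul_sub, norm_mul, ← Complex.ofReal_inv, Complex.norm_real, Real.norm_eq_abs,
    ← integral_sub (osc_pq_int s μ m hN hB hz) (osc_pq_int s μ m hN hB hz')]
  obtain ⟨hi1, hi2⟩ := hI z hz
  have key : ‖∫ w in ball (0 : E) 1, (((WWs s w : ℝ) : ℂ) * N w / (1 - ⟪w, z⟫_ℂ) ^ (m + 2 + s) -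
      ((WWs s w : ℝ) : ℂ) * N w / (1 - ⟪w, z'⟫_ℂ) ^ (m + 2 + s)) ∂μ‖ ≤
      ∫ w in ball (0 : E) 1, Φ * K * (d ^ (1 / 4 : ℝ) *
        (1 / ‖1 - ⟪w, z⟫_ℂ‖) ^ ((m + 2 : ℝ) + 1 / 4)) ∂μ := by
    apply norm_integral_le_of_norm_le ((hi1.const_mul _).const_mul _)
    refine (ae_restrict_iff' measurableSet_ball).mpr (Eventually.of_forall fun w hw => ?_)
    have hw1 := mem_ball_zero_iff.mp hw
    obtain ⟨hD0, -⟩ := osc_pos hw1 hz
    set D : ℝ := ‖1 - ⟪w, z⟫_ℂ‖ with hD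
    have he0 : 0 < 1 - ‖w‖ ^ 2 := by nlinarith [norm_nonneg w]
    have e1 : ((WWs s w : ℝ) : ℂ) * N w / (1 - ⟪w, z⟫_ℂ) ^ (m + 2 + s) -
      ((WWs s w : ℝ) : ℂ) * N w / (1 - ⟪w, z'⟫_ℂ) ^ (m + 2 + s) =
      ((WWs s w : ℝ) : ℂ) * N w * (((1 - ⟪w, z⟫_ℂ) ^ (m + 2 + s))⁻¹ -
        ((1 - ⟪w, z'⟫_ℂ) ^ (m + 2 + s))⁻¹) := by ring
    have hk := osc_ker hw1 hz hz' hL h1 h2 (m + 2 + s)
    rw [← hK, ← hD, ← hd] at hk
    have hW : ‖((WWs s w : ℝ) : ℂ)‖ = (1 - ‖w‖ ^ 2) ^ s := by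
      rw [Complex.norm_real]
      unfold WWs
      exact Real.norm_of_nonneg (by positivity)
    rw [e1, norm_mul, norm_mul, hW]
    calc (1 - ‖w‖ ^ 2) ^ s * ‖N w‖ * ‖((1 - ⟪w, z⟫_ℂ) ^ (m + 2 + s))⁻¹ -
          ((1 - ⟪w, z'⟫_ℂ) ^ (m + 2 + s))⁻¹‖
        ≤ (1 - ‖w‖ ^ 2) ^ s * (Φ * (D / (1 - ‖w‖ ^ 2)) ^ s * (D / d) ^ (1 / 4 : ℝ)) *
          (K * ((1 / D) ^ (m + 2 + s) * Real.sqrt (d / D))) := by
          have := hyp w hw
          gcongr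
      _ = Φ * K * (((1 - ‖w‖ ^ 2) ^ s * (D / (1 - ‖w‖ ^ 2)) ^ s) * (1 / D) ^ (m + 2 + s) *
          ((D / d) ^ (1 / 4 : ℝ) * Real.sqrt (d / D))) := by ring
      _ = Φ * K * (d ^ (1 / 4 : ℝ) * (1 / D) ^ ((m + 2 : ℝ) + 1 / 4)) := by
          congr 1
          have a1 : (1 - ‖w‖ ^ 2) ^ s * (D / (1 - ‖w‖ ^ 2)) ^ s = D ^ s := by
            rw [← mul_pow, mul_div_cancel₀ _ he0.ne']
          have a2 : D ^ s * (1 / D) ^ (m + 2 + s) = (1 / D) ^ (m + 2) := by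
            rw [pow_add, mul_comm ((1 / D) ^ (m + 2)), ← mul_assoc, ← mul_pow, mul_one_div_cancel hD0.ne',
              one_pow, one_mul]
          have a3 : (D / d) ^ (1 / 4 : ℝ) * Real.sqrt (d / D) = (d / D) ^ (1 / 4 : ℝ) := by
            have b1 : D / d = (d / D)⁻¹ := by rw [inv_div]
            have b2 : 0 < d / D := by positivity
            rw [b1, Real.inv_rpow b2.le, ← Real.rpow_neg b2.le, Real.sqrt_eq_rpow,
              ← Real.rpow_add b2]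
            norm_num
          have a4 : (d / D) ^ (1 / 4 : ℝ) = d ^ (1 / 4 : ℝ) * (1 / D) ^ (1 / 4 : ℝ) := by
            rw [← Real.mul_rpow hd0.le (by positivity), mul_one_div]
          have a5 : (1 / D) ^ ((m + 2 : ℝ) + 1 / 4) = (1 / D) ^ (m + 2) * (1 / D) ^ (1 / 4 : ℝ) := by
            rw [Real.rpow_add (by positivity)]
            congr 1
            exact_mod_cast Real.rpow_natCast (1 / D) (m + 2)
          rw [a1, a2, a3, a4, a5]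
          ring
  have key2 : ∫ w in ball (0 : E) 1, Φ * K * (d ^ (1 / 4 : ℝ) *
        (1 / ‖1 - ⟪w, z⟫_ℂ‖) ^ ((m + 2 : ℝ) + 1 / 4)) ∂μ ≤ Φ * K * CI := by
    rw [integral_const_mul, integral_const_mul]
    exact mul_le_mul_of_nonneg_left hi2 (by positivity)
  calc _ ≤ |(cWs s μ)⁻¹| * (Φ * K * CI) :=
        mul_le_mul_of_nonneg_left (key.trans key2) (abs_nonneg _)
    _ = |(cWs s μ)⁻¹| * (K * CI) * Φ := by ring
    _ ≤ _ := by nlinarith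

/-- the oscillation of the projection -/
theorem PRs_osc (s : ℕ) (μ : Measure E) [μ.IsAddHaarMeasure] {m : ℕ} (hm : 1 ≤ m)
    (hdim : Module.finrank ℂ E = m + 1) {L : ℝ} (hL : 1 ≤ L) :
    ∃ C : ℝ, 0 < C ∧ ∀ (R : ℝ) (N : E → ℂ) (z z' : E) (Φ : ℝ), 0 < R →
      ContinuousOn N (closedBall 0 R) →
      ‖z‖ < R → ‖z'‖ < R → ‖((R ^ 2 : ℝ) : ℂ) - ⟪z, z'⟫_ℂ‖ ≤ L * (R ^ 2 - ‖z‖ ^ 2) →
      ‖((R ^ 2 : ℝ) : ℂ) - ⟪z, z'⟫_ℂ‖ ≤ L * (R ^ 2 - ‖z'‖ ^ 2) → 0 ≤ Φ →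
      (∀ w ∈ ball (0 : E) R, ‖N w‖ ≤
        Φ * (‖((R ^ 2 : ℝ) : ℂ) - ⟪w, z⟫_ℂ‖ / (R ^ 2 - ‖w‖ ^ 2)) ^ s *
        (‖((R ^ 2 : ℝ) : ℂ) - ⟪w, z⟫_ℂ‖ / (R ^ 2 - ‖z‖ ^ 2)) ^ (1 / 4 : ℝ)) →
      ‖PRs s μ m R N z - PRs s μ m R N z'‖ ≤ C * Φ := by
  obtain ⟨C, hC, hP⟩ := PQs_osc s μ hm hdim hL
  refine ⟨C, hC, ?_⟩
  intro R N z z' Φ hR hN hz hz' hzz hzz' hΦ hyp
  have hprop : ProperSpace E := FiniteDimensional.proper ℂ E
  have hRC : (R : ℂ) ≠ 0 := by exact_mod_cast hR.ne'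
  have hRn : ‖(R : ℂ)‖ = R := by rw [Complex.norm_real, Real.norm_of_nonneg hR.le]
  have hRi : ‖((R⁻¹ : ℝ) : ℂ)‖ = R⁻¹ := by
    rw [Complex.norm_real, Real.norm_of_nonneg (by positivity)]
  obtain ⟨B, hB⟩ := (isCompact_closedBall (0 : E) R).exists_bound_of_continuousOn hN
  have hmaps : MapsTo (fun w : E => (R : ℂ) • w) (ball 0 1) (closedBall 0 R) := by
    intro w hw
    rw [mem_ball_zero_iff] at hw
    rw [mem_closedBall_zero_iff, norm_smul, hRn]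
    nlinarith
  have hF : AEStronglyMeasurable (fun w : E => N ((R : ℂ) • w)) (μ.restrict (ball 0 1)) := by
    apply ContinuousOn.aestronglyMeasurable _ measurableSet_ball
    exact hN.comp (continuous_const_smul (R : ℂ)).continuousOn hmaps
  have hsm : ∀ x : E, R * ‖((R⁻¹ : ℝ) : ℂ) • x‖ = ‖x‖ := by
    intro x
    rw [norm_smul, hRi, ← mul_assoc, mul_inv_cancel₀ hR.ne', one_mul]
  have hlt : ∀ x : E, ‖x‖ < R → ‖((R⁻¹ : ℝ) : ℂ) • x‖ < 1 := by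
    intro x hx
    rw [norm_smul, hRi, inv_mul_lt_iff₀ hR]
    linarith
  have hsq : ∀ x : E, R ^ 2 - ‖x‖ ^ 2 = R ^ 2 * (1 - ‖((R⁻¹ : ℝ) : ℂ) • x‖ ^ 2) := by
    intro x
    rw [← hsm x]
    ring
  have hin : ∀ x y : E, ‖((R ^ 2 : ℝ) : ℂ) - ⟪x, y⟫_ℂ‖ =
      R ^ 2 * ‖1 - ⟪((R⁻¹ : ℝ) : ℂ) • x, ((R⁻¹ : ℝ) : ℂ) • y⟫_ℂ‖ := by
    intro x y
    have : ((R ^ 2 : ℝ) : ℂ) - ⟪x, y⟫_ℂ =
        ((R ^ 2 : ℝ) : ℂ) * (1 - ⟪((R⁻¹ : ℝ) : ℂ) • x, ((R⁻¹ : ℝ) : ℂ) • y⟫_ℂ) := by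
      rw [inner_smul_left, inner_smul_right, Complex.conj_ofReal]
      push_cast
      field_simp
    rw [this, norm_mul, Complex.norm_real, Real.norm_of_nonneg (by positivity)]
  have hR2 : (0 : ℝ) < R ^ 2 := by positivity
  refine hP (fun w => N ((R : ℂ) • w)) B _ _ Φ hF (fun w hw => hB _ (hmaps hw)) (hlt z hz)
    (hlt z' hz') ?_ ?_ hΦ ?_
  · rw [hin, hsq] at hzz
    refine le_of_mul_le_mul_left (hzz.trans (le_of_eq ?_)) hR2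
    ring
  · rw [hin, hsq z'] at hzz'
    refine le_of_mul_le_mul_left (hzz'.trans (le_of_eq ?_)) hR2
    ring
  · intro w hw
    have hw1 := mem_ball_zero_iff.mp hw
    have hRw : ‖(R : ℂ) • w‖ = R * ‖w‖ := by rw [norm_smul, hRn]
    have hmem : (R : ℂ) • w ∈ ball (0 : E) R := by
      rw [mem_ball_zero_iff, hRw]
      nlinarith [norm_nonneg w]
    have hb := hyp _ hmem
    have hww : ((R⁻¹ : ℝ) : ℂ) • (R : ℂ) • w = w := by
      rw [smul_smul]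
      push_cast
      rw [inv_mul_cancel₀ hRC, one_smul]
    rw [hin, hsq z, hsq ((R : ℂ) • w), hww, mul_div_mul_left _ _ hR2.ne',
      mul_div_mul_left _ _ hR2.ne'] at hb
    exact hb

/-- the oscillation of the projection of vector valued functions -/
theorem PRV_osc (s : ℕ) (μ : Measure E) [μ.IsAddHaarMeasure] {m : ℕ} (hm : 1 ≤ m)
    (hdim : Module.finrank ℂ E = m + 1) {L : ℝ} (hL : 1 ≤ L) :
    ∃ C : ℝ, 0 < C ∧ ∀ (R : ℝ) (N : E → V) (z z' : E) (Φ : ℝ), 0 < R →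
      ContinuousOn N (closedBall 0 R) →
      ‖z‖ < R → ‖z'‖ < R → ‖((R ^ 2 : ℝ) : ℂ) - ⟪z, z'⟫_ℂ‖ ≤ L * (R ^ 2 - ‖z‖ ^ 2) →
      ‖((R ^ 2 : ℝ) : ℂ) - ⟪z, z'⟫_ℂ‖ ≤ L * (R ^ 2 - ‖z'‖ ^ 2) → 0 ≤ Φ →
      (∀ w ∈ ball (0 : E) R, ‖N w‖ ≤
        Φ * (‖((R ^ 2 : ℝ) : ℂ) - ⟪w, z⟫_ℂ‖ / (R ^ 2 - ‖w‖ ^ 2)) ^ s *
        (‖((R ^ 2 : ℝ) : ℂ) - ⟪w, z⟫_ℂ‖ / (R ^ 2 - ‖z‖ ^ 2)) ^ (1 / 4 : ℝ)) →
      ‖PRV s μ m R N z - PRV s μ m R N z'‖ ≤ C * Φ := by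
  obtain ⟨C, hC, h⟩ := PRs_osc s μ hm hdim hL
  refine ⟨Module.finrank ℂ V * C + 1, by positivity, ?_⟩
  intro R N z z' Φ hR hN hz hz' hzz hzz' hΦ hyp
  have e2 : PRV s μ m R N z - PRV s μ m R N z' =
      ∑ i, (PRs s μ m R (crd N i) z - PRs s μ m R (crd N i) z') • stdOrthonormalBasis ℂ V i := by
    unfold PRV
    rw [← Finset.sum_sub_distrib]
    exact Finset.sum_congr rfl fun i _ => (sub_smul _ _ _).symm
  rw [e2]
  have h1 : ∀ i, ‖(PRs s μ m R (crd N i) z - PRs s μ m R (crd N i) z') •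
      stdOrthonormalBasis ℂ V i‖ ≤ C * Φ := by
    intro i
    rw [norm_smul, (stdOrthonormalBasis ℂ V).norm_eq_one, mul_one]
    refine h R (crd N i) z z' Φ hR ?_ hz hz' hzz hzz' hΦ fun w hw => ?_
    · exact (innerSL ℂ (stdOrthonormalBasis ℂ V i)).continuous.comp_continuousOn hN
    · refine le_trans ?_ (hyp w hw)
      unfold crd
      refine (norm_inner_le_norm _ _).trans (le_of_eq ?_)
      rw [(stdOrthonormalBasis ℂ V).norm_eq_one, one_mul]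
  refine (norm_sum_le _ _).trans ((Finset.sum_le_sum fun i _ => h1 i).trans ?_)
  rw [Finset.sum_const, Finset.card_univ, Fintype.card_fin, nsmul_eq_mul]
  nlinarith

/-! ### linearity, reproducing property -/

theorem PRs_sub_lin (s : ℕ) (μ : Measure E) [μ.IsAddHaarMeasure] {m : ℕ} {R : ℝ} (hR : 0 < R)
    {N₁ N₂ : E → ℂ} (h1 : ContinuousOn N₁ (closedBall 0 R)) (h2 : ContinuousOn N₂ (closedBall 0 R))
    {z : E} (hz : ‖z‖ < R) :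
    PRs s μ m R (fun w => N₁ w - N₂ w) z = PRs s μ m R N₁ z - PRs s μ m R N₂ z := by
  have hprop : ProperSpace E := FiniteDimensional.proper ℂ E
  have hRn : ‖(R : ℂ)‖ = R := by rw [Complex.norm_real, Real.norm_of_nonneg hR.le]
  have hmaps : MapsTo (fun w : E => (R : ℂ) • w) (ball 0 1) (closedBall 0 R) := by
    intro w hw
    rw [mem_ball_zero_iff] at hw
    rw [mem_closedBall_zero_iff, norm_smul, hRn]
    nlinarith
  have hz1 : ‖((R⁻¹ : ℝ) : ℂ) • z‖ < 1 := by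
    rw [norm_smul, Complex.norm_real, Real.norm_of_nonneg (by positivity), inv_mul_lt_iff₀ hR]
    linarith
  have hint : ∀ N : E → ℂ, ContinuousOn N (closedBall 0 R) →
      Integrable (fun w : E => ((WWs s w : ℝ) : ℂ) * N ((R : ℂ) • w) /
        (1 - ⟪w, ((R⁻¹ : ℝ) : ℂ) • z⟫_ℂ) ^ (m + 2 + s)) (μ.restrict (ball 0 1)) := by
    intro N hN
    obtain ⟨B, hB⟩ := (isCompact_closedBall (0 : E) R).exists_bound_of_continuousOn hN
    refine osc_pq_int s μ m (F := fun w => N ((R : ℂ) • w)) (B := B) ?_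
      (fun w hw => hB _ (hmaps hw)) hz1
    apply ContinuousOn.aestronglyMeasurable _ measurableSet_ball
    exact hN.comp (continuous_const_smul (R : ℂ)).continuousOn hmaps
  unfold PRs PQs
  rw [← mul_sub, ← integral_sub (hint N₁ h1) (hint N₂ h2)]
  congr 2
  funext w
  ring

theorem PRV_sub_lin (s : ℕ) (μ : Measure E) [μ.IsAddHaarMeasure] {m : ℕ} {R : ℝ} (hR : 0 < R)
    {N₁ N₂ : E → V} (h1 : ContinuousOn N₁ (closedBall 0 R)) (h2 : ContinuousOn N₂ (closedBall 0 R))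
    {z : E} (hz : ‖z‖ < R) :
    PRV s μ m R (fun w => N₁ w - N₂ w) z = PRV s μ m R N₁ z - PRV s μ m R N₂ z := by
  unfold PRV
  rw [← Finset.sum_sub_distrib]
  refine Finset.sum_congr rfl fun i _ => ?_
  rw [← sub_smul]
  congr 1
  have e : crd (fun w => N₁ w - N₂ w) i = fun w => crd N₁ i w - crd N₂ i w := by
    funext w
    unfold crd
    rw [inner_sub_right]
  rw [e]
  exact PRs_sub_lin s μ hR
    ((innerSL ℂ (stdOrthonormalBasis ℂ V i)).continuous.comp_continuousOn h1)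
    ((innerSL ℂ (stdOrthonormalBasis ℂ V i)).continuous.comp_continuousOn h2) hz

/-- the reproducing property -/
theorem PRV_holo (s : ℕ) (μ : Measure E) [μ.IsAddHaarMeasure] {m : ℕ} (hm : 1 ≤ m)
    (hdim : Module.finrank ℂ E = m + 1) {R : ℝ} (hR : 0 < R) {N : E → V} {U : Set E}
    (hU : IsOpen U) (hBU : closedBall (0 : E) R ⊆ U) (hN : ContDiffOn ℝ 1 N U)
    (hd : ∀ w ∈ U, ∀ v, D01 N w v = 0) {z : E} (hz : ‖z‖ < R) :
    PRV (s + 1) μ m R N z = N z := by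
  obtain ⟨C, hC, h⟩ := PRV_sub (V := V) s μ hm hdim
  have := h R N U z 0 hR hU hBU hN hz le_rfl (fun w hw x => by
    rw [hd w (hBU (ball_subset_closedBall hw)) x, norm_zero]
    simp)
  rw [mul_zero] at this
  exact sub_eq_zero.mp (norm_le_zero_iff.mp this)

end Pool.Agent.MPca0fc2.TE
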