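import Mathlib
import Pool.Agent.Lib.MP_ca0fc2_an.TE.OscP
import Pool.Agent.Lib.MP_ca0fc2_an.TE.OscC

set_option autoImplicit false
set_option maxHeartbeats 4000000

open Metric Set MeasureTheory Filter Topology
open scoped InnerProductSpace ENNReal NNReal

/-! # A solution with small oscillation on the hyperbolic balls (helper31) -/

namespace Pool.Agent.MPca0fc2.TE

open Pool.Agent.MPca0fc2.PT Pool.Agent.MPca0fc2.QT Pool.Agent.MPca0fc2.TS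

variable {E : Type*} [NormedAddCommGroup E] [InnerProductSpace ℂ E]

/-- the hyperbolic distance of two points controls the distance on the ball of radius `P` -/
theorem osc_HH {z z' : E} (hz : ‖z‖ < 1) (hz' : ‖z'‖ < 1) (h : 3 / 4 ≤ HH z z') {P : ℝ}
    (hP : 1 ≤ P) :
    ‖((P ^ 2 : ℝ) : ℂ) - ⟪z, z'⟫_ℂ‖ ≤ 3 * (P ^ 2 - ‖z‖ ^ 2) ∧
      ‖((P ^ 2 : ℝ) : ℂ) - ⟪z, z'⟫_ℂ‖ ≤ 3 * (P ^ 2 - ‖z'‖ ^ 2) := by
  have hd : 0 < 1 - ‖z‖ ^ 2 := by nlinarith [norm_nonneg z]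
  have hd' : 0 < 1 - ‖z'‖ ^ 2 := by nlinarith [norm_nonneg z']
  obtain ⟨a1, a2⟩ := geo_one_sub hz hz'
  have hX : 0 < ‖1 - ⟪z, z'⟫_ℂ‖ := lt_of_lt_of_le a1 a2
  unfold HH at h
  rw [le_div_iff₀ (by positivity)] at h
  have e : ((P ^ 2 : ℝ) : ℂ) - ⟪z, z'⟫_ℂ = ((P ^ 2 - 1 : ℝ) : ℂ) + (1 - ⟪z, z'⟫_ℂ) := by
    push_cast; ring
  have hP2 : 0 ≤ P ^ 2 - 1 := by nlinarith
  have h1 : ‖((P ^ 2 : ℝ) : ℂ) - ⟪z, z'⟫_ℂ‖ ≤ (P ^ 2 - 1) + ‖1 - ⟪z, z'⟫_ℂ‖ := by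
    rw [e]
    refine (norm_add_le _ _).trans ?_
    rw [Complex.norm_real, Real.norm_of_nonneg hP2]
  have hX1 : 1 - ‖z‖ ^ 2 ≤ 2 * ‖1 - ⟪z, z'⟫_ℂ‖ := by
    nlinarith [norm_nonneg z, norm_nonneg z', sq_nonneg (‖z‖ - ‖z'‖)]
  have hX2 : 1 - ‖z'‖ ^ 2 ≤ 2 * ‖1 - ⟪z, z'⟫_ℂ‖ := by
    nlinarith [norm_nonneg z, norm_nonneg z', sq_nonneg (‖z‖ - ‖z'‖)]
  have b1 : ‖1 - ⟪z, z'⟫_ℂ‖ ≤ 3 * (1 - ‖z‖ ^ 2) := by
    have c1 : ‖1 - ⟪z, z'⟫_ℂ‖ * (3 / 4 * ‖1 - ⟪z, z'⟫_ℂ‖) ≤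
        ‖1 - ⟪z, z'⟫_ℂ‖ * (2 * (1 - ‖z‖ ^ 2)) := by
      calc _ = 3 / 4 * ‖1 - ⟪z, z'⟫_ℂ‖ ^ 2 := by ring
        _ ≤ (1 - ‖z‖ ^ 2) * (1 - ‖z'‖ ^ 2) := h
        _ ≤ (1 - ‖z‖ ^ 2) * (2 * ‖1 - ⟪z, z'⟫_ℂ‖) := by gcongr
        _ = _ := by ring
    have c2 := le_of_mul_le_mul_left c1 hX
    linarith
  have b2 : ‖1 - ⟪z, z'⟫_ℂ‖ ≤ 3 * (1 - ‖z'‖ ^ 2) := by
    have c1 : ‖1 - ⟪z, z'⟫_ℂ‖ * (3 / 4 * ‖1 - ⟪z, z'⟫_ℂ‖) ≤
        ‖1 - ⟪z, z'⟫_ℂ‖ * (2 * (1 - ‖z'‖ ^ 2)) := by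
      calc _ = 3 / 4 * ‖1 - ⟪z, z'⟫_ℂ‖ ^ 2 := by ring
        _ ≤ (1 - ‖z‖ ^ 2) * (1 - ‖z'‖ ^ 2) := h
        _ ≤ (2 * ‖1 - ⟪z, z'⟫_ℂ‖) * (1 - ‖z'‖ ^ 2) := by gcongr
        _ = _ := by ring
    have c2 := le_of_mul_le_mul_left c1 hX
    linarith
  constructor <;> linarith

variable [FiniteDimensional ℂ E] [MeasurableSpace E] [BorelSpace E]
variable {V : Type*} [NormedAddCommGroup V] [InnerProductSpace ℂ V] [FiniteDimensional ℂ V]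

/-- A solution of `∂̄ S = η` whose oscillation on the hyperbolic balls is bounded by the weight. -/
theorem osc0 (μ : Measure E) [μ.IsAddHaarMeasure] {m : ℕ} (hm : 1 ≤ m)
    (hdim : Module.finrank ℂ E = m + 1) {θ : ℝ} (h0 : 0 < θ) (h1 : θ < 1) (M : ℕ)
    {c₀ : ℝ} (hc₀ : 0 < c₀) :
    ∃ C : ℝ, 0 < C ∧ ∀ ν : Measure E, OnB ν → ∀ (k : ℕ) (R B : ℝ)
      (η : E → E [⋀^Fin 1]→L[ℝ] V) (U : Set E), 1 + c₀ * θ ^ k ≤ R → R ≤ RC θ k → IsOpen U →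
      closedBall (0 : E) R ⊆ U → 0 ≤ B → ContDiffOn ℝ 1 η U → (∀ w ∈ U, Anti (η w)) →
      (∀ w ∈ U, db η w = 0) → BdG θ k R (fun w => B * Wk ν M θ k w) η →
      ∃ S : E → V, ContDiffOn ℝ 1 S (ball 0 (1 + c₀ * θ ^ k / 2)) ∧
        (∀ w ∈ ball (0 : E) 1, ∀ v, D01 S w v = η w (fun _ => v)) ∧
        ∀ z z' : E, ‖z‖ < 1 → ‖z'‖ < 1 → 3 / 4 ≤ HH z z' →
          ‖S z - S z'‖ ≤ C * B * Wk ν M θ k z := by
  obtain ⟨CT, hCT, hT⟩ := centre (V := V) μ hm hdim h0 h1 M hc₀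
  obtain ⟨CP, hCP, hO⟩ := PRV_osc (V := V) (M + 1) μ hm hdim (L := 3) (by norm_num)
  refine ⟨(2 * 3 ^ (M + 2) + CP) * CT, by positivity, ?_⟩
  intro ν hν k R B η U hR1 hRC hU hRU hB hη ha hd hbd
  have hθk : 0 < θ ^ k := pow_pos h0 k
  have hck : 0 < c₀ * θ ^ k := by positivity
  have hR0 : 0 < R := by linarith
  obtain ⟨P, hP⟩ : ∃ P : ℝ, P = 1 + c₀ * θ ^ k / 2 := ⟨_, rfl⟩
  have hP1 : 1 ≤ P := by rw [hP]; linarith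
  have hP1' : 1 < P := by rw [hP]; linarith
  have hP0 : 0 < P := by linarith
  have hPR : P < R := by rw [hP]; linarith
  obtain ⟨T1, T2, T3⟩ := TW.TR_main (τ := M) μ hdim hR0 hU hRU hη ha hd
  have hTd : ∀ w ∈ ball (0 : E) R, DifferentiableAt ℝ (TW.TR M μ m R η) w := fun w hw =>
    (T1.differentiableOn one_ne_zero).differentiableAt (isOpen_ball.mem_nhds hw)
  obtain ⟨S₁, hS₁⟩ : ∃ S₁ : E → V, S₁ = fun w => evz E V (TW.TR M μ m R η w) := ⟨_, rfl⟩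
  have hS₁c : ContDiffOn ℝ 1 S₁ (ball 0 R) := by
    rw [hS₁]
    exact (evz E V).contDiff.comp_contDiffOn T1
  have hS₁D : ∀ w ∈ ball (0 : E) R, ∀ v, D01 S₁ w v = η w (fun _ => v) := by
    intro w hw v
    rw [hS₁, D01_evz (hTd w hw), T3 w hw]
  have hcb : closedBall (0 : E) P ⊆ ball 0 R := closedBall_subset_ball hPR
  have hbb : ball (0 : E) P ⊆ ball 0 R := ball_subset_ball hPR.le
  have hPd : DifferentiableOn ℂ (PRV (M + 1) μ m P S₁) (ball 0 P) :=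
    PRV_diff _ μ hP0 hcb hS₁c
  rw [← hP]
  refine ⟨fun w => S₁ w - PRV (M + 1) μ m P S₁ w, ?_, ?_, ?_⟩
  · exact (hS₁c.mono hbb).sub (holo_c1' isOpen_ball hPd)
  · intro w hw v
    have hwP : w ∈ ball (0 : E) P := ball_subset_ball hP1 hw
    have hwR : w ∈ ball (0 : E) R := hbb hwP
    have e3 : DifferentiableAt ℝ S₁ w :=
      (hS₁c.differentiableOn one_ne_zero).differentiableAt (isOpen_ball.mem_nhds hwR)
    have e4 : DifferentiableAt ℂ (PRV (M + 1) μ m P S₁) w :=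
      hPd.differentiableAt (isOpen_ball.mem_nhds hwP)
    have e5 : D01 (fun w => S₁ w - PRV (M + 1) μ m P S₁ w) w v = D01 S₁ w v -
        D01 (PRV (M + 1) μ m P S₁) w v := by
      rw [D01_apply, D01_apply, D01_apply, fderiv_fun_sub e3 (e4.restrictScalars ℝ)]
      simp only [sub_apply]
      module
    rw [e5, D01_holo e4, hS₁D w hwR, zero_apply, sub_zero]
  · intro z z' hz hz' hzz
    obtain ⟨t1, t2, t3⟩ := hT ν hν k R B η U hR1 hRC hU hRU hB hη ha hd hbd z hz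
    obtain ⟨q1, q2⟩ := osc_HH hz hz' hzz hP1
    rw [← hP] at t3
    obtain ⟨Φ, hΦ⟩ : ∃ Φ : ℝ, Φ = CT * B * Wk ν M θ k z := ⟨_, rfl⟩
    rw [← hΦ] at t3
    have hzP : ‖z‖ < P := hz.trans hP1'
    have hzP' : ‖z'‖ < P := hz'.trans hP1'
    have hzR : ‖z‖ < R := hzP.trans hPR
    have hΦ0 : 0 ≤ Φ := by
      rw [hΦ]
      have := dl_pos h0 h1 (hzR.trans_le hRC)
      have := Ik_nonneg ν M θ k z
      unfold Wk
      positivity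
    set Sz : E → V := Tc M μ m R η z with hSz
    -- the difference is holomorphic
    have hrep : ∀ x : E, ‖x‖ < P → S₁ x - PRV (M + 1) μ m P S₁ x = Sz x - PRV (M + 1) μ m P Sz x := by
      intro x hx
      have h2 := PRV_holo (V := V) M μ hm hdim hP0 (N := fun w => S₁ w - Sz w) (U := ball 0 R)
        isOpen_ball hcb (hS₁c.sub t1) (fun w hw v => by
          have e3 : DifferentiableAt ℝ S₁ w :=
            (hS₁c.differentiableOn one_ne_zero).differentiableAt (isOpen_ball.mem_nhds hw)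
          have e4 : DifferentiableAt ℝ Sz w :=
            (t1.differentiableOn one_ne_zero).differentiableAt (isOpen_ball.mem_nhds hw)
          have e5 : D01 (fun w => S₁ w - Sz w) w v = D01 S₁ w v - D01 Sz w v := by
            rw [D01_apply, D01_apply, D01_apply, fderiv_fun_sub e3 e4]
            simp only [sub_apply]
            module
          rw [e5, hS₁D w hw, t2 w hw, sub_self]) hx
      rw [PRV_sub_lin (M + 1) μ hP0 (hS₁c.continuousOn.mono hcb) (t1.continuousOn.mono hcb) hx] at h2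
      have h3 : S₁ x - PRV (M + 1) μ m P S₁ x - (Sz x - PRV (M + 1) μ m P Sz x) =
          (S₁ x - Sz x) - (PRV (M + 1) μ m P S₁ x - PRV (M + 1) μ m P Sz x) := by abel
      exact sub_eq_zero.mp (by rw [h3, h2, sub_self])
    have hosc := hO P Sz z z' Φ hP0 (t1.continuousOn.mono hcb) hzP hzP' q1 q2 hΦ0 t3
    have hpt : ∀ x : E, ‖x‖ < P → ‖((P ^ 2 : ℝ) : ℂ) - ⟪x, z⟫_ℂ‖ ≤ 3 * (P ^ 2 - ‖x‖ ^ 2) →
        ‖((P ^ 2 : ℝ) : ℂ) - ⟪x, z⟫_ℂ‖ ≤ 3 * (P ^ 2 - ‖z‖ ^ 2) →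
        ‖Sz x‖ ≤ 3 ^ (M + 2) * Φ := by
      intro x hx g1 g2
      refine (t3 x (mem_ball_zero_iff.mpr hx)).trans ?_
      have d1 : 0 < P ^ 2 - ‖x‖ ^ 2 := by nlinarith [norm_nonneg x]
      have d2 : 0 < P ^ 2 - ‖z‖ ^ 2 := by nlinarith [norm_nonneg z]
      have g3 : ‖((P ^ 2 : ℝ) : ℂ) - ⟪x, z⟫_ℂ‖ / (P ^ 2 - ‖x‖ ^ 2) ≤ 3 := by
        rw [div_le_iff₀ d1]; exact g1
      have g4 : (‖((P ^ 2 : ℝ) : ℂ) - ⟪x, z⟫_ℂ‖ / (P ^ 2 - ‖z‖ ^ 2)) ^ (1 / 4 : ℝ) ≤ 3 := by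
        calc _ ≤ (3 : ℝ) ^ (1 / 4 : ℝ) := Real.rpow_le_rpow (by positivity)
              (by rw [div_le_iff₀ d2]; exact g2) (by norm_num)
          _ ≤ (3 : ℝ) ^ (1 : ℝ) := Real.rpow_le_rpow_of_exponent_le (by norm_num) (by norm_num)
          _ = 3 := Real.rpow_one _
      calc _ ≤ Φ * 3 ^ (M + 1) * 3 := by gcongr
        _ = _ := by ring
    have n1 : ‖Sz z‖ ≤ 3 ^ (M + 2) * Φ := by
      have e : ‖((P ^ 2 : ℝ) : ℂ) - ⟪z, z⟫_ℂ‖ = P ^ 2 - ‖z‖ ^ 2 := by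
        have : ((P ^ 2 : ℝ) : ℂ) - ⟪z, z⟫_ℂ = ((P ^ 2 - ‖z‖ ^ 2 : ℝ) : ℂ) := by
          rw [inner_self_eq_norm_sq_to_K]
          push_cast
          rfl
        rw [this, Complex.norm_real, Real.norm_of_nonneg (by nlinarith [norm_nonneg z])]
      have d2 : 0 < P ^ 2 - ‖z‖ ^ 2 := by nlinarith [norm_nonneg z]
      exact hpt z hzP (by rw [e]; linarith) (by rw [e]; linarith)
    have n2 : ‖Sz z'‖ ≤ 3 ^ (M + 2) * Φ := by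
      rw [osc_conjR P z z'] at q1 q2
      exact hpt z' hzP' q2 q1
    show ‖(S₁ z - PRV (M + 1) μ m P S₁ z) - (S₁ z' - PRV (M + 1) μ m P S₁ z')‖ ≤ _
    rw [hrep z hzP, hrep z' hzP']
    have e : (Sz z - PRV (M + 1) μ m P Sz z) - (Sz z' - PRV (M + 1) μ m P Sz z') =
        Sz z - Sz z' - (PRV (M + 1) μ m P Sz z - PRV (M + 1) μ m P Sz z') := by abel
    rw [e]
    calc _ ≤ ‖Sz z‖ + ‖Sz z'‖ + ‖PRV (M + 1) μ m P Sz z - PRV (M + 1) μ m P Sz z'‖ :=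
          (norm_sub_le _ _).trans (add_le_add (norm_sub_le _ _) le_rfl)
      _ ≤ 3 ^ (M + 2) * Φ + 3 ^ (M + 2) * Φ + CP * Φ := add_le_add (add_le_add n1 n2) hosc
      _ = _ := by rw [hΦ]; ring

end Pool.Agent.MPca0fc2.TE
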