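import Mathlib
import Pool.Agent.Lib.MP_ca0fc2_an.Mg.G122

set_option autoImplicit false
set_option linter.unusedSectionVars false

open Metric Set MeasureTheory Filter Topology
open scoped InnerProductSpace ENNReal ContDiff

namespace Pool.Agent.MPca0fc2.TE

open Pool.Agent.MPca0fc2.PT
open Pool.Agent.MPca0fc2.QT
open Pool.Agent.MPca0fc2.TS

variable {N : ℕ}

/-- `dt` is bilinear and symmetric, `dt x y = ⟪cjv x, y⟫`, `‖cjv x‖ = ‖x‖`. Proof: `Finset.sum_add_distrib`, `PiLp.inner_apply`, `EuclideanSpace.norm_sq_eq`. -/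
theorem dt_add (x y z : EuclideanSpace ℂ (Fin N)) : dt x (y + z) = dt x y + dt x z := by
  unfold dt
  rw [← Finset.sum_add_distrib]
  refine Finset.sum_congr rfl fun j _ => ?_
  rw [PiLp.add_apply]
  ring

theorem add_dt (x y z : EuclideanSpace ℂ (Fin N)) : dt (x + y) z = dt x z + dt y z := by
  unfold dt
  rw [← Finset.sum_add_distrib]
  refine Finset.sum_congr rfl fun j _ => ?_
  rw [PiLp.add_apply]
  ring

theorem dt_smul (c : ℂ) (x y : EuclideanSpace ℂ (Fin N)) : dt x (c • y) = c * dt x y := by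
  unfold dt
  rw [Finset.mul_sum]
  refine Finset.sum_congr rfl fun j _ => ?_
  rw [PiLp.smul_apply, smul_eq_mul]
  ring

theorem smul_dt (c : ℂ) (x y : EuclideanSpace ℂ (Fin N)) : dt (c • x) y = c * dt x y := by
  unfold dt
  rw [Finset.mul_sum]
  refine Finset.sum_congr rfl fun j _ => ?_
  rw [PiLp.smul_apply, smul_eq_mul]
  ring

theorem dt_comm (x y : EuclideanSpace ℂ (Fin N)) : dt x y = dt y x := by
  unfold dt
  exact Finset.sum_congr rfl fun j _ => mul_comm _ _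

theorem norm_cjv (x : EuclideanSpace ℂ (Fin N)) : ‖cjv x‖ = ‖x‖ := by
  rw [EuclideanSpace.norm_eq, EuclideanSpace.norm_eq]
  congr 1
  refine Finset.sum_congr rfl fun j _ => ?_
  show ‖(starRingEnd ℂ) (x j)‖ ^ 2 = _
  rw [RCLike.norm_conj]

theorem dt_eq_inner (x y : EuclideanSpace ℂ (Fin N)) : dt x y = ⟪cjv x, y⟫_ℂ := by
  rw [PiLp.inner_apply]
  unfold dt
  refine Finset.sum_congr rfl fun j _ => ?_
  show x j * y j = ⟪(starRingEnd ℂ) (x j), y j⟫_ℂ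
  rw [RCLike.inner_apply, Complex.conj_conj]
  ring

/-- Cauchy-Schwarz -/
theorem norm_dt_le (x y : EuclideanSpace ℂ (Fin N)) : ‖dt x y‖ ≤ ‖x‖ * ‖y‖ := by
  rw [dt_eq_inner, ← norm_cjv x]
  exact norm_inner_le_norm _ _

private theorem A1_cjv (c : EuclideanSpace ℂ (Fin N)) : dt c (cjv c) = ((‖c‖ ^ 2 : ℝ) : ℂ) := by
  rw [EuclideanSpace.norm_sq_eq]
  push_cast
  unfold dt
  refine Finset.sum_congr rfl fun j _ => ?_
  show c j * (starRingEnd ℂ) (c j) = _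
  rw [Complex.mul_conj, Complex.normSq_eq_norm_sq]
  push_cast
  rfl

private theorem A1_nz {c : EuclideanSpace ℂ (Fin N)} (hc : c ≠ 0) : ((‖c‖ ^ 2 : ℝ) : ℂ) ≠ 0 := by
  have h1 : (0 : ℝ) < ‖c‖ ^ 2 := pow_pos (norm_pos_iff.mpr hc) 2
  exact_mod_cast h1.ne'

/-- `dt c (cjv c) = ‖c‖ ^ 2` -/
theorem dt_ee {c : EuclideanSpace ℂ (Fin N)} (hc : c ≠ 0) : dt c (ee c) = 1 := by
  unfold ee
  rw [dt_smul, A1_cjv, inv_mul_cancel₀ (A1_nz hc)]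

theorem norm_ee {c : EuclideanSpace ℂ (Fin N)} (hc : c ≠ 0) : ‖ee c‖ = ‖c‖⁻¹ := by
  have h0 : (0 : ℝ) < ‖c‖ := norm_pos_iff.mpr hc
  unfold ee
  rw [norm_smul, norm_cjv, norm_inv, Complex.norm_real, Real.norm_of_nonneg (sq_nonneg _)]
  field_simp

/-- `⟪cjv c, x⟫ = dt c x`, so `⟪ee c, x⟫ = dt c x / ‖c‖ ^ 2` -/
theorem inner_ee (c x : EuclideanSpace ℂ (Fin N)) :
    ⟪ee c, x⟫_ℂ = ((‖c‖ ^ 2 : ℝ) : ℂ)⁻¹ * dt c x := by
  unfold ee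
  rw [inner_smul_left, ← dt_eq_inner, map_inv₀, Complex.conj_ofReal]

private theorem A1_orth {c v : EuclideanSpace ℂ (Fin N)} (h : dt c v = 0) (α β : ℂ) (hc : c ≠ 0) :
    ‖α • ee c + β • v‖ ^ 2 = ‖α‖ ^ 2 / ‖c‖ ^ 2 + ‖β‖ ^ 2 * ‖v‖ ^ 2 := by
  have h1 : ⟪α • ee c, β • v⟫_ℂ = 0 := by
    rw [inner_smul_left, inner_smul_right, inner_ee, h, mul_zero, mul_zero, mul_zero]
  have h2 := norm_add_sq_eq_norm_sq_add_norm_sq_of_inner_eq_zero _ _ h1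
  rw [pow_two, h2, norm_smul, norm_smul, norm_ee hc]
  field_simp

private theorem A1_v {c a : EuclideanSpace ℂ (Fin N)} (hc : c ≠ 0) (h : dt c a = 1) : dt c (a - ee c) = 0 := by
  have h1 : a - ee c = a + (-1 : ℂ) • ee c := by
    rw [neg_one_smul, sub_eq_add_neg]
  rw [h1, dt_add, dt_smul, h, dt_ee hc]
  ring

/-- Pythagoras: `a = ee c + (a - ee c)` is an orthogonal decomposition (`inner_ee`, `dt c (a - ee c) = 0`). -/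
theorem norm_sol {c a : EuclideanSpace ℂ (Fin N)} (hc : c ≠ 0) (h : dt c a = 1) :
    ‖a‖ ^ 2 = 1 / ‖c‖ ^ 2 + ‖a - ee c‖ ^ 2 := by
  have h1 := A1_orth (A1_v hc h) 1 1 hc
  rw [one_smul, one_smul, add_sub_cancel, norm_one] at h1
  rw [h1]
  ring

/-- The step gives a solution. Proof. Put `e = ee c`, `v = a - e`, `p = dt e g`, `τ = dt v g`, `k = κ/‖c‖^4`; `dt c e = 1`, `dt c v = 0`. Then
`dt c Stp = (1+p)⁻¹ - (1 + k τ) τ`, `dt g Stp = ((1+p)⁻¹ - (1 + kτ)τ) p + (1 + kτ)(1+p) τ` and the sum is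
`(1+p)⁻¹ (1 + p) - (1+kτ)τ(1 + p) + (1+kτ)(1+p)τ = 1`. -/
theorem Stp_dt {κ : ℝ} {c a g : EuclideanSpace ℂ (Fin N)} (hc : c ≠ 0) (h : dt c a = 1)
    (hp : 1 + dt (ee c) g ≠ 0) : dt (c + g) (Stp κ c a g) = 1 := by
  unfold Stp Ph
  rw [dt_add, dt_smul, dt_smul, add_dt, add_dt, dt_ee hc, A1_v hc h, dt_comm g (ee c), dt_comm g (a - ee c)]
  field_simp
  ring

/-- `Stp κ c a 0 = ee c + (a - ee c) = a`. -/
theorem Stp_zero (κ : ℝ) (c a : EuclideanSpace ℂ (Fin N)) : Stp κ c a 0 = a := by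
  have h0 : ∀ x : EuclideanSpace ℂ (Fin N), dt x 0 = 0 := by
    intro x
    unfold dt
    exact Finset.sum_eq_zero fun j _ => by rw [PiLp.zero_apply, mul_zero]
  unfold Stp Ph
  rw [h0, h0, mul_zero, add_zero, inv_one, mul_zero, sub_zero, mul_one, one_smul, add_zero, one_smul]
  exact add_sub_cancel _ _

/-- Pythagoras for the step: the two terms of `Ph` are orthogonal if `dt c a = 1`. -/
theorem norm_Stp {κ : ℝ} {c a g : EuclideanSpace ℂ (Fin N)} (hc : c ≠ 0) (h : dt c a = 1) :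
    ‖Stp κ c a g‖ ^ 2 =
      ‖(1 + dt (ee c) g)⁻¹ - (1 + ((κ / ‖c‖ ^ 4 : ℝ) : ℂ) * dt (a - ee c) g) *
        dt (a - ee c) g‖ ^ 2 / ‖c‖ ^ 2 +
      (‖1 + ((κ / ‖c‖ ^ 4 : ℝ) : ℂ) * dt (a - ee c) g‖ * ‖1 + dt (ee c) g‖) ^ 2 *
        ‖a - ee c‖ ^ 2 := by
  unfold Stp Ph
  rw [A1_orth (A1_v hc h) _ _ hc, norm_mul]

/-- `‖c‖² |1 + dt (ee c) g|² ≤ ‖c + g‖²`: Cauchy-Schwarz, `dt (ee c) (c + g) = 1 + dt (ee c) g` and `‖ee c‖ = ‖c‖⁻¹`. -/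
theorem norm_one_add_le {c g : EuclideanSpace ℂ (Fin N)} (hc : c ≠ 0) :
    ‖c‖ * ‖1 + dt (ee c) g‖ ≤ ‖c + g‖ := by
  have h0 : (0 : ℝ) < ‖c‖ := norm_pos_iff.mpr hc
  have h1 : dt (ee c) (c + g) = 1 + dt (ee c) g := by
    rw [dt_add, dt_comm (ee c) c, dt_ee hc]
  rw [← h1]
  have h2 := norm_dt_le (ee c) (c + g)
  rw [norm_ee hc] at h2
  calc ‖c‖ * ‖dt (ee c) (c + g)‖ ≤ ‖c‖ * (‖c‖⁻¹ * ‖c + g‖) := mul_le_mul_of_nonneg_left h2 h0.le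
    _ = ‖c + g‖ := by
      rw [← mul_assoc, mul_inv_cancel₀ h0.ne', one_mul]

/-- The operator `x ↦ (1 + p) x - (dt x g) e`, `e = ee c`, `p = dt e g`, on the vectors with `dt c x = 0`.
Proof. `x ⟂ e` (`inner_ee`), so the square of the left side is `|1+p|² ‖x‖² + |dt x g|² / ‖c‖²`. The vectors `cjv e`, `cjv x` are orthogonal, and
`⟪cjv e, c + g⟫ = dt e (c + g) = 1 + p`, `⟪cjv x, c + g⟫ = dt x (c + g) = dt x g`; Bessel: `|1+p|² ‖c‖² + |dt x g|² / ‖x‖² ≤ ‖c + g‖²` (`x ≠ 0`); multiply by `‖x‖²/‖c‖²`.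
(Bessel for two orthogonal vectors `u, v`, `w`: `‖w - (⟪u,w⟫/‖u‖²) u - (⟪v,w⟫/‖v‖²) v‖² = ‖w‖² - |⟪u,w⟫|²/‖u‖² - |⟪v,w⟫|²/‖v‖² ≥ 0`.) -/
theorem norm_KK {c g x : EuclideanSpace ℂ (Fin N)} (hc : c ≠ 0) (hx : dt c x = 0) :
    ‖(1 + dt (ee c) g) • x - dt x g • ee c‖ ≤ ‖x‖ * ‖c + g‖ / ‖c‖ := by
  have h0 : (0 : ℝ) < ‖c‖ := norm_pos_iff.mpr hc
  obtain ⟨s, hs⟩ : ∃ s, s = 1 + dt (ee c) g := ⟨_, rfl⟩
  obtain ⟨t, ht⟩ : ∃ t, t = dt x g := ⟨_, rfl⟩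
  have hs1 : dt (ee c) (c + g) = s := by
    rw [hs, dt_add, dt_comm (ee c) c, dt_ee hc]
  have ht1 : dt x (c + g) = t := by
    rw [ht, dt_add, dt_comm x c, hx, zero_add]
  rw [← hs, ← ht]
  obtain ⟨R, hR⟩ : ∃ R : ℝ, R = ‖s‖ ^ 2 * ‖x‖ ^ 2 + ‖t‖ ^ 2 / ‖c‖ ^ 2 := ⟨_, rfl⟩
  have hR0 : 0 ≤ R := by
    rw [hR]
    positivity
  have h1 : ‖s • x - t • ee c‖ ^ 2 = R := by
    have h2 := A1_orth hx (-t) s hc
    rw [show s • x - t • ee c = (-t) • ee c + s • x by rw [neg_smul]; abel, h2, hR, norm_neg]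
    ring
  have h3 : dt (((starRingEnd ℂ) s * ((‖x‖ ^ 2 : ℝ) : ℂ)) • ee c + ((starRingEnd ℂ) t * ((1 / ‖c‖ ^ 2 : ℝ) : ℂ)) • x) (c + g) =
      (R : ℂ) := by
    rw [add_dt, smul_dt, smul_dt, hs1, ht1, hR]
    have h4 : (starRingEnd ℂ) s * s = ((‖s‖ ^ 2 : ℝ) : ℂ) := by
      rw [mul_comm, Complex.mul_conj, Complex.normSq_eq_norm_sq]
    have h5 : (starRingEnd ℂ) t * t = ((‖t‖ ^ 2 : ℝ) : ℂ) := by
      rw [mul_comm, Complex.mul_conj, Complex.normSq_eq_norm_sq]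
    calc (starRingEnd ℂ) s * ((‖x‖ ^ 2 : ℝ) : ℂ) * s + (starRingEnd ℂ) t * ((1 / ‖c‖ ^ 2 : ℝ) : ℂ) * t
        = ((starRingEnd ℂ) s * s) * ((‖x‖ ^ 2 : ℝ) : ℂ) + ((starRingEnd ℂ) t * t) * ((1 / ‖c‖ ^ 2 : ℝ) : ℂ) := by ring
      _ = ((‖s‖ ^ 2 * ‖x‖ ^ 2 + ‖t‖ ^ 2 / ‖c‖ ^ 2 : ℝ) : ℂ) := by
        rw [h4, h5]
        push_cast
        ring
  have h6 : ‖((starRingEnd ℂ) s * ((‖x‖ ^ 2 : ℝ) : ℂ)) • ee c + ((starRingEnd ℂ) t * ((1 / ‖c‖ ^ 2 : ℝ) : ℂ)) • x‖ ^ 2 =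
      ‖x‖ ^ 2 / ‖c‖ ^ 2 * R := by
    rw [A1_orth hx _ _ hc, norm_mul, norm_mul, RCLike.norm_conj, RCLike.norm_conj, Complex.norm_real, Complex.norm_real,
      Real.norm_of_nonneg (by positivity), Real.norm_of_nonneg (by positivity), hR]
    field_simp
  have h7 := norm_dt_le (((starRingEnd ℂ) s * ((‖x‖ ^ 2 : ℝ) : ℂ)) • ee c + ((starRingEnd ℂ) t * ((1 / ‖c‖ ^ 2 : ℝ) : ℂ)) • x) (c + g)
  rw [h3, Complex.norm_real, Real.norm_of_nonneg hR0] at h7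
  have h8 : R ^ 2 ≤ ‖x‖ ^ 2 / ‖c‖ ^ 2 * R * ‖c + g‖ ^ 2 := by
    have h9 := pow_le_pow_left₀ hR0 h7 2
    rw [mul_pow, h6] at h9
    exact h9
  have h10 : R ≤ (‖x‖ * ‖c + g‖ / ‖c‖) ^ 2 := by
    rcases hR0.eq_or_lt with h | h
    · rw [← h]
      positivity
    · have h11 : R * R ≤ R * (‖x‖ * ‖c + g‖ / ‖c‖) ^ 2 := by
        calc R * R = R ^ 2 := by ring
          _ ≤ _ := h8
          _ = R * (‖x‖ * ‖c + g‖ / ‖c‖) ^ 2 := by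
            field_simp
      exact le_of_mul_le_mul_left h11 h
  rw [← h1] at h10
  exact (sq_le_sq₀ (norm_nonneg _) (by positivity)).mp h10

end Pool.Agent.MPca0fc2.TE
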