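import Mathlib
import Pool.Agent.Lib.MP_ca0fc2_an.TE.A1
import Pool.Agent.Lib.MP_ca0fc2_an.TS.Zero
import Pool.Agent.Lib.MP_ca0fc2_an.Mg.G022

set_option autoImplicit false
set_option linter.unusedSectionVars false

open Metric Set MeasureTheory Filter Topology
open scoped InnerProductSpace ENNReal ContDiff

namespace Pool.Agent.MPca0fc2.TE

open Pool.Agent.MPca0fc2.PT
open Pool.Agent.MPca0fc2.QT
open Pool.Agent.MPca0fc2.TS

variable {E : Type*} [NormedAddCommGroup E] [InnerProductSpace ℂ E]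
variable {N : ℕ}

section rules

variable {Y : Type*} [NormedAddCommGroup Y] [NormedSpace ℂ Y]

/-- `σ` is differentiable at `z` and its conjugate linear derivative in the direction `ξ` is `s` -/
private def A3_D (σ : E → Y) (z ξ : E) (s : Y) : Prop :=
  DifferentiableAt ℝ σ z ∧ D01 σ z ξ = s

private theorem A3_of {σ : E → Y} {L : E →L[ℝ] Y} {z ξ : E} (h : HasFDerivAt σ L z) {s : Y}
    (hs : (2⁻¹ : ℂ) • (L ξ + Complex.I • L (Complex.I • ξ)) = s) : A3_D σ z ξ s :=
  ⟨h.differentiableAt, by rw [D01_apply, h.fderiv, hs]⟩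

private theorem A3_self {σ : E → Y} {z : E} (h : DifferentiableAt ℝ σ z) (ξ : E) :
    A3_D σ z ξ (D01 σ z ξ) := ⟨h, rfl⟩

private theorem A3_holo {σ : E → Y} {z : E} (h : DifferentiableAt ℂ σ z) (ξ : E) :
    A3_D σ z ξ 0 := ⟨h.restrictScalars ℝ, by rw [D01_holo h]; rfl⟩

private theorem A3_add {σ σ' : E → Y} {z ξ : E} {s s' : Y} (h : A3_D σ z ξ s)
    (h' : A3_D σ' z ξ s') : A3_D (fun y => σ y + σ' y) z ξ (s + s') := by
  refine A3_of (h.1.hasFDerivAt.add h'.1.hasFDerivAt) ?_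
  rw [← h.2, ← h'.2, D01_apply, D01_apply]
  simp only [_root_.add_apply]
  module

private theorem A3_sub {σ σ' : E → Y} {z ξ : E} {s s' : Y} (h : A3_D σ z ξ s)
    (h' : A3_D σ' z ξ s') : A3_D (fun y => σ y - σ' y) z ξ (s - s') := by
  refine A3_of (h.1.hasFDerivAt.sub h'.1.hasFDerivAt) ?_
  rw [← h.2, ← h'.2, D01_apply, D01_apply]
  simp only [_root_.sub_apply]
  module

private theorem A3_smul {q : E → ℂ} {σ : E → Y} {z ξ : E} {t : ℂ} {s : Y} (h : A3_D q z ξ t)
    (h' : A3_D σ z ξ s) : A3_D (fun y => q y • σ y) z ξ (t • σ z + q z • s) := by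
  refine A3_of (h.1.hasFDerivAt.smul h'.1.hasFDerivAt) ?_
  rw [← h.2, ← h'.2, D01_apply, D01_apply]
  simp only [_root_.add_apply, _root_.smul_apply,
    ContinuousLinearMap.smulRight_apply, smul_eq_mul]
  module

private theorem A3_mul {q q' : E → ℂ} {z ξ : E} {t t' : ℂ} (h : A3_D q z ξ t)
    (h' : A3_D q' z ξ t') : A3_D (fun y => q y * q' y) z ξ (t * q' z + q z * t') :=
  A3_smul h h'

private theorem A3_inv {q : E → ℂ} {z ξ : E} {t : ℂ} (h : A3_D q z ξ t) (h0 : q z ≠ 0) :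
    A3_D (fun y => (q y)⁻¹) z ξ (-((q z ^ 2)⁻¹ * t)) := by
  have h1 : HasFDerivAt (fun x : ℂ => x⁻¹) _ (q z) :=
    ((hasDerivAt_inv h0).hasFDerivAt).restrictScalars ℝ
  refine A3_of (h1.comp z h.1.hasFDerivAt) ?_
  rw [← h.2, D01_apply]
  simp [smul_eq_mul]
  ring

private theorem A3_bil : IsBoundedBilinearMap ℝ
    (fun p : EuclideanSpace ℂ (Fin N) × EuclideanSpace ℂ (Fin N) => dt p.1 p.2) where
  add_left x y z := add_dt x y z
  smul_left c x y := by
    have h := smul_dt (c : ℂ) x y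
    simp only [Complex.coe_smul] at h
    rw [h, Complex.real_smul]
  add_right x y z := dt_add x y z
  smul_right c x y := by
    have h := dt_smul (c : ℂ) x y
    simp only [Complex.coe_smul] at h
    rw [h, Complex.real_smul]
  bound := ⟨1, one_pos, fun x y => by rw [one_mul]; exact norm_dt_le x y⟩

private theorem A3_dt {u w : E → EuclideanSpace ℂ (Fin N)} {z ξ : E}
    {s t : EuclideanSpace ℂ (Fin N)} (h : A3_D u z ξ s) (h' : A3_D w z ξ t) :
    A3_D (fun y => dt (u y) (w y)) z ξ (dt s (w z) + dt (u z) t) := by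
  have h1 := (A3_bil (N := N)).hasFDerivAt (u z, w z)
  refine A3_of (h1.comp z (h.1.hasFDerivAt.prodMk h'.1.hasFDerivAt)) ?_
  rw [← h.2, ← h'.2, D01_apply, D01_apply]
  simp only [ContinuousLinearMap.comp_apply, ContinuousLinearMap.prod_apply,
    IsBoundedBilinearMap.deriv_apply, smul_dt, add_dt, dt_smul, dt_add, smul_eq_mul]
  ring

private theorem A3_dt0 (x : EuclideanSpace ℂ (Fin N)) : dt x 0 = 0 := by
  have h := dt_smul 0 x 0
  rwa [zero_smul, zero_mul] at h

end rules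

/-- The `∂̄` of the step (chain rule; `g` is holomorphic).
Proof. `D01` is a derivation: `D01 (u • w) = D01 u • w + u • D01 w`, `D01 (dt u w) = dt (D01 u) w + dt u (D01 w)`, `D01 g = 0`, `D01 (1+p)⁻¹ = -(1+p)⁻² D01 p`. To prove them, compute
`fderiv ℝ` of the expression at `z` in the directions `ξ` and `i ξ` (`HasFDerivAt.smul`, ...; `dt` is bilinear: it is convenient to introduce it as a continuous bilinear map), and
`fderiv ℝ g z (i ξ) = i fderiv ℝ g z ξ`. -/
theorem D01_Ph {e a g : E → EuclideanSpace ℂ (Fin N)} {k : E → ℂ} {z : E}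
    (he : DifferentiableAt ℝ e z) (ha : DifferentiableAt ℝ a z) (hg : DifferentiableAt ℂ g z)
    (hk : DifferentiableAt ℝ k z) (hp : 1 + dt (e z) (g z) ≠ 0) (ξ : E) :
    D01 (fun y => Ph (e y) (a y) (g y) (k y)) z ξ =
      (-(dt (D01 e z ξ) (g z) / (1 + dt (e z) (g z)) ^ 2) -
        (D01 k z ξ * dt (a z - e z) (g z) + k z * dt (D01 a z ξ - D01 e z ξ) (g z)) *
          dt (a z - e z) (g z) -
        (1 + k z * dt (a z - e z) (g z)) * dt (D01 a z ξ - D01 e z ξ) (g z)) • e z +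
      ((1 + dt (e z) (g z))⁻¹ - (1 + k z * dt (a z - e z) (g z)) * dt (a z - e z) (g z)) •
        D01 e z ξ +
      ((D01 k z ξ * dt (a z - e z) (g z) + k z * dt (D01 a z ξ - D01 e z ξ) (g z)) *
          (1 + dt (e z) (g z)) +
        (1 + k z * dt (a z - e z) (g z)) * dt (D01 e z ξ) (g z)) • (a z - e z) +
      ((1 + k z * dt (a z - e z) (g z)) * (1 + dt (e z) (g z))) •
        (D01 a z ξ - D01 e z ξ) := by
  have h1 := A3_self he ξ
  have h2 := A3_self ha ξ
  have h3 := A3_holo hg ξ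
  have h4 := A3_self hk ξ
  have h5 : A3_D (fun _ : E => (1 : ℂ)) z ξ 0 := A3_holo (differentiableAt_const _) ξ
  have hP := A3_add h5 (A3_dt h1 h3)
  have hV := A3_sub h2 h1
  have hT := A3_dt hV h3
  have hkT := A3_add h5 (A3_mul h4 hT)
  have hI := A3_inv hP hp
  have hall := A3_add (A3_smul (A3_sub hI (A3_mul hkT hT)) h1) (A3_smul (A3_mul hkT hP) hV)
  have e1 := hall.2
  simp only [A3_dt0, add_zero, zero_add] at e1
  refine Eq.trans e1 ?_
  module

end Pool.Agent.MPca0fc2.TE
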