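import Mathlib
import Pool.Agent.Lib.MP_ca0fc2_an.TE.A1
import Pool.Agent.Lib.MP_ca0fc2_an.TS.Zero
import Pool.Agent.Lib.MP_ca0fc2_an.Mg.G022

set_option autoImplicit false
set_option linter.unusedSectionVars false

open Metric Set MeasureTheory Filter Topology
open scoped InnerProductSpace ENNReal ContDiff

namespace Pool.Agent.MPca0fc2.TE

open Pool.Agent.MPca0fc2.PT
open Pool.Agent.MPca0fc2.QT
open Pool.Agent.MPca0fc2.TS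

variable {E : Type*} [NormedAddCommGroup E] [InnerProductSpace ℂ E]
variable {N : ℕ}

section rules

variable {Y : Type*} [NormedAddCommGroup Y] [NormedSpace ℂ Y]

/-- `σ` is differentiable at `z` and its conjugate linear derivative in the direction `ξ` is `s` -/
private def A3b_D (σ : E → Y) (z ξ : E) (s : Y) : Prop :=
  DifferentiableAt ℝ σ z ∧ D01 σ z ξ = s

private theorem A3b_of {σ : E → Y} {L : E →L[ℝ] Y} {z ξ : E} (h : HasFDerivAt σ L z) {s : Y}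
    (hs : (2⁻¹ : ℂ) • (L ξ + Complex.I • L (Complex.I • ξ)) = s) : A3b_D σ z ξ s :=
  ⟨h.differentiableAt, by rw [D01_apply, h.fderiv, hs]⟩

private theorem A3b_self {σ : E → Y} {z : E} (h : DifferentiableAt ℝ σ z) (ξ : E) :
    A3b_D σ z ξ (D01 σ z ξ) := ⟨h, rfl⟩

private theorem A3b_holo {σ : E → Y} {z : E} (h : DifferentiableAt ℂ σ z) (ξ : E) :
    A3b_D σ z ξ 0 := ⟨h.restrictScalars ℝ, by rw [D01_holo h]; rfl⟩

private theorem A3b_add {σ σ' : E → Y} {z ξ : E} {s s' : Y} (h : A3b_D σ z ξ s)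
    (h' : A3b_D σ' z ξ s') : A3b_D (fun y => σ y + σ' y) z ξ (s + s') := by
  refine A3b_of (h.1.hasFDerivAt.add h'.1.hasFDerivAt) ?_
  rw [← h.2, ← h'.2, D01_apply, D01_apply]
  simp only [_root_.add_apply]
  module

private theorem A3b_smul {q : E → ℂ} {σ : E → Y} {z ξ : E} {t : ℂ} {s : Y} (h : A3b_D q z ξ t)
    (h' : A3b_D σ z ξ s) : A3b_D (fun y => q y • σ y) z ξ (t • σ z + q z • s) := by
  refine A3b_of (h.1.hasFDerivAt.smul h'.1.hasFDerivAt) ?_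
  rw [← h.2, ← h'.2, D01_apply, D01_apply]
  simp only [_root_.add_apply, _root_.smul_apply,
    ContinuousLinearMap.smulRight_apply, smul_eq_mul]
  module

private theorem A3b_mul {q q' : E → ℂ} {z ξ : E} {t t' : ℂ} (h : A3b_D q z ξ t)
    (h' : A3b_D q' z ξ t') : A3b_D (fun y => q y * q' y) z ξ (t * q' z + q z * t') :=
  A3b_smul h h'

private theorem A3b_inv {q : E → ℂ} {z ξ : E} {t : ℂ} (h : A3b_D q z ξ t) (h0 : q z ≠ 0) :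
    A3b_D (fun y => (q y)⁻¹) z ξ (-((q z ^ 2)⁻¹ * t)) := by
  have h1 : HasFDerivAt (fun x : ℂ => x⁻¹) _ (q z) :=
    ((hasDerivAt_inv h0).hasFDerivAt).restrictScalars ℝ
  refine A3b_of (h1.comp z h.1.hasFDerivAt) ?_
  rw [← h.2, D01_apply]
  simp [smul_eq_mul]
  ring

private theorem A3b_bil : IsBoundedBilinearMap ℝ
    (fun p : EuclideanSpace ℂ (Fin N) × EuclideanSpace ℂ (Fin N) => dt p.1 p.2) where
  add_left x y z := add_dt x y z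
  smul_left c x y := by
    have h := smul_dt (c : ℂ) x y
    simp only [Complex.coe_smul] at h
    rw [h, Complex.real_smul]
  add_right x y z := dt_add x y z
  smul_right c x y := by
    have h := dt_smul (c : ℂ) x y
    simp only [Complex.coe_smul] at h
    rw [h, Complex.real_smul]
  bound := ⟨1, one_pos, fun x y => by rw [one_mul]; exact norm_dt_le x y⟩

private theorem A3b_dt {u w : E → EuclideanSpace ℂ (Fin N)} {z ξ : E}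
    {s t : EuclideanSpace ℂ (Fin N)} (h : A3b_D u z ξ s) (h' : A3b_D w z ξ t) :
    A3b_D (fun y => dt (u y) (w y)) z ξ (dt s (w z) + dt (u z) t) := by
  have h1 := (A3b_bil (N := N)).hasFDerivAt (u z, w z)
  refine A3b_of (h1.comp z (h.1.hasFDerivAt.prodMk h'.1.hasFDerivAt)) ?_
  rw [← h.2, ← h'.2, D01_apply, D01_apply]
  simp only [ContinuousLinearMap.comp_apply, ContinuousLinearMap.prod_apply,
    IsBoundedBilinearMap.deriv_apply, smul_dt, add_dt, dt_smul, dt_add, smul_eq_mul]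
  ring

private theorem A3b_dt0 (x : EuclideanSpace ℂ (Fin N)) : dt x 0 = 0 := by
  have h := dt_smul 0 x 0
  rwa [zero_smul, zero_mul] at h

end rules

private theorem A3b_cjv_lin : IsBoundedLinearMap ℝ
    (cjv : EuclideanSpace ℂ (Fin N) → EuclideanSpace ℂ (Fin N)) where
  map_add x y := by
    ext j
    simp [cjv]
  map_smul c x := by
    ext j
    simp [cjv]
  bound := ⟨1, one_pos, fun x => by rw [one_mul, norm_cjv]⟩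

private theorem A3b_cjv_I (x : EuclideanSpace ℂ (Fin N)) :
    cjv (Complex.I • x) = -(Complex.I • cjv x) := by
  ext j
  simp [cjv]

private theorem A3b_cjv {c : E → EuclideanSpace ℂ (Fin N)} {z : E} (hc : DifferentiableAt ℂ c z)
    (ξ : E) : A3b_D (fun y => cjv (c y)) z ξ (cjv (fderiv ℂ c z ξ)) := by
  refine A3b_of (A3b_cjv_lin.hasFDerivAt.comp z (hc.hasFDerivAt.restrictScalars ℝ)) ?_
  show (2⁻¹ : ℂ) • (cjv (fderiv ℂ c z ξ) + Complex.I • cjv (fderiv ℂ c z (Complex.I • ξ))) = _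
  rw [map_smul, A3b_cjv_I, smul_neg, smul_smul, Complex.I_mul_I]
  module

private theorem A3b_sq (c : EuclideanSpace ℂ (Fin N)) : ((‖c‖ ^ 2 : ℝ) : ℂ) = dt (cjv c) c := by
  rw [EuclideanSpace.norm_sq_eq]
  unfold dt cjv
  push_cast
  refine Finset.sum_congr rfl fun j _ => ?_
  show ((‖c j‖ : ℂ)) ^ 2 = (starRingEnd ℂ) (c j) * c j
  rw [Complex.conj_mul']

private theorem A3b_nsq {c : E → EuclideanSpace ℂ (Fin N)} {z : E} (hc : DifferentiableAt ℂ c z)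
    (ξ : E) : A3b_D (fun y => ((‖c y‖ ^ 2 : ℝ) : ℂ)) z ξ (dt (cjv (fderiv ℂ c z ξ)) (c z)) := by
  have h := A3b_dt (A3b_cjv hc ξ) (A3b_holo hc ξ)
  rw [A3b_dt0, add_zero] at h
  have e : (fun y => ((‖c y‖ ^ 2 : ℝ) : ℂ)) = fun y => dt (cjv (c y)) (c y) :=
    funext fun y => A3b_sq (c y)
  rw [e]
  exact h

private theorem A3b_dq_le (γ c : EuclideanSpace ℂ (Fin N)) : ‖dt (cjv γ) c‖ ≤ ‖γ‖ * ‖c‖ := by
  have h := norm_dt_le (cjv γ) c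
  rwa [norm_cjv] at h

/-- `ee ∘ c` for holomorphic `c`. With `γ = fderiv ℂ c z ξ`: `D01 (cjv ∘ c) z ξ = cjv γ`, `D01 (‖c‖²) z ξ = dt (cjv γ) (c z)` (`‖c‖² = dt (cjv c) c`), so
`D01 (ee ∘ c) z ξ = cjv γ / ‖c‖² - (dt (cjv γ) c / ‖c‖⁴) cjv c`; norm `≤ 2 ‖γ‖/‖c‖²`, and `dt c` of it is `0`. -/
theorem D01_ee {c : E → EuclideanSpace ℂ (Fin N)} {z : E} (hc : DifferentiableAt ℂ c z)
    (h0 : c z ≠ 0) : DifferentiableAt ℝ (fun y => ee (c y)) z ∧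
    ∀ ξ : E, ‖D01 (fun y => ee (c y)) z ξ‖ ≤ 2 * ‖fderiv ℂ c z ξ‖ / ‖c z‖ ^ 2 ∧
      dt (c z) (D01 (fun y => ee (c y)) z ξ) = 0 := by
  have hn : 0 < ‖c z‖ := norm_pos_iff.2 h0
  have hq : ((‖c z‖ ^ 2 : ℝ) : ℂ) ≠ 0 := Complex.ofReal_ne_zero.2 (pow_ne_zero _ hn.ne')
  have key : ∀ ξ : E, A3b_D (fun y => ee (c y)) z ξ
      (-((((‖c z‖ ^ 2 : ℝ) : ℂ) ^ 2)⁻¹ * dt (cjv (fderiv ℂ c z ξ)) (c z)) • cjv (c z) +
        ((‖c z‖ ^ 2 : ℝ) : ℂ)⁻¹ • cjv (fderiv ℂ c z ξ)) := fun ξ =>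
    A3b_smul (A3b_inv (A3b_nsq hc ξ) hq) (A3b_cjv hc ξ)
  refine ⟨(key 0).1, fun ξ => ?_⟩
  rw [(key ξ).2]
  set γ := fderiv ℂ c z ξ with hγ
  have hd := A3b_dq_le γ (c z)
  constructor
  · refine (norm_add_le _ _).trans ?_
    rw [norm_smul, norm_smul, norm_neg, norm_mul, norm_inv, norm_inv, norm_pow, norm_cjv,
      norm_cjv, Complex.norm_real, Real.norm_of_nonneg (by positivity : (0 : ℝ) ≤ ‖c z‖ ^ 2)]
    have h1 : ((‖c z‖ ^ 2) ^ 2)⁻¹ * ‖dt (cjv γ) (c z)‖ * ‖c z‖ ≤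
        ((‖c z‖ ^ 2) ^ 2)⁻¹ * (‖γ‖ * ‖c z‖) * ‖c z‖ := by gcongr
    refine (add_le_add_left h1 _).trans (le_of_eq ?_)
    field_simp
    ring
  · rw [dt_add, dt_smul, dt_smul, dt_comm (c z) (cjv (c z)), ← A3b_sq, dt_comm (c z) (cjv γ)]
    field_simp
    ring

/-- `D01 (κ/‖c‖⁴) = -2 κ ‖c‖⁻⁶ D01 (‖c‖²)`; `‖D01 (‖c‖²) ξ‖ ≤ ‖γ‖ ‖c‖`. -/
theorem D01_kk {κ : ℝ} (hκ : 0 < κ) {c : E → EuclideanSpace ℂ (Fin N)} {z : E}
    (hc : DifferentiableAt ℂ c z) (h0 : c z ≠ 0) :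
    DifferentiableAt ℝ (fun y => ((κ / ‖c y‖ ^ 4 : ℝ) : ℂ)) z ∧
    ∀ ξ : E, ‖D01 (fun y => ((κ / ‖c y‖ ^ 4 : ℝ) : ℂ)) z ξ‖ ≤
      4 * κ * ‖fderiv ℂ c z ξ‖ / ‖c z‖ ^ 5 := by
  have hn : 0 < ‖c z‖ := norm_pos_iff.2 h0
  have hq : ((‖c z‖ ^ 2 : ℝ) : ℂ) ≠ 0 := Complex.ofReal_ne_zero.2 (pow_ne_zero _ hn.ne')
  have e : (fun y => ((κ / ‖c y‖ ^ 4 : ℝ) : ℂ)) =
      fun y => ((κ : ℂ) * ((‖c y‖ ^ 2 : ℝ) : ℂ)⁻¹) * ((‖c y‖ ^ 2 : ℝ) : ℂ)⁻¹ := by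
    funext y
    have h1 : κ / ‖c y‖ ^ 4 = κ * (‖c y‖ ^ 2)⁻¹ * (‖c y‖ ^ 2)⁻¹ := by
      rw [div_eq_mul_inv, mul_assoc, ← mul_inv]
      congr 2
      ring
    rw [h1]
    push_cast
    rfl
  have key : ∀ ξ : E, A3b_D (fun y => ((κ / ‖c y‖ ^ 4 : ℝ) : ℂ)) z ξ
      ((0 * ((‖c z‖ ^ 2 : ℝ) : ℂ)⁻¹ +
        (κ : ℂ) * -((((‖c z‖ ^ 2 : ℝ) : ℂ) ^ 2)⁻¹ * dt (cjv (fderiv ℂ c z ξ)) (c z))) *
          ((‖c z‖ ^ 2 : ℝ) : ℂ)⁻¹ +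
        ((κ : ℂ) * ((‖c z‖ ^ 2 : ℝ) : ℂ)⁻¹) *
          -((((‖c z‖ ^ 2 : ℝ) : ℂ) ^ 2)⁻¹ * dt (cjv (fderiv ℂ c z ξ)) (c z))) := fun ξ => by
    have h1 := A3b_inv (A3b_nsq hc ξ) hq
    have h2 : A3b_D (fun _ : E => (κ : ℂ)) z ξ 0 := A3b_holo (differentiableAt_const _) ξ
    rw [e]
    exact A3b_mul (A3b_mul h2 h1) h1
  refine ⟨(key 0).1, fun ξ => ?_⟩
  rw [(key ξ).2]
  set γ := fderiv ℂ c z ξ with hγ
  have hd := A3b_dq_le γ (c z)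
  have e2 : ((0 * ((‖c z‖ ^ 2 : ℝ) : ℂ)⁻¹ +
        (κ : ℂ) * -((((‖c z‖ ^ 2 : ℝ) : ℂ) ^ 2)⁻¹ * dt (cjv γ) (c z))) *
          ((‖c z‖ ^ 2 : ℝ) : ℂ)⁻¹ +
        ((κ : ℂ) * ((‖c z‖ ^ 2 : ℝ) : ℂ)⁻¹) *
          -((((‖c z‖ ^ 2 : ℝ) : ℂ) ^ 2)⁻¹ * dt (cjv γ) (c z))) =
      -(((2 * κ * ((‖c z‖ ^ 2) ^ 3)⁻¹ : ℝ) : ℂ) * dt (cjv γ) (c z)) := by
    push_cast
    ring
  rw [e2, norm_neg, norm_mul, Complex.norm_real,
    Real.norm_of_nonneg (by positivity : (0 : ℝ) ≤ 2 * κ * ((‖c z‖ ^ 2) ^ 3)⁻¹)]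
  have h1 : 2 * κ * ((‖c z‖ ^ 2) ^ 3)⁻¹ * ‖dt (cjv γ) (c z)‖ ≤
      2 * κ * ((‖c z‖ ^ 2) ^ 3)⁻¹ * (‖γ‖ * ‖c z‖) := by gcongr
  refine h1.trans ?_
  have h2 : 2 * κ * ((‖c z‖ ^ 2) ^ 3)⁻¹ * (‖γ‖ * ‖c z‖) = 2 * κ * ‖γ‖ / ‖c z‖ ^ 5 := by
    field_simp
  rw [h2]
  gcongr
  norm_num

/-- `D01` of a solution is orthogonal to the data: differentiate `dt (c y) (a y) = 1`, `D01 c = 0`. -/
theorem dt_D01 {c a : E → EuclideanSpace ℂ (Fin N)} {z : E} (hc : DifferentiableAt ℂ c z)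
    (ha : DifferentiableAt ℝ a z) (h : ∀ᶠ y in 𝓝 z, dt (c y) (a y) = 1) (ξ : E) :
    dt (c z) (D01 a z ξ) = 0 := by
  have h1 := (A3b_dt (A3b_holo hc ξ) (A3b_self ha ξ)).2
  have h2 : D01 (fun y => dt (c y) (a y)) z ξ = 0 := by
    have h3 : (fun y => dt (c y) (a y)) =ᶠ[𝓝 z] fun _ => (1 : ℂ) := h
    rw [D01_apply, h3.fderiv_eq]
    simp
  rw [h2, dt_comm 0, A3b_dt0, zero_add] at h1
  exact h1.symm

end Pool.Agent.MPca0fc2.TE
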