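import Mathlib
import Pool.Agent.Lib.MP_ca0fc2_an.TE.A1

set_option autoImplicit false
set_option linter.unusedSectionVars false

open Metric Set MeasureTheory Filter Topology
open scoped InnerProductSpace ENNReal ContDiff

namespace Pool.Agent.MPca0fc2.TE

open Pool.Agent.MPca0fc2.PT
open Pool.Agent.MPca0fc2.QT
open Pool.Agent.MPca0fc2.TS

private theorem A3c_dt_sub {N : ℕ} (x y z : EuclideanSpace ℂ (Fin N)) :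
    dt x (y - z) = dt x y - dt x z := by
  simp [dt, mul_sub, Finset.sum_sub_distrib]

private theorem A3c_sub_dt {N : ℕ} (x y z : EuclideanSpace ℂ (Fin N)) :
    dt (x - y) z = dt x z - dt y z := by
  simp [dt, sub_mul, Finset.sum_sub_distrib]

/-- The constant. -/
private noncomputable def A3c_C (L D : ℝ) : ℝ :=
  (12 * D ^ 2 + 2 * L * (8 * D ^ 5 + 2 * D ^ 6)) * D + (3 * D + 4 * L + 3 * D ^ 3) * (2 * D ^ 2) +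
    ((8 * D ^ 5 + 2 * D ^ 6) * (3 / 2) + 4 * D ^ 2) * (2 * L)

/-- The terms without `x`. -/
private theorem A3c_Y {F : Type*} [NormedAddCommGroup F] [NormedSpace ℂ F] {L D γ G : ℝ}
    (hL : 0 ≤ L) (hD : 0 ≤ D) (hγ : 0 ≤ γ) (hG : 0 ≤ G) {p τ k k' r : ℂ} {e e' v : F}
    (hG1 : G ≤ 1) (hr : ‖r‖ ≤ 2 * D ^ 2 * γ * G) (hkt' : ‖k' * τ‖ ≤ 8 * D ^ 5 * γ * G)
    (hkr : ‖k * r‖ ≤ 2 * D ^ 6 * γ * G) (hτ : ‖τ‖ ≤ 2 * L * G) (hp : ‖p‖ ≤ D * G)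
    (hp2 : ‖p‖ ≤ 1 / 2) (hkt : ‖k * τ‖ ≤ 2 * D ^ 3 * G) (hkt2 : ‖k * τ‖ ≤ 1) (he : ‖e‖ ≤ D)
    (hv : ‖v‖ ≤ 2 * L) (he' : ‖e'‖ ≤ 2 * D ^ 2 * γ) :
    ‖(-(r / (1 + p) ^ 2) - (k' * τ - k * r) * τ + (1 + k * τ) * r) • e +
      (-(p * (1 + p)⁻¹) - (1 + k * τ) * τ - p - k * τ * (1 + p)) • e' +
      ((k' * τ - k * r) * (1 + p) + (1 + k * τ) * r) • v‖ ≤ A3c_C L D * γ * G := by
  have h1p : 1 / 2 ≤ ‖1 + p‖ := by
    have h := norm_sub_norm_le (1 : ℂ) (-p)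
    rw [norm_neg, norm_one, sub_neg_eq_add] at h
    linarith
  have h1p0 : 0 < ‖1 + p‖ := by linarith
  have h1p' : ‖1 + p‖ ≤ 3 / 2 := by
    have h := norm_add_le (1 : ℂ) p
    rw [norm_one] at h
    linarith
  have hinv : ‖(1 + p)⁻¹‖ ≤ 2 := by
    rw [norm_inv]
    rw [inv_le_comm₀ h1p0 (by norm_num)]
    linarith
  have h1k : ‖1 + k * τ‖ ≤ 2 := by
    have h := norm_add_le (1 : ℂ) (k * τ)
    rw [norm_one] at h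
    linarith
  have hdiff : ‖k' * τ - k * r‖ ≤ (8 * D ^ 5 + 2 * D ^ 6) * γ * G := by
    refine (norm_sub_le _ _).trans ?_
    calc ‖k' * τ‖ + ‖k * r‖ ≤ 8 * D ^ 5 * γ * G + 2 * D ^ 6 * γ * G := add_le_add hkt' hkr
      _ = _ := by ring
  have hγG : 0 ≤ γ * G := mul_nonneg hγ hG
  have hK : 0 ≤ (8 * D ^ 5 + 2 * D ^ 6) * γ * G := by positivity
  have hτ1 : ‖τ‖ ≤ 2 * L := hτ.trans (by
    have := mul_le_mul_of_nonneg_left hG1 (by positivity : 0 ≤ 2 * L)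
    linarith)
  -- the first coefficient
  have c1 : ‖-(r / (1 + p) ^ 2) - (k' * τ - k * r) * τ + (1 + k * τ) * r‖ ≤
      (12 * D ^ 2 + 2 * L * (8 * D ^ 5 + 2 * D ^ 6)) * γ * G := by
    have e1 : ‖-(r / (1 + p) ^ 2)‖ ≤ 8 * D ^ 2 * γ * G := by
      rw [norm_neg, div_eq_mul_inv, ← inv_pow, norm_mul, norm_pow]
      calc ‖r‖ * ‖(1 + p)⁻¹‖ ^ 2 ≤ (2 * D ^ 2 * γ * G) * 2 ^ 2 := by gcongr
        _ = _ := by ring
    have e2 : ‖(k' * τ - k * r) * τ‖ ≤ (8 * D ^ 5 + 2 * D ^ 6) * γ * G * (2 * L) := by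
      rw [norm_mul]
      gcongr
    have e3 : ‖(1 + k * τ) * r‖ ≤ 4 * D ^ 2 * γ * G := by
      rw [norm_mul]
      calc ‖1 + k * τ‖ * ‖r‖ ≤ 2 * (2 * D ^ 2 * γ * G) := by gcongr
        _ = _ := by ring
    calc ‖-(r / (1 + p) ^ 2) - (k' * τ - k * r) * τ + (1 + k * τ) * r‖
        ≤ ‖-(r / (1 + p) ^ 2)‖ + ‖(k' * τ - k * r) * τ‖ + ‖(1 + k * τ) * r‖ :=
          (norm_add_le _ _).trans (add_le_add_left (norm_sub_le _ _) _)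
      _ ≤ 8 * D ^ 2 * γ * G + (8 * D ^ 5 + 2 * D ^ 6) * γ * G * (2 * L) + 4 * D ^ 2 * γ * G :=
          add_le_add (add_le_add e1 e2) e3
      _ = _ := by ring
  -- the second coefficient
  have c2 : ‖-(p * (1 + p)⁻¹) - (1 + k * τ) * τ - p - k * τ * (1 + p)‖ ≤
      (3 * D + 4 * L + 3 * D ^ 3) * G := by
    have e1 : ‖-(p * (1 + p)⁻¹)‖ ≤ 2 * D * G := by
      rw [norm_neg, norm_mul]
      calc ‖p‖ * ‖(1 + p)⁻¹‖ ≤ (D * G) * 2 := by gcongr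
        _ = _ := by ring
    have e2 : ‖(1 + k * τ) * τ‖ ≤ 4 * L * G := by
      rw [norm_mul]
      calc ‖1 + k * τ‖ * ‖τ‖ ≤ 2 * (2 * L * G) := by gcongr
        _ = _ := by ring
    have e3 : ‖k * τ * (1 + p)‖ ≤ 3 * D ^ 3 * G := by
      rw [norm_mul]
      calc ‖k * τ‖ * ‖1 + p‖ ≤ (2 * D ^ 3 * G) * (3 / 2) := by gcongr
        _ = _ := by ring
    calc ‖-(p * (1 + p)⁻¹) - (1 + k * τ) * τ - p - k * τ * (1 + p)‖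
        ≤ ‖-(p * (1 + p)⁻¹)‖ + ‖(1 + k * τ) * τ‖ + ‖p‖ + ‖k * τ * (1 + p)‖ :=
          (norm_sub_le _ _).trans (add_le_add_left ((norm_sub_le _ _).trans
            (add_le_add_left (norm_sub_le _ _) _)) _)
      _ ≤ 2 * D * G + 4 * L * G + D * G + 3 * D ^ 3 * G :=
          add_le_add (add_le_add (add_le_add e1 e2) hp) e3
      _ = _ := by ring
  -- the third coefficient
  have c3 : ‖(k' * τ - k * r) * (1 + p) + (1 + k * τ) * r‖ ≤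
      ((8 * D ^ 5 + 2 * D ^ 6) * (3 / 2) + 4 * D ^ 2) * γ * G := by
    have e1 : ‖(k' * τ - k * r) * (1 + p)‖ ≤ (8 * D ^ 5 + 2 * D ^ 6) * γ * G * (3 / 2) := by
      rw [norm_mul]
      gcongr
    have e3 : ‖(1 + k * τ) * r‖ ≤ 4 * D ^ 2 * γ * G := by
      rw [norm_mul]
      calc ‖1 + k * τ‖ * ‖r‖ ≤ 2 * (2 * D ^ 2 * γ * G) := by gcongr
        _ = _ := by ring
    calc ‖(k' * τ - k * r) * (1 + p) + (1 + k * τ) * r‖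
        ≤ ‖(k' * τ - k * r) * (1 + p)‖ + ‖(1 + k * τ) * r‖ := norm_add_le _ _
      _ ≤ (8 * D ^ 5 + 2 * D ^ 6) * γ * G * (3 / 2) + 4 * D ^ 2 * γ * G := add_le_add e1 e3
      _ = _ := by ring
  have f1 := mul_le_mul c1 he (norm_nonneg _) (by positivity)
  have f2 := mul_le_mul c2 he' (norm_nonneg _) (by positivity)
  have f3 := mul_le_mul c3 hv (norm_nonneg _) (by positivity)
  refine (norm_add₃_le).trans ?_
  rw [norm_smul, norm_smul, norm_smul]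
  refine (add_le_add (add_le_add f1 f2) f3).trans (le_of_eq ?_)
  unfold A3c_C
  ring

/-- The size of the expression of `D01_Ph` (linear algebra). Here `x = D01 a`, `e' = D01 e`, `k' = D01 k`, `γ ≥ 0` the size of the derivative of the data.
Proof. Let `e = ee c`, `v = a - e`, `p = dt e g`, `τ = dt v g`, `k = 1/(L²‖c‖⁴)`, `w = c + g`. The terms with `x` in the expression are
`X = -(k (x·g) τ + (1 + kτ)(x·g)) e + k (x·g)(1+p) v + (1+kτ)(1+p) x = (1 + kτ) ((1+p) x - (x·g) e) + k (x·g) ((1+p) v - τ e)`, and by `norm_KK` (`dt c x = 0`, `dt c v = 0`, `dt v g = τ`)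
`‖X‖ ≤ (1 + k|τ|) ‖x‖‖w‖/‖c‖ + k ‖x‖‖g‖ ‖v‖‖w‖/‖c‖`, where `‖v‖ = √q ‖c‖ ≤ 2 L ‖c‖`, `|τ| ≤ ‖v‖‖g‖`; so `‖X‖/‖w‖ ≤ (‖x‖/‖c‖)(1 + 2‖g‖/(L‖c‖³) + 2‖g‖/(L‖c‖³))`.
The remaining terms (put `x = 0`) all contain a factor `p`, `τ`, `e'·g` or are of the form: `-(e'·g)(1+p)⁻² e - (k'τ - k e'·g) τ e + (1+kτ)(e'·g) e + ((1+p)⁻¹ - 1 - (1+kτ)τ) e' + ((k'τ - k e'·g)(1+p) + (1+kτ) e'·g) v
+ (1 - (1+kτ)(1+p)) e'` (the two constants `± e'` cancel); each is `≤ C γ ‖g‖` for `‖g‖ ≤ g₀` (`|p| ≤ 1/2`, `‖e'‖ ≤ 2γ/δ₀²`, `|k'| ≤ 4γ/δ₀⁵`). Finally `‖w‖ ≥ δ₀`. -/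
theorem step_lin {L δ₀ : ℝ} (hL : 1 ≤ L) (hδ : 0 < δ₀) : ∃ C g₀ : ℝ, 0 < C ∧ 0 < g₀ ∧
    ∀ (N : ℕ) (c a g x e' : EuclideanSpace ℂ (Fin N)) (k' : ℂ) (γ : ℝ), δ₀ ≤ ‖c‖ → ‖c‖ ≤ 1 →
      δ₀ ≤ ‖c + g‖ → dt c a = 1 → ‖g‖ ≤ g₀ → QQ c a ≤ L ^ 2 + 1 → dt c x = 0 → dt c e' = 0 →
      0 ≤ γ → ‖e'‖ ≤ 2 * γ / ‖c‖ ^ 2 → ‖k'‖ ≤ 4 * (1 / L ^ 2) * γ / ‖c‖ ^ 5 →
      ‖(-(dt e' g / (1 + dt (ee c) g) ^ 2) -
        (k' * dt (a - ee c) g + (((1 / L ^ 2) / ‖c‖ ^ 4 : ℝ) : ℂ) * dt (x - e') g) *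
          dt (a - ee c) g -
        (1 + (((1 / L ^ 2) / ‖c‖ ^ 4 : ℝ) : ℂ) * dt (a - ee c) g) * dt (x - e') g) • ee c +
      ((1 + dt (ee c) g)⁻¹ -
        (1 + (((1 / L ^ 2) / ‖c‖ ^ 4 : ℝ) : ℂ) * dt (a - ee c) g) * dt (a - ee c) g) • e' +
      ((k' * dt (a - ee c) g + (((1 / L ^ 2) / ‖c‖ ^ 4 : ℝ) : ℂ) * dt (x - e') g) *
          (1 + dt (ee c) g) +
        (1 + (((1 / L ^ 2) / ‖c‖ ^ 4 : ℝ) : ℂ) * dt (a - ee c) g) * dt e' g) • (a - ee c) +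
      ((1 + (((1 / L ^ 2) / ‖c‖ ^ 4 : ℝ) : ℂ) * dt (a - ee c) g) * (1 + dt (ee c) g)) •
        (x - e')‖ ≤
      ‖c + g‖ * ((1 + 4 / (L * δ₀ ^ 3) * ‖g‖) * (‖x‖ / ‖c‖) + C * γ * ‖g‖) := by
  have hL0 : 0 < L := by linarith
  set D : ℝ := 1 / δ₀ with hDdef
  have hD0 : 0 < D := by positivity
  have hDδ : D * δ₀ = 1 := by rw [hDdef]; field_simp
  refine ⟨(A3c_C L D + 1) * D, min (δ₀ / 2) (δ₀ ^ 3 / 2), ?_, by positivity, ?_⟩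
  · have : 0 ≤ A3c_C L D := by unfold A3c_C; positivity
    positivity
  intro N c a g x e' k' γ hc hc1 hw hca hg hQ hx he' hγ hE' hK'
  have hδ1 : δ₀ ≤ 1 := hc.trans hc1
  have hcn : 0 < ‖c‖ := lt_of_lt_of_le hδ hc
  have hc0 : c ≠ 0 := norm_pos_iff.mp hcn
  have hD1 : 1 ≤ D := by rw [hDdef, le_div_iff₀ hδ]; linarith
  have hcinv : 1 / ‖c‖ ≤ D := by
    rw [hDdef]
    exact one_div_le_one_div_of_le hδ hc
  have hG0 : 0 ≤ ‖g‖ := norm_nonneg _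
  have hg1 : ‖g‖ ≤ δ₀ / 2 := hg.trans (min_le_left _ _)
  have hg3 : ‖g‖ ≤ δ₀ ^ 3 / 2 := hg.trans (min_le_right _ _)
  have hGle : ‖g‖ ≤ 1 := by linarith
  set e := ee c with hedef
  set v := a - e with hvdef
  set p := dt e g with hpdef
  set τ := dt v g with hτdef
  set kr : ℝ := (1 / L ^ 2) / ‖c‖ ^ 4 with hkrdef
  set k : ℂ := (kr : ℂ) with hkdef
  have hkr0 : 0 ≤ kr := by positivity
  have hknorm : ‖k‖ = kr := by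
    rw [hkdef, Complex.norm_real, Real.norm_of_nonneg hkr0]
  set q := dt x g with hqdef
  set r := dt e' g with hrdef
  have hxe : dt (x - e') g = q - r := A3c_sub_dt _ _ _
  have hen : ‖e‖ = ‖c‖⁻¹ := norm_ee hc0
  have heD : ‖e‖ ≤ D := by rw [hen, ← one_div]; exact hcinv
  have hdv : dt c v = 0 := by
    rw [hvdef, A3c_dt_sub, hca, hedef, dt_ee hc0, sub_self]
  -- the size of `v`
  have hv2 : ‖v‖ ≤ 2 * L * ‖c‖ := by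
    unfold QQ at hQ
    rw [div_le_iff₀ (by positivity)] at hQ
    have h1 : ‖v‖ ^ 2 ≤ (2 * L * ‖c‖) ^ 2 := by
      refine hQ.trans ?_
      have h2 : L ^ 2 + 1 ≤ 4 * L ^ 2 := by nlinarith
      calc (L ^ 2 + 1) * ‖c‖ ^ 2 ≤ (4 * L ^ 2) * ‖c‖ ^ 2 := by gcongr
        _ = _ := by ring
    exact (pow_le_pow_iff_left₀ (norm_nonneg _) (by positivity) two_ne_zero).mp h1
  have hvL : ‖v‖ ≤ 2 * L := hv2.trans (by
    have := mul_le_mul_of_nonneg_left hc1 (by positivity : 0 ≤ 2 * L)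
    linarith)
  have hpn : ‖p‖ ≤ ‖e‖ * ‖g‖ := norm_dt_le _ _
  have hτn : ‖τ‖ ≤ ‖v‖ * ‖g‖ := norm_dt_le _ _
  have hqn : ‖q‖ ≤ ‖x‖ * ‖g‖ := norm_dt_le _ _
  have hrn : ‖r‖ ≤ ‖e'‖ * ‖g‖ := norm_dt_le _ _
  have hpD : ‖p‖ ≤ D * ‖g‖ := hpn.trans (by gcongr)
  have hp2 : ‖p‖ ≤ 1 / 2 := by
    refine hpD.trans ?_
    calc D * ‖g‖ ≤ D * (δ₀ / 2) := by gcongr
      _ = (D * δ₀) / 2 := by ring
      _ = 1 / 2 := by rw [hDδ]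
  have hτ2 : ‖τ‖ ≤ 2 * L * ‖g‖ := hτn.trans (by gcongr)
  -- `k τ`
  have hLinv : 1 / L ≤ 1 := by rw [div_le_one hL0]; exact hL
  have hkv : kr * ‖v‖ ≤ 2 / (L * ‖c‖ ^ 3) := by
    calc kr * ‖v‖ ≤ kr * (2 * L * ‖c‖) := by gcongr
      _ = 2 / (L * ‖c‖ ^ 3) := by rw [hkrdef]; field_simp
  have hkτ : ‖k * τ‖ ≤ 2 / (L * ‖c‖ ^ 3) * ‖g‖ := by
    rw [norm_mul, hknorm]
    calc kr * ‖τ‖ ≤ kr * (‖v‖ * ‖g‖) := by gcongr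
      _ = kr * ‖v‖ * ‖g‖ := by ring
      _ ≤ _ := by gcongr
  have hLc : 2 / (L * ‖c‖ ^ 3) ≤ 2 / (L * δ₀ ^ 3) := by gcongr
  have hLc2 : 2 / (L * δ₀ ^ 3) ≤ 2 * D ^ 3 := by
    have : 2 / (L * δ₀ ^ 3) = (1 / L) * (2 * D ^ 3) := by rw [hDdef]; field_simp
    rw [this]
    calc (1 / L) * (2 * D ^ 3) ≤ 1 * (2 * D ^ 3) := by gcongr
      _ = _ := one_mul _
  have hkτD : ‖k * τ‖ ≤ 2 * D ^ 3 * ‖g‖ :=
    hkτ.trans (mul_le_mul_of_nonneg_right (hLc.trans hLc2) hG0)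
  have hkτ1 : ‖k * τ‖ ≤ 1 := by
    refine hkτD.trans ?_
    calc 2 * D ^ 3 * ‖g‖ ≤ 2 * D ^ 3 * (δ₀ ^ 3 / 2) := by gcongr
      _ = (D * δ₀) ^ 3 := by ring
      _ = 1 := by rw [hDδ, one_pow]
  -- `e'`, `r`, `k'`
  have hE2 : ‖e'‖ ≤ 2 * D ^ 2 * γ := by
    refine hE'.trans ?_
    calc 2 * γ / ‖c‖ ^ 2 = 2 * (1 / ‖c‖) ^ 2 * γ := by field_simp
      _ ≤ 2 * D ^ 2 * γ := by gcongr
  have hr2 : ‖r‖ ≤ 2 * D ^ 2 * γ * ‖g‖ := hrn.trans (by gcongr)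
  have hkr4 : kr ≤ D ^ 4 := by
    calc kr = (1 / L) ^ 2 * (1 / ‖c‖) ^ 4 := by rw [hkrdef]; field_simp
      _ ≤ 1 ^ 2 * D ^ 4 := by gcongr
      _ = D ^ 4 := by ring
  have hkr2 : ‖k * r‖ ≤ 2 * D ^ 6 * γ * ‖g‖ := by
    rw [norm_mul, hknorm]
    calc kr * ‖r‖ ≤ D ^ 4 * (2 * D ^ 2 * γ * ‖g‖) := by gcongr
      _ = _ := by ring
  have hk'τ : ‖k' * τ‖ ≤ 8 * D ^ 5 * γ * ‖g‖ := by
    rw [norm_mul]
    calc ‖k'‖ * ‖τ‖ ≤ (4 * (1 / L ^ 2) * γ / ‖c‖ ^ 5) * (2 * L * ‖g‖) := by gcongr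
      _ = 8 * (1 / L) * (1 / ‖c‖) ^ 5 * γ * ‖g‖ := by field_simp; ring
      _ ≤ 8 * 1 * D ^ 5 * γ * ‖g‖ := by gcongr
      _ = _ := by ring
  have hY := A3c_Y (F := EuclideanSpace ℂ (Fin N)) hL0.le hD0.le hγ hG0 hGle hr2 hk'τ hkr2 hτ2
    hpD hp2 hkτD hkτ1 heD hvL hE2
  -- the terms with `x`
  have hX1 := norm_KK (g := g) hc0 hx
  have hX2 := norm_KK (g := g) hc0 hdv
  rw [← hedef] at hX1 hX2
  have hw0 : 0 < ‖c + g‖ := lt_of_lt_of_le hδ hw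
  have hX : ‖(1 + k * τ) • ((1 + p) • x - q • e) + (k * q) • ((1 + p) • v - τ • e)‖ ≤
      ‖c + g‖ * ((1 + 4 / (L * δ₀ ^ 3) * ‖g‖) * (‖x‖ / ‖c‖)) := by
    refine (norm_add_le _ _).trans ?_
    rw [norm_smul, norm_smul]
    have h1 : ‖1 + k * τ‖ ≤ 1 + 2 / (L * δ₀ ^ 3) * ‖g‖ := by
      refine (norm_add_le _ _).trans ?_
      rw [norm_one]
      exact add_le_add_right (hkτ.trans (mul_le_mul_of_nonneg_right hLc hG0)) _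
    have h2 : ‖k * q‖ ≤ kr * (‖x‖ * ‖g‖) := by
      rw [norm_mul, hknorm]
      gcongr
    calc ‖1 + k * τ‖ * ‖(1 + p) • x - q • e‖ + ‖k * q‖ * ‖(1 + p) • v - τ • e‖
        ≤ (1 + 2 / (L * δ₀ ^ 3) * ‖g‖) * (‖x‖ * ‖c + g‖ / ‖c‖) +
          (kr * (‖x‖ * ‖g‖)) * (‖v‖ * ‖c + g‖ / ‖c‖) := by
          refine add_le_add (mul_le_mul h1 hX1 (norm_nonneg _) (by positivity))
            (mul_le_mul h2 hX2 (norm_nonneg _) (by positivity))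
      _ = ‖c + g‖ * ((1 + 2 / (L * δ₀ ^ 3) * ‖g‖ + (kr * ‖v‖) * ‖g‖) * (‖x‖ / ‖c‖)) := by ring
      _ ≤ ‖c + g‖ * ((1 + 2 / (L * δ₀ ^ 3) * ‖g‖ + 2 / (L * δ₀ ^ 3) * ‖g‖) * (‖x‖ / ‖c‖)) := by
          have := hkv.trans hLc
          gcongr
      _ = _ := by ring
  have hsplit : (-(r / (1 + p) ^ 2) - (k' * τ + k * (q - r)) * τ - (1 + k * τ) * (q - r)) • e +
      ((1 + p)⁻¹ - (1 + k * τ) * τ) • e' +
      ((k' * τ + k * (q - r)) * (1 + p) + (1 + k * τ) * r) • v +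
      ((1 + k * τ) * (1 + p)) • (x - e') =
      ((1 + k * τ) • ((1 + p) • x - q • e) + (k * q) • ((1 + p) • v - τ • e)) +
      ((-(r / (1 + p) ^ 2) - (k' * τ - k * r) * τ + (1 + k * τ) * r) • e +
      (-(p * (1 + p)⁻¹) - (1 + k * τ) * τ - p - k * τ * (1 + p)) • e' +
      ((k' * τ - k * r) * (1 + p) + (1 + k * τ) * r) • v) := by
    have h1p : (1 + p) ≠ 0 := by
      intro h0
      have : p = -1 := by linear_combination h0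
      rw [this, norm_neg, norm_one] at hp2
      norm_num at hp2
    have hp' : -(p * (1 + p)⁻¹) = (1 + p)⁻¹ - 1 := by
      field_simp
      ring
    rw [hp']
    module
  rw [hxe, hsplit]
  refine (norm_add_le _ _).trans ?_
  refine (add_le_add hX hY).trans ?_
  rw [mul_add]
  refine add_le_add_right ?_ _
  have hC0 : 0 ≤ A3c_C L D := by unfold A3c_C; positivity
  have hDw : 1 ≤ D * ‖c + g‖ := by
    calc 1 = D * δ₀ := hDδ.symm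
      _ ≤ D * ‖c + g‖ := by gcongr
  calc A3c_C L D * γ * ‖g‖ = (A3c_C L D * γ * ‖g‖) * 1 := (mul_one _).symm
    _ ≤ ((A3c_C L D + 1) * γ * ‖g‖) * (D * ‖c + g‖) := by
        refine mul_le_mul ?_ hDw zero_le_one (by positivity)
        gcongr
        linarith
    _ = ‖c + g‖ * ((A3c_C L D + 1) * D * γ * ‖g‖) := by ring

end Pool.Agent.MPca0fc2.TE
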