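import Mathlib
import Pool.Agent.Lib.MP_ca0fc2_an.TE.A3
import Pool.Agent.Lib.MP_ca0fc2_an.TE.A3b
import Pool.Agent.Lib.MP_ca0fc2_an.TE.A3c

set_option autoImplicit false
set_option linter.unusedSectionVars false

open Metric Set MeasureTheory Filter Topology
open scoped InnerProductSpace ENNReal ContDiff

namespace Pool.Agent.MPca0fc2.TE

open Pool.Agent.MPca0fc2.PT
open Pool.Agent.MPca0fc2.QT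
open Pool.Agent.MPca0fc2.TS

variable {E : Type*} [NormedAddCommGroup E] [InnerProductSpace ℂ E]

/-- The `∂̄` of one step of the transport. Proof. `D01_Ph` with `e = ee ∘ f₀`, `g = f₁ - f₀`, `k = (1/L²)/‖f₀‖⁴` (so that `Stp (1/L²) (f₀ y) (a y) (f₁ y - f₀ y) = Ph ...` by definition), `D01_ee`, `D01_kk`, `dt_D01`
and `step_lin` with `x = D01 a z ξ`, `γ = ‖fderiv ℂ f₀ z ξ‖`; `c + g = f₁ z`. (`1 + dt (ee c) g ≠ 0` since `|dt (ee c) g| ≤ ‖g‖/δ₀ < 1`; decrease `g₀`.) -/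
theorem D01_step {L δ₀ : ℝ} (hL : 1 ≤ L) (hδ : 0 < δ₀) : ∃ C g₀ : ℝ, 0 < C ∧ 0 < g₀ ∧
    ∀ (N : ℕ) (f₀ f₁ a : E → EuclideanSpace ℂ (Fin N)) (z : E), DifferentiableAt ℂ f₀ z →
      DifferentiableAt ℂ f₁ z → DifferentiableAt ℝ a z → (∀ᶠ y in 𝓝 z, dt (f₀ y) (a y) = 1) →
      δ₀ ≤ ‖f₀ z‖ → ‖f₀ z‖ ≤ 1 → δ₀ ≤ ‖f₁ z‖ → ‖f₁ z - f₀ z‖ ≤ g₀ →
      QQ (f₀ z) (a z) ≤ L ^ 2 + 1 → ∀ ξ : E,
      ‖D01 (fun y => Stp (1 / L ^ 2) (f₀ y) (a y) (f₁ y - f₀ y)) z ξ‖ ≤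
        ‖f₁ z‖ * ((1 + 4 / (L * δ₀ ^ 3) * ‖f₁ z - f₀ z‖) * (‖D01 a z ξ‖ / ‖f₀ z‖) +
          C * ‖fderiv ℂ f₀ z ξ‖ * ‖f₁ z - f₀ z‖) := by
  obtain ⟨C, g₁, hC, hg₁, H⟩ := step_lin (L := L) (δ₀ := δ₀) hL hδ
  refine ⟨C, min g₁ (δ₀ / 2), hC, lt_min hg₁ (half_pos hδ), ?_⟩
  intro N f₀ f₁ a z hf₀ hf₁ ha hsol h0 h0' h1 hg hQ ξ
  have hg1 : ‖f₁ z - f₀ z‖ ≤ g₁ := hg.trans (min_le_left _ _)
  have hg2 : ‖f₁ z - f₀ z‖ ≤ δ₀ / 2 := hg.trans (min_le_right _ _)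
  have hn0 : 0 < ‖f₀ z‖ := lt_of_lt_of_le hδ h0
  have hne : f₀ z ≠ 0 := norm_pos_iff.1 hn0
  have hp : 1 + dt (ee (f₀ z)) (f₁ z - f₀ z) ≠ 0 := by
    intro h
    have h2 : dt (ee (f₀ z)) (f₁ z - f₀ z) = -1 := by
      rw [add_comm] at h
      exact eq_neg_of_add_eq_zero_left h
    have h3 := norm_dt_le (ee (f₀ z)) (f₁ z - f₀ z)
    rw [h2, norm_neg, norm_one, norm_ee hne] at h3
    have h4 : ‖f₀ z‖⁻¹ * ‖f₁ z - f₀ z‖ ≤ 1 / 2 := by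
      rw [inv_mul_le_iff₀ hn0]
      linarith
    linarith
  have hκ : (0 : ℝ) < 1 / L ^ 2 := by positivity
  obtain ⟨hed, hee⟩ := D01_ee hf₀ hne
  obtain ⟨hkd, hkk⟩ := D01_kk hκ hf₀ hne
  obtain ⟨he1, he2⟩ := hee ξ
  have hx : dt (f₀ z) (D01 a z ξ) = 0 := dt_D01 hf₀ ha hsol ξ
  have ha1 : dt (f₀ z) (a z) = 1 := hsol.self_of_nhds
  have hcg : f₀ z + (f₁ z - f₀ z) = f₁ z := by abel
  have key := H N (f₀ z) (a z) (f₁ z - f₀ z) (D01 a z ξ) (D01 (fun y => ee (f₀ y)) z ξ)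
    (D01 (fun y => (((1 / L ^ 2) / ‖f₀ y‖ ^ 4 : ℝ) : ℂ)) z ξ) ‖fderiv ℂ f₀ z ξ‖ h0 h0'
    (by rw [hcg]; exact h1) ha1 hg1 hQ hx he2 (norm_nonneg _) he1 (hkk ξ)
  rw [hcg] at key
  have hPh := D01_Ph (e := fun y => ee (f₀ y)) (a := a) (g := fun y => f₁ y - f₀ y)
    (k := fun y => (((1 / L ^ 2) / ‖f₀ y‖ ^ 4 : ℝ) : ℂ)) hed ha (hf₁.sub hf₀) hkd hp ξ
  have hfun : (fun y => Stp (1 / L ^ 2) (f₀ y) (a y) (f₁ y - f₀ y)) =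
      fun y => Ph (ee (f₀ y)) (a y) (f₁ y - f₀ y) (((1 / L ^ 2) / ‖f₀ y‖ ^ 4 : ℝ) : ℂ) := rfl
  rw [hfun, hPh]
  exact key

end Pool.Agent.MPca0fc2.TE
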