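import Mathlib
import Pool.Agent.Lib.MP_ca0fc2_an.Mg.G122

set_option autoImplicit false
set_option linter.unusedSectionVars false

open Metric Set MeasureTheory Filter Topology
open scoped InnerProductSpace ENNReal ContDiff

namespace Pool.Agent.MPca0fc2.TE

open Pool.Agent.MPca0fc2.PT
open Pool.Agent.MPca0fc2.QT
open Pool.Agent.MPca0fc2.TS

/-- The ratio step of the supersolution. -/
private theorem A7_ratio {r t h : ℝ} (hr0 : 0 ≤ r) (hr1 : r < 1) (ht : 0 ≤ t) (hh : 0 < h)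
    (hth : t + h ≤ 1) :
    ((1 - t ^ 2 * r ^ 2) / (1 - r ^ 2)) ^ (-(1 / 8) : ℝ) * Real.exp t *
      (1 + h / (4 * (1 - t ^ 2 * r ^ 2))) ≤
    ((1 - (t + h) ^ 2 * r ^ 2) / (1 - r ^ 2)) ^ (-(1 / 8) : ℝ) * Real.exp (t + h) := by
  have hr2 : r ^ 2 < 1 := by nlinarith
  have hr2' : 0 ≤ r ^ 2 := by positivity
  have hR : 0 < 1 - r ^ 2 := by linarith
  have ht1 : t ≤ 1 := by linarith
  have ht2 : t ^ 2 ≤ 1 := by nlinarith
  have hs2 : (t + h) ^ 2 ≤ 1 := by nlinarith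
  have hD : 0 < 1 - t ^ 2 * r ^ 2 := by nlinarith
  have hD' : 0 < 1 - (t + h) ^ 2 * r ^ 2 := by nlinarith
  set D : ℝ := 1 - t ^ 2 * r ^ 2 with hDdef
  set D' : ℝ := 1 - (t + h) ^ 2 * r ^ 2 with hD'def
  have hlog : t * h * r ^ 2 / (4 * D) ≤ 1 / 8 * Real.log (D / D') := by
    have h1 : Real.log (D' / D) ≤ D' / D - 1 := Real.log_le_sub_one_of_pos (div_pos hD' hD)
    have h2 : Real.log (D / D') = - Real.log (D' / D) := by
      rw [← Real.log_inv, inv_div]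
    rw [h2]
    have h3 : D' / D - 1 = - ((2 * t * h + h ^ 2) * r ^ 2 / D) := by
      field_simp
      rw [hDdef, hD'def]
      ring
    rw [h3] at h1
    have h4 : t * h * r ^ 2 / (4 * D) = 1 / 8 * (2 * t * h * r ^ 2 / D) := by
      field_simp
      ring
    rw [h4]
    have h5 : 2 * t * h * r ^ 2 / D ≤ (2 * t * h + h ^ 2) * r ^ 2 / D := by
      apply div_le_div_of_nonneg_right _ hD.le
      nlinarith [mul_nonneg (sq_nonneg h) hr2']
    linarith
  have hexp : 1 + h / (4 * D) ≤ Real.exp h * (D / D') ^ (1 / 8 : ℝ) := by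
    have h1 : (D / D') ^ (1 / 8 : ℝ) = Real.exp (1 / 8 * Real.log (D / D')) := by
      rw [Real.rpow_def_of_pos (div_pos hD hD')]
      ring_nf
    rw [h1, ← Real.exp_add]
    have h2 : h + t * h * r ^ 2 / (4 * D) + 1 ≤
        Real.exp (h + 1 / 8 * Real.log (D / D')) := by
      have := Real.add_one_le_exp (h + 1 / 8 * Real.log (D / D'))
      linarith
    refine le_trans ?_ h2
    have h3 : h / (4 * D) ≤ h + t * h * r ^ 2 / (4 * D) := by
      rw [div_le_iff₀ (by positivity)]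
      have h4 : (h + t * h * r ^ 2 / (4 * D)) * (4 * D) = h * (4 * D + t * r ^ 2) := by
        field_simp
      rw [h4]
      have h5 : 1 ≤ 4 * D + t * r ^ 2 := by
        have h6 : t ^ 2 * r ^ 2 ≤ t * r ^ 2 := by
          apply mul_le_mul_of_nonneg_right _ hr2'
          nlinarith
        rw [hDdef]
        nlinarith
      nlinarith
    linarith
  have hu : 0 < D / (1 - r ^ 2) := div_pos hD hR
  have hu' : 0 < D' / (1 - r ^ 2) := div_pos hD' hR
  have hrel : (D' / (1 - r ^ 2)) ^ (-(1 / 8) : ℝ) =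
      (D / (1 - r ^ 2)) ^ (-(1 / 8) : ℝ) * (D / D') ^ (1 / 8 : ℝ) := by
    have h1 : D' / (1 - r ^ 2) = (D / (1 - r ^ 2)) * (D / D')⁻¹ := by
      field_simp
    rw [h1, Real.mul_rpow hu.le (by positivity), Real.inv_rpow (by positivity),
      Real.rpow_neg (div_pos hD hD').le, inv_inv]
  rw [hrel, Real.exp_add]
  have hb : 0 ≤ (D / (1 - r ^ 2)) ^ (-(1 / 8) : ℝ) * Real.exp t := by positivity
  calc (D / (1 - r ^ 2)) ^ (-(1 / 8) : ℝ) * Real.exp t * (1 + h / (4 * D))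
      ≤ (D / (1 - r ^ 2)) ^ (-(1 / 8) : ℝ) * Real.exp t *
        (Real.exp h * (D / D') ^ (1 / 8 : ℝ)) := mul_le_mul_of_nonneg_left hexp hb
    _ = (D / (1 - r ^ 2)) ^ (-(1 / 8) : ℝ) * (D / D') ^ (1 / 8 : ℝ) *
        (Real.exp t * Real.exp h) := by ring

/-- Discrete supersolution for the `∂̄` of the transport. `u t = (1 - t²r²)/(1 - r²) ≥ 1`, `t_i = i/K`.
Proof. Put `β t = (u t)^(-1/8) * exp t` on `[0,1]`. `β' = β (1 + t r²/(4(1 - t²r²))) ≥ β/(4(1 - t²r²))` since `4(1 - t²r²) + t r² ≥ 4 - 3t²r² ≥ 1`; `β` and `1/(1 - t²r²)` increase, so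
`β (t + 1/K) ≥ β t (1 + 1/(4K(1 - t²r²)))` (mean value theorem). Let `B i = 8 C₁ c² S G β (t_i)`. Claim `y i ≤ B i` by induction: with `a = 1/(K (1 - t_i² r²))`,
`(1 + ε₀ γ_i) y_i + C₁ σ_i γ_i ≤ (1 + a/8) B_i + C₁ c² a S G (u t_i)^(1/8 + 1/8 - 1/2)`, where `ε₀ γ_i ≤ ε₀ c a ≤ a/8`, and `(u)^(-1/4) ≤ (u)^(-1/8) ≤ β`, so the last term is `≤ (a/8) B_i`: total `≤ (1 + a/4) B_i ≤ B_(i+1)`.
At `i = K`: `u = 1`, `β = e`. (`√S * √S = S`.) -/
theorem supersol {r c ε₀ C₁ : ℝ} (hr0 : 0 ≤ r) (hr1 : r < 1) (hc : 0 < c) (hε : 0 ≤ ε₀)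
    (hC₁ : 0 < C₁) (hsmall : ε₀ * c ≤ 1 / 8) {K : ℕ} (hK : 0 < K) {S G : ℝ} (hS : 0 ≤ S)
    (hG : 0 ≤ G) {y γ σ : ℕ → ℝ} (y0 : y 0 = 0) (hy : ∀ i, 0 ≤ y i) (hγ : ∀ i, 0 ≤ γ i)
    (hσ : ∀ i, 0 ≤ σ i)
    (h1 : ∀ i < K, γ i ≤ c / (K * (1 - ((i : ℝ) / K) ^ 2 * r ^ 2)))
    (h2 : ∀ i < K, γ i ≤ c / (K * (1 - ((i : ℝ) / K) ^ 2 * r ^ 2)) *
      (Real.sqrt S * ((1 - ((i : ℝ) / K) ^ 2 * r ^ 2) / (1 - r ^ 2)) ^ (1 / 8 : ℝ)))
    (h3 : ∀ i < K, σ i ≤ c * (Real.sqrt S *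
      ((1 - ((i : ℝ) / K) ^ 2 * r ^ 2) / (1 - r ^ 2)) ^ (1 / 8 - 1 / 2 : ℝ)) * G)
    (h4 : ∀ i < K, y (i + 1) ≤ (1 + ε₀ * γ i) * y i + C₁ * σ i * γ i) :
    y K ≤ 8 * C₁ * c ^ 2 * Real.exp 1 * (S * G) := by
  have hr2 : r ^ 2 < 1 := by nlinarith
  have hr2' : 0 ≤ r ^ 2 := by positivity
  have hR : 0 < 1 - r ^ 2 := by linarith
  have hKr : (0 : ℝ) < K := by exact_mod_cast hK
  have hW : 0 ≤ 8 * C₁ * c ^ 2 * (S * G) := by positivity
  have key : ∀ i : ℕ, i ≤ K → y i ≤ 8 * C₁ * c ^ 2 * (S * G) *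
      (((1 - ((i : ℝ) / K) ^ 2 * r ^ 2) / (1 - r ^ 2)) ^ (-(1 / 8) : ℝ) *
        Real.exp ((i : ℝ) / K)) := by
    intro i
    induction i with
    | zero =>
      intro _
      rw [y0]
      apply mul_nonneg hW
      apply mul_nonneg _ (Real.exp_pos _).le
      apply Real.rpow_nonneg
      simp only [Nat.cast_zero, zero_div]
      apply div_nonneg _ hR.le
      norm_num
    | succ i ih =>
      intro hi
      have hiK : i < K := hi
      have ih' := ih hiK.le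
      set t : ℝ := (i : ℝ) / K with htdef
      have ht0 : 0 ≤ t := by positivity
      have hstep : ((i + 1 : ℕ) : ℝ) / K = t + 1 / K := by
        rw [htdef]
        push_cast
        ring
      have hth : t + 1 / K ≤ 1 := by
        rw [← hstep, div_le_one hKr]
        exact_mod_cast hi
      have ht1 : t ≤ 1 := by
        have : (0 : ℝ) < 1 / K := by positivity
        linarith
      have ht2 : t ^ 2 ≤ 1 := by nlinarith
      have hD : 0 < 1 - t ^ 2 * r ^ 2 := by nlinarith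
      have hrat := A7_ratio hr0 hr1 ht0 (by positivity : (0 : ℝ) < 1 / K) hth
      rw [hstep]
      have e1 := h1 i hiK
      have e2 := h2 i hiK
      have e3 := h3 i hiK
      have e4 := h4 i hiK
      rw [← htdef] at e1 e2 e3
      set D : ℝ := 1 - t ^ 2 * r ^ 2 with hDdef
      set u : ℝ := D / (1 - r ^ 2) with hudef
      have hu1 : 1 ≤ u := by
        rw [hudef, le_div_iff₀ hR, hDdef]
        nlinarith
      have hu0 : 0 < u := by linarith
      set a : ℝ := 1 / (K * D) with hadef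
      have ha : 0 < a := by positivity
      have hca : c / (K * D) = c * a := by
        rw [hadef]; ring
      have h4D : 1 / (K : ℝ) / (4 * D) = a / 4 := by
        rw [hadef]; field_simp
      rw [h4D] at hrat
      rw [hca] at e1 e2
      set b : ℝ := u ^ (-(1 / 8) : ℝ) * Real.exp t with hbdef
      have hb0 : 0 < b := by positivity
      have hsS : Real.sqrt S * Real.sqrt S = S := Real.mul_self_sqrt hS
      have hub : u ^ (-(1 / 4) : ℝ) ≤ b := by
        have h5 : u ^ (-(1 / 4) : ℝ) ≤ u ^ (-(1 / 8) : ℝ) :=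
          Real.rpow_le_rpow_of_exponent_le hu1 (by norm_num)
        have h6 : 1 ≤ Real.exp t := Real.one_le_exp ht0
        have h7 : 0 ≤ u ^ (-(1 / 8) : ℝ) := by positivity
        rw [hbdef]
        nlinarith
      have hprod : C₁ * σ i * γ i ≤ C₁ * c ^ 2 * a * (S * G) * u ^ (-(1 / 4) : ℝ) := by
        have h5 : σ i * γ i ≤ (c * (Real.sqrt S * u ^ (1 / 8 - 1 / 2 : ℝ)) * G) *
            (c * a * (Real.sqrt S * u ^ (1 / 8 : ℝ))) := by
          apply mul_le_mul e3 e2 (hγ i)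
          positivity
        have h6 : (c * (Real.sqrt S * u ^ (1 / 8 - 1 / 2 : ℝ)) * G) *
            (c * a * (Real.sqrt S * u ^ (1 / 8 : ℝ))) =
            c ^ 2 * a * ((Real.sqrt S * Real.sqrt S) * G) *
              (u ^ (1 / 8 - 1 / 2 : ℝ) * u ^ (1 / 8 : ℝ)) := by ring
        have h7 : u ^ (1 / 8 - 1 / 2 : ℝ) * u ^ (1 / 8 : ℝ) = u ^ (-(1 / 4) : ℝ) := by
          rw [← Real.rpow_add hu0]
          norm_num
        rw [h6, h7, hsS] at h5
        calc C₁ * σ i * γ i = C₁ * (σ i * γ i) := by ring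
          _ ≤ C₁ * (c ^ 2 * a * (S * G) * u ^ (-(1 / 4) : ℝ)) :=
            mul_le_mul_of_nonneg_left h5 hC₁.le
          _ = _ := by ring
      have hepsg : ε₀ * γ i ≤ a / 8 := by
        calc ε₀ * γ i ≤ ε₀ * (c * a) := mul_le_mul_of_nonneg_left e1 hε
          _ = ε₀ * c * a := by ring
          _ ≤ 1 / 8 * a := mul_le_mul_of_nonneg_right hsmall ha.le
          _ = a / 8 := by ring
      have hfirst : (1 + ε₀ * γ i) * y i ≤ (1 + a / 8) * (8 * C₁ * c ^ 2 * (S * G) * b) := by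
        apply mul_le_mul _ ih' (hy i) (by positivity)
        linarith
      have hsecond : C₁ * σ i * γ i ≤ a / 8 * (8 * C₁ * c ^ 2 * (S * G) * b) := by
        refine hprod.trans ?_
        have h8 : C₁ * c ^ 2 * a * (S * G) * u ^ (-(1 / 4) : ℝ) ≤
            C₁ * c ^ 2 * a * (S * G) * b := by
          apply mul_le_mul_of_nonneg_left hub
          positivity
        refine h8.trans (le_of_eq ?_)
        ring
      calc y (i + 1) ≤ (1 + ε₀ * γ i) * y i + C₁ * σ i * γ i := e4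
        _ ≤ (1 + a / 8) * (8 * C₁ * c ^ 2 * (S * G) * b) +
            a / 8 * (8 * C₁ * c ^ 2 * (S * G) * b) := add_le_add hfirst hsecond
        _ = 8 * C₁ * c ^ 2 * (S * G) * (b * (1 + a / 4)) := by ring
        _ ≤ _ := mul_le_mul_of_nonneg_left hrat hW
  have hK' := key K le_rfl
  have hone : (K : ℝ) / K = 1 := div_self hKr.ne'
  rw [hone] at hK'
  have hu : (1 - (1 : ℝ) ^ 2 * r ^ 2) / (1 - r ^ 2) = 1 := by
    rw [one_pow, one_mul]
    exact div_self hR.ne'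
  rw [hu, Real.one_rpow, one_mul] at hK'
  calc y K ≤ 8 * C₁ * c ^ 2 * (S * G) * Real.exp 1 := hK'
    _ = _ := by ring

end Pool.Agent.MPca0fc2.TE
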