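import Mathlib
import Pool.Agent.Lib.MP_ca0fc2_an.TE.A1

set_option autoImplicit false
set_option linter.unusedSectionVars false

open Metric Set MeasureTheory Filter Topology
open scoped InnerProductSpace ENNReal ContDiff

namespace Pool.Agent.MPca0fc2.TE

open Pool.Agent.MPca0fc2.PT
open Pool.Agent.MPca0fc2.QT
open Pool.Agent.MPca0fc2.TS

private theorem A2a_w {p τ : ℂ} {k K x a b : ℝ} (hp : ‖p‖ ≤ a * x) (hτ : ‖τ‖ ≤ b * x) (hx : 0 ≤ x)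
    (hx1 : x ≤ 1) (ha : 0 ≤ a) (hb : 0 ≤ b) (hax : a * x ≤ 1 / 2) (habx : (a + b) * x ≤ 1)
    (hk : 0 ≤ k) (hkK : k ≤ K) :
    ‖(1 + p)⁻¹ - (1 + (k : ℂ) * τ) * τ‖ ^ 2 ≤ 1 - 2 * (p.re + τ.re) +
      ((a + b) ^ 2 + 4 * (2 * a ^ 2 + K * b ^ 2) + (2 * a ^ 2 + K * b ^ 2) ^ 2) * x ^ 2 := by
  have hK : 0 ≤ K := hk.trans hkK
  have hp1 : ‖p‖ ≤ 1 / 2 := hp.trans hax
  have h1p : 1 / 2 ≤ ‖1 + p‖ := by
    have h := norm_sub_norm_le (1 : ℂ) (-p)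
    rw [norm_neg, norm_one, sub_neg_eq_add] at h
    linarith
  have hne : (1 + p) ≠ 0 := by
    intro h
    rw [h, norm_zero] at h1p
    linarith
  have hinv : ‖(1 + p)⁻¹‖ ≤ 2 := by
    rw [norm_inv]
    have h := inv_anti₀ (by norm_num : (0 : ℝ) < 1 / 2) h1p
    linarith
  have hρ : (1 + p)⁻¹ = 1 - p + p ^ 2 * (1 + p)⁻¹ := by
    field_simp
    ring
  set r : ℂ := p ^ 2 * (1 + p)⁻¹ - (k : ℂ) * τ ^ 2 with hr
  have hw : (1 + p)⁻¹ - (1 + (k : ℂ) * τ) * τ = (1 - (p + τ)) + r := by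
    rw [hr]
    linear_combination hρ
  have hrn : ‖r‖ ≤ (2 * a ^ 2 + K * b ^ 2) * x ^ 2 := by
    have h1 : ‖p ^ 2 * (1 + p)⁻¹‖ ≤ (a * x) ^ 2 * 2 := by
      rw [norm_mul, norm_pow]
      exact mul_le_mul (pow_le_pow_left₀ (norm_nonneg _) hp 2) hinv (norm_nonneg _) (sq_nonneg _)
    have h2 : ‖(k : ℂ) * τ ^ 2‖ ≤ K * (b * x) ^ 2 := by
      rw [norm_mul, norm_pow, Complex.norm_real, Real.norm_eq_abs, abs_of_nonneg hk]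
      exact mul_le_mul hkK (pow_le_pow_left₀ (norm_nonneg _) hτ 2) (sq_nonneg _) hK
    calc ‖r‖ ≤ ‖p ^ 2 * (1 + p)⁻¹‖ + ‖(k : ℂ) * τ ^ 2‖ := norm_sub_le _ _
      _ ≤ (a * x) ^ 2 * 2 + K * (b * x) ^ 2 := add_le_add h1 h2
      _ = (2 * a ^ 2 + K * b ^ 2) * x ^ 2 := by ring
  have hpt : ‖p + τ‖ ≤ (a + b) * x := by
    calc ‖p + τ‖ ≤ ‖p‖ + ‖τ‖ := norm_add_le _ _
      _ ≤ a * x + b * x := add_le_add hp hτ
      _ = (a + b) * x := by ring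
  have hu : ‖1 - (p + τ)‖ ≤ 2 := by
    calc ‖1 - (p + τ)‖ ≤ ‖(1 : ℂ)‖ + ‖p + τ‖ := norm_sub_le _ _
      _ ≤ 1 + (a + b) * x := by rw [norm_one]; linarith
      _ ≤ 2 := by linarith
  have hu2 : ‖1 - (p + τ)‖ ^ 2 = 1 - 2 * (p.re + τ.re) + ‖p + τ‖ ^ 2 := by
    rw [← Complex.normSq_eq_norm_sq, ← Complex.normSq_eq_norm_sq, Complex.normSq_apply,
      Complex.normSq_apply]
    simp only [Complex.sub_re, Complex.sub_im, Complex.one_re, Complex.one_im, Complex.add_re,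
      Complex.add_im]
    ring
  have hR : 0 ≤ 2 * a ^ 2 + K * b ^ 2 := by positivity
  set R : ℝ := 2 * a ^ 2 + K * b ^ 2 with hRdef
  have hx2 : x ^ 2 ≤ 1 := by nlinarith
  have e1 : ‖(1 - (p + τ)) + r‖ ^ 2 ≤ (‖1 - (p + τ)‖ + ‖r‖) ^ 2 :=
    pow_le_pow_left₀ (norm_nonneg _) (norm_add_le _ _) 2
  have e2 : ‖p + τ‖ ^ 2 ≤ ((a + b) * x) ^ 2 := pow_le_pow_left₀ (norm_nonneg _) hpt 2
  have e3 : ‖1 - (p + τ)‖ * ‖r‖ ≤ 2 * (R * x ^ 2) :=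
    mul_le_mul hu hrn (norm_nonneg _) (by norm_num)
  have e4 : ‖r‖ ^ 2 ≤ R ^ 2 * x ^ 2 := by
    calc ‖r‖ ^ 2 ≤ (R * x ^ 2) ^ 2 := pow_le_pow_left₀ (norm_nonneg _) hrn 2
      _ = R ^ 2 * x ^ 2 * x ^ 2 := by ring
      _ ≤ R ^ 2 * x ^ 2 * 1 := mul_le_mul_of_nonneg_left hx2 (by positivity)
      _ = R ^ 2 * x ^ 2 := by ring
  rw [hw]
  calc ‖(1 - (p + τ)) + r‖ ^ 2 ≤ (‖1 - (p + τ)‖ + ‖r‖) ^ 2 := e1
    _ = ‖1 - (p + τ)‖ ^ 2 + 2 * (‖1 - (p + τ)‖ * ‖r‖) + ‖r‖ ^ 2 := by ring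
    _ ≤ (1 - 2 * (p.re + τ.re) + ((a + b) * x) ^ 2) + 2 * (2 * (R * x ^ 2)) + R ^ 2 * x ^ 2 := by
        rw [hu2]
        linarith
    _ = 1 - 2 * (p.re + τ.re) + ((a + b) ^ 2 + 4 * R + R ^ 2) * x ^ 2 := by ring

/-- The real inequality behind the barrier. `s = ‖c‖²`, `S = ‖c + g‖²`, `x = ‖g‖`, `q = ‖v‖²/s`, `Z = |(1+p)⁻¹ - (1+kτ)τ|²`, `k = κ/s²`.
Hypotheses: `δ₀² ≤ s ≤ 1`, `δ₀² ≤ S ≤ 1`, `‖p‖ ≤ x/δ₀`, `‖τ‖ ≤ A x` with `A` a bound of `‖v‖`, `s (1 + 2 re p) ≤ S ≤ s (1 + 2 re p) + x²`, `0 ≤ q ≤ A'`. Conclusion: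
`(Z / s - 1 / S) / S + q |1 + kτ|² ≤ q - (2 re τ / s²)(1 - q κ) + C x²` for `x ≤ g₀`.
Proof. With `ρ = (1+p)⁻¹ - 1 + p`, `|ρ| = |p|²/|1+p| ≤ 2|p|²` (`|p| ≤ 1/2`): `Z = |1 - (p + τ) + (ρ - kτ²)|² ≤ 1 - 2 re (p + τ) + C x²`;
`1/S ≥ 1/(s(1 + 2 re p) + x²) ≥ (1/s)(1 - 2 re p) - C x²` (`1/(1+y) ≥ 1 - y`), so `Z/s - 1/S ≤ -(2/s) re τ + C x²`, absolutely `≤ C x`, and `|1/S - 1/s| ≤ C x`, so
`(Z/s - 1/S)/S ≤ -(2/s²) re τ + C x²`; `|1 + kτ|² = 1 + 2 k re τ + k²|τ|²`, `q k = q κ/s²`. -/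
theorem bar_real {δ₀ A A' κ : ℝ} (hδ : 0 < δ₀) (hA : 0 < A) (hA' : 0 < A') (hκ : 0 < κ) :
    ∃ C g₀ : ℝ, 0 < C ∧ 0 < g₀ ∧ ∀ (s S x q : ℝ) (p τ : ℂ), δ₀ ^ 2 ≤ s → s ≤ 1 → δ₀ ^ 2 ≤ S →
      S ≤ 1 → 0 ≤ x → x ≤ g₀ → ‖p‖ ≤ x / δ₀ → ‖τ‖ ≤ A * x → s * (1 + 2 * p.re) ≤ S →
      S ≤ s * (1 + 2 * p.re) + x ^ 2 → 0 ≤ q → q ≤ A' →
      (‖(1 + p)⁻¹ - (1 + ((κ / s ^ 2 : ℝ) : ℂ) * τ) * τ‖ ^ 2 / s - 1 / S) / S +
        q * ‖1 + ((κ / s ^ 2 : ℝ) : ℂ) * τ‖ ^ 2 ≤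
      q - 2 * τ.re / s ^ 2 * (1 - q * κ) + C * x ^ 2 := by
  have hδ2 : 0 < δ₀ ^ 2 := by positivity
  set a : ℝ := 1 / δ₀ with ha
  have ha0 : 0 < a := by positivity
  set K : ℝ := κ / (δ₀ ^ 2) ^ 2 with hK
  have hK0 : 0 < K := by positivity
  set C1 : ℝ := (a + A) ^ 2 + 4 * (2 * a ^ 2 + K * A ^ 2) + (2 * a ^ 2 + K * A ^ 2) ^ 2 with hC1
  have hC10 : 0 < C1 := by positivity
  set C3 : ℝ := C1 / δ₀ ^ 2 + 1 / (δ₀ ^ 2) ^ 2 with hC3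
  have hC30 : 0 < C3 := by positivity
  set C4 : ℝ := C3 / δ₀ ^ 2 + 2 * (A * (2 * a + 1)) / (δ₀ ^ 2 * (δ₀ ^ 2 * δ₀ ^ 2)) with hC4
  have hC40 : 0 < C4 := by positivity
  refine ⟨C4 + A' * (K ^ 2 * A ^ 2), 1 / (1 + 2 * a + 2 * A), by positivity, by positivity, ?_⟩
  intro s S x q p τ hs hs1 hS hS1 hx hxg hp hτ hlo hup hq hqA
  have hs0 : 0 < s := lt_of_lt_of_le hδ2 hs
  have hS0 : 0 < S := lt_of_lt_of_le hδ2 hS
  have hden : 0 < 1 + 2 * a + 2 * A := by positivity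
  have hxm : x * (1 + 2 * a + 2 * A) ≤ 1 := (le_div_iff₀ hden).1 hxg
  have hxa : 0 ≤ x * a := by positivity
  have hxA : 0 ≤ x * A := by positivity
  have hx1 : x ≤ 1 := by nlinarith
  have hax : a * x ≤ 1 / 2 := by nlinarith
  have habx : (a + A) * x ≤ 1 := by nlinarith
  have hp' : ‖p‖ ≤ a * x := by
    refine hp.trans (le_of_eq ?_)
    rw [ha]
    ring
  set k : ℝ := κ / s ^ 2 with hk
  have hk0 : 0 ≤ k := by positivity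
  have hkK : k ≤ K := by
    rw [hk, hK]
    exact div_le_div_of_nonneg_left hκ.le (by positivity) (pow_le_pow_left₀ hδ2.le hs 2)
  have hre : |p.re| ≤ a * x := (Complex.abs_re_le_norm p).trans hp'
  have hret : |τ.re| ≤ A * x := (Complex.abs_re_le_norm τ).trans hτ
  have hZ := A2a_w hp' hτ hx hx1 ha0.le hA.le hax habx hk0 hkK
  set Z : ℝ := ‖(1 + p)⁻¹ - (1 + (k : ℂ) * τ) * τ‖ ^ 2 with hZdef
  have hx2 : 0 ≤ x ^ 2 := sq_nonneg x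
  -- lower bound of `1 / S`
  have hinvS : (1 - 2 * p.re) / s - x ^ 2 / (δ₀ ^ 2) ^ 2 ≤ 1 / S := by
    have h1 : (1 - 2 * p.re) / s - x ^ 2 / s ^ 2 ≤ 1 / S := by
      rw [le_div_iff₀ hS0]
      have e : ((1 - 2 * p.re) / s - x ^ 2 / s ^ 2) * S =
          (1 - (2 * p.re + x ^ 2 / s)) * (S / s) := by
        field_simp
        ring
      rw [e]
      have hy : S / s ≤ 1 + (2 * p.re + x ^ 2 / s) := by
        rw [div_le_iff₀ hs0]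
        have : (1 + (2 * p.re + x ^ 2 / s)) * s = s * (1 + 2 * p.re) + x ^ 2 := by
          field_simp
          ring
        rw [this]
        exact hup
      have hSs : 0 < S / s := by positivity
      set y : ℝ := 2 * p.re + x ^ 2 / s with hydef
      by_cases h1y : 1 - y ≤ 0
      · nlinarith
      · push Not at h1y
        calc (1 - y) * (S / s) ≤ (1 - y) * (1 + y) := mul_le_mul_of_nonneg_left hy h1y.le
          _ ≤ 1 := by nlinarith [sq_nonneg y]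
    have h2 : x ^ 2 / s ^ 2 ≤ x ^ 2 / (δ₀ ^ 2) ^ 2 :=
      div_le_div_of_nonneg_left hx2 (by positivity) (pow_le_pow_left₀ hδ2.le hs 2)
    linarith
  have hstep : Z / s - 1 / S ≤ -(2 * τ.re / s) + C3 * x ^ 2 := by
    have h1 : Z / s ≤ (1 - 2 * (p.re + τ.re)) / s + C1 * x ^ 2 / δ₀ ^ 2 := by
      calc Z / s ≤ (1 - 2 * (p.re + τ.re) + C1 * x ^ 2) / s := div_le_div_of_nonneg_right hZ hs0.le
        _ = (1 - 2 * (p.re + τ.re)) / s + C1 * x ^ 2 / s := by ring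
        _ ≤ (1 - 2 * (p.re + τ.re)) / s + C1 * x ^ 2 / δ₀ ^ 2 := by
            have : C1 * x ^ 2 / s ≤ C1 * x ^ 2 / δ₀ ^ 2 :=
              div_le_div_of_nonneg_left (by positivity) hδ2 hs
            linarith
    have h2 : (1 - 2 * (p.re + τ.re)) / s - (1 - 2 * p.re) / s = -(2 * τ.re / s) := by
      ring
    have h3 : C3 * x ^ 2 = C1 * x ^ 2 / δ₀ ^ 2 + x ^ 2 / (δ₀ ^ 2) ^ 2 := by
      rw [hC3]
      ring
    rw [h3]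
    linarith
  have hfirst : (Z / s - 1 / S) / S ≤ -(2 * τ.re / s ^ 2) + C4 * x ^ 2 := by
    have h1 : (Z / s - 1 / S) / S ≤ (-(2 * τ.re / s) + C3 * x ^ 2) / S :=
      div_le_div_of_nonneg_right hstep hS0.le
    have h2 : (-(2 * τ.re / s) + C3 * x ^ 2) / S =
        -(2 * τ.re / s ^ 2) + 2 * τ.re * (S - s) / (s * (s * S)) + C3 * x ^ 2 / S := by
      field_simp
      ring
    have h3 : C3 * x ^ 2 / S ≤ C3 * x ^ 2 / δ₀ ^ 2 :=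
      div_le_div_of_nonneg_left (by positivity) hδ2 hS
    have hSs : |S - s| ≤ (2 * a + 1) * x := by
      have hb : |2 * s * p.re| ≤ 2 * (a * x) := by
        rw [abs_mul, abs_mul, abs_of_pos hs0, abs_of_pos (by norm_num : (0 : ℝ) < 2)]
        have : s * |p.re| ≤ 1 * (a * x) := mul_le_mul hs1 hre (abs_nonneg _) (by norm_num)
        linarith
      have hxx : x ^ 2 ≤ x := by nlinarith
      obtain ⟨hb1, hb2⟩ := abs_le.1 hb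
      rw [abs_le]
      constructor
      · nlinarith
      · nlinarith
    have h4 : 2 * τ.re * (S - s) / (s * (s * S)) ≤
        2 * (A * (2 * a + 1)) / (δ₀ ^ 2 * (δ₀ ^ 2 * δ₀ ^ 2)) * x ^ 2 := by
      have hnum : 2 * τ.re * (S - s) ≤ 2 * (A * (2 * a + 1)) * x ^ 2 := by
        have : τ.re * (S - s) ≤ (A * x) * ((2 * a + 1) * x) := by
          calc τ.re * (S - s) ≤ |τ.re * (S - s)| := le_abs_self _
            _ = |τ.re| * |S - s| := abs_mul _ _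
            _ ≤ (A * x) * ((2 * a + 1) * x) :=
              mul_le_mul hret hSs (abs_nonneg _) (by positivity)
        nlinarith
      have hdd : δ₀ ^ 2 * (δ₀ ^ 2 * δ₀ ^ 2) ≤ s * (s * S) :=
        mul_le_mul hs (mul_le_mul hs hS hδ2.le hs0.le) (by positivity) hs0.le
      calc 2 * τ.re * (S - s) / (s * (s * S)) ≤ 2 * (A * (2 * a + 1)) * x ^ 2 / (s * (s * S)) :=
            div_le_div_of_nonneg_right hnum (by positivity)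
        _ ≤ 2 * (A * (2 * a + 1)) * x ^ 2 / (δ₀ ^ 2 * (δ₀ ^ 2 * δ₀ ^ 2)) :=
            div_le_div_of_nonneg_left (by positivity) (by positivity) hdd
        _ = 2 * (A * (2 * a + 1)) / (δ₀ ^ 2 * (δ₀ ^ 2 * δ₀ ^ 2)) * x ^ 2 := by ring
    have h5 : C4 * x ^ 2 = C3 * x ^ 2 / δ₀ ^ 2 +
        2 * (A * (2 * a + 1)) / (δ₀ ^ 2 * (δ₀ ^ 2 * δ₀ ^ 2)) * x ^ 2 := by
      rw [hC4]
      ring
    rw [h2] at h1
    rw [h5]
    linarith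
  have hsecond : q * ‖1 + (k : ℂ) * τ‖ ^ 2 ≤
      q + 2 * τ.re / s ^ 2 * (q * κ) + A' * (K ^ 2 * A ^ 2) * x ^ 2 := by
    have h1 : ‖1 + (k : ℂ) * τ‖ ^ 2 = 1 + 2 * k * τ.re + k ^ 2 * ‖τ‖ ^ 2 := by
      rw [← Complex.normSq_eq_norm_sq, ← Complex.normSq_eq_norm_sq, Complex.normSq_apply,
        Complex.normSq_apply]
      simp only [Complex.add_re, Complex.add_im, Complex.one_re, Complex.one_im, Complex.mul_re,
        Complex.mul_im, Complex.ofReal_re, Complex.ofReal_im]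
      ring
    have h2 : q * (k ^ 2 * ‖τ‖ ^ 2) ≤ A' * (K ^ 2 * A ^ 2) * x ^ 2 := by
      have h3 : ‖τ‖ ^ 2 ≤ (A * x) ^ 2 := pow_le_pow_left₀ (norm_nonneg _) hτ 2
      have h4 : k ^ 2 ≤ K ^ 2 := pow_le_pow_left₀ hk0 hkK 2
      calc q * (k ^ 2 * ‖τ‖ ^ 2) ≤ A' * (K ^ 2 * (A * x) ^ 2) :=
            mul_le_mul hqA (mul_le_mul h4 h3 (sq_nonneg _) (sq_nonneg _))
              (mul_nonneg (sq_nonneg _) (sq_nonneg _)) hA'.le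
        _ = A' * (K ^ 2 * A ^ 2) * x ^ 2 := by ring
    have h3 : q * (2 * k * τ.re) = 2 * τ.re / s ^ 2 * (q * κ) := by
      rw [hk]
      ring
    rw [h1]
    calc q * (1 + 2 * k * τ.re + k ^ 2 * ‖τ‖ ^ 2) =
        q + q * (2 * k * τ.re) + q * (k ^ 2 * ‖τ‖ ^ 2) := by ring
      _ ≤ q + 2 * τ.re / s ^ 2 * (q * κ) + A' * (K ^ 2 * A ^ 2) * x ^ 2 := by
        rw [h3]
        linarith
  calc (Z / s - 1 / S) / S + q * ‖1 + (k : ℂ) * τ‖ ^ 2 ≤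
      (-(2 * τ.re / s ^ 2) + C4 * x ^ 2) +
        (q + 2 * τ.re / s ^ 2 * (q * κ) + A' * (K ^ 2 * A ^ 2) * x ^ 2) := add_le_add hfirst hsecond
    _ = q - 2 * τ.re / s ^ 2 * (1 - q * κ) + (C4 + A' * (K ^ 2 * A ^ 2)) * x ^ 2 := by ring

end Pool.Agent.MPca0fc2.TE
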