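import Mathlib
import Pool.Agent.Lib.MP_ca0fc2_an.TE.A2a
import Pool.Agent.Lib.MP_ca0fc2_an.TE.A1

set_option autoImplicit false
set_option linter.unusedSectionVars false

open Metric Set MeasureTheory Filter Topology
open scoped InnerProductSpace ENNReal ContDiff

namespace Pool.Agent.MPca0fc2.TE

open Pool.Agent.MPca0fc2.PT
open Pool.Agent.MPca0fc2.QT
open Pool.Agent.MPca0fc2.TS

/-- `cjv` is an involution -/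
private theorem A2_cjv_cjv {N : ℕ} (c : EuclideanSpace ℂ (Fin N)) : cjv (cjv c) = c := by
  ext j
  simp [cjv]

/-- the value of `dt (ee c) g` -/
private theorem A2_p {N : ℕ} {c g : EuclideanSpace ℂ (Fin N)} :
    dt (ee c) g = ((‖c‖ ^ 2 : ℝ) : ℂ)⁻¹ * ⟪c, g⟫_ℂ := by
  unfold ee
  rw [smul_dt, dt_eq_inner, A2_cjv_cjv]

private theorem A2_S {N : ℕ} {c g : EuclideanSpace ℂ (Fin N)} (hc : c ≠ 0) :
    ‖c + g‖ ^ 2 = ‖c‖ ^ 2 * (1 + 2 * (dt (ee c) g).re) + ‖g‖ ^ 2 := by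
  have hs : ‖c‖ ^ 2 ≠ 0 := pow_ne_zero 2 (norm_ne_zero_iff.mpr hc)
  have h1 : (dt (ee c) g).re = (‖c‖ ^ 2)⁻¹ * (⟪c, g⟫_ℂ).re := by
    rw [A2_p, ← Complex.ofReal_inv, Complex.re_ofReal_mul]
  have h2 : ‖c + g‖ ^ 2 = ‖c‖ ^ 2 + 2 * (⟪c, g⟫_ℂ).re + ‖g‖ ^ 2 := by
    have := norm_add_sq (𝕜 := ℂ) c g
    simpa using this
  rw [h2, h1]
  field_simp

/-- the scalar end of the proof -/
private theorem A2_scalar {L s x q r t C₀ C₁ Q : ℝ} (hL : 1 ≤ L) (hs : 0 < s) (hx : 0 ≤ x)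
    (hC₀ : 0 < C₀) (hC₁ : 0 < C₁) (hrt : |r| ≤ t) (ht : 2 * t / s ^ 2 ≤ C₁ * x) (hx1 : C₁ * x ≤ 1)
    (hQ : Q ≤ q - 2 * r / s ^ 2 * (1 - q * (1 / L ^ 2)) + C₀ * x ^ 2) :
    max 0 (Q - L ^ 2) ≤ (1 + (C₀ + C₁) * x) * max 0 (q - L ^ 2) + (C₀ + C₁) * x ^ 2 := by
  have hL2 : (1 : ℝ) ≤ L ^ 2 := by nlinarith
  have hL2' : (0 : ℝ) < L ^ 2 := by linarith
  have hs2 : 0 < s ^ 2 := by positivity
  have h1 : 1 - q * (1 / L ^ 2) = (L ^ 2 - q) / L ^ 2 := by field_simp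
  have hmu : |2 * r / s ^ 2| ≤ C₁ * x := by
    rw [abs_div, abs_mul, abs_two, abs_of_pos hs2]
    exact le_trans (by gcongr) ht
  have hfrac : |(L ^ 2 - q) / L ^ 2| ≤ |q - L ^ 2| := by
    rw [abs_div, abs_of_pos hL2', abs_sub_comm]
    exact div_le_self (abs_nonneg _) hL2
  have hprod : -(2 * r / s ^ 2 * (1 - q * (1 / L ^ 2))) ≤ C₁ * x * |q - L ^ 2| := by
    rw [h1]
    refine le_trans (neg_le_abs _) ?_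
    rw [abs_mul]
    exact mul_le_mul hmu hfrac (abs_nonneg _) (by positivity)
  have hx2 : 0 ≤ x ^ 2 := by positivity
  have hC1x : 0 ≤ C₁ * x ^ 2 := by positivity
  have hC0x : 0 ≤ C₀ * x ^ 2 := by positivity
  rcases le_or_gt q (L ^ 2) with hq | hq
  · have hab : |q - L ^ 2| = L ^ 2 - q := by
      rw [abs_of_nonpos (by linarith)]; ring
    have h3 : C₁ * x * (L ^ 2 - q) ≤ 1 * (L ^ 2 - q) :=
      mul_le_mul_of_nonneg_right hx1 (by linarith)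
    rw [hab] at hprod
    have h4 : Q - L ^ 2 ≤ C₀ * x ^ 2 := by linarith
    have h5 : max 0 (q - L ^ 2) = 0 := max_eq_left (by linarith)
    rw [h5, mul_zero, zero_add]
    refine max_le ?_ ?_
    · linarith
    · linarith
  · have hab : |q - L ^ 2| = q - L ^ 2 := abs_of_pos (by linarith)
    rw [hab] at hprod
    have h5 : max 0 (q - L ^ 2) = q - L ^ 2 := max_eq_right (by linarith)
    rw [h5]
    have h6 : 0 ≤ C₀ * x * (q - L ^ 2) := by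
      have : 0 ≤ q - L ^ 2 := by linarith
      positivity
    have h7 : 0 ≤ C₁ * x * (q - L ^ 2) := by
      have : 0 ≤ q - L ^ 2 := by linarith
      positivity
    refine max_le ?_ ?_
    · nlinarith
    · nlinarith

/-- The barrier inequality for one step. `κ = 1 / L²`.
Proof. Let `e = ee c`, `v = a - e`, `p = dt e g`, `τ = dt v g`, `s = ‖c‖²`, `S = ‖c + g‖²`, `q = QQ c a = ‖v‖²/s ≤ L² + 1`, so `‖v‖ ≤ L + 1`, `‖p‖ ≤ ‖g‖/‖c‖ ≤ ‖g‖/δ₀`, `‖τ‖ ≤ (L+1)‖g‖`.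
The step `a' = Stp` satisfies `dt (c + g) a' = 1` (`Stp_dt`), so `‖a' - ee (c+g)‖² = ‖a'‖² - 1/S` (`norm_sol`), and by `norm_Stp`
`QQ (c+g) a' = (Z/s + |1+kτ|²|1+p|² q s - 1/S)/S ≤ (Z/s - 1/S)/S + q|1+kτ|²` as `s|1+p|² ≤ S` (`norm_one_add_le`). `S = s(1 + 2 re p) + ‖g‖²` (`re ⟪c, g⟫ = s re p`).
By `bar_real`: `QQ' ≤ q - (2 re τ/s²)(1 - q/L²) + C x²`. Let `λ = 2‖τ‖/(s² L²) ≤ C'‖g‖`, and `λ ≤ 1` for `g₀` small. If `q ≤ L²`: `QQ' ≤ q + λ (L² - q) + C x² ≤ L² + C x²`.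
If `q > L²`: `QQ' - L² ≤ (1 + λ)(q - L²) + C x²`. -/
theorem bar_step {L δ₀ : ℝ} (hL : 1 ≤ L) (hδ : 0 < δ₀) : ∃ C g₀ : ℝ, 0 < C ∧ 0 < g₀ ∧
    ∀ (N : ℕ) (c a g : EuclideanSpace ℂ (Fin N)), δ₀ ≤ ‖c‖ → ‖c‖ ≤ 1 → δ₀ ≤ ‖c + g‖ →
      ‖c + g‖ ≤ 1 → dt c a = 1 → ‖g‖ ≤ g₀ → QQ c a ≤ L ^ 2 + 1 →
      max 0 (QQ (c + g) (Stp (1 / L ^ 2) c a g) - L ^ 2) ≤
        (1 + C * ‖g‖) * max 0 (QQ c a - L ^ 2) + C * ‖g‖ ^ 2 := by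
  have hL0 : 0 < L := by linarith
  have hL2 : (0 : ℝ) < L ^ 2 := by positivity
  obtain ⟨C₀, g₀, hC₀, hg₀, H⟩ := bar_real (δ₀ := δ₀) (A := L + 1) (A' := L ^ 2 + 1)
    (κ := 1 / L ^ 2) hδ (by linarith) (by positivity) (by positivity)
  set C₁ : ℝ := 2 * (L + 1) / δ₀ ^ 4 with hC₁def
  have hC₁ : 0 < C₁ := by positivity
  refine ⟨C₀ + C₁, min g₀ (min (δ₀ / 2) (1 / C₁)), by positivity, by positivity, ?_⟩
  intro N c a g hc1 hc2 hcg1 hcg2 hca hg hq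
  have hgg₀ : ‖g‖ ≤ g₀ := le_trans hg (min_le_left _ _)
  have hgδ : ‖g‖ ≤ δ₀ / 2 := le_trans hg (le_trans (min_le_right _ _) (min_le_left _ _))
  have hgC : ‖g‖ ≤ 1 / C₁ := le_trans hg (le_trans (min_le_right _ _) (min_le_right _ _))
  have hcn : 0 < ‖c‖ := lt_of_lt_of_le hδ hc1
  have hcgn : 0 < ‖c + g‖ := lt_of_lt_of_le hδ hcg1
  have hc : c ≠ 0 := norm_pos_iff.mp hcn
  have hcg : c + g ≠ 0 := norm_pos_iff.mp hcgn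
  have hs0 : 0 < ‖c‖ ^ 2 := by positivity
  have hS0 : 0 < ‖c + g‖ ^ 2 := by positivity
  have hs1 : δ₀ ^ 2 ≤ ‖c‖ ^ 2 := by gcongr
  have hs2 : ‖c‖ ^ 2 ≤ 1 := pow_le_one₀ hcn.le hc2
  have hS1 : δ₀ ^ 2 ≤ ‖c + g‖ ^ 2 := by gcongr
  have hS2 : ‖c + g‖ ^ 2 ≤ 1 := pow_le_one₀ hcgn.le hcg2
  -- `p`
  have hp : ‖dt (ee c) g‖ ≤ ‖g‖ / δ₀ := by
    refine le_trans (norm_dt_le _ _) ?_
    rw [norm_ee hc, div_eq_inv_mul]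
    gcongr
  have hp12 : ‖dt (ee c) g‖ ≤ 1 / 2 := by
    refine le_trans hp ?_
    rw [div_le_iff₀ hδ]
    linarith
  have h1p : 1 + dt (ee c) g ≠ 0 := by
    intro h0
    have h1 : dt (ee c) g = -1 := by
      linear_combination h0
    rw [h1] at hp12
    norm_num at hp12
  -- `v`
  have hq0 : 0 ≤ QQ c a := by unfold QQ; positivity
  have hv2 : ‖a - ee c‖ ^ 2 = QQ c a * ‖c‖ ^ 2 := by
    unfold QQ
    field_simp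
  have hv : ‖a - ee c‖ ≤ L + 1 := by
    have h1 : ‖a - ee c‖ ^ 2 ≤ (L + 1) ^ 2 := by
      rw [hv2]
      calc QQ c a * ‖c‖ ^ 2 ≤ (L ^ 2 + 1) * 1 := by gcongr
        _ ≤ (L + 1) ^ 2 := by nlinarith
    exact le_of_sq_le_sq h1 (by linarith)
  have hτ : ‖dt (a - ee c) g‖ ≤ (L + 1) * ‖g‖ :=
    le_trans (norm_dt_le _ _) (by gcongr)
  have hSeq := A2_S (g := g) hc
  have Hb := H (‖c‖ ^ 2) (‖c + g‖ ^ 2) ‖g‖ (QQ c a) (dt (ee c) g) (dt (a - ee c) g) hs1 hs2 hS1 hS2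
    (norm_nonneg _) hgg₀ hp hτ (by rw [hSeq]; nlinarith [norm_nonneg g]) (by rw [← hSeq]) hq0 hq
  have hpow : (‖c‖ ^ 2) ^ 2 = ‖c‖ ^ 4 := by ring
  -- the value of the barrier
  have hdt := Stp_dt (κ := 1 / L ^ 2) hc hca h1p
  have hsol := norm_sol hcg hdt
  have hN := norm_Stp (κ := 1 / L ^ 2) (g := g) hc hca
  have hone := norm_one_add_le (g := g) hc
  have hone2 : ‖c‖ ^ 2 * ‖1 + dt (ee c) g‖ ^ 2 ≤ ‖c + g‖ ^ 2 := by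
    rw [← mul_pow]
    gcongr
  have hQ' : QQ (c + g) (Stp (1 / L ^ 2) c a g) =
      (‖Stp (1 / L ^ 2) c a g‖ ^ 2 - 1 / ‖c + g‖ ^ 2) / ‖c + g‖ ^ 2 := by
    unfold QQ
    rw [hsol]
    ring
  rw [hpow] at Hb
  set Z : ℝ := ‖(1 + dt (ee c) g)⁻¹ - (1 + (((1 / L ^ 2) / ‖c‖ ^ 4 : ℝ) : ℂ) *
    dt (a - ee c) g) * dt (a - ee c) g‖ ^ 2 with hZ
  set T : ℝ := ‖1 + (((1 / L ^ 2) / ‖c‖ ^ 4 : ℝ) : ℂ) * dt (a - ee c) g‖ with hT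
  have hQle : QQ (c + g) (Stp (1 / L ^ 2) c a g) ≤
      (Z / ‖c‖ ^ 2 - 1 / ‖c + g‖ ^ 2) / ‖c + g‖ ^ 2 + QQ c a * T ^ 2 := by
    rw [hQ', hN, hv2]
    have h1 : (T * ‖1 + dt (ee c) g‖) ^ 2 * (QQ c a * ‖c‖ ^ 2) ≤ QQ c a * T ^ 2 * ‖c + g‖ ^ 2 := by
      calc (T * ‖1 + dt (ee c) g‖) ^ 2 * (QQ c a * ‖c‖ ^ 2) =
          QQ c a * T ^ 2 * (‖c‖ ^ 2 * ‖1 + dt (ee c) g‖ ^ 2) := by ring
        _ ≤ QQ c a * T ^ 2 * ‖c + g‖ ^ 2 := by gcongr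
    calc (Z / ‖c‖ ^ 2 + (T * ‖1 + dt (ee c) g‖) ^ 2 * (QQ c a * ‖c‖ ^ 2) - 1 / ‖c + g‖ ^ 2) /
          ‖c + g‖ ^ 2 ≤ (Z / ‖c‖ ^ 2 + QQ c a * T ^ 2 * ‖c + g‖ ^ 2 - 1 / ‖c + g‖ ^ 2) /
          ‖c + g‖ ^ 2 := by gcongr
      _ = (Z / ‖c‖ ^ 2 - 1 / ‖c + g‖ ^ 2) / ‖c + g‖ ^ 2 + QQ c a * T ^ 2 := by
          field_simp
          ring
  have hfin := le_trans hQle Hb
  refine A2_scalar (s := ‖c‖ ^ 2) (r := (dt (a - ee c) g).re) (t := ‖dt (a - ee c) g‖)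
    hL hs0 (norm_nonneg g) hC₀ hC₁ (Complex.abs_re_le_norm _) ?_ ?_ (by rw [hpow]; exact hfin)
  · rw [hpow, hC₁def]
    calc 2 * ‖dt (a - ee c) g‖ / ‖c‖ ^ 4 ≤ 2 * ((L + 1) * ‖g‖) / δ₀ ^ 4 := by gcongr
      _ = 2 * (L + 1) / δ₀ ^ 4 * ‖g‖ := by ring
  · calc C₁ * ‖g‖ ≤ C₁ * (1 / C₁) := by gcongr
      _ = 1 := by field_simp

end Pool.Agent.MPca0fc2.TE
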