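import Mathlib
import Pool.Agent.Lib.MP_ca0fc2_an.Mg.G122

set_option autoImplicit false
set_option linter.unusedSectionVars false

open Metric Set MeasureTheory Filter Topology
open scoped InnerProductSpace ENNReal ContDiff

namespace Pool.Agent.MPca0fc2.TE

open Pool.Agent.MPca0fc2.PT
open Pool.Agent.MPca0fc2.QT
open Pool.Agent.MPca0fc2.TS

/-- Discrete Gronwall inequality for the barrier. With `B = C Λ² exp (C Λ) / K ≤ 1`: `ε i ≤ C exp (C Λ i/K) * i * (Λ/K)² ≤ B` by induction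
(`(1 + Cγ) x + Cγ² ≤ exp (CΛ/K) x + C(Λ/K)²`). -/
theorem gron {C Λ : ℝ} (hC : 0 < C) (hΛ : 0 < Λ) {K : ℕ} (hK : 0 < K)
    (hB : C * Λ ^ 2 * Real.exp (C * Λ) / K ≤ 1) {ε γ : ℕ → ℝ} (h0 : ε 0 = 0)
    (hε : ∀ i, 0 ≤ ε i) (hγ : ∀ i, 0 ≤ γ i) (hγK : ∀ i < K, γ i ≤ Λ / K)
    (h : ∀ i < K, ε i ≤ 1 → ε (i + 1) ≤ (1 + C * γ i) * ε i + C * γ i ^ 2) :
    ∀ i ≤ K, ε i ≤ C * Λ ^ 2 * Real.exp (C * Λ) / K := by
  have hKr : (0 : ℝ) < K := by exact_mod_cast hK
  set L : ℝ := Λ / K with hL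
  have hLpos : 0 < L := div_pos hΛ hKr
  have hLK : L * K = Λ := by rw [hL]; field_simp
  have hfin : C * L ^ 2 * K * Real.exp (C * L * K) = C * Λ ^ 2 * Real.exp (C * Λ) / K := by
    have e1 : C * L * K = C * Λ := by rw [mul_assoc, hLK]
    rw [e1, eq_div_iff hKr.ne', ← hLK]
    ring
  have key : ∀ i ≤ K, ε i ≤ C * L ^ 2 * i * Real.exp (C * L * i) := by
    intro i
    induction i with
    | zero => intro _; simp [h0]
    | succ i ih =>
      intro hi
      have hiK : i < K := hi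
      have hir : (i : ℝ) ≤ K := by exact_mod_cast hiK.le
      have h1 := ih hiK.le
      have hbound : C * L ^ 2 * i * Real.exp (C * L * i) ≤ 1 := by
        refine le_trans ?_ (hfin.le.trans hB)
        gcongr
      have h2 := h i hiK (h1.trans hbound)
      have h3 : 1 + C * γ i ≤ Real.exp (C * L) := by
        have h31 : C * γ i ≤ C * L := mul_le_mul_of_nonneg_left (hγK i hiK) hC.le
        have h32 := Real.add_one_le_exp (C * L)
        linarith
      have h4 : γ i ^ 2 ≤ L ^ 2 := pow_le_pow_left₀ (hγ i) (hγK i hiK) 2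
      have h5 : (1 + C * γ i) * ε i ≤ Real.exp (C * L) * (C * L ^ 2 * i * Real.exp (C * L * i)) :=
        mul_le_mul h3 h1 (hε i) (Real.exp_pos _).le
      have h6 : C * γ i ^ 2 ≤ C * L ^ 2 := mul_le_mul_of_nonneg_left h4 hC.le
      have h7 : Real.exp (C * L * ((i + 1 : ℕ) : ℝ)) = Real.exp (C * L) * Real.exp (C * L * i) := by
        rw [← Real.exp_add]
        congr 1
        push_cast
        ring
      have h8 : 1 ≤ Real.exp (C * L) * Real.exp (C * L * i) := by
        rw [← h7]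
        exact Real.one_le_exp (by positivity)
      have h9 : C * L ^ 2 * 1 ≤ C * L ^ 2 * (Real.exp (C * L) * Real.exp (C * L * i)) :=
        mul_le_mul_of_nonneg_left h8 (by positivity)
      rw [h7]
      push_cast
      nlinarith [h2, h5, h6, h9]
  intro i hi
  have hir : (i : ℝ) ≤ K := by exact_mod_cast hi
  refine (key i hi).trans (le_trans ?_ hfin.le)
  gcongr

end Pool.Agent.MPca0fc2.TE
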