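import Mathlib
import Pool.Agent.Lib.MP_ca0fc2_an.TE.A1
import Pool.Agent.Lib.MP_ca0fc2_an.TE.G1
import Pool.Agent.Lib.MP_ca0fc2_an.TE.A2

set_option autoImplicit false
set_option linter.unusedSectionVars false

open Metric Set MeasureTheory Filter Topology
open scoped InnerProductSpace ENNReal ContDiff

namespace Pool.Agent.MPca0fc2.TE

open Pool.Agent.MPca0fc2.PT
open Pool.Agent.MPca0fc2.QT
open Pool.Agent.MPca0fc2.TS

variable {E : Type*} [NormedAddCommGroup E] [InnerProductSpace ℂ E]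
variable {N : ℕ}

private lemma A9a_cj {f : E → EuclideanSpace ℂ (Fin N)} {z : E} (hf : ContDiffAt ℝ 2 f z) :
    ContDiffAt ℝ 2 (fun y => cjv (f y)) z := by
  rw [contDiffAt_piLp]
  intro j
  have h1 : ContDiffAt ℝ 2 (fun y => f y j) z := (contDiffAt_piLp 2).1 hf j
  exact Complex.conjCLE.contDiff.contDiffAt.comp z h1

private lemma A9a_dt {f g : E → EuclideanSpace ℂ (Fin N)} {z : E} (hf : ContDiffAt ℝ 2 f z)
    (hg : ContDiffAt ℝ 2 g z) : ContDiffAt ℝ 2 (fun y => dt (f y) (g y)) z := by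
  unfold dt
  exact ContDiffAt.sum fun j _ => ((contDiffAt_piLp 2).1 hf j).mul ((contDiffAt_piLp 2).1 hg j)

private lemma A9a_ofReal {f : E → ℝ} {z : E} (hf : ContDiffAt ℝ 2 f z) :
    ContDiffAt ℝ 2 (fun y => ((f y : ℝ) : ℂ)) z :=
  Complex.ofRealCLM.contDiff.contDiffAt.comp z hf

/-- The step is smooth. Proof. `cjv` is real linear and continuous, `dt` is real bilinear, `‖c‖ ^ 2` is smooth; inverses of non zero functions. -/
theorem Stp_c2 {κ : ℝ} {c a g : E → EuclideanSpace ℂ (Fin N)} {z : E}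
    (hc : ContDiffAt ℝ 2 c z) (ha : ContDiffAt ℝ 2 a z) (hg : ContDiffAt ℝ 2 g z)
    (h0 : c z ≠ 0) (hp : 1 + dt (ee (c z)) (g z) ≠ 0) :
    ContDiffAt ℝ 2 (fun y => Stp κ (c y) (a y) (g y)) z := by
  have hn0 : ‖c z‖ ≠ 0 := norm_ne_zero_iff.2 h0
  have h1 : ContDiffAt ℝ 2 (fun y => ‖c y‖ ^ 2) z := hc.norm_sq ℂ
  have h2 : ContDiffAt ℝ 2 (fun y => ‖c y‖ ^ 4) z := by
    have e : (fun y => ‖c y‖ ^ 4) = fun y => (‖c y‖ ^ 2) ^ 2 := by
      funext y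
      ring
    rw [e]
    exact h1.pow 2
  have h3 : ContDiffAt ℝ 2 (fun y => ee (c y)) z := by
    unfold ee
    refine ContDiffAt.smul (ContDiffAt.inv (A9a_ofReal h1) ?_) (A9a_cj hc)
    exact Complex.ofReal_ne_zero.2 (pow_ne_zero 2 hn0)
  have h4 : ContDiffAt ℝ 2 (fun y => ((κ / ‖c y‖ ^ 4 : ℝ) : ℂ)) z :=
    A9a_ofReal (contDiffAt_const.div h2 (pow_ne_zero 4 hn0))
  have h5 : ContDiffAt ℝ 2 (fun y => a y - ee (c y)) z := ha.sub h3
  have h6 : ContDiffAt ℝ 2 (fun y => dt (a y - ee (c y)) (g y)) z := A9a_dt h5 hg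
  have h7 : ContDiffAt ℝ 2 (fun y => 1 + dt (ee (c y)) (g y)) z := contDiffAt_const.add (A9a_dt h3 hg)
  have h8 : ContDiffAt ℝ 2 (fun y => 1 + ((κ / ‖c y‖ ^ 4 : ℝ) : ℂ) * dt (a y - ee (c y)) (g y)) z :=
    contDiffAt_const.add (h4.mul h6)
  unfold Stp Ph
  exact (((h7.inv hp).sub (h8.mul h6)).smul h3).add ((h8.mul h7).smul h5)

end Pool.Agent.MPca0fc2.TE
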