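import Mathlib
import Pool.Agent.Lib.MP_ca0fc2_an.TE.A7a
import Pool.Agent.Lib.MP_ca0fc2_an.TE.A9a
import Pool.Agent.Lib.MP_ca0fc2_an.TE.A1
import Pool.Agent.Lib.MP_ca0fc2_an.TE.G1
import Pool.Agent.Lib.MP_ca0fc2_an.TE.A2
import Pool.Agent.Lib.MP_ca0fc2_an.Mg.G051

set_option autoImplicit false
set_option linter.unusedSectionVars false

open Metric Set MeasureTheory Filter Topology
open scoped InnerProductSpace ENNReal ContDiff

namespace Pool.Agent.MPca0fc2.TE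

open Pool.Agent.MPca0fc2.PT
open Pool.Agent.MPca0fc2.QT
open Pool.Agent.MPca0fc2.TS

variable {E : Type*} [NormedAddCommGroup E] [InnerProductSpace ℂ E]
variable {N : ℕ}

private theorem A9_c2 [FiniteDimensional ℂ E] {f : E → EuclideanSpace ℂ (Fin N)} {U : Set E}
    (hU : IsOpen U) (hf : DifferentiableOn ℂ f U) : ContDiffOn ℝ 2 f U := by
  let b := stdOrthonormalBasis ℂ (EuclideanSpace ℂ (Fin N))
  have h1 : f = fun y => ∑ i, ⟪b i, f y⟫_ℂ • b i := by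
    funext y
    exact (b.sum_repr' (f y)).symm
  rw [h1]
  refine ContDiffOn.sum fun i _ => ?_
  have h2 : ContDiffOn ℝ 2 (fun y => ⟪b i, f y⟫_ℂ) U := by
    refine QT.age_hol_c2 hU ?_
    exact ((innerSL ℂ (b i)).differentiable.comp_differentiableOn hf)
  exact h2.smul contDiffOn_const

private theorem A9_norm_pt {P : E →L[ℂ] E} (hP : Prj P) {z : E} (hz : ‖z‖ < 1) {t : ℝ}
    (h0 : 0 ≤ t) (h1 : t ≤ 1) : ‖pt P t z‖ ≤ ‖z‖ := by
  obtain ⟨-, h2, -, h3⟩ := Dp_anti hP hz h0 h1 le_rfl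
  rw [← Dp_eq hP t z, h2] at h3
  have h4 : ‖pt P t z‖ ^ 2 ≤ ‖z‖ ^ 2 := by linarith
  exact (sq_le_sq₀ (norm_nonneg _) (norm_nonneg _)).1 h4

private theorem A9_pt_sub (P : E →L[ℂ] E) (t t' : ℝ) (z : E) :
    pt P t z - pt P t' z = ((t - t' : ℝ) : ℂ) • (z - P z) := by
  unfold pt
  push_cast
  rw [sub_smul]
  abel

private theorem A9_norm_sub {P : E →L[ℂ] E} (hP : Prj P) {z : E} (hz : ‖z‖ < 1) :
    ‖z - P z‖ ≤ 1 := by
  have h1 := pyth hP z
  have h2 : ‖z - P z‖ ^ 2 ≤ ‖z‖ ^ 2 := by nlinarith [sq_nonneg ‖P z‖]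
  exact ((sq_le_sq₀ (norm_nonneg _) (norm_nonneg _)).1 h2).trans hz.le

private theorem A9_pt_smooth (P : E →L[ℂ] E) (t : ℝ) : ContDiff ℝ 2 (pt P t) := by
  have h1 : ContDiff ℝ 2 (fun z => P z) := P.contDiff.restrict_scalars ℝ
  have h2 : ContDiff ℝ 2 (fun z : E => (t : ℂ) • (z - P z)) :=
    contDiff_const.smul (contDiff_id.sub h1)
  exact h1.add h2

private theorem A9_lip [FiniteDimensional ℂ E] {f : E → EuclideanSpace ℂ (Fin N)}
    (hf : ContDiffOn ℝ 2 f (ball 0 1)) {s : ℝ} (hs : s < 1) :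
    ∃ Λ : ℝ, 0 < Λ ∧ ∀ x ∈ closedBall (0 : E) s, ∀ y ∈ closedBall (0 : E) s,
      ‖f y - f x‖ ≤ Λ * ‖y - x‖ := by
  have hprop : ProperSpace E := FiniteDimensional.proper ℂ E
  have hsub : closedBall (0 : E) s ⊆ ball 0 1 := closedBall_subset_ball hs
  have h1 : ContinuousOn (fderiv ℝ f) (closedBall 0 s) :=
    (hf.continuousOn_fderiv_of_isOpen isOpen_ball (by norm_num)).mono hsub
  obtain ⟨M, hM⟩ := (isCompact_closedBall (0 : E) s).exists_bound_of_continuousOn h1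
  refine ⟨max M 1, by positivity, fun x hx y hy => ?_⟩
  refine (convex_closedBall (0 : E) s).norm_image_sub_le_of_norm_fderiv_le (𝕜 := ℝ)
    (fun w hw => ?_) (fun w hw => (hM w hw).trans (le_max_left _ _)) hx hy
  exact (hf.contDiffAt (isOpen_ball.mem_nhds (hsub hw))).differentiableAt (by norm_num)

/-- Qualitative facts of the discrete transport on the ball of radius `s < 1`, `K` large (depending on `s`), by induction on `i`: smooth, solution, bounded barrier, unchanged on the image of `P`.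
Proof. Let `Λ` be a Lipschitz constant: `‖f x - f y‖ ≤ Λ ‖x - y‖` on the compact convex set `closedBall 0 s` (`f` is `C¹` on the ball), so every `γ i = ‖f (pt ((i+1)/K) z) - f (pt (i/K) z)‖ ≤ Λ/K` (`‖z - P z‖ ≤ 1`; `‖pt P t z‖ ≤ ‖z‖`).
Choose `K₀` with `Λ/K₀ ≤ g₀`, `C Λ² exp (CΛ)/K₀ ≤ 1` (constants of `bar_step`), `Λ/K₀ ≤ δ₀/2` (so that `|dt (ee c) g| ≤ ‖g‖/‖c‖ ≤ 1/2`). Induction: `Stp_dt`, `Stp_c2` (`pt P t` is linear and continuous; holomorphic functions are smooth: `DifferentiableOn.contDiffOn`),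
`bar_step` and `gron` for `ε i = max 0 (QQ .. - L²)` at a fixed `z` (`ε 0 = 0`: hypothesis). On the image of `P`: `pt P t (P z) = P z`, so `g = 0` and `Stp_zero`. -/
theorem aK_facts {L δ₀ : ℝ} (hL : 1 ≤ L) (hδ : 0 < δ₀) {f g : E → EuclideanSpace ℂ (Fin N)}
    [FiniteDimensional ℂ E] (hf : DifferentiableOn ℂ f (ball 0 1))
    (hf1 : ∀ z ∈ ball (0 : E) 1, δ₀ ≤ ‖f z‖ ∧ ‖f z‖ ≤ 1) {P : E →L[ℂ] E} (hP : Prj P)
    (hg : DifferentiableOn ℂ (fun z => g (P z)) (ball 0 1))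
    (hg1 : ∀ z ∈ ball (0 : E) 1, dt (f (P z)) (g (P z)) = 1 ∧ QQ (f (P z)) (g (P z)) ≤ L ^ 2)
    {s : ℝ} (hs0 : 0 < s) (hs : s < 1) : ∃ K₀ : ℕ, 0 < K₀ ∧ ∀ K : ℕ, K₀ ≤ K →
      ∀ i ≤ K, ContDiffOn ℝ 2 (aK (1 / L ^ 2) f g P K i) (ball 0 s) ∧
        ∀ z ∈ ball (0 : E) s,
          dt (f (pt P ((i : ℝ) / K) z)) (aK (1 / L ^ 2) f g P K i z) = 1 ∧
          QQ (f (pt P ((i : ℝ) / K) z)) (aK (1 / L ^ 2) f g P K i z) ≤ L ^ 2 + 1 ∧
          aK (1 / L ^ 2) f g P K i (P z) = g (P z) := by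
  obtain ⟨C, g₀, hC, hg₀, hbar⟩ := bar_step hL hδ
  have hfc := A9_c2 isOpen_ball hf
  have hgc := A9_c2 isOpen_ball hg
  obtain ⟨Λ, hΛ, hlip⟩ := A9_lip hfc hs
  obtain ⟨n1, hn1⟩ := exists_nat_ge (Λ / g₀)
  obtain ⟨n2, hn2⟩ := exists_nat_ge (C * Λ ^ 2 * Real.exp (C * Λ))
  obtain ⟨n3, hn3⟩ := exists_nat_ge (Λ / (δ₀ / 2))
  refine ⟨n1 + n2 + n3 + 1, by omega, fun K hK => ?_⟩
  have hK0 : 0 < K := by omega
  have hKr : (0 : ℝ) < K := by exact_mod_cast hK0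
  have hKn : ((n1 : ℝ) + n2 + n3 + 1) ≤ K := by exact_mod_cast hK
  have hn1' : (0 : ℝ) ≤ n1 := Nat.cast_nonneg _
  have hn2' : (0 : ℝ) ≤ n2 := Nat.cast_nonneg _
  have hn3' : (0 : ℝ) ≤ n3 := Nat.cast_nonneg _
  have e1 : Λ / K ≤ g₀ := by
    rw [div_le_iff₀ hKr, mul_comm]
    have := (div_le_iff₀ hg₀).1 (hn1.trans (by linarith : (n1 : ℝ) ≤ K))
    exact this
  have e2 : C * Λ ^ 2 * Real.exp (C * Λ) / K ≤ 1 := by
    rw [div_le_one hKr]
    linarith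
  have e3 : Λ / K ≤ δ₀ / 2 := by
    rw [div_le_iff₀ hKr, mul_comm]
    have := (div_le_iff₀ (half_pos hδ)).1 (hn3.trans (by linarith : (n3 : ℝ) ≤ K))
    exact this
  -- geometry
  have hball : ∀ z ∈ ball (0 : E) s, ‖z‖ < s := fun z hz => by simpa using hz
  have hball1 : ∀ z ∈ ball (0 : E) s, ‖z‖ < 1 := fun z hz => (hball z hz).trans hs
  have hsub : ball (0 : E) s ⊆ ball 0 1 := ball_subset_ball hs.le
  have hpt : ∀ z ∈ ball (0 : E) s, ∀ t : ℝ, 0 ≤ t → t ≤ 1 → pt P t z ∈ ball (0 : E) s := by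
    intro z hz t h0 h1
    rw [mem_ball_zero_iff]
    exact (A9_norm_pt hP (hball1 z hz) h0 h1).trans_lt (hball z hz)
  have hfrac : ∀ i ≤ K, 0 ≤ ((i : ℕ) : ℝ) / K ∧ ((i : ℕ) : ℝ) / K ≤ 1 := by
    intro i hi
    refine ⟨by positivity, ?_⟩
    rw [div_le_one hKr]
    exact_mod_cast hi
  -- the increments
  have hinc : ∀ i < K, ∀ z ∈ ball (0 : E) s,
      ‖f (pt P (((i : ℝ) + 1) / K) z) - f (pt P ((i : ℝ) / K) z)‖ ≤ Λ / K := by
    intro i hi z hz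
    obtain ⟨h1, h2⟩ := hfrac i hi.le
    obtain ⟨h3, h4⟩ := hfrac (i + 1) hi
    push_cast at h3 h4
    refine (hlip _ (ball_subset_closedBall (hpt z hz _ h1 h2)) _
      (ball_subset_closedBall (hpt z hz _ h3 h4))).trans ?_
    rw [A9_pt_sub, norm_smul, Complex.norm_real, div_eq_mul_inv Λ]
    refine mul_le_mul_of_nonneg_left ?_ hΛ.le
    have h5 : ((i : ℝ) + 1) / K - (i : ℝ) / K = (K : ℝ)⁻¹ := by
      field_simp
      ring
    rw [h5, Real.norm_of_nonneg (by positivity)]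
    calc (K : ℝ)⁻¹ * ‖z - P z‖ ≤ (K : ℝ)⁻¹ * 1 :=
          mul_le_mul_of_nonneg_left (A9_norm_sub hP (hball1 z hz)) (by positivity)
      _ = (K : ℝ)⁻¹ := mul_one _
  have hne : ∀ z ∈ ball (0 : E) 1, f z ≠ 0 := by
    intro z hz h
    have h1 := (hf1 z hz).1
    rw [h, norm_zero] at h1
    linarith
  have hp : ∀ i < K, ∀ z ∈ ball (0 : E) s, 1 + dt (ee (f (pt P ((i : ℝ) / K) z)))
      (f (pt P (((i : ℝ) + 1) / K) z) - f (pt P ((i : ℝ) / K) z)) ≠ 0 := by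
    intro i hi z hz h
    obtain ⟨h1, h2⟩ := hfrac i hi.le
    have hm := hsub (hpt z hz _ h1 h2)
    have h3 := norm_dt_le (ee (f (pt P ((i : ℝ) / K) z)))
      (f (pt P (((i : ℝ) + 1) / K) z) - f (pt P ((i : ℝ) / K) z))
    have h4 : dt (ee (f (pt P ((i : ℝ) / K) z)))
      (f (pt P (((i : ℝ) + 1) / K) z) - f (pt P ((i : ℝ) / K) z)) = -1 := by
      linear_combination h
    rw [h4, norm_neg, norm_one, norm_ee (hne _ hm)] at h3
    have h5 : ‖f (pt P ((i : ℝ) / K) z)‖⁻¹ ≤ δ₀⁻¹ := inv_anti₀ hδ (hf1 _ hm).1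
    have h6 := hinc i hi z hz
    have h7 : ‖f (pt P ((i : ℝ) / K) z)‖⁻¹ *
        ‖f (pt P (((i : ℝ) + 1) / K) z) - f (pt P ((i : ℝ) / K) z)‖ ≤ δ₀⁻¹ * (δ₀ / 2) :=
      mul_le_mul h5 (h6.trans e3) (norm_nonneg _) (by positivity)
    have h8 : δ₀⁻¹ * (δ₀ / 2) = 1 / 2 := by
      field_simp
    linarith
  -- smoothness, solution, unchanged on the image of `P`
  have main : ∀ i ≤ K, ContDiffOn ℝ 2 (aK (1 / L ^ 2) f g P K i) (ball 0 s) ∧
      ∀ z ∈ ball (0 : E) s, dt (f (pt P ((i : ℝ) / K) z)) (aK (1 / L ^ 2) f g P K i z) = 1 ∧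
        aK (1 / L ^ 2) f g P K i (P z) = g (P z) := by
    intro i
    induction i with
    | zero =>
      intro _
      refine ⟨hgc.mono hsub, fun z hz => ⟨?_, ?_⟩⟩
      · have h1 : pt P (((0 : ℕ) : ℝ) / K) z = P z := by
          rw [Nat.cast_zero, zero_div, pt_zero]
        rw [h1]
        exact (hg1 z (hsub hz)).1
      · change g (P (P z)) = g (P z)
        rw [hP.idem]
    | succ i ih =>
      intro hi
      obtain ⟨ih1, ih2⟩ := ih (by omega)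
      have hi' : i < K := by omega
      obtain ⟨h1, h2⟩ := hfrac i hi'.le
      obtain ⟨h3, h4⟩ := hfrac (i + 1) hi
      push_cast at h3 h4
      refine ⟨?_, fun z hz => ⟨?_, ?_⟩⟩
      · intro z hz
        refine ContDiffAt.contDiffWithinAt ?_
        have hmem : ∀ t : ℝ, 0 ≤ t → t ≤ 1 → ContDiffAt ℝ 2 (fun y => f (pt P t y)) z := by
          intro t h0 h1
          have h5 : ContDiffAt ℝ 2 f (pt P t z) :=
            hfc.contDiffAt (isOpen_ball.mem_nhds (hsub (hpt z hz t h0 h1)))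
          exact h5.comp z (A9_pt_smooth P t).contDiffAt
        exact Stp_c2 (hmem _ h1 h2) (ih1.contDiffAt (isOpen_ball.mem_nhds hz))
          ((hmem _ h3 h4).sub (hmem _ h1 h2)) (hne _ (hsub (hpt z hz _ h1 h2))) (hp i hi' z hz)
      · have h5 := Stp_dt (κ := 1 / L ^ 2) (hne _ (hsub (hpt z hz _ h1 h2))) (ih2 z hz).1
          (hp i hi' z hz)
        rw [add_sub_cancel] at h5
        push_cast
        exact h5
      · change Stp (1 / L ^ 2) (f (pt P ((i : ℝ) / K) (P z))) (aK (1 / L ^ 2) f g P K i (P z))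
          (f (pt P (((i : ℝ) + 1) / K) (P z)) - f (pt P ((i : ℝ) / K) (P z))) = g (P z)
        rw [pt_P hP, pt_P hP, sub_self, Stp_zero]
        exact (ih2 z hz).2
  -- the barrier
  have hQ : ∀ z ∈ ball (0 : E) s, ∀ i ≤ K,
      max 0 (QQ (f (pt P ((i : ℝ) / K) z)) (aK (1 / L ^ 2) f g P K i z) - L ^ 2) ≤
        C * Λ ^ 2 * Real.exp (C * Λ) / K := by
    intro z hz
    refine gron (ε := fun i => max 0 (QQ (f (pt P ((i : ℝ) / K) z))
      (aK (1 / L ^ 2) f g P K i z) - L ^ 2)) (γ := fun i =>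
      ‖f (pt P (((i : ℝ) + 1) / K) z) - f (pt P ((i : ℝ) / K) z)‖) hC hΛ hK0 e2 ?_ ?_ ?_ ?_ ?_
    · have h1 : pt P (((0 : ℕ) : ℝ) / K) z = P z := by
        rw [Nat.cast_zero, zero_div, pt_zero]
      change max 0 (QQ (f (pt P (((0 : ℕ) : ℝ) / K) z)) (g (P z)) - L ^ 2) = 0
      rw [h1]
      exact max_eq_left (by linarith [(hg1 z (hsub hz)).2])
    · exact fun i => le_max_left _ _
    · exact fun i => norm_nonneg _
    · exact fun i hi => hinc i hi z hz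
    · intro i hi hle
      obtain ⟨h1, h2⟩ := hfrac i hi.le
      obtain ⟨h3, h4⟩ := hfrac (i + 1) hi
      push_cast at h3 h4
      have hm1 := hf1 _ (hsub (hpt z hz _ h1 h2))
      have hm2 := hf1 _ (hsub (hpt z hz _ h3 h4))
      have hcg : f (pt P ((i : ℝ) / K) z) +
          (f (pt P (((i : ℝ) + 1) / K) z) - f (pt P ((i : ℝ) / K) z)) =
          f (pt P (((i : ℝ) + 1) / K) z) := add_sub_cancel _ _
      have hq : QQ (f (pt P ((i : ℝ) / K) z)) (aK (1 / L ^ 2) f g P K i z) ≤ L ^ 2 + 1 := by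
        have := (le_max_right 0 _).trans hle
        linarith
      have h5 := hbar N (f (pt P ((i : ℝ) / K) z)) (aK (1 / L ^ 2) f g P K i z)
        (f (pt P (((i : ℝ) + 1) / K) z) - f (pt P ((i : ℝ) / K) z)) hm1.1 hm1.2
        (by rw [hcg]; exact hm2.1) (by rw [hcg]; exact hm2.2) ((main i hi.le).2 z hz).1
        ((hinc i hi z hz).trans e1) hq
      rw [hcg] at h5
      push_cast
      exact h5
  intro i hi
  obtain ⟨h1, h2⟩ := main i hi
  refine ⟨h1, fun z hz => ⟨(h2 z hz).1, ?_, (h2 z hz).2⟩⟩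
  have h3 := (le_max_right 0 _).trans ((hQ z hz i hi).trans e2)
  linarith

end Pool.Agent.MPca0fc2.TE
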