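import Mathlib
import Pool.Agent.Lib.MP_ca0fc2_an.TE.G2
import Pool.Agent.Lib.MP_ca0fc2_an.TS.Gr
import Pool.Agent.Lib.MP_ca0fc2_an.PTGrad

set_option autoImplicit false
set_option linter.unusedSectionVars false

open Metric Set MeasureTheory Filter Topology
open scoped InnerProductSpace ENNReal ContDiff

namespace Pool.Agent.MPca0fc2.TE

open Pool.Agent.MPca0fc2.PT
open Pool.Agent.MPca0fc2.QT
open Pool.Agent.MPca0fc2.TS

variable {E : Type*} [NormedAddCommGroup E] [InnerProductSpace ℂ E]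
variable [FiniteDimensional ℂ E] [MeasurableSpace E] [BorelSpace E]

/-- The gradient estimate. Proof. `gg'_zero_surj` gives `v` with `gg' y 0 v = X`, `‖v‖ ≤ 3 gau (1 - ‖y‖²) y X`; `gd_IG`: `‖fderiv ℂ (f j) y X‖ ≤ √(IG2 (f j) y) ‖v‖`; `IG_mean` (the bracket there is `Om`). -/
theorem grad_Om (μ : Measure E) [μ.IsAddHaarMeasure] {m : ℕ}
    (hdim : Module.finrank ℂ E = m + 1) {M : ℕ} (hM : m + 2 ≤ M) :
    ∃ C : ℝ, 0 < C ∧ ∀ (N : ℕ) (f : Fin N → E → ℂ),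
      (∀ j, DifferentiableOn ℂ (f j) (ball 0 1)) → (∀ j, ∀ z ∈ ball (0 : E) 1, ‖f j z‖ ≤ 1) →
      ∀ (j : Fin N) (y : E), ‖y‖ < 1 → ∀ X : E, ‖fderiv ℂ (f j) y X‖ ≤
        C * Real.sqrt (Om (nuE μ m M f) M y) * gau (1 - ‖y‖ ^ 2) y X := by
  obtain ⟨C, hC, h⟩ := IG_mean μ hdim hM
  refine ⟨3 * Real.sqrt C, by positivity, ?_⟩
  intro N f hf hfM j y hy X
  obtain ⟨v, hv, hvn⟩ := gg'_zero_surj hy X
  have h1 := gd_IG (u := f j) hy v
  rw [hv] at h1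
  have h2 : IG2 (f j) y ≤ C * Om (nuE μ m M f) M y := h N f hf hfM j y hy
  have h3 : Real.sqrt (IG2 (f j) y) ≤ Real.sqrt C * Real.sqrt (Om (nuE μ m M f) M y) := by
    rw [← Real.sqrt_mul hC.le]
    exact Real.sqrt_le_sqrt h2
  calc ‖fderiv ℂ (f j) y X‖ ≤ Real.sqrt (IG2 (f j) y) * ‖v‖ := h1
    _ ≤ (Real.sqrt C * Real.sqrt (Om (nuE μ m M f) M y)) * (3 * gau (1 - ‖y‖ ^ 2) y X) :=
        mul_le_mul h3 hvn (norm_nonneg _) (by positivity)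
    _ = _ := by ring

end Pool.Agent.MPca0fc2.TE
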