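import Mathlib
import Pool.Agent.Lib.MP_ca0fc2_an.TE.G3a
import Pool.Agent.Lib.MP_ca0fc2_an.TE.G2
import Pool.Agent.Lib.MP_ca0fc2_an.TS.Gr
import Pool.Agent.Lib.MP_ca0fc2_an.PTGrad

set_option autoImplicit false
set_option linter.unusedSectionVars false

open Metric Set MeasureTheory Filter Topology
open scoped InnerProductSpace ENNReal ContDiff

namespace Pool.Agent.MPca0fc2.TE

open Pool.Agent.MPca0fc2.PT
open Pool.Agent.MPca0fc2.QT
open Pool.Agent.MPca0fc2.TS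

variable {E : Type*} [NormedAddCommGroup E] [InnerProductSpace ℂ E]
variable [FiniteDimensional ℂ E] [MeasurableSpace E] [BorelSpace E]

/-- norm of a vector with bounded components -/
private theorem G3_norm {N : ℕ} (x : Fin N → ℂ) {B : ℝ} (hB : 0 ≤ B) (h : ∀ j, ‖x j‖ ≤ B) :
    ‖(WithLp.toLp 2 x : EuclideanSpace ℂ (Fin N))‖ ≤ Real.sqrt N * B := by
  rw [EuclideanSpace.norm_eq]
  have h1 : ∑ j, ‖(WithLp.toLp 2 x : EuclideanSpace ℂ (Fin N)) j‖ ^ 2 ≤ (N : ℝ) * B ^ 2 := by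
    calc ∑ j, ‖(WithLp.toLp 2 x : EuclideanSpace ℂ (Fin N)) j‖ ^ 2
        ≤ ∑ _j : Fin N, B ^ 2 := Finset.sum_le_sum fun j _ =>
          pow_le_pow_left₀ (norm_nonneg _) (h j) 2
      _ = (N : ℝ) * B ^ 2 := by
          rw [Finset.sum_const, Finset.card_univ, Fintype.card_fin, nsmul_eq_mul]
  calc Real.sqrt (∑ j, ‖(WithLp.toLp 2 x : EuclideanSpace ℂ (Fin N)) j‖ ^ 2)
      ≤ Real.sqrt ((N : ℝ) * B ^ 2) := Real.sqrt_le_sqrt h1
    _ = Real.sqrt N * B := by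
        rw [Real.sqrt_mul (Nat.cast_nonneg N), Real.sqrt_sq hB]

/-- the denominators on a short interval -/
private theorem G3_den {r t s K : ℝ} (hr0 : 0 ≤ r) (hr1 : r < 1) (hK : 4 / (1 - r ^ 2) ≤ K)
    (hK0 : 0 < K) (h0 : 0 ≤ t) (hts : t ≤ s) (hs : s ≤ t + 1 / K) (h1 : t + 1 / K ≤ 1) :
    0 < 1 - t ^ 2 * r ^ 2 ∧ (1 - t ^ 2 * r ^ 2) / 2 ≤ 1 - s ^ 2 * r ^ 2 := by
  have hr2 : r ^ 2 < 1 := by nlinarith
  have hr2' : 0 ≤ r ^ 2 := sq_nonneg r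
  have hs1 : s ≤ 1 := hs.trans h1
  have ht1 : t ≤ 1 := hts.trans hs1
  have hKi : 1 / K ≤ (1 - r ^ 2) / 4 := by
    rw [div_le_iff₀ (by linarith)] at hK
    rw [div_le_div_iff₀ hK0 (by norm_num)]
    linarith
  have h2 : s ^ 2 - t ^ 2 ≤ (1 - r ^ 2) / 2 := by nlinarith
  have h3 : t ^ 2 ≤ 1 := by nlinarith
  have h4 : t ^ 2 * r ^ 2 ≤ r ^ 2 := by nlinarith
  have h5 : 0 ≤ s ^ 2 - t ^ 2 := by nlinarith
  have h6 : (s ^ 2 - t ^ 2) * r ^ 2 ≤ s ^ 2 - t ^ 2 := by nlinarith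
  constructor
  · linarith
  · nlinarith

private theorem G3_rpow {W a S : ℝ} (hW : 0 ≤ W) (ha : 0 ≤ a) (hS : 0 ≤ S) :
    Real.sqrt (S * a ^ (1 / 4 : ℝ) * W) = Real.sqrt S * (Real.sqrt W * a ^ (1 / 8 : ℝ)) := by
  rw [Real.sqrt_mul (mul_nonneg hS (Real.rpow_nonneg ha _)), Real.sqrt_mul hS]
  have h1 : Real.sqrt (a ^ (1 / 4 : ℝ)) = a ^ (1 / 8 : ℝ) := by
    rw [Real.sqrt_eq_rpow, ← Real.rpow_mul ha]
    norm_num
  rw [h1]
  ring

/-- Lipschitz estimates of the data along the path, for the vector `F z = (f_1 z, ..., f_N z)`.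
`K ≥ 4 / (1 - r²)`, `r = rr P z`, `0 ≤ t ≤ t + 1/K ≤ 1`, `γ = ‖F (pt (t + 1/K) z) - F (pt t z)‖`, `W = Om ν M z`, `D t = Dp P t z`.
Proof. (1) `s ↦ f_j (pt P s z)` has the derivative `fderiv ℂ (f j) (pt P s z) (z - P z)`, of norm at most `C √(Om (pt s z)) * 2 (r/(1 - s²r²))` (`grad_Om`, `Dp_eq`, `gau_vel`), and also at most
`3 * 2 (r/(1 - s² r²))` (`grad_bounded` with `M = 1`). For `t ≤ s ≤ t + 1/K`: `1/(1 - s²r²) ≤ 2/(1 - t²r²)` because `(s² - t²) r² ≤ 2/K ≤ (1 - r²)/2 ≤ (1 - t²r²)/2`; `Om (pt s z) ≤ 2^(M+1) (D s/D 1)^(1/4) W ≤ 2^(M+1) (D t/D 1)^(1/4) W`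
(`Om_pt`, `Dp_anti`), `r ≤ 1`. Mean value inequality (`norm_image_sub_le_of_norm_deriv_le_segment'`), and `‖F‖ ≤ √N sup_j`.
(2) `‖fderiv ℂ F_j (pt t z) (pt t ξ)‖ ≤ C √(Om (pt t z)) gau (D t) (pt t z) (pt t ξ)` (`grad_Om`), `Om_pt`, `gau_pt`. -/
theorem path_data (μ : Measure E) [μ.IsAddHaarMeasure] {m : ℕ}
    (hdim : Module.finrank ℂ E = m + 1) {M : ℕ} (hM : m + 2 ≤ M) (N : ℕ) :
    ∃ C : ℝ, 0 < C ∧ ∀ f : Fin N → E → ℂ,
      (∀ j, DifferentiableOn ℂ (f j) (ball 0 1)) → (∀ j, ∀ z ∈ ball (0 : E) 1, ‖f j z‖ ≤ 1) →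
      ∀ P : E →L[ℂ] E, Prj P → ∀ (z : E) (K : ℕ) (t : ℝ), ‖z‖ < 1 → 0 < K →
      4 / (1 - rr P z ^ 2) ≤ K → 0 ≤ t → t + 1 / K ≤ 1 →
      ‖(WithLp.toLp 2 fun j => f j (pt P (t + 1 / K) z) : EuclideanSpace ℂ (Fin N)) -
          WithLp.toLp 2 fun j => f j (pt P t z)‖ ≤
        C / (K * (1 - t ^ 2 * rr P z ^ 2)) ∧
      ‖(WithLp.toLp 2 fun j => f j (pt P (t + 1 / K) z) : EuclideanSpace ℂ (Fin N)) -
          WithLp.toLp 2 fun j => f j (pt P t z)‖ ≤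
        C / (K * (1 - t ^ 2 * rr P z ^ 2)) * (Real.sqrt (Om (nuE μ m M f) M z) *
          (Dp P t z / Dp P 1 z) ^ (1 / 8 : ℝ)) ∧
      ∀ ξ : E, ‖(WithLp.toLp 2 fun j => fderiv ℂ (f j) (pt P t z) (pt P t ξ) :
          EuclideanSpace ℂ (Fin N))‖ ≤
        C * (Real.sqrt (Om (nuE μ m M f) M z) * (Dp P t z / Dp P 1 z) ^ (1 / 8 - 1 / 2 : ℝ)) *
          gau (1 - ‖z‖ ^ 2) z ξ := by
  obtain ⟨C₁, hC₁, hgr⟩ := grad_Om μ hdim hM
  set S : ℝ := Real.sqrt (2 ^ (M + 1)) with hS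
  have hS0 : 0 ≤ S := Real.sqrt_nonneg _
  have hN0 : 0 ≤ Real.sqrt (N : ℝ) := Real.sqrt_nonneg _
  have hCS : 0 ≤ C₁ * S := mul_nonneg hC₁.le hS0
  refine ⟨(Real.sqrt N + 1) * (12 + 4 * (C₁ * S)), by positivity, ?_⟩
  intro f hf hfM P hP z K t hz hK hKr h0 h1
  set r := rr P z with hr
  obtain ⟨hr0, hr1, hb, -, -⟩ := rr_facts hP hz t
  have hKR : (0 : ℝ) < K := Nat.cast_pos.2 hK
  have hKi : 0 ≤ 1 / (K : ℝ) := by positivity
  have ht1 : t ≤ 1 := by linarith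
  obtain ⟨hD1, hD1z, hDt, -⟩ := Dp_anti hP hz h0 ht1 le_rfl
  have hDt1 : Dp P 1 z ≤ Dp P t z := (Dp_anti hP hz h0 ht1 le_rfl).2.2.2
  have hDtpos : 0 < Dp P t z := hD1.trans_le hDt1
  set W := Om (nuE μ m M f) M z with hW
  have hW0 : 0 ≤ W := Om_nonneg hz
  set q := Dp P t z / Dp P 1 z with hq
  have hq0 : 0 < q := div_pos hDtpos hD1
  have hν : OnB (nuE μ m M f) := nuE_OnB μ hM hf hfM
  obtain ⟨hden, -⟩ := G3_den hr0 hr1 hKr hKR h0 le_rfl (by linarith) h1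
  set Δ := 1 - t ^ 2 * r ^ 2 with hΔ
  -- points of the path
  have hball : ∀ s : ℝ, 0 ≤ s → s ≤ 1 → ‖pt P s z‖ < 1 ∧ 1 - ‖pt P s z‖ ^ 2 = Dp P s z := by
    intro s hs0 hs1
    have h2 := Dp_eq hP s z
    have h3 := (Dp_anti hP hz hs0 hs1 le_rfl)
    refine ⟨?_, h2⟩
    have h4 : 0 < Dp P s z := h3.1.trans_le h3.2.2.2
    nlinarith [norm_nonneg (pt P s z)]
  -- the weight at the points of the path
  have hOm : ∀ s : ℝ, t ≤ s → s ≤ 1 →
      Real.sqrt (Om (nuE μ m M f) M (pt P s z)) ≤ S * (Real.sqrt W * q ^ (1 / 8 : ℝ)) := by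
    intro s hts hs1
    have hs0 : 0 ≤ s := h0.trans hts
    have h2 := Om_pt hP hν M hz hs0 hs1
    have h3 := Dp_anti hP hz h0 hts hs1
    have h3' : Dp P 1 z ≤ Dp P s z := h3.2.2.1
    have h4 : (Dp P s z / Dp P 1 z) ^ (1 / 4 : ℝ) ≤ q ^ (1 / 4 : ℝ) := by
      refine Real.rpow_le_rpow (div_nonneg (hD1.le.trans h3') hD1.le) ?_ (by norm_num)
      exact div_le_div_of_nonneg_right h3.2.2.2 hD1.le
    rw [hS, ← G3_rpow hW0 hq0.le (by positivity)]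
    refine Real.sqrt_le_sqrt (h2.trans ?_)
    gcongr
  -- the derivative along the path
  have hder : ∀ (j : Fin N) (s : ℝ), 0 ≤ s → s ≤ 1 →
      HasDerivAt (fun s : ℝ => f j (pt P s z)) (fderiv ℂ (f j) (pt P s z) (z - P z)) s := by
    intro j s hs0 hs1
    have h2 : HasFDerivAt (f j) (fderiv ℂ (f j) (pt P s z)) (pt P s z) :=
      ((hf j).differentiableAt (isOpen_ball.mem_nhds
        (mem_ball_zero_iff.2 (hball s hs0 hs1).1))).hasFDerivAt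
    have h3 : HasDerivAt (fun s : ℝ => pt P s z) (z - P z) s := by
      have h4 : HasDerivAt (fun s : ℝ => (s : ℂ)) 1 s := Complex.ofRealCLM.hasDerivAt
      have h5 := (h4.smul_const (z - P z)).const_add (P z)
      rw [one_smul] at h5
      exact h5
    exact (h2.restrictScalars ℝ).comp_hasDerivAt s h3
  have hvel : ∀ s : ℝ, t ≤ s → s ≤ t + 1 / K →
      gau (1 - ‖pt P s z‖ ^ 2) (pt P s z) (z - P z) ≤ 4 / Δ := by
    intro s hts hs
    have hs0 : 0 ≤ s := h0.trans hts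
    have hs1 : s ≤ 1 := hs.trans h1
    rw [(hball s hs0 hs1).2]
    refine (gau_vel hP hz hs0 hs1).trans ?_
    have h2 := (G3_den hr0 hr1 hKr hKR h0 hts hs h1).2
    have h3 : 0 < 1 - s ^ 2 * r ^ 2 := by linarith
    change 2 * (r / (1 - s ^ 2 * r ^ 2)) ≤ 4 / Δ
    rw [← mul_div_assoc, div_le_div_iff₀ h3 hden]
    nlinarith
  have hstep : ∀ (B : ℝ), (∀ (j : Fin N) (s : ℝ), t ≤ s → s ≤ t + 1 / K →
      ‖fderiv ℂ (f j) (pt P s z) (z - P z)‖ ≤ B) → 0 ≤ B →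
      ‖(WithLp.toLp 2 fun j => f j (pt P (t + 1 / K) z) : EuclideanSpace ℂ (Fin N)) -
          WithLp.toLp 2 fun j => f j (pt P t z)‖ ≤ Real.sqrt N * (B * (1 / K)) := by
    intro B hB hB0
    have h2 : (WithLp.toLp 2 fun j => f j (pt P (t + 1 / K) z) : EuclideanSpace ℂ (Fin N)) -
        WithLp.toLp 2 (fun j => f j (pt P t z)) =
        WithLp.toLp 2 (fun j => f j (pt P (t + 1 / K) z) - f j (pt P t z)) := rfl
    rw [h2]
    refine G3_norm _ (by positivity) fun j => ?_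
    have h3 := norm_image_sub_le_of_norm_deriv_le_segment' (a := t) (b := t + 1 / K)
      (f := fun s : ℝ => f j (pt P s z)) (f' := fun s => fderiv ℂ (f j) (pt P s z) (z - P z))
      (C := B) (fun s hs => (hder j s (h0.trans hs.1) (hs.2.trans h1)).hasDerivWithinAt)
      (fun s hs => hB j s hs.1 hs.2.le) (t + 1 / K) (right_mem_Icc.2 (by linarith))
    simpa using h3
  have hR : Real.sqrt (N : ℝ) ≤ Real.sqrt N + 1 := by linarith
  refine ⟨?_, ?_, ?_⟩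
  · have h2 := hstep (12 / Δ) (fun j s hts hs => by
      have hs1 : s ≤ 1 := hs.trans h1
      have h3 := grad_bounded (hf j) (hfM j) (hball s (h0.trans hts) hs1).1 (z - P z)
      refine h3.trans ?_
      calc 3 * 1 * gau (1 - ‖pt P s z‖ ^ 2) (pt P s z) (z - P z) ≤ 3 * 1 * (4 / Δ) := by
            gcongr
            exact hvel s hts hs
        _ = 12 / Δ := by ring) (by positivity)
    refine h2.trans ?_
    calc Real.sqrt N * (12 / Δ * (1 / K)) = (Real.sqrt N * 12) / (K * Δ) := by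
          field_simp
      _ ≤ ((Real.sqrt N + 1) * (12 + 4 * (C₁ * S))) / (K * Δ) := by
          gcongr
          linarith
  · have h2 := hstep (C₁ * (S * (Real.sqrt W * q ^ (1 / 8 : ℝ))) * (4 / Δ)) (fun j s hts hs => by
      have hs1 : s ≤ 1 := hs.trans h1
      have h3 := hgr N f hf hfM j (pt P s z) (hball s (h0.trans hts) hs1).1 (z - P z)
      refine h3.trans ?_
      have h4 := hOm s hts hs1
      have h5 := hvel s hts hs
      have h6 : 0 ≤ gau (1 - ‖pt P s z‖ ^ 2) (pt P s z) (z - P z) := by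
        unfold gau
        have h7 : 0 < 1 - ‖pt P s z‖ ^ 2 := by
          rw [(hball s (h0.trans hts) hs1).2]
          have h8 := Dp_anti hP hz (h0.trans hts) hs1 le_rfl
          exact h8.1.trans_le h8.2.2.2
        positivity
      gcongr) (by positivity)
    refine h2.trans ?_
    calc Real.sqrt N * (C₁ * (S * (Real.sqrt W * q ^ (1 / 8 : ℝ))) * (4 / Δ) * (1 / K))
        = (Real.sqrt N * (4 * (C₁ * S))) / (K * Δ) * (Real.sqrt W * q ^ (1 / 8 : ℝ)) := by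
          field_simp
      _ ≤ ((Real.sqrt N + 1) * (12 + 4 * (C₁ * S))) / (K * Δ) *
          (Real.sqrt W * q ^ (1 / 8 : ℝ)) := by
          gcongr
          linarith
  · intro ξ
    have h6 : 0 ≤ gau (1 - ‖z‖ ^ 2) z ξ := by
      unfold gau
      have h7 : 0 < 1 - ‖z‖ ^ 2 := by
        rw [← hD1z]
        exact hD1
      positivity
    have h8 : Real.sqrt (Dp P 1 z / Dp P t z) = q ^ (-(1 / 2) : ℝ) := by
      rw [Real.sqrt_eq_rpow, Real.rpow_neg hq0.le, ← Real.inv_rpow hq0.le, hq, inv_div]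
    have h9 : q ^ (1 / 8 : ℝ) * q ^ (-(1 / 2) : ℝ) = q ^ (1 / 8 - 1 / 2 : ℝ) := by
      rw [← Real.rpow_add hq0]
      norm_num
    have h2 := G3_norm (fun j => fderiv ℂ (f j) (pt P t z) (pt P t ξ))
      (B := C₁ * (S * (Real.sqrt W * q ^ (1 / 8 : ℝ))) *
        (2 * q ^ (-(1 / 2) : ℝ) * gau (1 - ‖z‖ ^ 2) z ξ)) (by positivity) (fun j => by
      have h3 := hgr N f hf hfM j (pt P t z) (hball t h0 ht1).1 (pt P t ξ)
      refine h3.trans ?_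
      have h4 := hOm t le_rfl ht1
      have h5 := gau_pt hP hz h0 ht1 ξ
      rw [(hball t h0 ht1).2]
      rw [h8] at h5
      have h7 : 0 ≤ gau (Dp P t z) (pt P t z) (pt P t ξ) := by
        unfold gau
        positivity
      gcongr)
    refine h2.trans ?_
    calc Real.sqrt N * (C₁ * (S * (Real.sqrt W * q ^ (1 / 8 : ℝ))) *
          (2 * q ^ (-(1 / 2) : ℝ) * gau (1 - ‖z‖ ^ 2) z ξ))
        = (Real.sqrt N * (2 * (C₁ * S))) *
          (Real.sqrt W * (q ^ (1 / 8 : ℝ) * q ^ (-(1 / 2) : ℝ))) * gau (1 - ‖z‖ ^ 2) z ξ := by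
          ring
      _ ≤ ((Real.sqrt N + 1) * (12 + 4 * (C₁ * S))) *
          (Real.sqrt W * (q ^ (1 / 8 : ℝ) * q ^ (-(1 / 2) : ℝ))) * gau (1 - ‖z‖ ^ 2) z ξ := by
          gcongr ?_ * ?_ * ?_
          nlinarith
      _ = _ := by rw [h9]

end Pool.Agent.MPca0fc2.TE
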