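import Mathlib
import Pool.Agent.Lib.MP_ca0fc2_an.TE.A9
import Pool.Agent.Lib.MP_ca0fc2_an.TE.A3d
import Pool.Agent.Lib.MP_ca0fc2_an.TE.A7
import Pool.Agent.Lib.MP_ca0fc2_an.TE.G3

set_option autoImplicit false
set_option linter.unusedSectionVars false

open Metric Set MeasureTheory Filter Topology
open scoped InnerProductSpace ENNReal ContDiff

namespace Pool.Agent.MPca0fc2.TE

open Pool.Agent.MPca0fc2.PT
open Pool.Agent.MPca0fc2.QT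
open Pool.Agent.MPca0fc2.TS

variable {E : Type*} [NormedAddCommGroup E] [InnerProductSpace ℂ E]
variable [FiniteDimensional ℂ E] [MeasurableSpace E] [BorelSpace E]

section aux

variable {N : ℕ}

private theorem A10_D01 {Y Y' : Type*} [NormedAddCommGroup Y] [NormedSpace ℂ Y]
    [NormedAddCommGroup Y'] [NormedSpace ℂ Y'] (T : Y →L[ℂ] Y') {a : E → Y} {z : E}
    (ha : DifferentiableAt ℝ a z) (ξ : E) : D01 (fun y => T (a y)) z ξ = T (D01 a z ξ) := by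
  have h1 : HasFDerivAt (fun y => T (a y)) ((T.restrictScalars ℝ).comp (fderiv ℝ a z)) z :=
    (T.restrictScalars ℝ).hasFDerivAt.comp z ha.hasFDerivAt
  rw [D01_apply, D01_apply, h1.fderiv]
  simp only [ContinuousLinearMap.comp_apply, ContinuousLinearMap.coe_restrictScalars', map_smul,
    map_add]

private theorem A10_diff {f : Fin N → E → ℂ} {z : E} (hf : ∀ j, DifferentiableAt ℂ (f j) z) :
    DifferentiableAt ℂ (fun y => (WithLp.toLp 2 fun j => f j y : EuclideanSpace ℂ (Fin N))) z := by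
  have h1 : DifferentiableAt ℂ (fun y => fun j => f j y) z := differentiableAt_pi.mpr hf
  exact ((EuclideanSpace.equiv (Fin N) ℂ).symm : (Fin N → ℂ) →L[ℂ] EuclideanSpace ℂ (Fin N)).differentiableAt.comp
    z h1

private theorem A10_pt_norm {P : E →L[ℂ] E} (h : Prj P) {z : E} (hz : ‖z‖ < 1) {t : ℝ}
    (h0 : 0 ≤ t) (h1 : t ≤ 1) : ‖pt P t z‖ ≤ ‖z‖ := by
  have a1 := Dp_eq h t z
  obtain ⟨_, a2, a3, _⟩ := Dp_anti h hz h0 le_rfl h1
  have a4 : ‖pt P t z‖ ^ 2 ≤ ‖z‖ ^ 2 := by linarith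
  exact le_of_sq_le_sq a4 (norm_nonneg _)

private theorem A10_fd {f : Fin N → E → ℂ} {P : E →L[ℂ] E} {t : ℝ} {z : E}
    (hf : ∀ j, DifferentiableAt ℂ (f j) (pt P t z)) :
    DifferentiableAt ℂ (fun y => (WithLp.toLp 2 fun j => f j (pt P t y) :
      EuclideanSpace ℂ (Fin N))) z ∧
    ∀ ξ : E, fderiv ℂ (fun y => (WithLp.toLp 2 fun j => f j (pt P t y) :
      EuclideanSpace ℂ (Fin N))) z ξ =
        WithLp.toLp 2 fun j => fderiv ℂ (f j) (pt P t z) (pt P t ξ) := by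
  set Lp : E →L[ℂ] E := P + (t : ℂ) • (ContinuousLinearMap.id ℂ E - P) with hLp
  have hpt : ∀ y, pt P t y = Lp y := fun y => by
    simp [hLp, pt]
  have hd : HasFDerivAt (fun y => pt P t y) Lp z := by
    have : (fun y => pt P t y) = fun y => Lp y := funext hpt
    rw [this]
    exact Lp.hasFDerivAt
  have hj : ∀ j, HasFDerivAt (fun y => f j (pt P t y)) ((fderiv ℂ (f j) (pt P t z)).comp Lp) z :=
    fun j => (hf j).hasFDerivAt.comp z hd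
  have hpi : HasFDerivAt (fun y => fun j => f j (pt P t y))
      (ContinuousLinearMap.pi fun j => (fderiv ℂ (f j) (pt P t z)).comp Lp) z :=
    hasFDerivAt_pi.mpr hj
  have hT : HasFDerivAt (fun y => (WithLp.toLp 2 fun j => f j (pt P t y) :
      EuclideanSpace ℂ (Fin N)))
      (((EuclideanSpace.equiv (Fin N) ℂ).symm : (Fin N → ℂ) →L[ℂ] EuclideanSpace ℂ (Fin N)).comp
        (ContinuousLinearMap.pi fun j => (fderiv ℂ (f j) (pt P t z)).comp Lp)) z :=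
    ((EuclideanSpace.equiv (Fin N) ℂ).symm : (Fin N → ℂ) →L[ℂ] EuclideanSpace ℂ (Fin N)).hasFDerivAt.comp
      z hpi
  refine ⟨hT.differentiableAt, fun ξ => ?_⟩
  rw [hT.fderiv]
  ext j
  simp [hpt]

private theorem A10_rr {P : E →L[ℂ] E} (h : Prj P) {z : E} {s : ℝ} (hzs : ‖z‖ < s) (hs : s < 1) :
    1 - s ^ 2 ≤ 1 - rr P z ^ 2 := by
  have hz : ‖z‖ < 1 := hzs.trans hs
  obtain ⟨r0, r1, b0, _, hD⟩ := rr_facts h hz 1
  obtain ⟨_, a2, _, _⟩ := Dp_anti h hz zero_le_one le_rfl (le_refl (1 : ℝ))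
  have h1 : (1 - ‖P z‖ ^ 2) * (1 - rr P z ^ 2) = 1 - ‖z‖ ^ 2 := by
    rw [← a2, hD]
    ring
  have h2 : 0 ≤ ‖P z‖ ^ 2 := sq_nonneg _
  have h3 : 0 ≤ 1 - rr P z ^ 2 := by nlinarith
  have h4 : ‖z‖ ^ 2 ≤ s ^ 2 := by
    have := norm_nonneg z
    nlinarith
  nlinarith

/-- the pointwise estimate of the `∂̄` -/
private theorem A10_point {L δ₀ Cp Cs g₀ : ℝ} (hδ₀ : 0 < δ₀) (hL : 1 ≤ L) (hCp : 0 < Cp)
    (hCs : 0 < Cs) (hsmall : 4 / (L * δ₀ ^ 3) * Cp ≤ 1 / 8)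
    (hstep : ∀ (N : ℕ) (f₀ f₁ a : E → EuclideanSpace ℂ (Fin N)) (z : E), DifferentiableAt ℂ f₀ z →
      DifferentiableAt ℂ f₁ z → DifferentiableAt ℝ a z → (∀ᶠ y in 𝓝 z, dt (f₀ y) (a y) = 1) →
      δ₀ ≤ ‖f₀ z‖ → ‖f₀ z‖ ≤ 1 → δ₀ ≤ ‖f₁ z‖ → ‖f₁ z - f₀ z‖ ≤ g₀ →
      QQ (f₀ z) (a z) ≤ L ^ 2 + 1 → ∀ ξ : E,
      ‖D01 (fun y => Stp (1 / L ^ 2) (f₀ y) (a y) (f₁ y - f₀ y)) z ξ‖ ≤
        ‖f₁ z‖ * ((1 + 4 / (L * δ₀ ^ 3) * ‖f₁ z - f₀ z‖) * (‖D01 a z ξ‖ / ‖f₀ z‖) +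
          Cs * ‖fderiv ℂ f₀ z ξ‖ * ‖f₁ z - f₀ z‖))
    {f : Fin N → E → ℂ} (hf : ∀ j, DifferentiableOn ℂ (f j) (ball 0 1))
    (hf1 : ∀ z ∈ ball (0 : E) 1, δ₀ ≤ ‖(WithLp.toLp 2 fun j => f j z : EuclideanSpace ℂ (Fin N))‖ ∧
      ‖(WithLp.toLp 2 fun j => f j z : EuclideanSpace ℂ (Fin N))‖ ≤ 1)
    {P : E →L[ℂ] E} (hP : Prj P) {G : E → EuclideanSpace ℂ (Fin N)}
    (hG : DifferentiableOn ℂ (fun z => G (P z)) (ball 0 1))
    {S : ℝ} (hS : 0 ≤ S) {z : E} {s : ℝ} (hzs : ‖z‖ < s) (hs : s < 1) {K : ℕ} (hK : 0 < K)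
    (hKg : Cp / (K * (1 - s ^ 2)) ≤ g₀)
    (hfacts : ∀ i ≤ K, ContDiffOn ℝ 2
        (aK (1 / L ^ 2) (fun z => WithLp.toLp 2 fun j => f j z) G P K i) (ball 0 s) ∧
        ∀ z ∈ ball (0 : E) s,
          dt (WithLp.toLp 2 fun j => f j (pt P ((i : ℝ) / K) z))
            (aK (1 / L ^ 2) (fun z => WithLp.toLp 2 fun j => f j z) G P K i z) = 1 ∧
          QQ (WithLp.toLp 2 fun j => f j (pt P ((i : ℝ) / K) z))
            (aK (1 / L ^ 2) (fun z => WithLp.toLp 2 fun j => f j z) G P K i z) ≤ L ^ 2 + 1 ∧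
          aK (1 / L ^ 2) (fun z => WithLp.toLp 2 fun j => f j z) G P K i (P z) = G (P z))
    (hpath : ∀ t : ℝ, 0 ≤ t → t + 1 / K ≤ 1 →
      ‖(WithLp.toLp 2 fun j => f j (pt P (t + 1 / K) z) : EuclideanSpace ℂ (Fin N)) -
          WithLp.toLp 2 fun j => f j (pt P t z)‖ ≤
        Cp / (K * (1 - t ^ 2 * rr P z ^ 2)) ∧
      ‖(WithLp.toLp 2 fun j => f j (pt P (t + 1 / K) z) : EuclideanSpace ℂ (Fin N)) -
          WithLp.toLp 2 fun j => f j (pt P t z)‖ ≤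
        Cp / (K * (1 - t ^ 2 * rr P z ^ 2)) * (Real.sqrt S *
          (Dp P t z / Dp P 1 z) ^ (1 / 8 : ℝ)) ∧
      ∀ ξ : E, ‖(WithLp.toLp 2 fun j => fderiv ℂ (f j) (pt P t z) (pt P t ξ) :
          EuclideanSpace ℂ (Fin N))‖ ≤
        Cp * (Real.sqrt S * (Dp P t z / Dp P 1 z) ^ (1 / 8 - 1 / 2 : ℝ)) *
          gau (1 - ‖z‖ ^ 2) z ξ) (ξ : E) (hgau : 0 ≤ gau (1 - ‖z‖ ^ 2) z ξ) :
    ‖D01 (aK (1 / L ^ 2) (fun z => WithLp.toLp 2 fun j => f j z) G P K K) z ξ‖ ≤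
      8 * Cs * Cp ^ 2 * Real.exp 1 * (S * gau (1 - ‖z‖ ^ 2) z ξ) := by
  have hz : ‖z‖ < 1 := hzs.trans hs
  have hzb : z ∈ ball (0 : E) s := mem_ball_zero_iff.mpr hzs
  have hKr : (0 : ℝ) < K := by exact_mod_cast hK
  obtain ⟨r0, r1, b0, _, hD1⟩ := rr_facts hP hz 1
  have hrs := A10_rr hP hzs hs
  have hs2 : 0 < 1 - s ^ 2 := by
    have := norm_nonneg z
    nlinarith
  set F : E → EuclideanSpace ℂ (Fin N) := fun z => WithLp.toLp 2 fun j => f j z with hF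
  -- the ratio of the depths
  have hrat : ∀ t : ℝ, Dp P t z / Dp P 1 z = (1 - t ^ 2 * rr P z ^ 2) / (1 - rr P z ^ 2) := by
    intro t
    obtain ⟨_, _, _, _, hDt⟩ := rr_facts hP hz t
    rw [hDt, hD1, one_pow, one_mul]
    exact mul_div_mul_left _ _ b0.ne'
  have hti : ∀ i < K, 0 ≤ (i : ℝ) / K ∧ (i : ℝ) / K + 1 / K ≤ 1 ∧ ((i : ℝ) + 1) / K = (i : ℝ) / K + 1 / K ∧
      (i : ℝ) / K ≤ 1 := by
    intro i hi
    have hi' : (i : ℝ) + 1 ≤ K := by exact_mod_cast hi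
    refine ⟨by positivity, ?_, add_div _ _ _, ?_⟩
    · rw [← add_div, div_le_one hKr]
      exact hi'
    · rw [div_le_one hKr]
      linarith
  have hball : ∀ t : ℝ, 0 ≤ t → t ≤ 1 → pt P t z ∈ ball (0 : E) 1 := fun t h0 h1 =>
    mem_ball_zero_iff.mpr ((A10_pt_norm hP hz h0 h1).trans_lt hz)
  let y : ℕ → ℝ := fun i => ‖D01 (aK (1 / L ^ 2) F G P K i) z ξ‖ / ‖F (pt P ((i : ℝ) / K) z)‖
  let γ : ℕ → ℝ := fun i => ‖F (pt P (((i : ℝ) + 1) / K) z) - F (pt P ((i : ℝ) / K) z)‖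
  let σ : ℕ → ℝ := fun i => ‖fderiv ℂ (fun y => F (pt P ((i : ℝ) / K) y)) z ξ‖
  have hfd : ∀ t : ℝ, 0 ≤ t → t ≤ 1 → DifferentiableAt ℂ (fun y => F (pt P t y)) z ∧
      ∀ ξ : E, fderiv ℂ (fun y => F (pt P t y)) z ξ =
        WithLp.toLp 2 fun j => fderiv ℂ (f j) (pt P t z) (pt P t ξ) := fun t h0 h1 =>
    A10_fd fun j => (hf j).differentiableAt (isOpen_ball.mem_nhds (hball t h0 h1))
  have hsup := supersol (r := rr P z) (c := Cp) (ε₀ := 4 / (L * δ₀ ^ 3)) (C₁ := Cs) r0 r1 hCp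
    (by positivity) hCs hsmall hK hS hgau (y := y) (γ := γ) (σ := σ) ?_ (fun i => by positivity)
    (fun i => norm_nonneg _) (fun i => norm_nonneg _) ?_ ?_ ?_ ?_
  · have h1 : (K : ℝ) / K = 1 := div_self hKr.ne'
    have h2 : y K = ‖D01 (aK (1 / L ^ 2) F G P K K) z ξ‖ / ‖F z‖ := by
      simp only [y]
      rw [h1, pt_one]
    have h3 := hf1 z (mem_ball_zero_iff.mpr hz)
    have h4 : 0 < ‖F z‖ := hδ₀.trans_le h3.1
    rw [h2] at hsup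
    refine le_trans ?_ hsup
    rw [le_div_iff₀ h4]
    exact mul_le_of_le_one_right (norm_nonneg _) h3.2
  · have h1 : D01 (aK (1 / L ^ 2) F G P K 0) z = 0 :=
      D01_holo (hG.differentiableAt (isOpen_ball.mem_nhds (mem_ball_zero_iff.mpr hz)))
    simp only [y]
    rw [h1]
    simp
  · intro i hi
    obtain ⟨t0, t1, t2, _⟩ := hti i hi
    have := (hpath _ t0 t1).1
    simp only [γ]
    rw [t2]
    exact this
  · intro i hi
    obtain ⟨t0, t1, t2, _⟩ := hti i hi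
    have := (hpath _ t0 t1).2.1
    rw [hrat] at this
    simp only [γ]
    rw [t2]
    exact this
  · intro i hi
    obtain ⟨t0, t1, t2, t3⟩ := hti i hi
    have := (hpath _ t0 t1).2.2 ξ
    rw [hrat] at this
    simp only [σ]
    rw [(hfd _ t0 t3).2 ξ]
    exact this
  · intro i hi
    obtain ⟨t0, t1, t2, t3⟩ := hti i hi
    have t4 : ((i : ℝ) + 1) / K ≤ 1 := by rw [t2]; exact t1
    have t5 : 0 ≤ ((i : ℝ) + 1) / K := by positivity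
    obtain ⟨c1, c2⟩ := hfacts i hi.le
    obtain ⟨c3, c4, _⟩ := c2 z hzb
    have hF0 := hf1 _ (hball _ t0 t3)
    have hF1 := hf1 _ (hball _ t5 t4)
    have hγ : γ i ≤ g₀ := by
      have h1 : γ i ≤ Cp / (K * (1 - ((i : ℝ) / K) ^ 2 * rr P z ^ 2)) := by
        have := (hpath _ t0 t1).1
        simp only [γ]
        rw [t2]
        exact this
      refine h1.trans (le_trans ?_ hKg)
      have h2 : 1 - s ^ 2 ≤ 1 - ((i : ℝ) / K) ^ 2 * rr P z ^ 2 := by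
        have h3 : ((i : ℝ) / K) ^ 2 ≤ 1 := pow_le_one₀ t0 t3
        have h4 : ((i : ℝ) / K) ^ 2 * rr P z ^ 2 ≤ rr P z ^ 2 :=
          mul_le_of_le_one_left (sq_nonneg _) h3
        linarith
      gcongr
    have hev : ∀ᶠ y in 𝓝 z, dt (F (pt P ((i : ℝ) / K) y)) (aK (1 / L ^ 2) F G P K i y) = 1 := by
      filter_upwards [isOpen_ball.mem_nhds hzb] with y hy
      exact (c2 y hy).1
    have key := hstep N (fun y => F (pt P ((i : ℝ) / K) y)) (fun y => F (pt P (((i : ℝ) + 1) / K) y))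
      (aK (1 / L ^ 2) F G P K i) z (hfd _ t0 t3).1 (hfd _ t5 t4).1
      ((c1.contDiffAt (isOpen_ball.mem_nhds hzb)).differentiableAt (by norm_num)) hev hF0.1 hF0.2
      hF1.1 hγ c4 ξ
    have hp1 : 0 < ‖F (pt P (((i : ℝ) + 1) / K) z)‖ := hδ₀.trans_le hF1.1
    have e1 : y (i + 1) = ‖D01 (fun y => Stp (1 / L ^ 2) (F (pt P ((i : ℝ) / K) y))
        (aK (1 / L ^ 2) F G P K i y) (F (pt P (((i : ℝ) + 1) / K) y) -
          F (pt P ((i : ℝ) / K) y))) z ξ‖ / ‖F (pt P (((i : ℝ) + 1) / K) z)‖ := by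
      simp only [y]
      push_cast
      rfl
    rw [e1, div_le_iff₀ hp1]
    refine key.trans (le_of_eq ?_)
    simp only [y, γ, σ]
    ring

end aux

/-- THE TRANSPORT. Smooth solutions with a `∂̄` of second order, equal to `g` on the slice.
Proof. Let `F z = toLp (f_j z)`, `δ₀ = √δ`, `κ = 1/L²` with `L ≥ 1` so large that `QQ (F (P z)) (g (P z)) ≤ L²` (`≤ (A + 1/δ₀)²/δ₀²`) and `4/(L δ₀³) * C ≤ 1/8`, `C` the constant of `path_data`.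
`aK_facts` for `s' = (1 + s)/2`... and `K ≥ K₀`, `K ≥ 4/(1 - s²) ≥ 4/(1 - rr P z²)` for `‖z‖ < s` (`1 - rr² = (1 - ‖z‖²)/(1 - ‖P z‖²) ≥ 1 - s²`), `C/(K(1 - s²)) ≤ g₀` (constant of `D01_step`). Take
`h z = aK κ F g P K K z` (coordinates `h z j`). At a fixed `z`, `ξ`: `y i = ‖D01 (aK i) z ξ‖ / ‖F (pt (i/K) z)‖`, `γ i = ‖F (pt ((i+1)/K) z) - F (pt (i/K) z)‖`, `σ i = ‖fderiv ℂ (F ∘ pt (i/K)) z ξ‖`
(`= ‖F'(pt z)(pt ξ)‖` as `pt` is linear). `y 0 = 0` since `g ∘ P` is holomorphic (`D01_holo`). `D01_step` gives `y (i+1) ≤ (1 + ε₀ γ i) y i + C' σ i γ i`; `path_data` with `t = i/K` (note `(i+1)/K = i/K + 1/K`) and `rr_facts`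
(`Dp t/Dp 1 = (1 - t²r²)/(1 - r²)`) give the hypotheses of `supersol` with `S = Om z`, `G = gau (1 - ‖z‖²) z ξ`. So `‖D01 h z ξ‖ ≤ ‖F z‖ 8 C' C² e Om z gau`. Bound of `h`: `‖a‖² = 1/‖F‖² + ‖a - ee F‖² ≤ 1/δ + L² + 1` (`norm_sol`).
`‖x‖ ≤` (sup norm) `≤` Euclidean norm for the coordinates. -/
theorem transport (μ : Measure E) [μ.IsAddHaarMeasure] {m : ℕ}
    (hdim : Module.finrank ℂ E = m + 1) {M : ℕ} (hM : m + 2 ≤ M) (N : ℕ) {δ A : ℝ} (hδ : 0 < δ)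
    (hA : 0 < A) : ∃ C : ℝ, 0 < C ∧ ∀ f : Fin N → E → ℂ,
      (∀ j, DifferentiableOn ℂ (f j) (ball 0 1)) →
      (∀ z ∈ ball (0 : E) 1, δ ≤ ∑ j, ‖f j z‖ ^ 2 ∧ ∑ j, ‖f j z‖ ^ 2 ≤ 1) →
      ∀ P : E →L[ℂ] E, Prj P → ∀ g : Fin N → E → ℂ,
      (∀ j, DifferentiableOn ℂ (fun z => g j (P z)) (ball 0 1)) →
      (∀ z ∈ ball (0 : E) 1, ∑ j, f j (P z) * g j (P z) = 1 ∧ ∑ j, ‖g j (P z)‖ ^ 2 ≤ A ^ 2) →
      ∀ s : ℝ, 0 < s → s < 1 → ∃ h : E → Fin N → ℂ, ContDiffOn ℝ 2 h (ball 0 s) ∧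
        ∀ z ∈ ball (0 : E) s, ∑ j, f j z * h z j = 1 ∧ ‖h z‖ ≤ C ∧
          (∀ j, h (P z) j = g j (P z)) ∧
          ∀ ξ : E, ‖D01 h z ξ‖ ≤ C * Om (nuE μ m M f) M z * gau (1 - ‖z‖ ^ 2) z ξ := by
  set δ₀ : ℝ := Real.sqrt δ with hδ₀def
  have hδ₀ : 0 < δ₀ := Real.sqrt_pos.mpr hδ
  have hδsq : δ₀ ^ 2 = δ := Real.sq_sqrt hδ.le
  obtain ⟨Cp, hCp, hpath⟩ := path_data μ hdim hM N
  set L : ℝ := 1 + (A + 1 / δ₀) / δ₀ + 32 * Cp / δ₀ ^ 3 with hLdef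
  have hL1 : 1 ≤ L := by
    have h1 : 0 ≤ (A + 1 / δ₀) / δ₀ := by positivity
    have h2 : 0 ≤ 32 * Cp / δ₀ ^ 3 := by positivity
    linarith
  have hL2 : (A + 1 / δ₀) / δ₀ ≤ L := by
    have h2 : 0 ≤ 32 * Cp / δ₀ ^ 3 := by positivity
    linarith
  have hL3 : 32 * Cp / δ₀ ^ 3 ≤ L := by
    have h1 : 0 ≤ (A + 1 / δ₀) / δ₀ := by positivity
    linarith
  have hL0 : 0 < L := by linarith
  have hsmall : 4 / (L * δ₀ ^ 3) * Cp ≤ 1 / 8 := by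
    rw [div_le_iff₀ (by positivity)] at hL3
    rw [div_mul_eq_mul_div, div_le_div_iff₀ (by positivity) (by norm_num)]
    linarith
  obtain ⟨Cs, g₀, hCs, hg₀, hstep⟩ := D01_step (E := E) hL1 hδ₀
  refine ⟨1 / δ + L ^ 2 + 1 + 8 * Cs * Cp ^ 2 * Real.exp 1, by positivity, ?_⟩
  intro f hf hf1 P hP g hg hg1 s hs0 hs1
  set F : E → EuclideanSpace ℂ (Fin N) := fun z => WithLp.toLp 2 fun j => f j z with hF
  set G : E → EuclideanSpace ℂ (Fin N) := fun z => WithLp.toLp 2 fun j => g j z with hGdef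
  have hFn : ∀ z, ‖F z‖ ^ 2 = ∑ j, ‖f j z‖ ^ 2 := fun z => by
    rw [EuclideanSpace.norm_sq_eq]
  have hGn : ∀ z, ‖G z‖ ^ 2 = ∑ j, ‖g j z‖ ^ 2 := fun z => by
    rw [EuclideanSpace.norm_sq_eq]
  have hF1 : ∀ z ∈ ball (0 : E) 1, δ₀ ≤ ‖F z‖ ∧ ‖F z‖ ≤ 1 := by
    intro z hz
    obtain ⟨h1, h2⟩ := hf1 z hz
    rw [← hFn] at h1 h2
    refine ⟨?_, ?_⟩
    · rw [← hδsq] at h1
      exact le_of_sq_le_sq h1 (norm_nonneg _)
    · nlinarith [norm_nonneg (F z)]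
  have hfle : ∀ j, ∀ z ∈ ball (0 : E) 1, ‖f j z‖ ≤ 1 := fun j z hz =>
    (PiLp.norm_apply_le (F z) j).trans (hF1 z hz).2
  have hFd : DifferentiableOn ℂ F (ball 0 1) := fun z hz =>
    (A10_diff fun j => (hf j).differentiableAt (isOpen_ball.mem_nhds hz)).differentiableWithinAt
  have hGd : DifferentiableOn ℂ (fun z => G (P z)) (ball 0 1) := fun z hz =>
    (A10_diff (f := fun j y => g j (P y)) fun j =>
      (hg j).differentiableAt (isOpen_ball.mem_nhds hz)).differentiableWithinAt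
  have hPball : ∀ z ∈ ball (0 : E) 1, P z ∈ ball (0 : E) 1 := by
    intro z hz
    have h1 := A10_pt_norm hP (mem_ball_zero_iff.mp hz) le_rfl zero_le_one
    rw [pt_zero] at h1
    exact mem_ball_zero_iff.mpr (h1.trans_lt (mem_ball_zero_iff.mp hz))
  have hG1 : ∀ z ∈ ball (0 : E) 1, dt (F (P z)) (G (P z)) = 1 ∧
      QQ (F (P z)) (G (P z)) ≤ L ^ 2 := by
    intro z hz
    obtain ⟨h1, h2⟩ := hg1 z hz
    refine ⟨h1, ?_⟩
    obtain ⟨h3, h4⟩ := hF1 _ (hPball z hz)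
    have h5 : 0 < ‖F (P z)‖ := hδ₀.trans_le h3
    have h6 : ‖G (P z)‖ ≤ A := by
      rw [← hGn] at h2
      exact le_of_sq_le_sq h2 hA.le
    have h7 : ‖G (P z) - ee (F (P z))‖ ≤ A + 1 / δ₀ := by
      refine (norm_sub_le _ _).trans (add_le_add h6 ?_)
      rw [norm_ee (norm_pos_iff.mp h5), ← one_div]
      exact one_div_le_one_div_of_le hδ₀ h3
    rw [QQ, ← div_pow]
    refine pow_le_pow_left₀ (by positivity) (le_trans ?_ hL2) 2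
    exact div_le_div₀ (by positivity) h7 hδ₀ h3
  obtain ⟨K₀, hK₀, hfacts⟩ := aK_facts hL1 hδ₀ hFd hF1 hP hGd hG1 hs0 hs1
  have hs2 : 0 < 1 - s ^ 2 := by nlinarith
  obtain ⟨K₁, hK₁⟩ := exists_nat_ge (max (4 / (1 - s ^ 2)) (Cp / (g₀ * (1 - s ^ 2))))
  set K : ℕ := max K₀ K₁ with hKdef
  have hKK : K₀ ≤ K := le_max_left _ _
  have hK0 : 0 < K := hK₀.trans_le hKK
  have hKr : (0 : ℝ) < K := by exact_mod_cast hK0
  have hK1r : (K₁ : ℝ) ≤ K := by exact_mod_cast le_max_right K₀ K₁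
  have hKa : 4 / (1 - s ^ 2) ≤ K := (le_max_left _ _).trans (hK₁.trans hK1r)
  have hKb : Cp / (g₀ * (1 - s ^ 2)) ≤ K := (le_max_right _ _).trans (hK₁.trans hK1r)
  have hKg : Cp / (K * (1 - s ^ 2)) ≤ g₀ := by
    rw [div_le_iff₀ (by positivity)] at hKb ⊢
    linarith
  have hfK := hfacts K hKK
  set T : EuclideanSpace ℂ (Fin N) →L[ℂ] (Fin N → ℂ) :=
    ((EuclideanSpace.equiv (Fin N) ℂ) : EuclideanSpace ℂ (Fin N) →L[ℂ] (Fin N → ℂ)) with hT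
  have hTa : ∀ x j, T x j = x j := fun x j => rfl
  have hTn : ∀ x, ‖T x‖ ≤ ‖x‖ := fun x =>
    (pi_norm_le_iff_of_nonneg (norm_nonneg _)).mpr fun j => PiLp.norm_apply_le x j
  obtain ⟨d1, d2⟩ := hfK K le_rfl
  have hone : (K : ℝ) / K = 1 := div_self hKr.ne'
  refine ⟨fun z => T (aK (1 / L ^ 2) F G P K K z), ?_, ?_⟩
  · exact (T.restrictScalars ℝ).contDiff.comp_contDiffOn d1
  · intro z hz
    have hzs : ‖z‖ < s := mem_ball_zero_iff.mp hz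
    have hz1 : ‖z‖ < 1 := hzs.trans hs1
    have hzb : z ∈ ball (0 : E) 1 := mem_ball_zero_iff.mpr hz1
    obtain ⟨e1, e2, e3⟩ := d2 z hz
    rw [hone, pt_one] at e1 e2
    have hFz := hF1 z hzb
    have hFpos : 0 < ‖F z‖ := hδ₀.trans_le hFz.1
    have hexp : 0 ≤ 8 * Cs * Cp ^ 2 * Real.exp 1 := by positivity
    have hrest : 0 ≤ 1 / δ + L ^ 2 + 1 := by positivity
    refine ⟨e1, ?_, ?_, ?_⟩
    · refine (hTn _).trans ?_
      have h1 := norm_sol (norm_pos_iff.mp hFpos) e1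
      have h2 : ‖aK (1 / L ^ 2) F G P K K z - ee (F z)‖ ^ 2 ≤ L ^ 2 + 1 := by
        rw [QQ, div_le_iff₀ (by positivity)] at e2
        refine e2.trans (mul_le_of_le_one_right (by positivity) ?_)
        exact pow_le_one₀ (norm_nonneg _) hFz.2
      have h3 : 1 / ‖F z‖ ^ 2 ≤ 1 / δ := by
        refine one_div_le_one_div_of_le hδ ?_
        rw [← hδsq]
        exact pow_le_pow_left₀ hδ₀.le hFz.1 2
      have h4 : ‖aK (1 / L ^ 2) F G P K K z‖ ^ 2 ≤ 1 / δ + L ^ 2 + 1 := by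
        rw [h1]
        linarith
      have h5 : ‖aK (1 / L ^ 2) F G P K K z‖ ≤ 1 / δ + L ^ 2 + 1 := by
        have h6 : 1 ≤ 1 / δ + L ^ 2 + 1 := by
          have : 0 ≤ 1 / δ + L ^ 2 := by positivity
          linarith
        nlinarith [norm_nonneg (aK (1 / L ^ 2) F G P K K z)]
      linarith
    · intro j
      have h1 : T (aK (1 / L ^ 2) F G P K K (P z)) j = g j (P z) := by
        rw [hTa, e3]
      exact h1
    · intro ξ
      have hgau : 0 ≤ gau (1 - ‖z‖ ^ 2) z ξ := by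
        rw [gau]
        have : 0 ≤ 1 - ‖z‖ ^ 2 := by nlinarith [norm_nonneg z]
        positivity
      have hOm : 0 ≤ Om (nuE μ m M f) M z := Om_nonneg hz1
      have hKrr : 4 / (1 - rr P z ^ 2) ≤ K := by
        refine le_trans ?_ hKa
        have := A10_rr hP hzs hs1
        gcongr
      have hadiff : DifferentiableAt ℝ (aK (1 / L ^ 2) F G P K K) z :=
        (d1.contDiffAt (isOpen_ball.mem_nhds hz)).differentiableAt (by norm_num)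
      rw [A10_D01 T hadiff ξ]
      refine (hTn _).trans ?_
      refine (A10_point hδ₀ hL1 hCp hCs hsmall hstep hf hF1 hP hGd hOm hzs hs1 hK0 hKg hfK
        (fun t t0 t1 => hpath f hf hfle P hP z K t hz1 hK0 hKrr t0 t1) ξ hgau).trans ?_
      rw [mul_assoc (1 / δ + L ^ 2 + 1 + 8 * Cs * Cp ^ 2 * Real.exp 1)]
      refine mul_le_mul_of_nonneg_right ?_ (mul_nonneg hOm hgau)
      linarith

end Pool.Agent.MPca0fc2.TE
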