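import Mathlib
import Pool.Agent.Lib.MP_ca0fc2_an.TE.A10
import Pool.Agent.Lib.MP_ca0fc2_an.TE.G5
import Pool.Agent.Lib.MP_ca0fc2_an.TE.B5a
import Pool.Agent.Lib.MP_ca0fc2_an.TS.Sol
import Pool.Agent.Lib.MP_ca0fc2_an.TS.Th
import Pool.Agent.Lib.MP_ca0fc2_an.TS.Sharp

set_option autoImplicit false
set_option linter.unusedSectionVars false

open Metric Set MeasureTheory Filter Topology
open scoped InnerProductSpace ENNReal ContDiff

namespace Pool.Agent.MPca0fc2.TE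

open Pool.Agent.MPca0fc2.PT
open Pool.Agent.MPca0fc2.QT
open Pool.Agent.MPca0fc2.TS

variable {E : Type*} [NormedAddCommGroup E] [InnerProductSpace ℂ E]
variable [FiniteDimensional ℂ E] [MeasurableSpace E] [BorelSpace E]

/-- chain rule for the conjugate linear derivative -/
private theorem B7_chain {Y : Type*} [NormedAddCommGroup Y] [NormedSpace ℂ Y] {h : E → Y}
    (L : E →L[ℂ] E) {z : E} (hh : DifferentiableAt ℝ h (L z)) (v : E) :
    D01 (fun z => h (L z)) z v = D01 h (L z) (L v) := by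
  have h1 : HasFDerivAt (fun z => h (L z)) ((fderiv ℝ h (L z)).comp (L.restrictScalars ℝ)) z :=
    hh.hasFDerivAt.comp z (L.restrictScalars ℝ).hasFDerivAt
  rw [D01_apply, D01_apply, h1.fderiv]
  simp only [ContinuousLinearMap.comp_apply, ContinuousLinearMap.coe_restrictScalars', map_smul]

private theorem B7_gau {d : ℝ} (hd : 0 < d) {r : ℝ} (hr : 0 ≤ r) (hr1 : r ≤ 1) (w v : E) :
    gau d ((r : ℂ) • w) ((r : ℂ) • v) ≤ gau d w v := by
  unfold gau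
  rw [inner_smul_left, inner_smul_right, Complex.conj_ofReal, norm_mul, norm_mul, norm_smul,
    Complex.norm_real, Real.norm_of_nonneg hr]
  have h1 : r * (r * ‖⟪w, v⟫_ℂ‖) ≤ ‖⟪w, v⟫_ℂ‖ := by
    have := norm_nonneg ⟪w, v⟫_ℂ
    nlinarith [mul_nonneg hr this]
  have h2 : r * ‖v‖ ≤ ‖v‖ := by nlinarith [norm_nonneg v]
  have hs : 0 < Real.sqrt d := Real.sqrt_pos.mpr hd
  gcongr

private theorem B7_lt {θ : ℝ} (h0 : 0 < θ) (h1 : θ < 1) {k : ℕ} {w : E} (hw : ‖w‖ < RC θ k) :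
    (rt θ k : ℂ) • w ∈ ball (0 : E) (1 - θ ^ k / 8) := by
  have h2 := dl_ge h0 h1 (Nat.le_succ k) hw
  have h3 := rt_smul_mem h0 h1 (Nat.le_succ k) hw
  rw [mem_ball_zero_iff] at h3 ⊢
  have hr : 0 ≤ rt θ k := by
    unfold rt
    linarith [pow_le_one₀ (n := k) h0.le h1.le]
  have h4 : ‖(rt θ k : ℂ) • w‖ = rt θ k * ‖w‖ := by
    rw [norm_smul, Complex.norm_real, Real.norm_of_nonneg hr]
  rw [h4]
  have h5 : dl θ k w = 1 - (rt θ k * ‖w‖) ^ 2 := by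
    unfold dl
    ring
  rw [h5] at h2
  have hk : 0 < θ ^ k := pow_pos h0 k
  have hk1 : θ ^ k ≤ 1 := pow_le_one₀ h0.le h1.le
  by_contra hcon
  have h6 : 1 - θ ^ k / 8 ≤ rt θ k * ‖w‖ := not_lt.1 hcon
  have h7 : (1 - θ ^ k / 8) ^ 2 ≤ (rt θ k * ‖w‖) ^ 2 :=
    pow_le_pow_left₀ (by linarith) h6 2
  nlinarith

/-- The data of the descent at the level `k ≥ 1` from the transport. `‖rt θ k • w‖ ≤ 1 - θ^k/4 < s := 1 - θ^k/8` for `‖w‖ < RC θ k` (`dl_ge` or elementary). `transport` for this `s` gives `ht`; `σ w := ht (rt θ k • w)`. `sol`: `ContDiffOn` composed with a dilation;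
`FF_c2` (TS/Sol) and holomorphy of `FF` (see `s0_sol`); `FF f θ k w (σ w) = ∑ f_j (r w) ht_j (r w) = 1` (`FF` is `∑ uk (f j) proj j`); `zero`: differentiate `F (σ) = 1` (`D01_clm` in TS/Sharp: `0 = D01 (F σ) = F (D01 σ)`). `sb, ds`: `D01 σ w v = D01 ht (r w) (r v)` and
`gau (1 - ‖r w‖²) (r w) (r v) ≤ gau (dl θ k w) w v` since `0 ≤ r ≤ 1`; `Wk_eq`. `Wb`: `Om_le`. `Fb`: `FF_le` or `N`. `zer`: `ht (P z) = g (P z)` on the ball of radius `s`, `z ↦ g (P z)` holomorphic, so `0 = D01 (ht ∘ P) z v = D01 ht (P z) (P v)`. -/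
theorem LD_exists (μ : Measure E) [μ.IsAddHaarMeasure] {m : ℕ} (hm : 1 ≤ m)
    (hdim : Module.finrank ℂ E = m + 1) {M : ℕ} (hM : m + 2 ≤ M) (N : ℕ) {δ A : ℝ} (hδ : 0 < δ)
    (hA : 0 < A) {δ' θ : ℝ} (h0 : 0 < θ) (h1 : θ < 1) : ∃ C₀ : ℝ, 0 < C₀ ∧
      ∀ f : Fin N → E → ℂ, (∀ j, DifferentiableOn ℂ (f j) (ball 0 1)) →
      (∀ z ∈ ball (0 : E) 1, δ ≤ ∑ j, ‖f j z‖ ^ 2 ∧ ∑ j, ‖f j z‖ ^ 2 ≤ 1) → TD f δ' θ →
      ∀ P : E →L[ℂ] E, Prj P → ∀ g : Fin N → E → ℂ,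
      (∀ j, DifferentiableOn ℂ (fun z => g j (P z)) (ball 0 1)) →
      (∀ z ∈ ball (0 : E) 1, ∑ j, f j (P z) * g j (P z) = 1 ∧ ∑ j, ‖g j (P z)‖ ^ 2 ≤ A ^ 2) →
      ∀ k : ℕ, 1 ≤ k → ∃ σ : E → Fin N → ℂ,
        LD θ (nuE μ m M f) M k C₀ P σ (FF f θ k) ∧
        ∀ w ∈ ball (0 : E) 1, ∀ j, σ (P w) j = g j (P ((rt θ k : ℂ) • w)) := by
  obtain ⟨C₁, hC₁, hT⟩ := transport μ hdim hM N hδ hA
  obtain ⟨C₂, hC₂, hO⟩ := Om_le μ hm hdim hM N
  refine ⟨C₁ + C₂ + N + 1, by positivity, fun f hf hb hTD P hP g hg hg1 k hk => ?_⟩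
  have hN0 : (0 : ℝ) ≤ N := Nat.cast_nonneg N
  have hpow : 0 < θ ^ k := pow_pos h0 k
  have hpow1 : θ ^ k ≤ 1 := pow_le_one₀ h0.le h1.le
  obtain ⟨ht, hc2, hh⟩ := hT f hf hb P hP g hg hg1 (1 - θ ^ k / 8) (by linarith) (by linarith)
  have hball : ∀ w : E, ‖w‖ < RC θ k → (rt θ k : ℂ) • w ∈ ball (0 : E) (1 - θ ^ k / 8) :=
    fun w hw => B7_lt h0 h1 hw
  have hRC : (1 : ℝ) < RC θ k := by
    unfold RC
    have : 0 < θ ^ (k + 1) := pow_pos h0 _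
    linarith
  have hPn : ∀ z : E, ‖P z‖ ≤ ‖z‖ := by
    intro z
    have h2 := pyth hP z
    have h3 : ‖P z‖ ^ 2 ≤ ‖z‖ ^ 2 := by
      have := sq_nonneg ‖z - P z‖
      linarith
    exact (sq_le_sq₀ (norm_nonneg _) (norm_nonneg _)).1 h3
  have hcd : ∀ z ∈ ball (0 : E) (1 - θ ^ k / 8), ContDiffAt ℝ 2 ht z := fun z hz =>
    hc2.contDiffAt (isOpen_ball.mem_nhds hz)
  have hdf : ∀ z ∈ ball (0 : E) (1 - θ ^ k / 8), DifferentiableAt ℝ ht z := fun z hz =>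
    (hcd z hz).differentiableAt (by norm_num)
  -- the dilation
  obtain ⟨R, hR⟩ : ∃ R : E →L[ℂ] E, ∀ w, R w = (rt θ k : ℂ) • w :=
    ⟨(rt θ k : ℂ) • ContinuousLinearMap.id ℂ E, fun w => rfl⟩
  obtain ⟨σ, hσ⟩ : ∃ σ : E → Fin N → ℂ, σ = fun w => ht (R w) := ⟨_, rfl⟩
  have hσ1 : ∀ w, σ w = ht ((rt θ k : ℂ) • w) := fun w => by rw [hσ, ← hR]
  have hR1 : ∀ w : E, ‖w‖ < RC θ k → R w ∈ ball (0 : E) (1 - θ ^ k / 8) := fun w hw => by
    rw [hR]
    exact hball w hw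
  have hσc : ∀ w : E, ‖w‖ < RC θ k → ContDiffAt ℝ 2 σ w := by
    intro w hw
    rw [hσ]
    exact (hcd _ (hR1 w hw)).comp w (R.restrictScalars ℝ).contDiff.contDiffAt
  have hσD : ∀ w : E, ‖w‖ < RC θ k → ∀ v, D01 σ w v = D01 ht (R w) (R v) := by
    intro w hw v
    rw [hσ]
    exact B7_chain R (hdf _ (hR1 w hw)) v
  have hone : ∀ w : E, ‖w‖ < RC θ k → FF f θ k w (σ w) = 1 := by
    intro w hw
    have h2 : FF f θ k w (σ w) = ∑ j, uk (f j) θ k w * σ w j := by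
      unfold FF
      rw [_root_.sum_apply]
      rfl
    rw [h2, hσ1]
    exact (hh _ (hball w hw)).1
  have hev : ∀ w : E, ‖w‖ < RC θ k → ∀ᶠ x in 𝓝 w, FF f θ k x (σ x) = 1 := by
    intro w hw
    have h2 : ∀ᶠ x in 𝓝 w, ‖x‖ < RC θ k :=
      (continuous_norm.continuousAt (x := w)).eventually_lt continuousAt_const hw
    filter_upwards [h2] with x hx
    exact hone x hx
  have hPC : ∀ w : E, ‖w‖ < RC θ k → ‖P w‖ < RC θ k := fun w hw => (hPn w).trans_lt hw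
  have hRP : ∀ w, R (P w) = P (R w) := fun w => by rw [hR, hR, map_smul]
  refine ⟨σ, ⟨hP, ?_, ?_, ?_, ?_, ?_, ?_, ?_⟩, ?_⟩
  · intro w hw
    refine ⟨hσc w hw, (FF_c2 hTD hw (Nat.le_succ k)).2, hone w hw, ?_⟩
    exact F_D01 (FF_c2 hTD hw (Nat.le_succ k)).2 ((hσc w hw).differentiableAt (by norm_num))
      (hev w hw)
  · intro w hw
    exact (FF_c2 hTD hw (Nat.le_succ k)).1.of_le (by norm_num)
  · intro w hw
    rw [hσ1]
    have := (hh _ (hball w hw)).2.1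
    linarith
  · intro w hw
    have := FF_le hTD hw (Nat.le_succ k)
    linarith
  · intro w hw
    rw [Wk_eq]
    have h2 : (rt θ k : ℂ) • w ∈ ball (0 : E) 1 := rt_smul_mem h0 h1 (Nat.le_succ k) hw
    have := hO f hf hTD.hfM _ h2
    linarith
  · intro w hw v
    rw [hσD w hw, Wk_eq, hR, hR]
    have h2 := (hh _ (hball w hw)).2.2.2 ((rt θ k : ℂ) • v)
    have h3 : (rt θ k : ℂ) • w ∈ ball (0 : E) 1 := rt_smul_mem h0 h1 (Nat.le_succ k) hw
    have hr : 0 ≤ rt θ k := by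
      unfold rt
      linarith
    have hr1 : rt θ k ≤ 1 := by
      unfold rt
      linarith
    have h4 : 1 - ‖(rt θ k : ℂ) • w‖ ^ 2 = dl θ k w := by
      rw [norm_smul, Complex.norm_real, Real.norm_of_nonneg hr]
      unfold dl
      ring
    rw [h4] at h2
    have hd : 0 < dl θ k w := by
      have := dl_ge h0 h1 (Nat.le_succ k) hw
      linarith
    have h5 := B7_gau hd hr hr1 w v
    have h6 : 0 ≤ Om (nuE μ m M f) M ((rt θ k : ℂ) • w) :=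
      Om_nonneg (by rwa [mem_ball_zero_iff] at h3)
    have h7 : 0 ≤ gau (dl θ k w) w v := by
      unfold gau
      positivity
    refine h2.trans ?_
    have h8 : C₁ ≤ C₁ + C₂ + N + 1 := by linarith
    have h9 : 0 ≤ gau (dl θ k w) ((rt θ k : ℂ) • w) ((rt θ k : ℂ) • v) := by
      unfold gau
      positivity
    exact mul_le_mul (mul_le_mul_of_nonneg_right h8 h6) h5 h9 (by positivity)
  · intro w hw v
    rw [hσD (P w) (hPC w hw), hRP, hRP]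
    have hz := hR1 w hw
    have hPz : P (R w) ∈ ball (0 : E) (1 - θ ^ k / 8) := by
      rw [mem_ball_zero_iff] at hz ⊢
      exact (hPn _).trans_lt hz
    rw [← B7_chain P (hdf _ hPz)]
    have h2 : (fun z => ht (P z)) =ᶠ[𝓝 (R w)] fun z j => g j (P z) := by
      filter_upwards [isOpen_ball.mem_nhds hz] with z hz'
      funext j
      exact (hh z hz').2.2.1 j
    have h3 : DifferentiableAt ℂ (fun z => ht (P z)) (R w) := by
      refine DifferentiableAt.congr_of_eventuallyEq ?_ h2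
      rw [differentiableAt_pi]
      intro j
      refine (hg j).differentiableAt (isOpen_ball.mem_nhds ?_)
      refine ball_subset_ball ?_ hz
      linarith
    rw [D01_holo h3]
    rfl
  · intro w hw j
    rw [mem_ball_zero_iff] at hw
    rw [hσ1, ← hR, hRP, ← hR]
    exact (hh _ (hR1 w (hw.trans hRC))).2.2.1 j

end Pool.Agent.MPca0fc2.TE
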