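import Mathlib
import Pool.Agent.Lib.MP_ca0fc2_an.Mg.G122
import Pool.Agent.Lib.MP_ca0fc2_an.TE.G1
import Pool.Agent.Lib.MP_ca0fc2_an.TS.Th

set_option autoImplicit false
set_option linter.unusedSectionVars false

open Metric Set MeasureTheory Filter Topology
open scoped InnerProductSpace ENNReal ContDiff

namespace Pool.Agent.MPca0fc2.TE

open Pool.Agent.MPca0fc2.PT
open Pool.Agent.MPca0fc2.QT
open Pool.Agent.MPca0fc2.TS

variable {E : Type*} [NormedAddCommGroup E] [InnerProductSpace ℂ E] [FiniteDimensional ℂ E]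

/-- The limit `k → ∞`. Pattern: `TS.limit_W` (TS/Th.lean): ultrafilter limits, `SL.ultra_holo`; the index `K` starts at `1` (take `H (K + 1)`). The new points: `h j (P z) = g j (P (r_K z)) → g j (P z)` (`g j ∘ P` is continuous on the ball), and
`‖h j z‖ ≤ B K z → B' z`. -/
theorem limitE {N : ℕ} {f : Fin N → E → ℂ} {θ : ℝ} (h0 : 0 < θ) (h1 : θ < 1)
    (hf : ∀ j, DifferentiableOn ℂ (f j) (ball 0 1)) {P : E →L[ℂ] E} (hP : Prj P)
    {g : Fin N → E → ℂ} (hg : ∀ j, DifferentiableOn ℂ (fun z => g j (P z)) (ball 0 1))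
    {B : ℕ → E → ℝ} {B' Φ : E → ℝ} (hΦ : ContinuousOn Φ (ball 0 1))
    (hBΦ : ∀ K, ∀ z ∈ ball (0 : E) 1, B K z ≤ Φ z)
    (hB : ∀ z ∈ ball (0 : E) 1, Tendsto (fun K => B K z) atTop (𝓝 (B' z)))
    (h : ∀ K : ℕ, 1 ≤ K → ∃ H : Fin N → E → ℂ, (∀ j, DifferentiableOn ℂ (H j) (ball 0 1)) ∧
      ∀ z ∈ ball (0 : E) 1, ∑ j, uk (f j) θ K z * H j z = 1 ∧
        (∀ j, H j (P z) = g j (P ((rt θ K : ℂ) • z))) ∧ ∀ j, ‖H j z‖ ≤ B K z) :
    ∃ H : Fin N → E → ℂ, (∀ j, DifferentiableOn ℂ (H j) (ball 0 1)) ∧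
      ∀ z ∈ ball (0 : E) 1, ∑ j, f j z * H j z = 1 ∧
        (∀ j, H j (P z) = g j (P z)) ∧ ∀ j, ‖H j z‖ ≤ B' z := by
  have h' : ∀ K : ℕ, ∃ H : Fin N → E → ℂ, (∀ j, DifferentiableOn ℂ (H j) (ball 0 1)) ∧
      ∀ z ∈ ball (0 : E) 1, ∑ j, uk (f j) θ (K + 1) z * H j z = 1 ∧
        (∀ j, H j (P z) = g j (P ((rt θ (K + 1) : ℂ) • z))) ∧ ∀ j, ‖H j z‖ ≤ B (K + 1) z :=
    fun K => h (K + 1) (Nat.le_add_left 1 K)
  choose H hH1 hH2 using h'
  set 𝒰 : Ultrafilter ℕ := Ultrafilter.of atTop with h𝒰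
  have hle : (𝒰 : Filter ℕ) ≤ atTop := Ultrafilter.of_le _
  have hHΦ : ∀ i j, ∀ z ∈ ball (0 : E) 1, ‖H i j z‖ ≤ Φ z := fun i j z hz =>
    ((hH2 i z hz).2.2 j).trans (hBΦ _ z hz)
  have hs : Tendsto (fun i : ℕ => i + 1) atTop atTop := tendsto_add_atTop_nat 1
  have key : ∀ j, ∃ g : E → ℂ, DifferentiableOn ℂ g (ball 0 1) ∧
      ∀ z ∈ ball (0 : E) 1, Tendsto (fun i => H i j z) 𝒰 (𝓝 (g z)) := by
    intro j
    have h2 : ∀ z, z ∈ ball (0 : E) 1 →
        ∃ y : ℂ, Tendsto (fun i => H i j z) 𝒰 (𝓝 y) := by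
      intro z hz
      have hc : IsCompact (closedBall (0 : ℂ) (Φ z)) := isCompact_closedBall 0 (Φ z)
      obtain ⟨y, hy, hy2⟩ := hc.ultrafilter_le_nhds' (𝒰.map fun i => H i j z) (by
        rw [Ultrafilter.mem_map]
        apply Filter.univ_mem'
        intro i
        exact mem_closedBall_zero_iff.mpr (hHΦ i j z hz))
      exact ⟨y, hy2⟩
    choose! g hg2 using h2
    refine ⟨g, ?_, hg2⟩
    intro z₀ hz₀
    obtain ⟨r, hr, hsub⟩ := Metric.isOpen_iff.mp isOpen_ball z₀ hz₀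
    have hcl : closedBall z₀ (r / 2) ⊆ ball (0 : E) 1 :=
      (closedBall_subset_ball (by linarith)).trans hsub
    have : ProperSpace E := FiniteDimensional.proper ℂ E
    obtain ⟨M, hM⟩ := (isCompact_closedBall z₀ (r / 2)).exists_bound_of_continuousOn
      (hΦ.mono hcl)
    have hb : ∀ i, ∀ z ∈ ball z₀ (r / 2), ‖H i j z‖ ≤ max M 0 := by
      intro i z hz
      have h3 := ball_subset_closedBall hz
      exact (hHΦ i j z (hcl h3)).trans ((le_abs_self _).trans ((hM z h3).trans (le_max_left _ _)))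
    obtain ⟨g', hd', -, ht'⟩ := Pool.Agent.MPca0fc2.SL.ultra_holo 𝒰 (G := fun i => H i j)
      (U := ball z₀ (r / 2)) isOpen_ball (le_max_right M 0)
      (fun i => (hH1 i j).mono (ball_subset_closedBall.trans hcl)) hb
    have heq : ∀ z ∈ ball z₀ (r / 2), g z = g' z := fun z hz =>
      tendsto_nhds_unique (hg2 z (hcl (ball_subset_closedBall hz))) (ht' z hz)
    have hmem : ball z₀ (r / 2) ∈ 𝓝 z₀ := ball_mem_nhds z₀ (by linarith)
    have hd : DifferentiableAt ℂ g' z₀ := hd'.differentiableAt hmem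
    have hd2 : DifferentiableAt ℂ g z₀ := by
      refine hd.congr_of_eventuallyEq ?_
      filter_upwards [hmem] with z hz
      exact heq z hz
    exact hd2.differentiableWithinAt
  choose G hG1 hG3 using key
  have hrt : ∀ z : E, Tendsto (fun i : ℕ => (rt θ (i + 1) : ℂ) • z) atTop (𝓝 z) := by
    intro z
    have h3 : Tendsto (fun i : ℕ => rt θ i) atTop (𝓝 1) := by
      have h4 := (tendsto_pow_atTop_nhds_zero_of_lt_one h0.le h1).const_sub 1
      rw [sub_zero] at h4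
      exact h4
    have h3' : Tendsto (fun i : ℕ => rt θ (i + 1)) atTop (𝓝 1) := h3.comp hs
    have h5 : Tendsto (fun i : ℕ => ((rt θ (i + 1) : ℝ) : ℂ)) atTop (𝓝 ((1 : ℝ) : ℂ)) :=
      (Complex.continuous_ofReal.tendsto 1).comp h3'
    have h6 := h5.smul_const z
    rwa [Complex.ofReal_one, one_smul] at h6
  refine ⟨G, hG1, fun z hz => ⟨?_, fun j => ?_, fun j => ?_⟩⟩
  · have h1' : Tendsto (fun i => ∑ j, uk (f j) θ (i + 1) z * H i j z) 𝒰
        (𝓝 (∑ j, f j z * G j z)) := by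
      apply tendsto_finsetSum
      intro j _
      apply Tendsto.mul _ (hG3 j z hz)
      have h5 : ContinuousAt (f j) z :=
        ((hf j).differentiableAt (isOpen_ball.mem_nhds hz)).continuousAt
      exact (h5.tendsto.comp (hrt z)).mono_left hle
    have h2' : Tendsto (fun i => ∑ j, uk (f j) θ (i + 1) z * H i j z) 𝒰 (𝓝 1) := by
      refine (tendsto_const_nhds).congr fun i => ?_
      exact ((hH2 i z hz).1).symm
    exact tendsto_nhds_unique h1' h2'
  · have hz' : P z ∈ ball (0 : E) 1 := by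
      rw [mem_ball_zero_iff] at hz ⊢
      have h2 := pyth hP z
      have h3 : ‖P z‖ ^ 2 ≤ ‖z‖ ^ 2 := by nlinarith [sq_nonneg ‖z - P z‖]
      exact ((sq_le_sq₀ (norm_nonneg _) (norm_nonneg _)).1 h3).trans_lt hz
    have h2 := hG3 j (P z) hz'
    have h5 : ContinuousAt (fun z => g j (P z)) z :=
      ((hg j).differentiableAt (isOpen_ball.mem_nhds hz)).continuousAt
    have h6 : Tendsto (fun i : ℕ => g j (P ((rt θ (i + 1) : ℂ) • z))) 𝒰 (𝓝 (g j (P z))) :=
      (h5.tendsto.comp (hrt z)).mono_left hle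
    refine tendsto_nhds_unique h2 (h6.congr fun i => ?_)
    exact ((hH2 i z hz).2.1 j).symm
  · have h2 := (hG3 j z hz).norm
    have h3 : Tendsto (fun i : ℕ => B (i + 1) z) 𝒰 (𝓝 (B' z)) :=
      ((hB z hz).comp hs).mono_left hle
    exact le_of_tendsto_of_tendsto' h2 h3 fun i => (hH2 i z hz).2.2 j

end Pool.Agent.MPca0fc2.TE
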