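import Mathlib
import Pool.Agent.Lib.MP_ca0fc2_an.TE.B6
import Pool.Agent.Lib.MP_ca0fc2_an.TE.B7
import Pool.Agent.Lib.MP_ca0fc2_an.TE.G6
import Pool.Agent.Lib.MP_ca0fc2_an.TE.L1

set_option autoImplicit false
set_option linter.unusedSectionVars false

open Metric Set MeasureTheory Filter Topology
open scoped InnerProductSpace ENNReal ContDiff

namespace Pool.Agent.MPca0fc2.TE

open Pool.Agent.MPca0fc2.PT
open Pool.Agent.MPca0fc2.QT
open Pool.Agent.MPca0fc2.TS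

variable {E : Type*} [NormedAddCommGroup E] [InnerProductSpace ℂ E]
variable [FiniteDimensional ℂ E] [MeasurableSpace E] [BorelSpace E]

/-- THEOREM E. Pattern: `TS.grow_N` (TS/Fi.lean). `exists_theta N hδ` (gives `θ` with `TD f δ θ`), `LD_exists`, `nuE_OnB`, `levelE`, `limitE` with `B K z = C (1 + GI (Wk ν M θ K) P z)`, `Φ z = C (1 + C₀/(1 - ‖z‖²))` (`GI_loc`, `Wk_cont`, `LD.Wb`), `GI_lim`.
`FF f θ k w (fun j => h j w) = ∑ j, uk (f j) θ k w * h j w`. -/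
theorem extend_N (μ : Measure E) [μ.IsAddHaarMeasure] {m : ℕ} (hm : 1 ≤ m)
    (hdim : Module.finrank ℂ E = m + 1) (N : ℕ) {δ A : ℝ} (hδ : 0 < δ) (hA : 0 < A) {M : ℕ}
    (hM : m + 2 ≤ M) : ∃ C : ℝ, 0 < C ∧ ∀ f : Fin N → E → ℂ,
      (∀ j, DifferentiableOn ℂ (f j) (ball 0 1)) →
      (∀ z ∈ ball (0 : E) 1, δ ≤ ∑ j, ‖f j z‖ ^ 2 ∧ ∑ j, ‖f j z‖ ^ 2 ≤ 1) →
      ∀ P : E →L[ℂ] E, Prj P → ∀ g : Fin N → E → ℂ,
      (∀ j, DifferentiableOn ℂ (fun z => g j (P z)) (ball 0 1)) →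
      (∀ z ∈ ball (0 : E) 1, ∑ j, f j (P z) * g j (P z) = 1 ∧ ∑ j, ‖g j (P z)‖ ^ 2 ≤ A ^ 2) →
      ∃ h : Fin N → E → ℂ, (∀ j, DifferentiableOn ℂ (h j) (ball 0 1)) ∧
        ∀ z ∈ ball (0 : E) 1, ∑ j, f j z * h j z = 1 ∧ (∀ j, h j (P z) = g j (P z)) ∧
          ∀ j, ‖h j z‖ ≤ C * (1 + GI (Om (nuE μ m M f) M) P z) := by
  obtain ⟨θ, h0, h1, hTD⟩ := exists_theta (E := E) N hδ
  obtain ⟨C₀, hC₀, hLD⟩ := LD_exists μ hm hdim hM N hδ hA (δ' := δ) h0 h1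
  obtain ⟨C, hC, hlev⟩ := levelE μ hm hdim N h0 h1 hC₀ M
  obtain ⟨C₃, hC₃, hOm⟩ := Om_le μ hm hdim hM N
  refine ⟨C, hC, fun f hf hb P hP g hg hgs => ?_⟩
  have hf1 : ∀ j, ∀ z ∈ ball (0 : E) 1, ‖f j z‖ ≤ 1 := by
    intro j z hz
    have h2 := (hb z hz).2
    have h3 : ‖f j z‖ ^ 2 ≤ ∑ j, ‖f j z‖ ^ 2 :=
      Finset.single_le_sum (f := fun j => ‖f j z‖ ^ 2) (fun _ _ => sq_nonneg _)
        (Finset.mem_univ j)
    nlinarith [norm_nonneg (f j z)]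
  have hν : OnB (nuE μ m M f) := nuE_OnB μ hM hf hf1
  have hT : TD f δ θ := hTD f hf hf1 fun z hz => (hb z hz).1
  have hW : ∀ k : ℕ, ∀ w ∈ ball (0 : E) 1, Wk (nuE μ m M f) M θ k w ≤ C₃ := by
    intro k w hw
    rw [Wk_eq]
    refine hOm f hf hf1 _ ?_
    rw [mem_ball_zero_iff] at hw ⊢
    rw [norm_smul, Complex.norm_real]
    have h2 : 0 ≤ rt θ k := sub_nonneg.2 (pow_le_one₀ h0.le h1.le)
    have h3 : rt θ k ≤ 1 := sub_le_self _ (pow_pos h0 _).le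
    rw [Real.norm_of_nonneg h2]
    nlinarith [norm_nonneg w]
  refine limitE (B := fun k z => C * (1 + GI (Wk (nuE μ m M f) M θ k) P z))
    (Φ := fun z => C * (1 + C₃ / (1 - ‖z‖ ^ 2))) h0 h1 hf hP hg ?_ ?_ ?_ ?_
  · refine continuousOn_const.mul (continuousOn_const.add (continuousOn_const.div
      (continuousOn_const.sub (continuous_norm.continuousOn.pow 2)) fun z hz => ?_))
    rw [mem_ball_zero_iff] at hz
    nlinarith [norm_nonneg z]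
  · intro K z hz
    refine mul_le_mul_of_nonneg_left ?_ hC.le
    have := GI_loc hP hC₃.le (Wk_cont hν M h0 h1 K) (hW K) (mem_ball_zero_iff.1 hz)
    linarith
  · intro z hz
    exact ((GI_lim hP hν M h0 h1 (mem_ball_zero_iff.1 hz)).const_add 1).const_mul C
  · intro k hk
    obtain ⟨σ, hσ, hσg⟩ := hLD f hf hb hT P hP g hg hgs k hk
    obtain ⟨H, H1, H2⟩ := hlev _ hν k hk P σ (FF f θ k) hσ
    refine ⟨H, H1, fun z hz => ⟨?_, fun j => ?_, (H2 z hz).2.2⟩⟩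
    · have h2 := (H2 z hz).1
      rw [← h2]
      unfold FF
      simp only [ContinuousLinearMap.sum_apply, ContinuousLinearMap.smul_apply, smul_eq_mul,
        ContinuousLinearMap.proj_apply]
    · rw [(H2 z hz).2.1 j, hσg z hz j]

end Pool.Agent.MPca0fc2.TE
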