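import Mathlib
import Pool.Agent.Lib.MP_ca0fc2_an.Mg.G122
import Pool.Agent.Lib.MP_ca0fc2_an.CoronaDisc
import Pool.Agent.Lib.MP_ca0fc2_an.TE.G1
import Pool.Agent.Lib.MP_ca0fc2_an.TE.B4a

set_option autoImplicit false
set_option linter.unusedSectionVars false

open Metric Set MeasureTheory Filter Topology
open scoped InnerProductSpace ENNReal ContDiff

namespace Pool.Agent.MPca0fc2.TE

open Pool.Agent.MPca0fc2.PT
open Pool.Agent.MPca0fc2.QT
open Pool.Agent.MPca0fc2.TS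

variable {E : Type*} [NormedAddCommGroup E] [InnerProductSpace ℂ E]

/-- Corona on the line of a unit vector `e`, `P = ` projection on `ℂ e`: `P z = ⟪e, z⟫ • e`. The functions `ζ ↦ f j (ζ • e)` are corona data on the unit disc; `corona_disc_unit` (CoronaDisc.lean) gives `u j` on the disc; `g j z := u j ⟪e, z⟫`. -/
theorem line_sol (N : ℕ) {δ : ℝ} (hδ : 0 < δ) : ∃ A : ℝ, 0 < A ∧ ∀ e : E, ‖e‖ = 1 →
    ∀ f : Fin N → E → ℂ, (∀ j, DifferentiableOn ℂ (f j) (ball 0 1)) →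
      (∀ z ∈ ball (0 : E) 1, δ ≤ ∑ j, ‖f j z‖ ^ 2 ∧ ∑ j, ‖f j z‖ ^ 2 ≤ 1) →
      ∃ g : Fin N → E → ℂ,
        (∀ j, DifferentiableOn ℂ (fun z => g j (((innerSL ℂ e).smulRight e) z)) (ball 0 1)) ∧
        ∀ z ∈ ball (0 : E) 1,
          ∑ j, f j (((innerSL ℂ e).smulRight e) z) * g j (((innerSL ℂ e).smulRight e) z) = 1 ∧
          ∑ j, ‖g j (((innerSL ℂ e).smulRight e) z)‖ ^ 2 ≤ A ^ 2 := by
  obtain ⟨K, hK, H⟩ := corona_disc_unit (ι := Fin N) hδ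
  refine ⟨((N : ℝ) + 1) * K, by positivity, fun e he f hf hb => ?_⟩
  have hee : ⟪e, e⟫_ℂ = 1 := by
    rw [inner_self_eq_norm_sq_to_K, he]
    simp
  have hball : ∀ ζ ∈ ball (0 : ℂ) 1, ζ • e ∈ ball (0 : E) 1 := by
    intro ζ hζ
    rw [mem_ball_zero_iff] at hζ ⊢
    rw [norm_smul, he, mul_one]
    exact hζ
  have hP : ∀ z : E, ((innerSL ℂ e).smulRight e : E →L[ℂ] E) z = ⟪e, z⟫_ℂ • e := fun z => rfl
  have hPe : ∀ z : E, ⟪e, ((innerSL ℂ e).smulRight e : E →L[ℂ] E) z⟫_ℂ = ⟪e, z⟫_ℂ := by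
    intro z
    rw [hP, inner_smul_right, hee, mul_one]
  have hball' : ∀ z ∈ ball (0 : E) 1, ⟪e, z⟫_ℂ ∈ ball (0 : ℂ) 1 := by
    intro z hz
    rw [mem_ball_zero_iff] at hz ⊢
    refine lt_of_le_of_lt (norm_inner_le_norm e z) ?_
    rw [he, one_mul]
    exact hz
  have hsm : Differentiable ℂ (fun ζ : ℂ => ζ • e) := differentiable_id.smul_const e
  obtain ⟨u, hu1, hu2, hu3⟩ := H (fun j ζ => f j (ζ • e))
    (fun j => (hf j).comp hsm.differentiableOn hball)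
    (fun j ζ hζ => by
      have h1 := (hb _ (hball ζ hζ)).2
      have h2 : ‖f j (ζ • e)‖ ^ 2 ≤ ∑ j, ‖f j (ζ • e)‖ ^ 2 :=
        Finset.single_le_sum (f := fun j => ‖f j (ζ • e)‖ ^ 2) (fun _ _ => sq_nonneg _)
          (Finset.mem_univ j)
      have h3 : ‖f j (ζ • e)‖ ^ 2 ≤ 1 := h2.trans h1
      exact (sq_le_one_iff₀ (norm_nonneg _)).1 h3)
    (fun ζ hζ => (hb _ (hball ζ hζ)).1)
  refine ⟨fun j z => u j ⟪e, z⟫_ℂ, fun j => ?_, fun z hz => ⟨?_, ?_⟩⟩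
  · have h1 : (fun z : E => u j ⟪e, ((innerSL ℂ e).smulRight e : E →L[ℂ] E) z⟫_ℂ) =
        fun z : E => u j (innerSL ℂ e z) := by
      funext z
      rw [hPe]
      rfl
    show DifferentiableOn ℂ (fun z : E => u j ⟪e, ((innerSL ℂ e).smulRight e : E →L[ℂ] E) z⟫_ℂ) (ball 0 1)
    rw [h1]
    exact (hu1 j).comp (innerSL ℂ e).differentiable.differentiableOn hball'
  · have h1 := hu3 _ (hball' z hz)
    rw [← h1]
    refine Finset.sum_congr rfl fun j _ => ?_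
    show f j (((innerSL ℂ e).smulRight e : E →L[ℂ] E) z) *
      u j ⟪e, ((innerSL ℂ e).smulRight e : E →L[ℂ] E) z⟫_ℂ = _
    rw [hPe, hP]
  · have h1 : ∀ j ∈ (Finset.univ : Finset (Fin N)),
        ‖u j ⟪e, ((innerSL ℂ e).smulRight e : E →L[ℂ] E) z⟫_ℂ‖ ^ 2 ≤ K ^ 2 := by
      intro j _
      rw [hPe]
      exact pow_le_pow_left₀ (norm_nonneg _) (hu2 j _ (hball' z hz)) 2
    refine (Finset.sum_le_sum h1).trans ?_
    rw [Finset.sum_const, Finset.card_univ, Fintype.card_fin, nsmul_eq_mul, mul_pow]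
    refine mul_le_mul_of_nonneg_right ?_ (sq_nonneg K)
    have hN : (0 : ℝ) ≤ N := Nat.cast_nonneg N
    nlinarith

theorem prj_line {e : E} (he : ‖e‖ = 1) : Prj ((innerSL ℂ e).smulRight e : E →L[ℂ] E) := by
  have hee : ⟪e, e⟫_ℂ = 1 := by
    rw [inner_self_eq_norm_sq_to_K, he]
    simp
  have hP : ∀ z : E, ((innerSL ℂ e).smulRight e : E →L[ℂ] E) z = ⟪e, z⟫_ℂ • e := fun z => rfl
  refine ⟨fun x => ?_, fun x y => ?_⟩
  · rw [hP, hP, inner_smul_right, hee, mul_one]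
  · rw [hP, hP, inner_smul_left, inner_smul_right, inner_conj_symm, mul_comm]

end Pool.Agent.MPca0fc2.TE
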