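import Mathlib
import Pool.Agent.Lib.MP_ca0fc2_an.TE.Main
import Pool.Agent.Lib.MP_ca0fc2_an.TE.G5
import Pool.Agent.Lib.MP_ca0fc2_an.TE.G6

set_option autoImplicit false
set_option linter.unusedSectionVars false

open Metric Set MeasureTheory Filter Topology
open scoped InnerProductSpace ENNReal ContDiff

/-! # Affine slices -/

namespace Pool.Agent.MPca0fc2.TE

open Pool.Agent.MPca0fc2.PT
open Pool.Agent.MPca0fc2.QT
open Pool.Agent.MPca0fc2.TS

variable {E : Type*} [NormedAddCommGroup E] [InnerProductSpace ℂ E]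

theorem HH_proj {P : E →L[ℂ] E} (h : Prj P) {z x : E} (hz : ‖z‖ < 1) (hx : ‖P x‖ < 1) :
    PT.HH z (P x) ≤ 1 - rr P z ^ 2 := by
  obtain ⟨r0, r1, d0, -, e1⟩ := rr_facts h hz 1
  obtain ⟨-, e2, -, -⟩ := Dp_anti h hz (s := 1) (t := 1) zero_le_one le_rfl le_rfl
  have e3 : 1 - ‖z‖ ^ 2 = (1 - ‖P z‖ ^ 2) * (1 - rr P z ^ 2) := by
    rw [← e2, e1]; ring
  have e4 : ⟪z, P x⟫_ℂ = ⟪P z, P x⟫_ℂ := by
    rw [h.sa, h.idem]
  have hPz : ‖P z‖ < 1 := by
    have := norm_nonneg (P z)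
    nlinarith
  have e5 : PT.HH z (P x) = (1 - rr P z ^ 2) * PT.HH (P z) (P x) := by
    unfold PT.HH
    rw [e3, e4]
    ring
  rw [e5]
  have h1 := HH_le_one hPz hx
  have h2 : 0 ≤ 1 - rr P z ^ 2 := by nlinarith
  nlinarith

theorem log_proj {P : E →L[ℂ] E} (h : Prj P) {z x : E} (hz : ‖z‖ < 1) (hx : ‖P x‖ < 1) :
    Real.log ((1 + rr P z) / (1 - rr P z)) / 2 ≤ 1 + Real.log (1 / PT.HH z (P x)) := by
  obtain ⟨r0, r1, -, -, -⟩ := rr_facts h hz 1
  have hH := HH_pos hz hx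
  have hH1 := HH_proj h hz hx
  have hH2 := HH_le_one hz hx
  have h1 : 0 < 1 - rr P z := by linarith
  have h2 : (1 + rr P z) / (1 - rr P z) ≤ 4 * (1 / PT.HH z (P x)) := by
    have e : (1 + rr P z) / (1 - rr P z) = (1 + rr P z) ^ 2 / (1 - rr P z ^ 2) := by
      rw [div_eq_div_iff (by linarith) (by nlinarith)]
      ring
    rw [e, mul_one_div]
    apply div_le_div₀ (by norm_num) (by nlinarith) hH hH1
  have h3 : Real.log ((1 + rr P z) / (1 - rr P z)) ≤ Real.log (4 * (1 / PT.HH z (P x))) :=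
    Real.log_le_log (by positivity) h2
  rw [Real.log_mul (by norm_num) (by positivity)] at h3
  have h4 : Real.log 4 ≤ 2 := by
    rw [show (4 : ℝ) = 2 ^ 2 by norm_num, Real.log_pow]
    have := Real.log_two_lt_d9
    push_cast
    linarith
  have h5 : 0 ≤ Real.log (1 / PT.HH z (P x)) := by
    apply Real.log_nonneg
    rw [le_div_iff₀ hH]
    linarith
  linarith

theorem gg_perp {P : E →L[ℂ] E} (h : Prj P) {a : E} (hPa : P a = 0) (x : E) :
    gg a (P x) = a + P ((ss a : ℂ) • x) := by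
  have e : ⟪a, P x⟫_ℂ = 0 := by rw [← h.sa, hPa, inner_zero_left]
  unfold gg PT.AA
  rw [e]
  simp [e]

variable [FiniteDimensional ℂ E] [MeasurableSpace E] [BorelSpace E]

theorem gg_holo {a : E} (ha : ‖a‖ < 1) : DifferentiableOn ℂ (gg a) (ball 0 1) := by
  intro x hx
  exact (hasFDerivAt_gg ha (mem_ball_zero_iff.1 hx).le).differentiableAt.differentiableWithinAt

theorem gg_maps {a : E} (ha : ‖a‖ < 1) : MapsTo (gg a) (ball 0 1) (ball (0 : E) 1) := by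
  intro x hx
  rw [mem_ball_zero_iff] at hx ⊢
  exact gg_lt ha hx

/-- from linear to affine slices -/
theorem aff_core (μ : Measure E) [μ.IsAddHaarMeasure] {m : ℕ} (hm : 1 ≤ m)
    (hdim : Module.finrank ℂ E = m + 1) (N : ℕ) {M : ℕ} (hM : m + 2 ≤ M) :
    ∃ C : ℝ, 0 < C ∧ ∀ f : Fin N → E → ℂ,
      (∀ j, DifferentiableOn ℂ (f j) (ball 0 1)) →
      (∀ j, ∀ z ∈ ball (0 : E) 1, ‖f j z‖ ≤ 1) →
      ∀ P : E →L[ℂ] E, Prj P → ∀ a : E, ‖a‖ < 1 → P a = 0 → ∀ (C' : ℝ), 0 ≤ C' →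
      ∀ H : Fin N → E → ℂ, (∀ j, DifferentiableOn ℂ (H j) (ball 0 1)) →
      (∀ z ∈ ball (0 : E) 1, ∑ j, f j (gg a z) * H j z = 1 ∧
        ∀ j, ‖H j z‖ ≤ C' * (1 + GI (Om (nuE μ m M fun j z => f j (gg a z)) M) P z)) →
      (∀ j, DifferentiableOn ℂ (fun z => H j (gg (-a) z)) (ball 0 1)) ∧
      (∀ z ∈ ball (0 : E) 1, ∑ j, f j z * H j (gg (-a) z) = 1) ∧
      (∀ x : E, ‖a + P x‖ < 1 → ∃ y : E, ‖P y‖ < 1 ∧ gg (-a) (a + P x) = P y ∧
        gg a (P y) = a + P x) ∧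
      ∀ z ∈ ball (0 : E) 1, ∀ x : E, ‖a + P x‖ < 1 → ∀ j,
        ‖H j (gg (-a) z)‖ ≤ C' * (C * (1 + Real.log (1 / PT.HH z (a + P x)))) := by
  obtain ⟨C₀, hC₀, hO⟩ := Om_le μ hm hdim hM N
  refine ⟨1 + C₀, by positivity, ?_⟩
  intro f hf hf1 P hP a ha hPa C' hC' H hH hHs
  have ha' : ‖-a‖ < 1 := by rwa [norm_neg]
  have hinv : ∀ z ∈ ball (0 : E) 1, gg a (gg (-a) z) = z := by
    intro z hz
    have := gg_neg_gg ha' (mem_ball_zero_iff.1 hz).le
    rwa [neg_neg] at this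
  have hpt : ∀ x : E, ‖a + P x‖ < 1 → ∃ y : E, ‖P y‖ < 1 ∧ gg (-a) (a + P x) = P y ∧
      gg a (P y) = a + P x := by
    intro x hx
    have hs := geo_ss_pos ha
    have hsq := geo_ss_sq ha.le
    have horth : ⟪a, P x⟫_ℂ = 0 := by rw [← hP.sa, hPa, inner_zero_left]
    have hpy := norm_add_sq_eq_norm_sq_add_norm_sq_of_inner_eq_zero (𝕜 := ℂ) a (P x) horth
    have hs0 : (ss a : ℂ) ≠ 0 := by exact_mod_cast hs.ne'
    have e1 : gg a (P (((ss a : ℂ))⁻¹ • x)) = a + P x := by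
      rw [gg_perp hP hPa, smul_smul, mul_inv_cancel₀ hs0, one_smul]
    have hn : ‖P (((ss a : ℂ))⁻¹ • x)‖ < 1 := by
      rw [map_smul, norm_smul, norm_inv, Complex.norm_real, Real.norm_of_nonneg hs.le,
        inv_mul_lt_iff₀ hs, mul_one]
      have h1 : ‖P x‖ ^ 2 < ss a ^ 2 := by
        have := norm_nonneg (a + P x)
        nlinarith
      exact lt_of_pow_lt_pow_left₀ 2 hs.le h1
    refine ⟨((ss a : ℂ))⁻¹ • x, hn, ?_, e1⟩
    rw [← e1]
    exact gg_neg_gg ha hn.le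
  have hF1 : ∀ j, ∀ z ∈ ball (0 : E) 1, ‖f j (gg a z)‖ ≤ 1 := fun j z hz =>
    hf1 j _ (gg_maps ha hz)
  have hF : ∀ j, DifferentiableOn ℂ (fun z => f j (gg a z)) (ball 0 1) := fun j =>
    (hf j).comp (gg_holo ha) (gg_maps ha)
  refine ⟨fun j => (hH j).comp (gg_holo ha') (gg_maps ha'), fun z hz => ?_, hpt,
    fun z hz x hx j => ?_⟩
  · have h1 := (hHs _ (gg_maps ha' hz)).1
    rw [hinv z hz] at h1
    exact h1
  · obtain ⟨y, hy, e1, e2⟩ := hpt x hx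
    have hzb := gg_maps ha' hz
    have hzn := mem_ball_zero_iff.1 hzb
    have h1 := (hHs _ hzb).2 j
    have hν : OnB (nuE μ m M fun j z => f j (gg a z)) := nuE_OnB μ hM hF hF1
    have h2 := GI_log hP (Om_cont hν M) (hO _ hF hF1) hzn
    have h3 := log_proj hP hzn hy
    have h4 : PT.HH (gg (-a) z) (P y) = PT.HH z (a + P x) := by
      rw [← e1]
      exact HH_gg ha' (mem_ball_zero_iff.1 hz) hx
    rw [h4] at h3
    have h5 : 0 ≤ Real.log (1 / PT.HH z (a + P x)) := by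
      apply Real.log_nonneg
      rw [le_div_iff₀ (HH_pos (mem_ball_zero_iff.1 hz) hx)]
      have := HH_le_one (mem_ball_zero_iff.1 hz) hx
      linarith
    refine h1.trans (mul_le_mul_of_nonneg_left ?_ hC')
    have h6 := h2.trans (mul_le_mul_of_nonneg_left h3 hC₀.le)
    nlinarith

end Pool.Agent.MPca0fc2.TE
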