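import Mathlib
import Pool.Agent.Lib.MP_ca0fc2_an.TE.G2
import Pool.Agent.Lib.MP_ca0fc2_an.TE.G6

set_option autoImplicit false
set_option linter.unusedSectionVars false

open Metric Set MeasureTheory Filter Topology
open scoped InnerProductSpace ENNReal ContDiff

namespace Pool.Agent.MPca0fc2.TE

open Pool.Agent.MPca0fc2.PT
open Pool.Agent.MPca0fc2.QT
open Pool.Agent.MPca0fc2.TS

variable {E : Type*} [NormedAddCommGroup E] [InnerProductSpace ℂ E]
variable [FiniteDimensional ℂ E] [MeasurableSpace E] [BorelSpace E]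

theorem V0_deriv {D r t : ℝ} (hD : 0 < D) (ht : 0 < 1 - t * r) :
    HasDerivAt (fun t : ℝ => -(4 / D) * (((1 - t * r) / (D + (1 - t * r))) ^ (1 / 4 : ℝ)))
      (r * (1 - t * r) ^ (-(3 / 4) : ℝ) * (D + (1 - t * r)) ^ (-(5 / 4) : ℝ)) t := by
  have hDs : 0 < D + (1 - t * r) := by linarith
  have h1 : HasDerivAt (fun t : ℝ => 1 - t * r) (-r) t := by
    simpa using ((hasDerivAt_id t).mul_const r).const_sub 1
  have h2 : HasDerivAt (fun t : ℝ => D + (1 - t * r)) (-r) t := by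
    simpa using h1.const_add D
  have h3 : HasDerivAt (fun t : ℝ => (1 - t * r) / (D + (1 - t * r)))
      ((-r * (D + (1 - t * r)) - (1 - t * r) * -r) / (D + (1 - t * r)) ^ 2) t :=
    h1.div h2 hDs.ne'
  have h4 : 0 < (1 - t * r) / (D + (1 - t * r)) := by positivity
  have h5 := h3.rpow_const (p := (1 / 4 : ℝ)) (Or.inl h4.ne')
  have h6 := h5.const_mul (-(4 / D))
  refine h6.congr_deriv ?_
  obtain ⟨s, hs⟩ : ∃ s, s = 1 - t * r := ⟨_, rfl⟩
  rw [← hs] at ht hDs ⊢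
  have e0 : (1 / 4 : ℝ) - 1 = -(3 / 4) := by norm_num
  rw [e0, Real.div_rpow ht.le hDs.le]
  have e1 : (D + s) ^ (-(3 / 4) : ℝ) = (D + s) ^ (-(5 / 4) : ℝ) * (D + s) ^ (1 / 2 : ℝ) := by
    rw [← Real.rpow_add hDs]; norm_num
  have e2 : (D + s) ^ (-(5 / 4) : ℝ) * ((D + s) ^ (-(3 / 4) : ℝ) * (D + s) ^ 2) = 1 := by
    rw [← Real.rpow_natCast (D + s) 2, ← Real.rpow_add hDs, ← Real.rpow_add hDs]
    norm_num
  have e3 : (-r * (D + s) - s * -r) = -(r * D) := by ring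
  rw [e3]
  have p1 : 0 < (D + s) ^ (-(3 / 4) : ℝ) := Real.rpow_pos_of_pos hDs _
  have p2 : 0 < (D + s) ^ (-(5 / 4) : ℝ) := Real.rpow_pos_of_pos hDs _
  have e4 : (D + s) ^ (-(5 / 4) : ℝ) = 1 / ((D + s) ^ (-(3 / 4) : ℝ) * (D + s) ^ 2) := by
    rw [eq_div_iff (by positivity)]
    exact e2
  rw [e4]
  field_simp

/-- The one variable integral. -/
theorem one_var (M : ℕ) (hM : 1 ≤ M) : ∃ C : ℝ, 0 < C ∧ ∀ r D : ℝ, 0 ≤ r → r < 1 → 0 < D →
    ∫ t in Icc (0 : ℝ) 1, r * (1 - t ^ 2 * r ^ 2) ^ (-(3 / 4) : ℝ) *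
      (D + (1 - t * r)) ^ (-((M : ℝ) + 1 / 4)) ≤ C * D ^ (-(M : ℝ)) := by
  refine ⟨4, by norm_num, fun r D hr0 hr1 hD => ?_⟩
  have hs : ∀ t ∈ Icc (0 : ℝ) 1, 1 - r ≤ 1 - t * r ∧ 0 < 1 - t * r := by
    intro t ht
    have : t * r ≤ 1 * r := mul_le_mul_of_nonneg_right ht.2 hr0
    exact ⟨by linarith, by linarith⟩
  have hc : ContinuousOn (fun t : ℝ => r * (1 - t * r) ^ (-(3 / 4) : ℝ) *
      (D + (1 - t * r)) ^ (-(5 / 4) : ℝ)) (Icc 0 1) := by
    refine (continuousOn_const.mul (ContinuousOn.rpow_const (by fun_prop) fun t ht =>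
      Or.inl (hs t ht).2.ne')).mul (ContinuousOn.rpow_const (by fun_prop) fun t ht =>
      Or.inl ?_)
    have := (hs t ht).2
    positivity
  have hc2 : ContinuousOn (fun t : ℝ => r * (1 - t ^ 2 * r ^ 2) ^ (-(3 / 4) : ℝ) *
      (D + (1 - t * r)) ^ (-((M : ℝ) + 1 / 4))) (Icc 0 1) := by
    refine (continuousOn_const.mul (ContinuousOn.rpow_const (by fun_prop) fun t ht =>
      Or.inl ?_)).mul (ContinuousOn.rpow_const (by fun_prop) fun t ht => Or.inl ?_)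
    · have h2 := (hs t ht).2
      have h3 : 0 ≤ t * r := mul_nonneg ht.1 hr0
      have e : 1 - t ^ 2 * r ^ 2 = (1 - t * r) * (1 + t * r) := by ring
      rw [e]
      positivity
    · have := (hs t ht).2
      positivity
  have hDM : D ^ (-(M : ℝ)) = D ^ (-((M : ℝ) - 1)) * (1 / D) := by
    have e : -(M : ℝ) = -((M : ℝ) - 1) + (-1) := by ring
    rw [e, Real.rpow_add hD, Real.rpow_neg_one, one_div]
  have hM1 : (0 : ℝ) ≤ (M : ℝ) - 1 := by
    have : (1 : ℝ) ≤ M := by exact_mod_cast hM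
    linarith
  have hpt : ∀ t ∈ Icc (0 : ℝ) 1, r * (1 - t ^ 2 * r ^ 2) ^ (-(3 / 4) : ℝ) *
      (D + (1 - t * r)) ^ (-((M : ℝ) + 1 / 4)) ≤ D ^ (-((M : ℝ) - 1)) *
        (r * (1 - t * r) ^ (-(3 / 4) : ℝ) * (D + (1 - t * r)) ^ (-(5 / 4) : ℝ)) := by
    intro t ht
    have h2 := (hs t ht).2
    have h3 : 0 ≤ t * r := mul_nonneg ht.1 hr0
    have e : 1 - t ^ 2 * r ^ 2 = (1 - t * r) * (1 + t * r) := by ring
    have h4 : 1 - t * r ≤ 1 - t ^ 2 * r ^ 2 := by rw [e]; nlinarith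
    have h5 : (1 - t ^ 2 * r ^ 2) ^ (-(3 / 4) : ℝ) ≤ (1 - t * r) ^ (-(3 / 4) : ℝ) :=
      Real.rpow_le_rpow_of_nonpos h2 h4 (by norm_num)
    have hDs : 0 < D + (1 - t * r) := by linarith
    have h6 : (D + (1 - t * r)) ^ (-((M : ℝ) + 1 / 4)) =
        (D + (1 - t * r)) ^ (-((M : ℝ) - 1)) * (D + (1 - t * r)) ^ (-(5 / 4) : ℝ) := by
      rw [← Real.rpow_add hDs]
      congr 1
      ring
    have h7 : (D + (1 - t * r)) ^ (-((M : ℝ) - 1)) ≤ D ^ (-((M : ℝ) - 1)) :=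
      Real.rpow_le_rpow_of_nonpos hD (by linarith) (by linarith)
    rw [h6]
    calc r * (1 - t ^ 2 * r ^ 2) ^ (-(3 / 4) : ℝ) *
        ((D + (1 - t * r)) ^ (-((M : ℝ) - 1)) * (D + (1 - t * r)) ^ (-(5 / 4) : ℝ))
        ≤ r * (1 - t * r) ^ (-(3 / 4) : ℝ) *
          (D ^ (-((M : ℝ) - 1)) * (D + (1 - t * r)) ^ (-(5 / 4) : ℝ)) := by gcongr
      _ = _ := by ring
  have hint : ∫ t in Icc (0 : ℝ) 1, r * (1 - t * r) ^ (-(3 / 4) : ℝ) *
      (D + (1 - t * r)) ^ (-(5 / 4) : ℝ) ≤ 4 / D := by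
    rw [integral_Icc_eq_integral_Ioc, ← intervalIntegral.integral_of_le zero_le_one]
    rw [intervalIntegral.integral_eq_sub_of_hasDerivAt
      (f := fun t : ℝ => -(4 / D) * (((1 - t * r) / (D + (1 - t * r))) ^ (1 / 4 : ℝ)))]
    · have h2 : 0 ≤ ((1 - 1 * r) / (D + (1 - 1 * r))) ^ (1 / 4 : ℝ) := by
        apply Real.rpow_nonneg
        have : 0 < 1 - 1 * r := by linarith
        positivity
      have h3 : ((1 - 0 * r) / (D + (1 - 0 * r))) ^ (1 / 4 : ℝ) ≤ 1 := by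
        apply Real.rpow_le_one
        · have : 0 < D + (1 - 0 * r) := by linarith
          apply div_nonneg _ this.le
          norm_num
        · rw [div_le_one (by linarith)]
          linarith
        · norm_num
      have h4 : 0 < 4 / D := by positivity
      nlinarith
    · intro t ht
      rw [uIcc_of_le zero_le_one] at ht
      exact V0_deriv hD (hs t ht).2
    · rw [intervalIntegrable_iff_integrableOn_Icc_of_le zero_le_one]
      exact hc.integrableOn_Icc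
  calc ∫ t in Icc (0 : ℝ) 1, r * (1 - t ^ 2 * r ^ 2) ^ (-(3 / 4) : ℝ) *
      (D + (1 - t * r)) ^ (-((M : ℝ) + 1 / 4))
      ≤ ∫ t in Icc (0 : ℝ) 1, D ^ (-((M : ℝ) - 1)) *
        (r * (1 - t * r) ^ (-(3 / 4) : ℝ) * (D + (1 - t * r)) ^ (-(5 / 4) : ℝ)) :=
        setIntegral_mono_on hc2.integrableOn_Icc (hc.integrableOn_Icc.const_mul _)
          measurableSet_Icc hpt
    _ = D ^ (-((M : ℝ) - 1)) * ∫ t in Icc (0 : ℝ) 1,
        r * (1 - t * r) ^ (-(3 / 4) : ℝ) * (D + (1 - t * r)) ^ (-(5 / 4) : ℝ) :=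
        integral_const_mul _ _
    _ ≤ D ^ (-((M : ℝ) - 1)) * (4 / D) := by
        apply mul_le_mul_of_nonneg_left hint
        positivity
    _ = 4 * D ^ (-(M : ℝ)) := by rw [hDM]; ring

/-- Comparison with the energy for `P = 0`. -/
theorem GI_zero {M : ℕ} (hM : 1 ≤ M) : ∃ C : ℝ, 0 < C ∧ ∀ ν : Measure E, OnB ν → ∀ z : E,
    ‖z‖ < 1 → GI (Om ν M) (0 : E →L[ℂ] E) z ≤ C * PP ν M z := by
  obtain ⟨C, hC, hone⟩ := one_var M hM
  refine ⟨3 ^ ((M : ℝ) + 1 / 4) * C, by positivity, fun ν hν z hz => ?_⟩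
  have hfin := hν.fin
  obtain ⟨r, hr⟩ : ∃ r, r = ‖z‖ := ⟨_, rfl⟩
  have hr0 : 0 ≤ r := by rw [hr]; exact norm_nonneg z
  have hr1 : r < 1 := by rw [hr]; exact hz
  have hrr : rr (0 : E →L[ℂ] E) z = r := by
    unfold rr
    simp [hr]
  have hpt : ∀ t : ℝ, pt (0 : E →L[ℂ] E) t z = (t : ℂ) • z := by
    intro t
    unfold pt
    simp
  obtain ⟨D, hD⟩ : ∃ D : E → ℝ, D = fun x => ‖1 - ⟪x, z⟫_ℂ‖ := ⟨_, rfl⟩
  obtain ⟨p, hp⟩ : ∃ p : ℝ, p = (M : ℝ) + 1 / 4 := ⟨_, rfl⟩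
  have hp0 : 0 ≤ p := by rw [hp]; positivity
  have hball : ∀ᵐ x ∂ν, x ∈ ball (0 : E) 1 := by
    rw [ae_iff]
    exact hν.supp
  have hs : ∀ t ∈ Icc (0 : ℝ) 1, 1 - r ≤ 1 - t * r ∧ 0 < 1 - t * r ∧
      1 - t * r ≤ 1 - t ^ 2 * r ^ 2 := by
    intro t ht
    have h2 : t * r ≤ 1 * r := mul_le_mul_of_nonneg_right ht.2 hr0
    have h3 : 0 ≤ t * r := mul_nonneg ht.1 hr0
    refine ⟨by linarith, by linarith, ?_⟩
    have e : 1 - t ^ 2 * r ^ 2 = (1 - t * r) * (1 + t * r) := by ring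
    rw [e]; nlinarith
  obtain ⟨F, hF⟩ : ∃ F : ℝ → E → ℝ, F = fun t x =>
      r * (1 - t ^ 2 * r ^ 2) ^ (-(3 / 4) : ℝ) * (D x + (1 - t * r)) ^ (-p) := ⟨_, rfl⟩
  have hDm : Measurable D := by
    rw [hD]
    have hc : Continuous fun x : E => ‖1 - ⟪x, z⟫_ℂ‖ := by fun_prop
    exact hc.measurable
  have hFm : Measurable (Function.uncurry F) := by
    rw [hF]
    unfold Function.uncurry
    refine (measurable_const.mul ((Measurable.pow_const ?_ _))).mul (Measurable.pow_const ?_ _)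
    · exact measurable_const.sub ((measurable_fst.pow_const 2).mul_const _)
    · exact (hDm.comp measurable_snd).add (measurable_const.sub (measurable_fst.mul_const _))
  have hFI : Integrable (Function.uncurry F) ((volume.restrict (Icc (0 : ℝ) 1)).prod ν) := by
    refine Integrable.of_bound hFm.aestronglyMeasurable
      (r * (1 - r) ^ (-(3 / 4) : ℝ) * (1 - r) ^ (-p)) ?_
    have hmem : ∀ᵐ q ∂((volume.restrict (Icc (0 : ℝ) 1)).prod ν), q.1 ∈ Icc (0 : ℝ) 1 :=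
      Measure.quasiMeasurePreserving_fst.ae (ae_restrict_mem measurableSet_Icc)
    filter_upwards [hmem] with q hq
    obtain ⟨a1, a2, a3⟩ := hs q.1 hq
    have hDn : 0 ≤ D q.2 := by rw [hD]; exact norm_nonneg _
    have hr' : 0 < 1 - r := by linarith
    have b1 : (1 - q.1 ^ 2 * r ^ 2) ^ (-(3 / 4) : ℝ) ≤ (1 - r) ^ (-(3 / 4) : ℝ) :=
      Real.rpow_le_rpow_of_nonpos hr' (by linarith) (by norm_num)
    have b2 : (D q.2 + (1 - q.1 * r)) ^ (-p) ≤ (1 - r) ^ (-p) :=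
      Real.rpow_le_rpow_of_nonpos hr' (by linarith) (by linarith)
    have b3 : 0 ≤ (1 - q.1 ^ 2 * r ^ 2) ^ (-(3 / 4) : ℝ) := Real.rpow_nonneg (by linarith) _
    have b4 : 0 ≤ (D q.2 + (1 - q.1 * r)) ^ (-p) := Real.rpow_nonneg (by linarith) _
    rw [hF]
    show ‖r * (1 - q.1 ^ 2 * r ^ 2) ^ (-(3 / 4) : ℝ) * (D q.2 + (1 - q.1 * r)) ^ (-p)‖ ≤ _
    rw [Real.norm_of_nonneg (by positivity)]
    gcongr
  have hpw : ∀ t ∈ Icc (0 : ℝ) 1,
      Om ν M (pt (0 : E →L[ℂ] E) t z) * (r / (1 - t ^ 2 * r ^ 2)) ≤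
        3 ^ p * ∫ x, F t x ∂ν := by
    intro t ht
    obtain ⟨a1, a2, a3⟩ := hs t ht
    have hd : 0 < 1 - t ^ 2 * r ^ 2 := by linarith
    have hn : ‖(t : ℂ) • z‖ = t * r := by
      rw [norm_smul, Complex.norm_real, Real.norm_of_nonneg ht.1, hr]
    have hn1 : ‖(t : ℂ) • z‖ < 1 := by rw [hn]; linarith
    have e1 : Om ν M (pt (0 : E →L[ℂ] E) t z) * (r / (1 - t ^ 2 * r ^ 2)) =
        r * (1 - t ^ 2 * r ^ 2) ^ (-(3 / 4) : ℝ) * PP ν p ((t : ℂ) • z) := by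
      rw [hpt]
      unfold Om
      rw [hn, ← hp]
      have e2 : 1 - (t * r) ^ 2 = 1 - t ^ 2 * r ^ 2 := by ring
      rw [e2]
      have e3 : (1 - t ^ 2 * r ^ 2) ^ (1 / 4 : ℝ) / (1 - t ^ 2 * r ^ 2) =
          (1 - t ^ 2 * r ^ 2) ^ (-(3 / 4) : ℝ) := by
        have e4 : (-(3 / 4) : ℝ) = 1 / 4 - 1 := by norm_num
        rw [e4, Real.rpow_sub hd, Real.rpow_one]
      rw [← e3]
      ring
    rw [e1]
    have h3 : PP ν p ((t : ℂ) • z) ≤ 3 ^ p * ∫ x, (D x + (1 - t * r)) ^ (-p) ∂ν := by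
      unfold PP
      rw [← integral_const_mul]
      have hFt : Integrable (fun x => (D x + (1 - t * r)) ^ (-p)) ν := by
        refine Integrable.of_bound ((hDm.add measurable_const).pow_const _).aestronglyMeasurable
          ((1 - r) ^ (-p)) (Eventually.of_forall fun x => ?_)
        have hDn : 0 ≤ D x := by rw [hD]; exact norm_nonneg _
        rw [Real.norm_of_nonneg (Real.rpow_nonneg (by linarith) _)]
        exact Real.rpow_le_rpow_of_nonpos (by linarith) (by linarith) (by linarith)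
      refine integral_mono_ae (PP_int hν hp0 hn1) (hFt.const_mul _) ?_
      filter_upwards [hball] with x hx
      rw [mem_ball_zero_iff] at hx
      have hDn : 0 ≤ D x := by rw [hD]; exact norm_nonneg _
      have hip : ‖⟪x, z⟫_ℂ‖ ≤ r := by
        refine (norm_inner_le_norm (𝕜 := ℂ) x z).trans ?_
        rw [← hr]
        nlinarith [norm_nonneg x]
      have e5 : ⟪x, (t : ℂ) • z⟫_ℂ = (t : ℂ) * ⟪x, z⟫_ℂ := inner_smul_right _ _ _
      have g1 : 1 - t * r ≤ ‖1 - ⟪x, (t : ℂ) • z⟫_ℂ‖ := by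
        have h4 := norm_sub_norm_le (1 : ℂ) ⟪x, (t : ℂ) • z⟫_ℂ
        rw [norm_one, e5, norm_mul, Complex.norm_real, Real.norm_of_nonneg ht.1] at h4
        rw [e5]
        nlinarith [ht.1]
      have g2 : D x ≤ 2 * ‖1 - ⟪x, (t : ℂ) • z⟫_ℂ‖ := by
        have h5 : 1 - ⟪x, z⟫_ℂ = (1 - ⟪x, (t : ℂ) • z⟫_ℂ) -
            ((1 - t : ℝ) : ℂ) * ⟪x, z⟫_ℂ := by
          rw [e5]; push_cast; ring
        have h6 : D x ≤ ‖1 - ⟪x, (t : ℂ) • z⟫_ℂ‖ + (1 - t) * ‖⟪x, z⟫_ℂ‖ := by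
          rw [hD]
          show ‖1 - ⟪x, z⟫_ℂ‖ ≤ _
          rw [h5]
          refine (norm_sub_le _ _).trans (le_of_eq ?_)
          rw [norm_mul, Complex.norm_real, Real.norm_of_nonneg (by linarith [ht.2])]
        nlinarith [ht.1, ht.2, norm_nonneg ⟪x, z⟫_ℂ]
      have g3 : (D x + (1 - t * r)) / 3 ≤ ‖1 - ⟪x, (t : ℂ) • z⟫_ℂ‖ := by linarith
      calc ‖1 - ⟪x, (t : ℂ) • z⟫_ℂ‖ ^ (-p) ≤ ((D x + (1 - t * r)) / 3) ^ (-p) :=
            Real.rpow_le_rpow_of_nonpos (by linarith) g3 (by linarith)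
        _ = 3 ^ p * (D x + (1 - t * r)) ^ (-p) := by
            rw [Real.div_rpow (by linarith) (by norm_num), Real.rpow_neg (by norm_num : (0:ℝ) ≤ 3),
              div_inv_eq_mul, mul_comm]
    have h4 : 0 ≤ r * (1 - t ^ 2 * r ^ 2) ^ (-(3 / 4) : ℝ) := by positivity
    calc r * (1 - t ^ 2 * r ^ 2) ^ (-(3 / 4) : ℝ) * PP ν p ((t : ℂ) • z)
        ≤ r * (1 - t ^ 2 * r ^ 2) ^ (-(3 / 4) : ℝ) *
          (3 ^ p * ∫ x, (D x + (1 - t * r)) ^ (-p) ∂ν) := mul_le_mul_of_nonneg_left h3 h4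
      _ = 3 ^ p * ∫ x, F t x ∂ν := by
          rw [hF]
          simp only [integral_const_mul]
          ring
  have hP0 : Prj (0 : E →L[ℂ] E) := ⟨fun _ => rfl, fun _ _ => by simp⟩
  have hcont : ContinuousOn (fun t : ℝ => Om ν M (pt (0 : E →L[ℂ] E) t z) *
      (r / (1 - t ^ 2 * r ^ 2))) (Icc 0 1) := by
    refine ((Om_cont hν M).comp ?_ fun t ht => ?_).mul
      (continuousOn_const.div (by fun_prop) fun t ht => ?_)
    · have : (fun t : ℝ => pt (0 : E →L[ℂ] E) t z) = fun t : ℝ => (t : ℂ) • z := by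
        funext t; exact hpt t
      rw [this]
      exact (Complex.continuous_ofReal.smul continuous_const).continuousOn
    · rw [mem_ball_zero_iff, hpt, norm_smul, Complex.norm_real, Real.norm_of_nonneg ht.1, ← hr]
      have := (hs t ht).2.1
      linarith
    · obtain ⟨a1, a2, a3⟩ := hs t ht
      linarith
  have hM' : ((M : ℝ) + 1 / 4) = p := hp.symm
  calc GI (Om ν M) (0 : E →L[ℂ] E) z
      = ∫ t in Icc (0 : ℝ) 1, Om ν M (pt (0 : E →L[ℂ] E) t z) * (r / (1 - t ^ 2 * r ^ 2)) := by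
        unfold GI
        rw [hrr]
    _ ≤ ∫ t in Icc (0 : ℝ) 1, 3 ^ p * ∫ x, F t x ∂ν :=
        setIntegral_mono_on hcont.integrableOn_Icc (hFI.integral_prod_left.const_mul _)
          measurableSet_Icc hpw
    _ = 3 ^ p * ∫ x, (∫ t in Icc (0 : ℝ) 1, F t x) ∂ν := by
        rw [integral_const_mul, integral_integral_swap hFI]
    _ ≤ 3 ^ p * ∫ x, C * ‖1 - ⟪x, z⟫_ℂ‖ ^ (-(M : ℝ)) ∂ν := by
        refine mul_le_mul_of_nonneg_left ?_ (by positivity)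
        refine integral_mono_ae hFI.integral_prod_right
          ((PP_int hν (Nat.cast_nonneg M) hz).const_mul _) ?_
        filter_upwards [hball] with x hx
        rw [mem_ball_zero_iff] at hx
        have hDp : 0 < D x := by
          rw [hD]
          have h4 := norm_sub_norm_le (1 : ℂ) ⟪x, z⟫_ℂ
          rw [norm_one] at h4
          have h5 : ‖⟪x, z⟫_ℂ‖ ≤ r := by
            refine (norm_inner_le_norm (𝕜 := ℂ) x z).trans ?_
            rw [← hr]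
            nlinarith [norm_nonneg x]
          show 0 < ‖1 - ⟪x, z⟫_ℂ‖
          linarith
        have h6 := hone r (D x) hr0 hr1 hDp
        rw [hF]
        rw [hM'] at h6
        have e : D x = ‖1 - ⟪x, z⟫_ℂ‖ := by rw [hD]
        rw [← e]
        exact h6
    _ = 3 ^ ((M : ℝ) + 1 / 4) * C * PP ν M z := by
        rw [integral_const_mul, hp]
        unfold PP
        ring

end Pool.Agent.MPca0fc2.TE
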